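import Pool.Agent.R3D.Defs
import Pool.Agent.RB75.H1

/-! Module R3D-H4: explicit integrals for ellipsoids, `n = 2`, and the constants `κ_1, κ_2`. -/

namespace Pool.Agent.R3D
open MeasureTheory Set Filter Topology Pool.Agent.RB75

private theorem h4_int {lam : ℝ} (hl : 0 < lam) :
    ∫ T in Ioi (0 : ℝ), (1 + (lam⁻¹ * T) ^ 2)⁻¹ = lam * (Real.pi / 2) := by
  have h := MeasureTheory.integral_comp_mul_left_Ioi (fun x : ℝ => (1 + x ^ 2)⁻¹) 0 (inv_pos.2 hl)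
  rw [h, mul_zero, integral_Ioi_inv_one_add_sq, inv_inv, smul_eq_mul]
  simp

theorem H4a {R lam : ℝ} (hl : 0 < lam) :
    ∫ T in Ioi (0 : ℝ), (R ^ 2 - (R * (T / √(lam ^ 2 + T ^ 2))) ^ 2) = R ^ 2 * lam * (Real.pi / 2) := by
  have h1 : ∀ T : ℝ, R ^ 2 - (R * (T / √(lam ^ 2 + T ^ 2))) ^ 2 = R ^ 2 * (1 + (lam⁻¹ * T) ^ 2)⁻¹ := by
    intro T
    have h2 : 0 < lam ^ 2 + T ^ 2 := by positivity
    rw [mul_pow, div_pow, Real.sq_sqrt h2.le]
    field_simp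
    ring
  simp_rw [h1]
  rw [integral_const_mul, h4_int hl]
  ring

private theorem h4_alg {w z c : ℝ} (hw : 0 < w) (hwz : w ^ 2 = 1 - z ^ 2) :
    1 / (1 + (c * (z / w)) ^ 2) * (c * ((1 * w - z * (-(2 * z) / (2 * w))) / w ^ 2)) =
      c / (w * (1 + (c ^ 2 - 1) * z ^ 2)) := by
  have e1 : 1 + (c ^ 2 - 1) * z ^ 2 = w ^ 2 + c ^ 2 * z ^ 2 := by rw [hwz]; ring
  have e2 : 0 < w ^ 2 + c ^ 2 * z ^ 2 := by positivity
  have e3 : (1 * w - z * (-(2 * z) / (2 * w))) / w ^ 2 = 1 / w ^ 3 := by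
    field_simp
    linarith
  have e4 : 1 + (c * (z / w)) ^ 2 = (w ^ 2 + c ^ 2 * z ^ 2) / w ^ 2 := by
    field_simp
  rw [e1, e3, e4]
  field_simp

private theorem h4_deriv {c z : ℝ} (hz : z ∈ Ioo (0 : ℝ) 1) :
    HasDerivAt (fun z : ℝ => c * Real.arctan (c * (z / √(1 - z ^ 2))) - Real.arcsin z)
      (c * (c / (√(1 - z ^ 2) * (1 + (c ^ 2 - 1) * z ^ 2))) - 1 / √(1 - z ^ 2)) z := by
  have h0 : 0 < 1 - z ^ 2 := by nlinarith [hz.1, hz.2]
  have h1 : 0 < √(1 - z ^ 2) := Real.sqrt_pos.2 h0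
  have hs : √(1 - z ^ 2) ^ 2 = 1 - z ^ 2 := Real.sq_sqrt h0.le
  have d1 : HasDerivAt (fun z : ℝ => 1 - z ^ 2) (-(2 * z)) z := by
    have := ((hasDerivAt_id z).pow 2).const_sub 1
    simpa using this
  have d2 : HasDerivAt (fun z : ℝ => √(1 - z ^ 2)) (-(2 * z) / (2 * √(1 - z ^ 2))) z := d1.sqrt h0.ne'
  have d3 : HasDerivAt (fun z : ℝ => z / √(1 - z ^ 2))
      ((1 * √(1 - z ^ 2) - z * (-(2 * z) / (2 * √(1 - z ^ 2)))) / √(1 - z ^ 2) ^ 2) z :=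
    (hasDerivAt_id z).div d2 h1.ne'
  have d4 := ((d3.const_mul c).arctan).const_mul c
  have d5 := d4.sub (Real.hasDerivAt_arcsin (x := z) (by linarith [hz.1]) (by linarith [hz.2]))
  refine d5.congr_deriv ?_
  rw [h4_alg h1 hs]

private theorem h4_alg2 {w z t : ℝ} (hw : 0 < w) (hwz : w ^ 2 = 1 - z ^ 2) :
    (1 + t ^ 2) / (w * (1 + t ^ 2 * z ^ 2)) - 1 / w = t ^ 2 * w / (1 + t ^ 2 * z ^ 2) := by
  have e1 : 0 < 1 + t ^ 2 * z ^ 2 := by positivity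
  field_simp
  rw [hwz]
  ring

private theorem h4_eq {t z : ℝ} (ht : 0 < t) (hz : z ∈ Ioo (0 : ℝ) 1) :
    (1 - sg (1 / (t * z)) ^ 2) * √(1 - z ^ 2) / z ^ 2 = t ^ 2 * √(1 - z ^ 2) / (1 + t ^ 2 * z ^ 2) := by
  have hz0 := hz.1
  have h1 : 0 < 1 + (1 / (t * z)) ^ 2 := by positivity
  rw [sg, div_pow, Real.sq_sqrt h1.le]
  field_simp
  ring

private theorem h4_cont (t : ℝ) : Continuous fun z : ℝ => t ^ 2 * √(1 - z ^ 2) / (1 + t ^ 2 * z ^ 2) := by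
  refine Continuous.div (by fun_prop) (by fun_prop) fun z => ?_
  positivity

private theorem h4_ftc {t : ℝ} (ht : 0 < t) :
    ∫ z in (0 : ℝ)..1, t ^ 2 * √(1 - z ^ 2) / (1 + t ^ 2 * z ^ 2) =
      (√(1 + t ^ 2) * (Real.pi / 2) - Real.pi / 2) - 0 := by
  have hc : √(1 + t ^ 2) ^ 2 = 1 + t ^ 2 := Real.sq_sqrt (by positivity)
  have hc0 : 0 < √(1 + t ^ 2) := Real.sqrt_pos.2 (by positivity)
  refine intervalIntegral.integral_eq_sub_of_hasDerivAt_of_tendsto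
    (f := fun z : ℝ => √(1 + t ^ 2) * Real.arctan (√(1 + t ^ 2) * (z / √(1 - z ^ 2))) - Real.arcsin z)
    one_pos ?_ ((h4_cont t).intervalIntegrable _ _) ?_ ?_
  · intro z hz
    refine (h4_deriv (c := √(1 + t ^ 2)) hz).congr_deriv ?_
    have h0 : 0 < 1 - z ^ 2 := by nlinarith [hz.1, hz.2]
    have h1 : 0 < √(1 - z ^ 2) := Real.sqrt_pos.2 h0
    have hs : √(1 - z ^ 2) ^ 2 = 1 - z ^ 2 := Real.sq_sqrt h0.le
    rw [← h4_alg2 h1 hs, ← mul_div_assoc, ← sq, hc, add_sub_cancel_left]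
  · have h1 : ContinuousAt (fun z : ℝ => √(1 + t ^ 2) * Real.arctan (√(1 + t ^ 2) * (z / √(1 - z ^ 2))) -
        Real.arcsin z) 0 := by
      refine ContinuousAt.sub (continuousAt_const.mul ?_) Real.continuous_arcsin.continuousAt
      refine Real.continuous_arctan.continuousAt.comp (continuousAt_const.mul ?_)
      refine ContinuousAt.div continuousAt_id (by fun_prop) ?_
      simp
    have h2 := h1.tendsto
    simp only [zero_div, mul_zero, Real.arctan_zero, Real.arcsin_zero, sub_zero] at h2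
    exact h2.mono_left nhdsWithin_le_nhds
  · have h1 : Tendsto (fun z : ℝ => √(1 - z ^ 2)) (𝓝[<] 1) (𝓝[>] 0) := by
      refine tendsto_nhdsWithin_iff.2 ⟨?_, ?_⟩
      · have : Tendsto (fun z : ℝ => √(1 - z ^ 2)) (𝓝 1) (𝓝 (√(1 - 1 ^ 2))) :=
          Continuous.tendsto (by fun_prop) 1
        rw [show √(1 - (1 : ℝ) ^ 2) = 0 by simp] at this
        exact this.mono_left nhdsWithin_le_nhds
      · have h3 : ∀ᶠ z : ℝ in 𝓝[<] 1, z ∈ Ioo (0 : ℝ) 1 := Ioo_mem_nhdsLT one_pos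
        filter_upwards [h3] with z hz
        exact Real.sqrt_pos.2 (by nlinarith [hz.1, hz.2])
    have h2 : Tendsto (fun z : ℝ => z / √(1 - z ^ 2)) (𝓝[<] 1) atTop := by
      have h4 : Tendsto (fun z : ℝ => z) (𝓝[<] 1) (𝓝 1) := tendsto_id.mono_left nhdsWithin_le_nhds
      exact h4.pos_mul_atTop one_pos (tendsto_inv_nhdsGT_zero.comp h1)
    have h5 : Tendsto (fun z : ℝ => Real.arctan (√(1 + t ^ 2) * (z / √(1 - z ^ 2)))) (𝓝[<] 1)
        (𝓝 (Real.pi / 2)) :=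
      (Real.tendsto_arctan_atTop.mono_right nhdsWithin_le_nhds).comp (h2.const_mul_atTop hc0)
    have h6 : Tendsto Real.arcsin (𝓝[<] 1) (𝓝 (Real.pi / 2)) := by
      rw [← Real.arcsin_one]
      exact Real.continuous_arcsin.continuousAt.tendsto.mono_left nhdsWithin_le_nhds
    exact (h5.const_mul _).sub h6

theorem ball_identity2 {t : ℝ} (ht : 0 < t) :
    Real.pi / 2 + ∫ z in Ioo (0 : ℝ) 1, (1 - sg (1 / (t * z)) ^ 2) * √(1 - z ^ 2) / z ^ 2 =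
      Real.pi / 2 * √(1 + t ^ 2) := by
  rw [setIntegral_congr_fun measurableSet_Ioo (fun z hz => h4_eq ht hz), ← integral_Ioc_eq_integral_Ioo,
    ← intervalIntegral.integral_of_le zero_le_one, h4_ftc ht]
  ring

theorem kap_one : kap 1 = 2 := by
  rw [kap, EuclideanSpace.volume_closedBall]
  have h : Real.Gamma (1 / 2 + 1) = √Real.pi / 2 := by
    rw [Real.Gamma_add_one (by norm_num), Real.Gamma_one_half_eq]
    ring
  have h1 : 0 < √Real.pi := Real.sqrt_pos.2 Real.pi_pos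
  simp only [Fintype.card_fin, ENNReal.ofReal_one, one_mul, Nat.cast_one, pow_one, h]
  rw [ENNReal.toReal_ofReal (by positivity)]
  field_simp

theorem kap_two : kap 2 = Real.pi := by
  rw [kap, EuclideanSpace.volume_closedBall]
  have h : Real.Gamma (((2 : ℕ) : ℝ) / 2 + 1) = 1 := by
    rw [show (((2 : ℕ) : ℝ) / 2 + 1) = ((1 : ℕ) : ℝ) + 1 by norm_num, Real.Gamma_nat_eq_factorial]
    simp
  simp only [Fintype.card_fin, ENNReal.ofReal_one, one_pow, one_mul, h, div_one]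
  rw [Real.sq_sqrt Real.pi_pos.le, ENNReal.toReal_ofReal Real.pi_pos.le]

end Pool.Agent.R3D
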