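import Pool.Agent.R3D.FIN
import Pool.Agent.R3D.H4
import Pool.Agent.RB75.Final

/-! Module R3D-ALL: the theorem for all dimensions `n + 1 ≥ 3`. -/

namespace Pool.Agent.R3D
open MeasureTheory Set Filter Topology Pool.Agent.RB75

/-- **Main theorem.** `K` a convex body of revolution in `ℝ^(n+1)`, `n ≥ 2`, `2 ≤ j ≤ n`. -/
theorem main_result_all (n : ℕ) (hn : 2 ≤ n) (j : ℕ) (hj : 2 ≤ j) (hjn : j ≤ n) (K : Set (E (n + 1)))
    (hK : IsRevBody K) :
    ((∃ L M, IsProjBody j K L ∧ IsProjBody j L M ∧ Homothetic K M) ↔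
      (IsBall K ∨ (j = n ∧ (IsEllRev K ∨ ∃ r s, IsCyl K r s)))) ∧
    ((∃ L, IsProjBody j K L ∧ Homothetic K L) ↔
      (IsBall K ∨ (j = n ∧ ∃ r s, kap n * r ^ 2 = 2 * kap (n - 1) * s ^ 2 ∧ IsCyl K r s))) := by
  rcases eq_or_lt_of_le hn with h2 | h3
  · subst h2
    obtain rfl : j = 2 := le_antisymm hjn hj
    obtain ⟨hA, hB⟩ := main_result3 K hK
    refine ⟨?_, ?_⟩
    · rw [show (∃ L M : Set (E (2 + 1)), IsProjBody 2 K L ∧ IsProjBody 2 L M ∧ Homothetic K M) ↔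
        (IsEllRev K ∨ ∃ r s, IsCyl K r s) from hA]
      constructor
      · intro h; exact Or.inr ⟨rfl, h⟩
      · rintro (h | ⟨-, h⟩)
        · exact Or.inl (ball_isEllRev h)
        · exact h
    · rw [show (∃ L : Set (E (2 + 1)), IsProjBody 2 K L ∧ Homothetic K L) ↔
        (IsBall K ∨ ∃ r s, Real.pi * r ^ 2 = 4 * s ^ 2 ∧ IsCyl K r s) from hB]
      have e : ∀ r s : ℝ, (kap 2 * r ^ 2 = 2 * kap (2 - 1) * s ^ 2) ↔ (Real.pi * r ^ 2 = 4 * s ^ 2) := by
        intro r s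
        rw [kap_two, show (2 - 1 : ℕ) = 1 from rfl, kap_one]
        norm_num
      constructor
      · rintro (h | ⟨r, s, h, h'⟩)
        · exact Or.inl h
        · exact Or.inr ⟨rfl, r, s, (e r s).2 h, h'⟩
      · rintro (h | ⟨-, r, s, h, h'⟩)
        · exact Or.inl h
        · exact Or.inr ⟨r, s, (e r s).1 h, h'⟩
  · exact main_result n h3 j hj hjn K hK

end Pool.Agent.R3D
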