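import Pool.Agent.R3D.Defs

/-! Module R3D-B1: elementary properties of `rho` and `zed` for `Dat v`. -/

namespace Pool.Agent.R3D
open MeasureTheory Set Filter Topology Pool.Agent.RB75

private theorem b1_prim_cont {f : ℝ → ℝ} (hf : IntegrableOn f (Ioi 0)) :
    ContinuousOn (fun a : ℝ => ∫ x in (0 : ℝ)..a, f x) (Ici 0) := by
  have hg : Integrable ((Ioi (0 : ℝ)).indicator f) := hf.integrable_indicator measurableSet_Ioi
  have hc : Continuous fun a : ℝ => ∫ x in (0 : ℝ)..a, (Ioi (0 : ℝ)).indicator f x :=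
    intervalIntegral.continuous_primitive (fun a b => hg.intervalIntegrable) 0
  refine hc.continuousOn.congr fun a ha => ?_
  have ha' : (0 : ℝ) ≤ a := ha
  show ∫ x in (0 : ℝ)..a, f x = ∫ x in (0 : ℝ)..a, (Ioi (0 : ℝ)).indicator f x
  rw [intervalIntegral.integral_of_le ha', intervalIntegral.integral_of_le ha']
  exact setIntegral_congr_fun measurableSet_Ioc fun x hx => (indicator_of_mem hx.1 f).symm

private theorem b1_ii {f : ℝ → ℝ} (hf : IntegrableOn f (Ioi 0)) {a b : ℝ} (ha : 0 ≤ a)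
    (hb : 0 ≤ b) : IntervalIntegrable f volume a b := by
  rw [intervalIntegrable_iff]
  refine hf.mono_set fun x hx => ?_
  rw [mem_uIoc] at hx
  rcases hx with hx | hx
  · exact lt_of_le_of_lt ha hx.1
  · exact lt_of_le_of_lt hb hx.1

theorem Dat.ii {v : ℝ → ℝ} (h : Dat v) {a b : ℝ} (ha : 0 ≤ a) (hb : 0 ≤ b) : IntervalIntegrable v volume a b := by
  exact b1_ii h.int0 ha hb

theorem Dat.ii1 {v : ℝ → ℝ} (h : Dat v) {a b : ℝ} (ha : 0 ≤ a) (hb : 0 ≤ b) :
    IntervalIntegrable (fun x => x * v x) volume a b := by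
  exact b1_ii h.int1 ha hb

theorem Dat.rho_sub {v : ℝ → ℝ} (h : Dat v) {a b : ℝ} (ha : 0 ≤ a) (hab : a ≤ b) :
    rho v a - rho v b = ∫ x in a..b, x * v x := by
  unfold rho
  exact intervalIntegral.integral_Ioi_sub_Ioi (h.int1.mono_set (Ioi_subset_Ioi ha)) hab

theorem Dat.rho_nn {v : ℝ → ℝ} (h : Dat v) {a : ℝ} (ha : 0 ≤ a) : 0 ≤ rho v a := by
  unfold rho
  refine setIntegral_nonneg measurableSet_Ioi fun x hx => ?_
  have hx' : a < x := hx
  exact mul_nonneg (by linarith) (h.nn x)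

theorem Dat.rho_anti {v : ℝ → ℝ} (h : Dat v) : AntitoneOn (rho v) (Ici 0) := by
  intro a ha b _ hab
  have h1 := h.rho_sub (show (0 : ℝ) ≤ a from ha) hab
  have h2 : 0 ≤ ∫ x in a..b, x * v x := by
    refine intervalIntegral.integral_nonneg hab fun x hx => ?_
    have h3 : (0 : ℝ) ≤ a := ha
    exact mul_nonneg (le_trans h3 hx.1) (h.nn x)
  linarith

theorem Dat.rho_le {v : ℝ → ℝ} (h : Dat v) {a : ℝ} (ha : 0 ≤ a) : rho v a ≤ rho v 0 := by
  exact h.rho_anti (show (0 : ℝ) ∈ Ici (0 : ℝ) from mem_Ici.2 le_rfl) (show a ∈ Ici (0 : ℝ) from ha) ha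

theorem Dat.rho_cont {v : ℝ → ℝ} (h : Dat v) : ContinuousOn (rho v) (Ici 0) := by
  have h1 := b1_prim_cont h.int1
  have h2 : ContinuousOn (fun a : ℝ => rho v 0 - ∫ x in (0 : ℝ)..a, x * v x) (Ici 0) :=
    continuousOn_const.sub h1
  refine h2.congr fun a ha => ?_
  have h3 := h.rho_sub le_rfl (show (0 : ℝ) ≤ a from ha)
  show rho v a = rho v 0 - ∫ x in (0 : ℝ)..a, x * v x
  linarith

theorem Dat.rho_lim {v : ℝ → ℝ} (h : Dat v) : Tendsto (rho v) atTop (𝓝 0) := by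
  have h1 : Tendsto (fun a : ℝ => ∫ x in (0 : ℝ)..a, x * v x) atTop (𝓝 (rho v 0)) :=
    intervalIntegral_tendsto_integral_Ioi 0 h.int1 tendsto_id
  have h2 : Tendsto (fun a : ℝ => rho v 0 - ∫ x in (0 : ℝ)..a, x * v x) atTop
      (𝓝 (rho v 0 - rho v 0)) := tendsto_const_nhds.sub h1
  rw [sub_self] at h2
  refine h2.congr' ?_
  filter_upwards [eventually_ge_atTop (0 : ℝ)] with a ha
  have h3 := h.rho_sub le_rfl ha
  linarith

theorem Dat.rho_pos {v : ℝ → ℝ} (h : Dat v) : ∃ s₀, 0 < s₀ ∧ ∀ s, 0 ≤ s → s ≤ s₀ → 0 < rho v s := by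
  have h0 : 0 < rho v 0 := by
    refine lt_of_le_of_ne (h.rho_nn le_rfl) fun heq => ?_
    have h1 : ∫ x in Ioi (0 : ℝ), x * v x = 0 := heq.symm
    have h2 : 0 ≤ᵐ[volume.restrict (Ioi (0 : ℝ))] fun x => x * v x := by
      filter_upwards [ae_restrict_mem measurableSet_Ioi] with x hx
      have hx' : (0 : ℝ) < x := hx
      exact mul_nonneg hx'.le (h.nn x)
    rw [setIntegral_eq_zero_iff_of_nonneg_ae h2 h.int1] at h1
    have h3 : v =ᵐ[volume.restrict (Ioi (0 : ℝ))] 0 := by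
      filter_upwards [h1, ae_restrict_mem measurableSet_Ioi] with x hx hx0
      have hx' : (0 : ℝ) < x := hx0
      have hx2 : x * v x = 0 := hx
      exact (mul_eq_zero.1 hx2).resolve_left hx'.ne'
    have h4 := integral_eq_zero_of_ae h3
    have h5 := h.pos
    rw [h4] at h5
    exact lt_irrefl _ h5
  have h1 : ContinuousWithinAt (rho v) (Ici 0) 0 := h.rho_cont 0 (le_refl (0 : ℝ))
  have h2 : ∀ᶠ s in 𝓝[≥] (0 : ℝ), 0 < rho v s := h1.eventually (lt_mem_nhds h0)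
  obtain ⟨u, hu, hsub⟩ := mem_nhdsGE_iff_exists_Icc_subset.1 h2
  exact ⟨u, hu, fun s hs0 hsu => hsub ⟨hs0, hsu⟩⟩

theorem zed_zero (v : ℝ → ℝ) : zed v 0 = 0 := by
  simp [zed]

theorem Dat.zed_sub {v : ℝ → ℝ} (h : Dat v) {a b : ℝ} (ha : 0 ≤ a) (hab : a ≤ b) :
    zed v b - zed v a = ∫ x in a..b, v x := by
  unfold zed
  rw [intervalIntegral.integral_interval_sub_left (h.ii le_rfl (ha.trans hab)) (h.ii le_rfl ha)]

theorem Dat.zed_mono {v : ℝ → ℝ} (h : Dat v) : MonotoneOn (zed v) (Ici 0) := by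
  intro a ha b _ hab
  have h1 := h.zed_sub (show (0 : ℝ) ≤ a from ha) hab
  have h2 : 0 ≤ ∫ x in a..b, v x := intervalIntegral.integral_nonneg hab fun x _ => h.nn x
  linarith

theorem Dat.zed_nn {v : ℝ → ℝ} (h : Dat v) {a : ℝ} (ha : 0 ≤ a) : 0 ≤ zed v a := by
  unfold zed
  exact intervalIntegral.integral_nonneg ha fun x _ => h.nn x

theorem Dat.zed_le {v : ℝ → ℝ} (h : Dat v) {a : ℝ} (ha : 0 ≤ a) : zed v a ≤ ∫ x in Ioi (0 : ℝ), v x := by
  unfold zed
  rw [intervalIntegral.integral_of_le ha]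
  exact setIntegral_mono_set h.int0 (Filter.Eventually.of_forall fun x => h.nn x)
    (LE.le.eventuallyLE Ioc_subset_Ioi_self)

theorem Dat.zed_cont {v : ℝ → ℝ} (h : Dat v) : ContinuousOn (zed v) (Ici 0) := by
  exact b1_prim_cont h.int0

/-- `rho v * v` is integrable on bounded intervals. -/
theorem Dat.iirv {v : ℝ → ℝ} (h : Dat v) {a b : ℝ} (ha : 0 ≤ a) (hb : 0 ≤ b) :
    IntervalIntegrable (fun x => rho v x * v x) volume a b := by
  refine (h.ii ha hb).continuousOn_mul (h.rho_cont.mono fun x hx => ?_)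
  rw [mem_uIcc] at hx
  rcases hx with hx | hx
  · exact le_trans ha hx.1
  · exact le_trans hb hx.1

end Pool.Agent.R3D
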