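import Mathlib

/-! Module R3D-B2: product rule for absolutely continuous functions in integrated form.

The primitives `P s = F 0 + ∫_0^s f` and `Q s = G 0 + ∫_0^s g` are absolutely continuous on `[0,a]` and agree
there with `F` and `G`; `P' = f`, `Q' = g` almost everywhere (Lebesgue differentiation theorem), and
`AbsolutelyContinuousOnInterval.integral_deriv_mul_eq_sub` on `[0,s]` gives the identity. -/

namespace Pool.Agent.R3D
open MeasureTheory Set Filter Topology

private lemma b2_ac {F0 : ℝ} {f : ℝ → ℝ} {a : ℝ} (hf : IntervalIntegrable f volume 0 a) :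
    AbsolutelyContinuousOnInterval (fun s => F0 + ∫ x in (0 : ℝ)..s, f x) 0 a := by
  have h1 := hf.absolutelyContinuousOnInterval_intervalIntegral (c := 0) left_mem_uIcc
  have h2 : AbsolutelyContinuousOnInterval (fun _ : ℝ => F0) 0 a :=
    ((LipschitzWith.const F0).lipschitzOnWith (s := uIcc 0 a)).absolutelyContinuousOnInterval
  exact h2.add h1

private lemma b2_deriv {F0 : ℝ} {f : ℝ → ℝ} {a : ℝ} (hf : IntervalIntegrable f volume 0 a) :
    ∀ᵐ x, x ∈ uIcc 0 a → HasDerivAt (fun s => F0 + ∫ x in (0 : ℝ)..s, f x) (f x) x := by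
  filter_upwards [hf.ae_hasDerivAt_integral] with x hx hx1
  exact (hx hx1 0 left_mem_uIcc).const_add _

theorem prod_prim {F f G g : ℝ → ℝ} {a : ℝ} (ha : 0 ≤ a) (hf : IntervalIntegrable f volume 0 a)
    (hg : IntervalIntegrable g volume 0 a) (hF : ∀ s ∈ Icc 0 a, F s = F 0 + ∫ x in (0 : ℝ)..s, f x)
    (hG : ∀ s ∈ Icc 0 a, G s = G 0 + ∫ x in (0 : ℝ)..s, g x) :
    IntervalIntegrable (fun s => f s * G s + F s * g s) volume 0 a ∧
    ∀ s ∈ Icc 0 a, F s * G s = F 0 * G 0 + ∫ x in (0 : ℝ)..s, (f x * G x + F x * g x) := by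
  have hPac := b2_ac (F0 := F 0) hf
  have hQac := b2_ac (F0 := G 0) hg
  have hPd := b2_deriv (F0 := F 0) hf
  have hQd := b2_deriv (F0 := G 0) hg
  set P : ℝ → ℝ := fun s => F 0 + ∫ x in (0 : ℝ)..s, f x with hP
  set Q : ℝ → ℝ := fun s => G 0 + ∫ x in (0 : ℝ)..s, g x with hQ
  have hFP : ∀ s ∈ Icc 0 a, F s = P s := hF
  have hGQ : ∀ s ∈ Icc 0 a, G s = Q s := hG
  refine ⟨?_, ?_⟩
  · have h1 : IntervalIntegrable (fun s => f s * Q s) volume 0 a :=
      hf.mul_continuousOn hQac.continuousOn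
    have h2 : IntervalIntegrable (fun s => P s * g s) volume 0 a :=
      hg.continuousOn_mul hPac.continuousOn
    refine (h1.add h2).congr ?_
    intro x hx
    have hx' : x ∈ Icc 0 a := by
      rw [uIoc_of_le ha] at hx
      exact Ioc_subset_Icc_self hx
    simp only [hFP x hx', hGQ x hx']
  · intro s hs
    have hsub : uIcc 0 s ⊆ uIcc 0 a := by
      rw [uIcc_of_le hs.1, uIcc_of_le ha]
      exact Icc_subset_Icc_right hs.2
    have h := (hPac.mono hsub).integral_deriv_mul_eq_sub (hQac.mono hsub)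
    have hcongr : ∫ x in (0 : ℝ)..s, (f x * G x + F x * g x)
        = ∫ x in (0 : ℝ)..s, (deriv P x * Q x + P x * deriv Q x) := by
      apply intervalIntegral.integral_congr_ae
      filter_upwards [hPd, hQd] with x h1 h2 h3
      have h4 : x ∈ uIcc 0 a := hsub (uIoc_subset_uIcc h3)
      have h5 : x ∈ Icc 0 a := by rwa [uIcc_of_le ha] at h4
      rw [(h1 h4).deriv, (h2 h4).deriv, hFP x h5, hGQ x h5]
    rw [hcongr, h, hFP s hs, hGQ s hs]
    have e1 : P 0 = F 0 := by simp [hP]
    have e2 : Q 0 = G 0 := by simp [hQ]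
    rw [e1, e2]
    ring

end Pool.Agent.R3D
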