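import Mathlib

/-! Module R3D-B3: the kernel `1/√(1-κ²s²)` on `(0, 1/κ)`.

`d/ds (arcsin(κ s)/κ) = 1/√(1-κ²s²)` and `d/ds √(1-κ²s²) = -κ² s/√(1-κ²s²)` on `(0,1/κ)`. Both derivatives have a
constant sign and the primitives are continuous on `[0,1/κ]`, so the kernels are integrable there, and the
fundamental theorem of calculus gives the two integrals. -/

namespace Pool.Agent.R3D
open MeasureTheory Set Filter Topology

private theorem one_sub_pos {κ s : ℝ} (hκ : 0 < κ) (h0 : 0 < s) (h1 : s < 1 / κ) : 0 < 1 - κ ^ 2 * s ^ 2 := by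
  have h2 : κ * s < 1 := by
    rw [lt_div_iff₀ hκ] at h1
    linarith [mul_comm s κ]
  have h3 : 0 < κ * s := mul_pos hκ h0
  nlinarith

private theorem deriv_arc {κ s : ℝ} (hκ : 0 < κ) (h0 : 0 < s) (h1 : s < 1 / κ) :
    HasDerivAt (fun x => Real.arcsin (κ * x) / κ) (1 / √(1 - κ ^ 2 * s ^ 2)) s := by
  have h2 : κ * s < 1 := by
    rw [lt_div_iff₀ hκ] at h1
    linarith [mul_comm s κ]
  have h3 : 0 < κ * s := mul_pos hκ h0
  have e1 : HasDerivAt (fun x : ℝ => κ * x) κ s := by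
    simpa using (hasDerivAt_id s).const_mul κ
  have e2 := (Real.hasDerivAt_arcsin (x := κ * s) (by linarith) (by linarith)).comp s e1
  have e3 := e2.div_const κ
  have e4 : 1 / √(1 - (κ * s) ^ 2) * κ / κ = 1 / √(1 - κ ^ 2 * s ^ 2) := by
    rw [mul_pow, mul_div_assoc, div_self hκ.ne', mul_one]
  rw [e4] at e3
  exact e3

private theorem cont_arc {κ : ℝ} (S : Set ℝ) : ContinuousOn (fun x => Real.arcsin (κ * x) / κ) S :=
  ((Real.continuous_arcsin.comp (continuous_const.mul continuous_id)).div_const κ).continuousOn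

private theorem deriv_sq {κ s : ℝ} (hκ : 0 < κ) (h0 : 0 < s) (h1 : s < 1 / κ) :
    HasDerivAt (fun x => √(1 - κ ^ 2 * x ^ 2)) (-(κ ^ 2 * s) / √(1 - κ ^ 2 * s ^ 2)) s := by
  have hp := one_sub_pos hκ h0 h1
  have e1 : HasDerivAt (fun x : ℝ => 1 - κ ^ 2 * x ^ 2) (-(κ ^ 2 * (2 * s))) s := by
    have e0 : HasDerivAt (fun x : ℝ => x ^ 2) (2 * s) s := by
      simpa using hasDerivAt_pow 2 s
    exact (e0.const_mul (κ ^ 2)).const_sub 1
  have e2 := e1.sqrt hp.ne'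
  have hs : √(1 - κ ^ 2 * s ^ 2) ≠ 0 := (Real.sqrt_pos.2 hp).ne'
  have e4 : -(κ ^ 2 * (2 * s)) / (2 * √(1 - κ ^ 2 * s ^ 2)) = -(κ ^ 2 * s) / √(1 - κ ^ 2 * s ^ 2) := by
    field_simp
  rw [e4] at e2
  exact e2

private theorem cont_sq {κ : ℝ} (S : Set ℝ) : ContinuousOn (fun x => √(1 - κ ^ 2 * x ^ 2)) S :=
  (Real.continuous_sqrt.comp (continuous_const.sub (continuous_const.mul (continuous_id.pow 2)))).continuousOn

theorem ker_int {κ : ℝ} (hκ : 0 < κ) : IntervalIntegrable (fun s => 1 / √(1 - κ ^ 2 * s ^ 2)) volume 0 (1 / κ) := by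
  have hk : (0 : ℝ) ≤ 1 / κ := by positivity
  refine intervalIntegral.intervalIntegrable_deriv_of_nonneg (g := fun x => Real.arcsin (κ * x) / κ)
    (cont_arc _) ?_ ?_
  · rintro x ⟨h0, h1⟩
    rw [min_eq_left hk] at h0
    rw [max_eq_right hk] at h1
    exact deriv_arc hκ h0 h1
  · intro x _
    positivity

theorem ker_arcsin {κ : ℝ} (hκ : 0 < κ) {s : ℝ} (hs : s ∈ Icc 0 (1 / κ)) :
    ∫ x in (0 : ℝ)..s, 1 / √(1 - κ ^ 2 * x ^ 2) = Real.arcsin (κ * s) / κ := by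
  have hk : (0 : ℝ) ≤ 1 / κ := by positivity
  have hi : IntervalIntegrable (fun s => 1 / √(1 - κ ^ 2 * s ^ 2)) volume 0 s := by
    refine (ker_int hκ).mono_set ?_
    rw [uIcc_of_le hs.1, uIcc_of_le hk]
    exact Icc_subset_Icc le_rfl hs.2
  have h := intervalIntegral.integral_eq_sub_of_hasDerivAt_of_le hs.1 (cont_arc (κ := κ) _)
    (fun x hx => deriv_arc hκ hx.1 (lt_of_lt_of_le hx.2 hs.2)) hi
  rw [h]
  simp

theorem ker_sqrt_int {κ : ℝ} (hκ : 0 < κ) :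
    IntervalIntegrable (fun s => -(κ ^ 2 * s) / √(1 - κ ^ 2 * s ^ 2)) volume 0 (1 / κ) := by
  have hk : (0 : ℝ) ≤ 1 / κ := by positivity
  have h : IntervalIntegrable (fun s => -(-(κ ^ 2 * s) / √(1 - κ ^ 2 * s ^ 2))) volume 0 (1 / κ) := by
    refine intervalIntegral.intervalIntegrable_deriv_of_nonneg (g := fun x => -√(1 - κ ^ 2 * x ^ 2))
      (cont_sq (κ := κ) _).neg ?_ ?_
    · rintro x ⟨h0, h1⟩
      rw [min_eq_left hk] at h0
      rw [max_eq_right hk] at h1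
      exact (deriv_sq hκ h0 h1).neg
    · rintro x ⟨h0, _⟩
      rw [min_eq_left hk] at h0
      rw [neg_div, neg_neg]
      positivity
  have h2 := h.neg
  refine h2.congr ?_
  intro x _
  simp only [Pi.neg_apply, neg_neg]

theorem ker_sqrt {κ : ℝ} (hκ : 0 < κ) {s : ℝ} (hs : s ∈ Icc 0 (1 / κ)) :
    √(1 - κ ^ 2 * s ^ 2) = 1 + ∫ x in (0 : ℝ)..s, -(κ ^ 2 * x) / √(1 - κ ^ 2 * x ^ 2) := by
  have hk : (0 : ℝ) ≤ 1 / κ := by positivity
  have hi : IntervalIntegrable (fun s => -(κ ^ 2 * s) / √(1 - κ ^ 2 * s ^ 2)) volume 0 s := by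
    refine (ker_sqrt_int hκ).mono_set ?_
    rw [uIcc_of_le hs.1, uIcc_of_le hk]
    exact Icc_subset_Icc le_rfl hs.2
  have h := intervalIntegral.integral_eq_sub_of_hasDerivAt_of_le hs.1 (cont_sq (κ := κ) _)
    (fun x hx => deriv_sq hκ hx.1 (lt_of_lt_of_le hx.2 hs.2)) hi
  rw [h]
  simp

end Pool.Agent.R3D
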