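import Pool.Agent.R3D.B1
import Pool.Agent.R3D.B2

/-! Module R3D-DD: `D_p(s) = ∫_s^∞ e_p(x)/x² dx`.

`e_p(x)/x² = zed/x² - v/x - p x v`, each term integrable on `(s,∞)` (`zed ≤ ∫ v`, `v/x ≤ v/s`), and
`zed(T)/T - zed(s)/s = ∫_s^T (v/x - zed/x²) dx` (product rule `prod_prim`, shifted by `s`), `T → ∞`. -/

namespace Pool.Agent.R3D
open MeasureTheory Set Filter Topology Pool.Agent.RB75

private theorem dd_int2 {v : ℝ → ℝ} (h : Dat v) {s : ℝ} (hs : 0 < s) :
    IntegrableOn (fun x => v x / x) (Ioi s) := by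
  have i0 : IntegrableOn v (Ioi s) := h.int0.mono_set (Ioi_subset_Ioi hs.le)
  refine Integrable.mono' (i0.const_mul (1 / s)) (h.meas.div measurable_id).aestronglyMeasurable ?_
  filter_upwards [ae_restrict_mem measurableSet_Ioi] with x hx
  have hx' : s < x := hx
  have hx0 : 0 < x := hs.trans hx'
  rw [Real.norm_of_nonneg (div_nonneg (h.nn x) hx0.le), div_eq_mul_one_div, mul_comm]
  exact mul_le_mul_of_nonneg_right (one_div_le_one_div_of_le hs hx'.le) (h.nn x)

private theorem dd_int3 {v : ℝ → ℝ} (h : Dat v) {s : ℝ} (hs : 0 < s) :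
    IntegrableOn (fun x => zed v x / x ^ 2) (Ioi s) := by
  have i0 : IntegrableOn (fun x : ℝ => x ^ (-2 : ℝ)) (Ioi s) :=
    integrableOn_Ioi_rpow_of_lt (by norm_num) hs
  refine Integrable.mono' (i0.const_mul (∫ x in Ioi (0 : ℝ), v x)) ?_ ?_
  · refine ContinuousOn.aestronglyMeasurable ?_ measurableSet_Ioi
    refine (h.zed_cont.mono fun x hx => ?_).div (continuous_pow 2).continuousOn fun x hx => ?_
    · have hx' : s < x := hx
      exact (hs.trans hx').le
    · have hx' : s < x := hx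
      exact pow_ne_zero 2 (hs.trans hx').ne'
  · filter_upwards [ae_restrict_mem measurableSet_Ioi] with x hx
    have hx' : s < x := hx
    have hx0 : 0 < x := hs.trans hx'
    rw [Real.norm_of_nonneg (div_nonneg (h.zed_nn hx0.le) (by positivity)), Real.rpow_neg hx0.le,
      Real.rpow_two, ← div_eq_mul_inv]
    exact div_le_div_of_nonneg_right (h.zed_le hx0.le) (by positivity)

private theorem dd_fin {v : ℝ → ℝ} (h : Dat v) {s b : ℝ} (hs : 0 < s) (hb : s ≤ b) :
    ∫ x in s..b, (zed v x / x ^ 2 - v x / x) = zed v s / s - zed v b / b := by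
  have hf : IntervalIntegrable (fun x => v (s + x)) volume 0 (b - s) := by
    have h1 := (h.ii hs.le (hs.le.trans hb)).comp_add_left s
    simpa using h1
  have hgc : ContinuousOn (fun x : ℝ => -((s + x) ^ 2)⁻¹) (uIcc 0 (b - s)) := by
    refine ContinuousOn.neg (ContinuousOn.inv₀ (by fun_prop) fun x hx => ?_)
    rw [uIcc_of_le (by linarith)] at hx
    have : 0 < s + x := by linarith [hx.1]
    positivity
  have key := prod_prim (F := fun x => zed v (s + x)) (f := fun x => v (s + x))
    (G := fun x => (s + x)⁻¹) (g := fun x => -((s + x) ^ 2)⁻¹) (a := b - s) (by linarith) hf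
    hgc.intervalIntegrable ?_ ?_
  · have h2 := key.2 (b - s) ⟨by linarith, le_rfl⟩
    simp only [add_zero, add_sub_cancel] at h2
    have h3 : ∫ x in (0 : ℝ)..(b - s), (v (s + x) * (s + x)⁻¹ + zed v (s + x) * -((s + x) ^ 2)⁻¹) =
        ∫ x in s..b, (v x * x⁻¹ + zed v x * -(x ^ 2)⁻¹) := by
      have h4 := intervalIntegral.integral_comp_add_left (a := (0 : ℝ)) (b := b - s)
        (fun x => v x * x⁻¹ + zed v x * -(x ^ 2)⁻¹) s
      rw [h4]
      simp
    rw [h3] at h2
    have h5 : ∫ x in s..b, (zed v x / x ^ 2 - v x / x) = -∫ x in s..b, (v x * x⁻¹ + zed v x * -(x ^ 2)⁻¹) := by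
      rw [← intervalIntegral.integral_neg]
      refine intervalIntegral.integral_congr fun x _ => ?_
      simp only [div_eq_mul_inv]
      ring
    rw [h5, div_eq_mul_inv, div_eq_mul_inv]
    linarith
  · intro y hy
    have h1 := h.zed_sub hs.le (show s ≤ s + y by linarith [hy.1])
    have h2 := intervalIntegral.integral_comp_add_left (a := (0 : ℝ)) (b := y) v s
    show zed v (s + y) = zed v (s + 0) + ∫ x in (0 : ℝ)..y, v (s + x)
    rw [h2, add_zero, ← h1]
    ring
  · intro y hy
    have h1 : ∫ x in (0 : ℝ)..y, -((s + x) ^ 2)⁻¹ = (s + y)⁻¹ - (s + 0)⁻¹ := by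
      refine intervalIntegral.integral_eq_sub_of_hasDerivAt (f := fun x => (s + x)⁻¹) (fun x hx => ?_) ?_
      · rw [uIcc_of_le hy.1] at hx
        have hx0 : s + x ≠ 0 := by linarith [hx.1]
        have h3 : HasDerivAt (fun x : ℝ => s + x) 1 x := by
          simpa using (hasDerivAt_id x).const_add s
        have h4 := h3.inv hx0
        refine h4.congr_deriv ?_
        rw [neg_div, one_div]
      · refine (hgc.mono ?_).intervalIntegrable
        rw [uIcc_of_le hy.1, uIcc_of_le (by linarith)]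
        exact Icc_subset_Icc_right hy.2
    show (s + y)⁻¹ = (s + 0)⁻¹ + ∫ x in (0 : ℝ)..y, -((s + x) ^ 2)⁻¹
    rw [h1]
    ring

private theorem dd_lim {v : ℝ → ℝ} (h : Dat v) {s : ℝ} (hs : 0 < s) :
    ∫ x in Ioi s, (zed v x / x ^ 2 - v x / x) = zed v s / s := by
  have h1 := intervalIntegral_tendsto_integral_Ioi s ((dd_int3 h hs).sub (dd_int2 h hs)) tendsto_id
  have h2 : Tendsto (fun b : ℝ => zed v b / b) atTop (𝓝 0) := by
    have h3 : Tendsto (fun b : ℝ => (∫ x in Ioi (0 : ℝ), v x) / b) atTop (𝓝 0) :=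
      tendsto_const_nhds.div_atTop tendsto_id
    refine squeeze_zero' ?_ ?_ h3
    · filter_upwards [eventually_gt_atTop (0 : ℝ)] with b hb
      exact div_nonneg (h.zed_nn hb.le) hb.le
    · filter_upwards [eventually_gt_atTop (0 : ℝ)] with b hb
      exact div_le_div_of_nonneg_right (h.zed_le hb.le) hb.le
  have h4 : Tendsto (fun b : ℝ => zed v s / s - zed v b / b) atTop (𝓝 (zed v s / s - 0)) :=
    tendsto_const_nhds.sub h2
  rw [sub_zero] at h4
  refine tendsto_nhds_unique h1 (h4.congr' ?_)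
  filter_upwards [eventually_ge_atTop s] with b hb
  exact (dd_fin h hs hb).symm

theorem DD {v : ℝ → ℝ} (h : Dat v) (p : ℝ) {s : ℝ} (hs : 0 < s) :
    IntegrableOn (fun x => defe p v x / x ^ 2) (Ioi s) ∧ defD p v s = ∫ x in Ioi s, defe p v x / x ^ 2 := by
  have i1 : IntegrableOn (fun x => p * (x * v x)) (Ioi s) :=
    (h.int1.mono_set (Ioi_subset_Ioi hs.le)).const_mul p
  have i2 : IntegrableOn (fun x => zed v x / x ^ 2 - v x / x) (Ioi s) :=
    (dd_int3 h hs).sub (dd_int2 h hs)
  have he : ∀ x ∈ Ioi s, zed v x / x ^ 2 - v x / x - p * (x * v x) = defe p v x / x ^ 2 := by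
    intro x hx
    have hx' : s < x := hx
    have hx0 : x ≠ 0 := (hs.trans hx').ne'
    unfold defe
    field_simp
    ring
  refine ⟨(i2.sub i1).congr_fun he measurableSet_Ioi, ?_⟩
  rw [← setIntegral_congr_fun measurableSet_Ioi he, integral_sub i2 i1, dd_lim h hs,
    integral_const_mul]
  rfl

end Pool.Agent.R3D
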