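import Pool.Agent.R3D.Defs
import Pool.Agent.R3D.B1

/-! Module R3D-MU: the measure `dμ = 2 y rho(y) v(y) dy` on `(0,∞)` and the step.

`stp_iff`: the step `v ↦ w` at `κ` is the equation `ofReal (w κ) = WW C (muv v) κ`; `lintegral_muv`: integration against
`muv v`; `rho_sq`: `d(rho²) = - 2 y rho v dy`. -/

namespace Pool.Agent.R3D
open MeasureTheory Set Filter Topology Pool.Agent.RB75

/-- `2 y rho(y) v(y) dy` on `(0,∞)`. -/
noncomputable def muv (v : ℝ → ℝ) : Measure ℝ :=
  (volume.restrict (Ioi (0 : ℝ))).withDensity (fun y => ENNReal.ofReal (2 * y * (rho v y * v y)))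

instance muv_sFinite (v : ℝ → ℝ) : SFinite (muv v) := by
  unfold muv; infer_instance

theorem muv_zero (v : ℝ → ℝ) : muv v (Iic 0) = 0 := by
  apply withDensity_absolutelyContinuous
  rw [Measure.restrict_apply measurableSet_Iic]
  have : Iic (0 : ℝ) ∩ Ioi 0 = ∅ := by
    ext x
    simp
  rw [this, measure_empty]

private theorem mu_rho_aem {v : ℝ → ℝ} (h : Dat v) :
    AEMeasurable (rho v) (volume.restrict (Ioi (0 : ℝ))) :=
  (h.rho_cont.mono Ioi_subset_Ici_self).aemeasurable measurableSet_Ioi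

private theorem mu_dens_aem {v : ℝ → ℝ} (h : Dat v) :
    AEMeasurable (fun y => ENNReal.ofReal (2 * y * (rho v y * v y)))
      (volume.restrict (Ioi (0 : ℝ))) := by
  apply AEMeasurable.ennreal_ofReal
  exact (measurable_const.mul measurable_id).aemeasurable.mul
    ((mu_rho_aem h).mul h.meas.aemeasurable)

/-- integration against `muv v`. -/
theorem lintegral_muv {v : ℝ → ℝ} (h : Dat v) (g : ℝ → ENNReal) (hg : Measurable g) (S : Set ℝ) (hS : MeasurableSet S) :
    ∫⁻ y in S, g y ∂(muv v) =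
      ∫⁻ y in S ∩ Ioi 0, ENNReal.ofReal (2 * y * (rho v y * v y)) * g y := by
  unfold muv
  rw [restrict_withDensity hS, lintegral_withDensity_eq_lintegral_mul₀
    ((mu_dens_aem h).mono_measure Measure.restrict_le_self) hg.aemeasurable,
    Measure.restrict_restrict hS]
  rfl

private theorem mu_stpf_nn {v : ℝ → ℝ} (h : Dat v) {κ s : ℝ} (hs : 0 < s) : 0 ≤ stpf v κ s := by
  unfold stpf
  exact div_nonneg (mul_nonneg (sq_nonneg s) (mul_nonneg (h.rho_nn hs.le) (h.nn s)))
    (Real.sqrt_nonneg _)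

theorem WW_muv {v : ℝ → ℝ} (h : Dat v) {C : ℝ} (hC : 0 < C) {κ : ℝ} (hκ : 0 < κ) :
    WW C (muv v) κ = ∫⁻ s in Ioo 0 (1 / κ), ENNReal.ofReal (2 * C * stpf v κ s) := by
  unfold WW
  have hg : Measurable fun y : ℝ => ENNReal.ofReal (y / √(1 - κ ^ 2 * y ^ 2)) := by
    fun_prop
  have hS : Ioo (0 : ℝ) (1 / κ) ∩ Ioi 0 = Ioo 0 (1 / κ) := by
    ext x
    simp only [mem_inter_iff, mem_Ioo, mem_Ioi]
    tauto
  rw [lintegral_muv h _ hg _ measurableSet_Ioo, hS, ← lintegral_const_mul' _ _ ENNReal.ofReal_ne_top]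
  apply setLIntegral_congr_fun measurableSet_Ioo
  intro y hy
  have hy0 : (0 : ℝ) < y := hy.1
  have h1 : 0 ≤ 2 * y * (rho v y * v y) :=
    mul_nonneg (by linarith) (mul_nonneg (h.rho_nn hy0.le) (h.nn y))
  show ENNReal.ofReal C * (ENNReal.ofReal (2 * y * (rho v y * v y)) *
    ENNReal.ofReal (y / √(1 - κ ^ 2 * y ^ 2))) = ENNReal.ofReal (2 * C * stpf v κ y)
  rw [← ENNReal.ofReal_mul h1, ← ENNReal.ofReal_mul hC.le]
  congr 1
  unfold stpf
  ring

private theorem mu_stpf_aesm {v : ℝ → ℝ} (h : Dat v) (κ : ℝ) :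
    AEStronglyMeasurable (stpf v κ) (volume.restrict (Ioo 0 (1 / κ))) := by
  have h1 : AEMeasurable (rho v) (volume.restrict (Ioo 0 (1 / κ))) :=
    (mu_rho_aem h).mono_measure (Measure.restrict_mono Ioo_subset_Ioi_self le_rfl)
  have h2 : AEMeasurable (stpf v κ) (volume.restrict (Ioo 0 (1 / κ))) := by
    unfold stpf
    refine AEMeasurable.div ?_ ?_
    · exact (by fun_prop : Measurable fun s : ℝ => s ^ 2).aemeasurable.mul (h1.mul h.meas.aemeasurable)
    · exact (by fun_prop : Measurable fun s : ℝ => √(1 - κ ^ 2 * s ^ 2)).aemeasurable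
  exact h2.aestronglyMeasurable

theorem stp_iff {v w : ℝ → ℝ} (h : Dat v) {C : ℝ} (hC : 0 < C) {κ : ℝ} (hκ : 0 < κ) (hw : 0 ≤ w κ) :
    StpAt C v w κ ↔ ENNReal.ofReal (w κ) = WW C (muv v) κ := by
  rw [WW_muv h hC hκ]
  have hk : (0 : ℝ) ≤ 1 / κ := by positivity
  have hnn : 0 ≤ᵐ[volume.restrict (Ioo 0 (1 / κ))] fun s => 2 * C * stpf v κ s := by
    filter_upwards [ae_restrict_mem measurableSet_Ioo] with s hs
    exact mul_nonneg (by linarith) (mu_stpf_nn h hs.1)
  have hsm : AEStronglyMeasurable (fun s => 2 * C * stpf v κ s) (volume.restrict (Ioo 0 (1 / κ))) :=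
    (mu_stpf_aesm h κ).const_mul _
  have hI : ∫ s in (0 : ℝ)..(1 / κ), stpf v κ s = ∫ s in Ioo 0 (1 / κ), stpf v κ s := by
    rw [intervalIntegral.integral_of_le hk, integral_Ioc_eq_integral_Ioo]
  have hII : IntervalIntegrable (stpf v κ) volume 0 (1 / κ) ↔
      IntegrableOn (stpf v κ) (Ioo 0 (1 / κ)) := by
    rw [intervalIntegrable_iff_integrableOn_Ioo_of_le hk]
  unfold StpAt
  rw [hI, hII, ← integral_const_mul]
  constructor
  · rintro ⟨h1, h2⟩
    rw [h2, ofReal_integral_eq_lintegral_ofReal (h1.const_mul _) hnn]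
  · intro h1
    have h2 : Integrable (fun s => 2 * C * stpf v κ s) (volume.restrict (Ioo 0 (1 / κ))) := by
      rw [← lintegral_ofReal_ne_top_iff_integrable hsm hnn, ← h1]
      exact ENNReal.ofReal_ne_top
    have h3 : IntegrableOn (stpf v κ) (Ioo 0 (1 / κ)) := by
      have h4 := h2.const_mul (2 * C)⁻¹
      refine h4.congr (Eventually.of_forall fun s => ?_)
      show (2 * C)⁻¹ * (2 * C * stpf v κ s) = stpf v κ s
      field_simp
    refine ⟨h3, ?_⟩
    rw [← ofReal_integral_eq_lintegral_ofReal h2 hnn] at h1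
    exact (ENNReal.ofReal_eq_ofReal_iff hw (integral_nonneg_of_ae hnn)).1 h1

/-- `d(rho²) = - 2 y rho v dy`. -/
theorem rho_sq {v : ℝ → ℝ} (h : Dat v) {a b : ℝ} (ha : 0 ≤ a) (hab : a ≤ b) :
    rho v a ^ 2 - rho v b ^ 2 = ∫ y in a..b, 2 * y * (rho v y * v y) := by
  have hf : IntervalIntegrable (fun x => x * v x) volume a b := h.ii1 ha (ha.trans hab)
  have hac := hf.absolutelyContinuousOnInterval_intervalIntegral (c := a) (by simp)
  have h1 := AbsolutelyContinuousOnInterval.integral_deriv_mul_eq_sub hac hac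
  simp only [intervalIntegral.integral_same, mul_zero, sub_zero] at h1
  have h2 : ∫ x in a..b, (deriv (fun x => ∫ t in a..x, t * v t) x * (∫ t in a..x, t * v t) +
      (∫ t in a..x, t * v t) * deriv (fun x => ∫ t in a..x, t * v t) x) =
      ∫ x in a..b, 2 * (x * v x) * (∫ t in a..x, t * v t) := by
    apply intervalIntegral.integral_congr_ae
    filter_upwards [hf.ae_hasDerivAt_integral] with x hx hx3
    have hx4 : x ∈ uIcc a b := uIoc_subset_uIcc hx3
    rw [(hx hx4 a (by simp)).deriv]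
    ring
  rw [h2, ← h.rho_sub ha hab] at h1
  have h3 : ∫ y in a..b, 2 * y * (rho v y * v y) =
      ∫ y in a..b, (2 * rho v a * (y * v y) - 2 * (y * v y) * (∫ t in a..y, t * v t)) := by
    apply intervalIntegral.integral_congr
    intro y hy
    rw [uIcc_of_le hab] at hy
    show 2 * y * (rho v y * v y) = 2 * rho v a * (y * v y) - 2 * (y * v y) * (∫ t in a..y, t * v t)
    rw [← h.rho_sub ha hy.1]
    ring
  rw [h3, intervalIntegral.integral_sub (hf.const_mul _), h1, intervalIntegral.integral_const_mul,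
    ← h.rho_sub ha hab]
  · ring
  · have h4 : IntervalIntegrable (fun y => 2 * (y * v y)) volume a b := hf.const_mul 2
    exact h4.mul_continuousOn hac.continuousOn

end Pool.Agent.R3D
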