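import Pool.Agent.R3D.W1
import Pool.Agent.R3D.MU

/-! Module R3D-T3: `rho w κ = 2 C ∫_0^{1/κ} rho v √(1-κ²s²) ds`.

Both sides are `toReal` of the lower integrals: `stp_iff` almost everywhere, Tonelli (`WW_rho`) and the density of `muv v`
(`lintegral_muv`). -/

namespace Pool.Agent.R3D
open MeasureTheory Set Filter Topology Pool.Agent.RB75

private theorem T3_fm {v : ℝ → ℝ} (hv : Dat v) {κ : ℝ} (hκ : 0 < κ) :
    AEStronglyMeasurable (fun s => rho v s * v s * √(1 - κ ^ 2 * s ^ 2))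
      (volume.restrict (Ioo 0 (1 / κ))) := by
  have hb : 0 ≤ 1 / κ := by positivity
  have h1 := (hv.iirv le_rfl hb).1
  have h2 : AEStronglyMeasurable (fun s => rho v s * v s) (volume.restrict (Ioo 0 (1 / κ))) :=
    (h1.mono_set Ioo_subset_Ioc_self).aestronglyMeasurable
  refine h2.mul ?_
  have h3 : Continuous fun s : ℝ => √(1 - κ ^ 2 * s ^ 2) := by fun_prop
  exact h3.aestronglyMeasurable

theorem T3 {v w : ℝ → ℝ} (hv : Dat v) (hw : Dat w) {C : ℝ} (hC : 0 < C) (h : Stp C v w) {κ : ℝ} (hκ : 0 < κ) :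
    rho w κ = 2 * C * ∫ s in (0 : ℝ)..(1 / κ), rho v s * v s * √(1 - κ ^ 2 * s ^ 2) := by
  have hb : 0 ≤ 1 / κ := by positivity
  -- the left side
  have hL : rho w κ = (∫⁻ x in Ioi κ, ENNReal.ofReal (x * w x)).toReal := by
    unfold rho
    refine integral_eq_lintegral_of_nonneg_ae ?_ ?_
    · rw [EventuallyLE, ae_restrict_iff' measurableSet_Ioi]
      refine Eventually.of_forall fun x hx => ?_
      exact mul_nonneg (hκ.trans hx).le (hw.nn x)
    · exact (hw.int1.mono_set (Ioi_subset_Ioi hκ.le)).aestronglyMeasurable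
  have hL2 : ∫⁻ x in Ioi κ, ENNReal.ofReal (x * w x) =
      ∫⁻ x in Ioi κ, ENNReal.ofReal x * WW C (muv v) x := by
    refine lintegral_congr_ae ?_
    have h1 : ∀ᵐ x ∂(volume.restrict (Ioi κ)), StpAt C v w x :=
      ae_restrict_of_ae_restrict_of_subset (Ioi_subset_Ioi hκ.le) h
    filter_upwards [h1, ae_restrict_mem measurableSet_Ioi] with x hx hxκ
    have hx0 : 0 < x := hκ.trans hxκ
    rw [ENNReal.ofReal_mul hx0.le, (stp_iff hv hC hx0 (hw.nn x)).1 hx]
  have hL3 : ∫⁻ y in Ioo 0 (1 / κ), ENNReal.ofReal (√(1 - κ ^ 2 * y ^ 2) / y) ∂(muv v) =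
      ENNReal.ofReal 2 * ∫⁻ y in Ioo 0 (1 / κ),
        ENNReal.ofReal (rho v y * v y * √(1 - κ ^ 2 * y ^ 2)) := by
    rw [lintegral_muv hv (fun y => ENNReal.ofReal (√(1 - κ ^ 2 * y ^ 2) / y)) ?_ _
      measurableSet_Ioo, ← lintegral_const_mul' _ _ ENNReal.ofReal_ne_top]
    · have hset : Ioo (0 : ℝ) (1 / κ) ∩ Ioi 0 = Ioo 0 (1 / κ) :=
        inter_eq_left.2 fun x hx => hx.1
      rw [hset]
      refine setLIntegral_congr_fun measurableSet_Ioo fun y hy => ?_
      have hy0 : 0 < y := hy.1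
      have hr : 0 ≤ rho v y * v y := mul_nonneg (hv.rho_nn hy0.le) (hv.nn y)
      show ENNReal.ofReal (2 * y * (rho v y * v y)) *
        ENNReal.ofReal (√(1 - κ ^ 2 * y ^ 2) / y) = ENNReal.ofReal 2 *
        ENNReal.ofReal (rho v y * v y * √(1 - κ ^ 2 * y ^ 2))
      rw [← ENNReal.ofReal_mul (by positivity), ← ENNReal.ofReal_mul (by norm_num)]
      congr 1
      field_simp
    · refine ENNReal.measurable_ofReal.comp ?_
      have h3 : Continuous fun s : ℝ => √(1 - κ ^ 2 * s ^ 2) := by fun_prop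
      exact h3.measurable.div measurable_id
  -- the right side
  have hR : ∫ s in (0 : ℝ)..(1 / κ), rho v s * v s * √(1 - κ ^ 2 * s ^ 2) =
      (∫⁻ y in Ioo 0 (1 / κ), ENNReal.ofReal (rho v y * v y * √(1 - κ ^ 2 * y ^ 2))).toReal := by
    rw [intervalIntegral.integral_of_le hb, integral_Ioc_eq_integral_Ioo]
    refine integral_eq_lintegral_of_nonneg_ae ?_ (T3_fm hv hκ)
    rw [EventuallyLE, ae_restrict_iff' measurableSet_Ioo]
    refine Eventually.of_forall fun x hx => ?_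
    exact mul_nonneg (mul_nonneg (hv.rho_nn hx.1.le) (hv.nn x)) (Real.sqrt_nonneg _)
  rw [hL, hL2, WW_rho C (muv v) hκ, hL3, hR, ENNReal.toReal_mul, ENNReal.toReal_mul,
    ENNReal.toReal_ofReal hC.le, ENNReal.toReal_ofReal (by norm_num)]
  ring

end Pool.Agent.R3D
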