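import Pool.Agent.R3D.TD
import Pool.Agent.R3D.T3

/-! Module R3D-ID2: `E_p[w](κ) = 2 C ∫_0^{1/κ} (s² v √(1-κ²s²) D_p + κ² s rho e_p/√(1-κ²s²)) ds`, from `T3`, `StpAt`
and the total derivative `TD2`. -/

namespace Pool.Agent.R3D
open MeasureTheory Set Filter Topology Pool.Agent.RB75

private theorem contS (κ : ℝ) (S : Set ℝ) : ContinuousOn (fun s : ℝ => √(1 - κ ^ 2 * s ^ 2)) S := by
  fun_prop

private theorem cRho {v : ℝ → ℝ} (hv : Dat v) {κ : ℝ} (hκ : 0 < κ) : ContinuousOn (rho v) (uIcc 0 (1 / κ)) := by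
  rw [uIcc_of_le (by positivity)]
  exact hv.rho_cont.mono (fun x hx => hx.1)

private theorem cZed {v : ℝ → ℝ} (hv : Dat v) {κ : ℝ} (hκ : 0 < κ) : ContinuousOn (zed v) (uIcc 0 (1 / κ)) := by
  rw [uIcc_of_le (by positivity)]
  exact hv.zed_cont.mono (fun x hx => hx.1)

private theorem iA {v : ℝ → ℝ} (hv : Dat v) {κ : ℝ} (hκ : 0 < κ) :
    IntervalIntegrable (fun s => rho v s * v s * √(1 - κ ^ 2 * s ^ 2)) volume 0 (1 / κ) :=
  (hv.iirv le_rfl (by positivity)).mul_continuousOn (contS κ _)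

private theorem iA2 {v : ℝ → ℝ} (hv : Dat v) {κ : ℝ} (hκ : 0 < κ) (p : ℝ) :
    IntervalIntegrable (fun s => rho v s * v s * (p * s ^ 2 * √(1 - κ ^ 2 * s ^ 2))) volume 0 (1 / κ) :=
  (hv.iirv le_rfl (by positivity)).mul_continuousOn (by fun_prop)

private theorem iB {v : ℝ → ℝ} (hv : Dat v) {κ : ℝ} (hκ : 0 < κ) :
    IntervalIntegrable (fun s => v s * (s * zed v s * √(1 - κ ^ 2 * s ^ 2))) volume 0 (1 / κ) :=
  (hv.ii le_rfl (by positivity)).mul_continuousOn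
    ((continuousOn_id.mul (cZed hv hκ)).mul (contS κ _))

private theorem iC {v : ℝ → ℝ} (hv : Dat v) {κ : ℝ} (hκ : 0 < κ) :
    IntervalIntegrable (fun s => κ ^ 2 * s * (zed v s * rho v s) / √(1 - κ ^ 2 * s ^ 2)) volume 0 (1 / κ) := by
  have h1 := cRho hv hκ
  have h2 := cZed hv hκ
  rw [uIcc_of_le (by positivity)] at h1 h2
  exact ii_ker hκ (c := fun s => κ ^ 2 * s * (zed v s * rho v s))
    ((by fun_prop : ContinuousOn (fun s : ℝ => κ ^ 2 * s) _).mul (h2.mul h1))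

private theorem cg {f g : ℝ → ℝ} {κ : ℝ} (hκ : 0 < κ) (h : ∀ s ∈ Ioc 0 (1 / κ), f s = g s)
    (hf : IntervalIntegrable f volume 0 (1 / κ)) : IntervalIntegrable g volume 0 (1 / κ) := by
  rw [intervalIntegrable_iff_integrableOn_Ioc_of_le (by positivity)] at hf ⊢
  exact hf.congr_fun h measurableSet_Ioc

private theorem cgi {f g : ℝ → ℝ} {κ : ℝ} (hκ : 0 < κ) (h : ∀ s ∈ Ioc 0 (1 / κ), f s = g s) :
    ∫ s in (0 : ℝ)..(1 / κ), f s = ∫ s in (0 : ℝ)..(1 / κ), g s := by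
  rw [intervalIntegral.integral_of_le (by positivity), intervalIntegral.integral_of_le (by positivity)]
  exact setIntegral_congr_fun measurableSet_Ioc h

private theorem nn1 {κ : ℝ} (hκ : 0 < κ) {s : ℝ} (hs : s ∈ Ioc 0 (1 / κ)) : 0 ≤ 1 - κ ^ 2 * s ^ 2 := by
  have h1 : κ * s ≤ 1 := by
    have := hs.2
    rw [le_div_iff₀ hκ] at this
    linarith [mul_comm s κ]
  have h2 : 0 < κ * s := mul_pos hκ hs.1
  nlinarith [mul_pos hκ hs.1]

theorem ID2 {v w : ℝ → ℝ} (hv : Dat v) (hw : Dat w) {C : ℝ} (hC : 0 < C) (h : Stp C v w) {κ : ℝ} (hκ : 0 < κ)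
    (hs : StpAt C v w κ) (p : ℝ) :
    IntervalIntegrable (fun s => s ^ 2 * v s * defD p v s * √(1 - κ ^ 2 * s ^ 2)) volume 0 (1 / κ) ∧
    IntervalIntegrable (fun s => κ ^ 2 * s * (rho v s * defe p v s) / √(1 - κ ^ 2 * s ^ 2)) volume 0 (1 / κ) ∧
    defE p w κ = 2 * C * ((∫ s in (0 : ℝ)..(1 / κ), s ^ 2 * v s * defD p v s * √(1 - κ ^ 2 * s ^ 2)) +
      ∫ s in (0 : ℝ)..(1 / κ), κ ^ 2 * s * (rho v s * defe p v s) / √(1 - κ ^ 2 * s ^ 2)) := by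
  -- the first integrand
  have e1 : ∀ s ∈ Ioc 0 (1 / κ), v s * (s * zed v s * √(1 - κ ^ 2 * s ^ 2)) -
      rho v s * v s * (p * s ^ 2 * √(1 - κ ^ 2 * s ^ 2)) =
      s ^ 2 * v s * defD p v s * √(1 - κ ^ 2 * s ^ 2) := by
    intro s hs
    have h0 : s ≠ 0 := hs.1.ne'
    unfold defD
    field_simp
  have i1 := cg hκ e1 ((iB hv hκ).sub (iA2 hv hκ p))
  -- the second integrand
  have e2 : ∀ s ∈ Ioc 0 (1 / κ), κ ^ 2 * s * (zed v s * rho v s) / √(1 - κ ^ 2 * s ^ 2) -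
      ((p + κ ^ 2) * stpf v κ s - rho v s * v s * (p * s ^ 2 * √(1 - κ ^ 2 * s ^ 2))) =
      κ ^ 2 * s * (rho v s * defe p v s) / √(1 - κ ^ 2 * s ^ 2) := by
    intro s hs
    have h1 := nn1 hκ hs
    unfold stpf defe
    by_cases h0 : √(1 - κ ^ 2 * s ^ 2) = 0
    · rw [h0]; simp
    · have h2 : √(1 - κ ^ 2 * s ^ 2) * √(1 - κ ^ 2 * s ^ 2) = 1 - κ ^ 2 * s ^ 2 := Real.mul_self_sqrt h1
      set S := √(1 - κ ^ 2 * s ^ 2) with hS
      have h3 : rho v s * v s * (p * s ^ 2 * S) = rho v s * v s * (p * s ^ 2 * (1 - κ ^ 2 * s ^ 2)) / S := by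
        rw [← h2]
        field_simp
      rw [h3]
      field_simp
      ring
  have i2 := cg hκ e2 ((iC hv hκ).sub ((hs.1.const_mul (p + κ ^ 2)).sub (iA2 hv hκ p)))
  refine ⟨i1, i2, ?_⟩
  rw [← cgi hκ e1, ← cgi hκ e2, intervalIntegral.integral_sub (iB hv hκ) (iA2 hv hκ p),
    intervalIntegral.integral_sub (iC hv hκ) ((hs.1.const_mul (p + κ ^ 2)).sub (iA2 hv hκ p)),
    intervalIntegral.integral_sub (hs.1.const_mul (p + κ ^ 2)) (iA2 hv hκ p),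
    intervalIntegral.integral_const_mul, ← (TD2 hv hκ).2]
  have e3 : ∫ s in (0 : ℝ)..(1 / κ), (rho v s * v s - s * zed v s * v s) * √(1 - κ ^ 2 * s ^ 2) =
      (∫ s in (0 : ℝ)..(1 / κ), rho v s * v s * √(1 - κ ^ 2 * s ^ 2)) -
      ∫ s in (0 : ℝ)..(1 / κ), v s * (s * zed v s * √(1 - κ ^ 2 * s ^ 2)) := by
    rw [← intervalIntegral.integral_sub (iA hv hκ) (iB hv hκ)]
    refine cgi hκ fun s _ => ?_
    ring
  rw [e3]
  unfold defE
  rw [T3 hv hw hC h hκ, hs.2]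
  ring

end Pool.Agent.R3D
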