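import Mathlib

/-! Module R3D-LK: lower bound of `∫_0^{1/κ} q √(1-κ²s²)`, by restricting to `(0, min s₁ (1/(2κ)))`. -/

namespace Pool.Agent.R3D
open MeasureTheory Set Filter Topology

theorem LK {q : ℝ → ℝ} (hq : ∀ a, 0 < a → IntervalIntegrable q volume 0 a)
    (h0 : ∀ᵐ s ∂(volume.restrict (Ioi (0 : ℝ))), 0 ≤ q s) {c s₁ : ℝ} (hc : 0 < c) (hs : 0 < s₁)
    (h1 : ∀ᵐ s ∂(volume.restrict (Ioo 0 s₁)), c * s ^ 2 ≤ q s) :
    ∃ c', 0 < c' ∧ ∀ κ, 0 < κ → c' ≤ (1 + κ ^ 3) * ∫ s in (0 : ℝ)..(1 / κ), q s * √(1 - κ ^ 2 * s ^ 2) := by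
  refine ⟨c / 6 * min (1 / 8) (s₁ ^ 3), by positivity, fun κ hκ => ?_⟩
  set m : ℝ := min s₁ (1 / (2 * κ)) with hm
  have hm0 : 0 < m := lt_min hs (by positivity)
  have hms : m ≤ s₁ := min_le_left _ _
  have hmk : m ≤ 1 / (2 * κ) := min_le_right _ _
  have hmk' : κ * m ≤ 1 / 2 := by
    have := mul_le_mul_of_nonneg_left hmk hκ.le
    have h2 : κ * (1 / (2 * κ)) = 1 / 2 := by field_simp
    linarith
  have hm1 : m ≤ 1 / κ := by
    rw [le_div_iff₀ hκ]; nlinarith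
  have hI : IntervalIntegrable (fun s => q s * √(1 - κ ^ 2 * s ^ 2)) volume 0 (1 / κ) := by
    apply (hq (1 / κ) (by positivity)).mul_continuousOn
    exact Continuous.continuousOn (by fun_prop)
  have hI1 : IntervalIntegrable (fun s => q s * √(1 - κ ^ 2 * s ^ 2)) volume 0 m :=
    hI.mono_set (by rw [uIcc_of_le hm0.le, uIcc_of_le (by positivity)]; exact Icc_subset_Icc le_rfl hm1)
  have hI2 : IntervalIntegrable (fun s => q s * √(1 - κ ^ 2 * s ^ 2)) volume m (1 / κ) :=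
    hI.mono_set (by rw [uIcc_of_le hm1, uIcc_of_le (by positivity)]; exact Icc_subset_Icc hm0.le le_rfl)
  have hsplit : ∫ s in (0 : ℝ)..(1 / κ), q s * √(1 - κ ^ 2 * s ^ 2)
      = (∫ s in (0 : ℝ)..m, q s * √(1 - κ ^ 2 * s ^ 2)) + ∫ s in m..(1 / κ), q s * √(1 - κ ^ 2 * s ^ 2) :=
    (intervalIntegral.integral_add_adjacent_intervals hI1 hI2).symm
  have hnn : 0 ≤ ∫ s in m..(1 / κ), q s * √(1 - κ ^ 2 * s ^ 2) := by
    apply intervalIntegral.integral_nonneg_of_ae_restrict hm1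
    have hsub : Icc m (1 / κ) ⊆ Ioi 0 := fun x hx => lt_of_lt_of_le hm0 hx.1
    filter_upwards [ae_restrict_of_ae_restrict_of_subset hsub h0] with s hs0
    exact mul_nonneg hs0 (Real.sqrt_nonneg _)
  have hlow : ∫ s in (0 : ℝ)..m, c * s ^ 2 * (1 / 2) ≤ ∫ s in (0 : ℝ)..m, q s * √(1 - κ ^ 2 * s ^ 2) := by
    apply intervalIntegral.integral_mono_ae_restrict hm0.le _ hI1
    · have hres : volume.restrict (Icc (0 : ℝ) m) = volume.restrict (Ioo (0 : ℝ) m) :=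
        Measure.restrict_congr_set Ioo_ae_eq_Icc.symm
      rw [hres]
      have hsub : Ioo (0 : ℝ) m ⊆ Ioo 0 s₁ := Ioo_subset_Ioo le_rfl hms
      filter_upwards [ae_restrict_of_ae_restrict_of_subset hsub h1, ae_restrict_mem measurableSet_Ioo]
        with s hs1 hs2
      have hks : κ * s ≤ 1 / 2 := le_trans (mul_le_mul_of_nonneg_left hs2.2.le hκ.le) hmk'
      have hks0 : 0 ≤ κ * s := mul_nonneg hκ.le hs2.1.le
      have hsq : 1 / 2 ≤ √(1 - κ ^ 2 * s ^ 2) := by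
        apply Real.le_sqrt_of_sq_le
        nlinarith
      have hcs : 0 ≤ c * s ^ 2 := by positivity
      calc c * s ^ 2 * (1 / 2) ≤ c * s ^ 2 * √(1 - κ ^ 2 * s ^ 2) := mul_le_mul_of_nonneg_left hsq hcs
        _ ≤ q s * √(1 - κ ^ 2 * s ^ 2) := mul_le_mul_of_nonneg_right hs1 (Real.sqrt_nonneg _)
    · exact (Continuous.intervalIntegrable (by fun_prop) _ _)
  have hval : ∫ s in (0 : ℝ)..m, c * s ^ 2 * (1 / 2) = c * m ^ 3 / 6 := by
    have : (fun s : ℝ => c * s ^ 2 * (1 / 2)) = fun s => (c / 2) * s ^ 2 := by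
      funext s; ring
    rw [this, intervalIntegral.integral_const_mul, integral_pow]
    norm_num
    ring
  have hint : c * m ^ 3 / 6 ≤ ∫ s in (0 : ℝ)..(1 / κ), q s * √(1 - κ ^ 2 * s ^ 2) := by
    rw [hsplit]; linarith [hval ▸ hlow]
  have hmin : min (1 / 8) (s₁ ^ 3) ≤ (1 + κ ^ 3) * m ^ 3 := by
    have hκ3 : 0 < κ ^ 3 := by positivity
    have hm3 : 0 < m ^ 3 := by positivity
    rcases min_choice s₁ (1 / (2 * κ)) with h | h
    · have hme : m = s₁ := by rw [hm, h]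
      rw [hme] at hm3 ⊢
      refine le_trans (min_le_right _ _) ?_
      nlinarith
    · have hme : m = 1 / (2 * κ) := by rw [hm, h]
      refine le_trans (min_le_left _ _) ?_
      have h3 : κ ^ 3 * m ^ 3 = 1 / 8 := by
        rw [hme]; field_simp; norm_num
      nlinarith
  calc c / 6 * min (1 / 8) (s₁ ^ 3) ≤ c / 6 * ((1 + κ ^ 3) * m ^ 3) :=
        mul_le_mul_of_nonneg_left hmin (by positivity)
    _ = (1 + κ ^ 3) * (c * m ^ 3 / 6) := by ring
    _ ≤ _ := mul_le_mul_of_nonneg_left hint (by positivity)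

end Pool.Agent.R3D
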