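import Pool.Agent.R3D.B1

/-! Module R3D-POS: positivity. For a pair of bodies `v₀` is bounded below by a positive constant almost everywhere on
every bounded interval: there is `b > 0` with `zed v₀ b > 0` and `rho v₀ b > 0`, hence `∫_0^b s² rho v₀ > 0`, and the step
gives a lower bound of `v₁` on `(0,1/b)`; then the same for `v₁` on a short interval, and the step back. -/

namespace Pool.Agent.R3D
open MeasureTheory Set Filter Topology Pool.Agent.RB75

private theorem pos_pt {v : ℝ → ℝ} (h : Dat v) : ∃ b, 0 < b ∧ 0 < zed v b ∧ 0 < rho v b := by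
  set T : ℝ := ∫ x in Ioi (0 : ℝ), v x with hT
  have hTp : 0 < T := h.pos
  have h1 : Tendsto (fun a : ℝ => ∫ x in (0 : ℝ)..a, v x) atTop (𝓝 T) :=
    intervalIntegral_tendsto_integral_Ioi 0 h.int0 tendsto_id
  have h2 : ∀ᶠ a in atTop, T / 2 < ∫ x in (0 : ℝ)..a, v x :=
    h1.eventually (lt_mem_nhds (by linarith))
  obtain ⟨a, ha, ha1⟩ := (h2.and (eventually_ge_atTop (1 : ℝ))).exists
  have ha0 : (0 : ℝ) ≤ a := by linarith
  have h3 : T / 2 ∈ Icc (zed v 0) (zed v a) := by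
    rw [zed_zero]
    exact ⟨by linarith, ha.le⟩
  obtain ⟨b, hb, hbz⟩ := intermediate_value_Icc ha0
    (h.zed_cont.mono fun x (hx : x ∈ Icc 0 a) => hx.1) h3
  have hb0 : 0 < b := by
    refine lt_of_le_of_ne hb.1 fun heq => ?_
    rw [← heq, zed_zero] at hbz
    linarith
  refine ⟨b, hb0, by rw [hbz]; linarith, ?_⟩
  have h4 : T - ∫ x in Ioi b, v x = ∫ x in (0 : ℝ)..b, v x :=
    intervalIntegral.integral_Ioi_sub_Ioi h.int0 hb0.le
  have h5 : ∫ x in Ioi b, v x = T / 2 := by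
    have h6 : (∫ x in (0 : ℝ)..b, v x) = T / 2 := hbz
    linarith
  have h7 : ∫ x in Ioi b, b * v x ≤ rho v b := by
    unfold rho
    refine setIntegral_mono_on ((h.int0.mono_set (Ioi_subset_Ioi hb0.le)).const_mul b)
      (h.int1.mono_set (Ioi_subset_Ioi hb0.le)) measurableSet_Ioi fun x hx => ?_
    have hx' : b < x := hx
    exact mul_le_mul_of_nonneg_right hx'.le (h.nn x)
  rw [integral_const_mul, h5] at h7
  have : 0 < b * (T / 2) := by positivity
  linarith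

private theorem ii2 {v : ℝ → ℝ} (h : Dat v) {a b : ℝ} (ha : 0 ≤ a) (hb : 0 ≤ b) :
    IntervalIntegrable (fun s => s ^ 2 * (rho v s * v s)) volume a b :=
  (h.iirv ha hb).continuousOn_mul (by fun_prop)

private theorem low {v : ℝ → ℝ} (h : Dat v) {b : ℝ} (hb : 0 < b) (hz : 0 < zed v b) (hr : 0 < rho v b) :
    0 < ∫ s in (0 : ℝ)..b, s ^ 2 * (rho v s * v s) := by
  have h3 : zed v b / 2 ∈ Icc (zed v 0) (zed v b) := by
    rw [zed_zero]
    exact ⟨by linarith, by linarith⟩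
  obtain ⟨δ, hδ, hδz⟩ := intermediate_value_Icc hb.le
    (h.zed_cont.mono fun x (hx : x ∈ Icc 0 b) => hx.1) h3
  have hδ0 : 0 < δ := by
    refine lt_of_le_of_ne hδ.1 fun heq => ?_
    rw [← heq, zed_zero] at hδz
    linarith
  have h4 := h.zed_sub hδ0.le hδ.2
  have h5 : (∫ s in δ..b, δ ^ 2 * (rho v b * v s)) ≤ ∫ s in δ..b, s ^ 2 * (rho v s * v s) := by
    refine intervalIntegral.integral_mono_on hδ.2 (((h.ii hδ0.le hb.le).const_mul _).const_mul _)
      (ii2 h hδ0.le hb.le) fun s hs => ?_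
    have hs0 : 0 ≤ s := hδ0.le.trans hs.1
    have h6 : rho v b ≤ rho v s := h.rho_anti (show s ∈ Ici (0 : ℝ) from hs0)
      (show b ∈ Ici (0 : ℝ) from hb.le) hs.2
    have h7 : δ ^ 2 ≤ s ^ 2 := pow_le_pow_left₀ hδ0.le hs.1 2
    have h8 : rho v b * v s ≤ rho v s * v s := mul_le_mul_of_nonneg_right h6 (h.nn s)
    have h9 : 0 ≤ rho v b * v s := mul_nonneg hr.le (h.nn s)
    exact mul_le_mul h7 h8 h9 (sq_nonneg s)
  rw [intervalIntegral.integral_const_mul, intervalIntegral.integral_const_mul, ← h4, hδz] at h5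
  have h10 : 0 ≤ ∫ s in (0 : ℝ)..δ, s ^ 2 * (rho v s * v s) := by
    refine intervalIntegral.integral_nonneg hδ0.le fun s hs => ?_
    exact mul_nonneg (sq_nonneg s) (mul_nonneg (h.rho_nn hs.1) (h.nn s))
  have h11 := intervalIntegral.integral_add_adjacent_intervals (ii2 h le_rfl hδ0.le)
    (ii2 h hδ0.le hb.le)
  rw [← h11]
  have h12 : 0 < δ ^ 2 * (rho v b * (zed v b - zed v b / 2)) := by
    have : 0 < zed v b - zed v b / 2 := by linarith
    positivity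
  linarith

private theorem step_low {C : ℝ} (hC : 0 < C) {v w : ℝ → ℝ} (h : Dat v) {b κ : ℝ} (hb : 0 < b) (hκ : 0 < κ)
    (hbk : b ≤ 1 / κ) (hs : StpAt C v w κ) :
    2 * C * ∫ s in (0 : ℝ)..b, s ^ 2 * (rho v s * v s) ≤ w κ := by
  obtain ⟨hi, he⟩ := hs
  rw [he]
  refine mul_le_mul_of_nonneg_left ?_ (by linarith)
  have hk0 : 0 ≤ 1 / κ := by positivity
  have h1 : (∫ s in (0 : ℝ)..b, s ^ 2 * (rho v s * v s)) ≤ ∫ s in (0 : ℝ)..(1 / κ), s ^ 2 * (rho v s * v s) := by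
    have h11 := intervalIntegral.integral_add_adjacent_intervals (ii2 h le_rfl hb.le)
      (ii2 h hb.le hk0)
    rw [← h11]
    have h10 : 0 ≤ ∫ s in b..(1 / κ), s ^ 2 * (rho v s * v s) := by
      refine intervalIntegral.integral_nonneg hbk fun s hs => ?_
      exact mul_nonneg (sq_nonneg s) (mul_nonneg (h.rho_nn (hb.le.trans hs.1)) (h.nn s))
    linarith
  refine h1.trans ?_
  refine intervalIntegral.integral_mono_on_of_le_Ioo hk0 (ii2 h le_rfl hk0) hi fun s hs => ?_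
  unfold stpf
  have hsk : κ * s < 1 := by
    have := (lt_div_iff₀ hκ).1 hs.2
    linarith [mul_comm s κ]
  have hsk0 : 0 < κ * s := mul_pos hκ hs.1
  have h2 : 0 < 1 - κ ^ 2 * s ^ 2 := by nlinarith
  have h3 : √(1 - κ ^ 2 * s ^ 2) ≤ 1 := by
    refine Real.sqrt_le_iff.2 ⟨zero_le_one, ?_⟩
    nlinarith [mul_pos hsk0 hsk0]
  have h4 : 0 < √(1 - κ ^ 2 * s ^ 2) := Real.sqrt_pos.2 h2
  have h5 : 0 ≤ s ^ 2 * (rho v s * v s) :=
    mul_nonneg (sq_nonneg s) (mul_nonneg (h.rho_nn hs.1.le) (h.nn s))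
  rw [le_div_iff₀ h4]
  exact mul_le_of_le_one_right h5 h3

theorem POS {C₀ C₁ : ℝ} {v₀ v₁ : ℝ → ℝ} (h : Pair3 C₀ C₁ v₀ v₁) {M : ℝ} (hM : 0 < M) :
    ∃ c, 0 < c ∧ ∀ᵐ κ ∂(volume.restrict (Ioo 0 M)), c ≤ v₀ κ := by
  obtain ⟨b, hb, hz, hr⟩ := pos_pt h.d0
  have hq := low h.d0 hb hz hr
  set q : ℝ := ∫ s in (0 : ℝ)..b, s ^ 2 * (rho v₀ s * v₀ s) with hqd
  have hc1 : 0 < 2 * C₀ * q := mul_pos (mul_pos two_pos h.hC0) hq
  -- lower bound of `v₁`
  have hv1 : ∀ᵐ κ ∂(volume.restrict (Ioi (0 : ℝ))), κ ≤ 1 / b → 2 * C₀ * q ≤ v₁ κ := by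
    filter_upwards [h.s0, ae_restrict_mem measurableSet_Ioi] with κ hκ hκ0 hκb
    have hκ0' : (0 : ℝ) < κ := hκ0
    refine step_low h.hC0 h.d0 hb hκ0' ?_ hκ
    rw [le_div_iff₀ hκ0']
    rw [le_div_iff₀ hb] at hκb
    linarith [mul_comm κ b]
  obtain ⟨s₀, hs0, hs0r⟩ := h.d1.rho_pos
  set m : ℝ := min (min s₀ (1 / b)) (1 / M) with hm
  have hmp : 0 < m := lt_min (lt_min hs0 (by positivity)) (by positivity)
  have hm1 : m ≤ s₀ := (min_le_left _ _).trans (min_le_left _ _)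
  have hm2 : m ≤ 1 / b := (min_le_left _ _).trans (min_le_right _ _)
  have hm3 : m ≤ 1 / M := min_le_right _ _
  have hzm : 0 < zed v₁ m := by
    have h1 : (∫ x in (0 : ℝ)..m, 2 * C₀ * q) ≤ ∫ x in (0 : ℝ)..m, v₁ x := by
      rw [intervalIntegral.integral_of_le hmp.le, intervalIntegral.integral_of_le hmp.le]
      refine setIntegral_mono_ae_restrict (continuous_const.integrableOn_Ioc) (h.d1.int0.mono_set fun x hx => hx.1) ?_
      have h2 : volume.restrict (Ioc 0 m) ≤ volume.restrict (Ioi (0 : ℝ)) :=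
        Measure.restrict_mono (fun x hx => hx.1) le_rfl
      filter_upwards [h2.absolutelyContinuous.ae_le hv1, ae_restrict_mem measurableSet_Ioc] with x hx hx2
      exact hx (hx2.2.trans hm2)
    rw [intervalIntegral.integral_const, smul_eq_mul, sub_zero] at h1
    have h3 : 0 < m * (2 * C₀ * q) := mul_pos hmp hc1
    exact lt_of_lt_of_le h3 h1
  have hrm : 0 < rho v₁ m := hs0r m hmp.le hm1
  have hq2 := low h.d1 hmp hzm hrm
  refine ⟨2 * C₁ * ∫ s in (0 : ℝ)..m, s ^ 2 * (rho v₁ s * v₁ s), mul_pos (mul_pos two_pos h.hC1) hq2, ?_⟩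
  have h2 : volume.restrict (Ioo 0 M) ≤ volume.restrict (Ioi (0 : ℝ)) :=
    Measure.restrict_mono (fun x hx => hx.1) le_rfl
  filter_upwards [h2.absolutelyContinuous.ae_le h.s1, ae_restrict_mem measurableSet_Ioo] with κ hκ hκ0
  refine step_low h.hC1 h.d1 hmp hκ0.1 (hm3.trans ?_) hκ
  exact one_div_le_one_div_of_le hκ0.1 hκ0.2.le

end Pool.Agent.R3D
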