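import Pool.Agent.R3D.ID1
import Pool.Agent.R3D.ID2
import Pool.Agent.R3D.DD
import Pool.Agent.R3D.POS
import Pool.Agent.R3D.LK

/-! Assembly: the comparison can be improved. -/

namespace Pool.Agent.R3D
open MeasureTheory Set Filter Topology Pool.Agent.RB75

/-- `E_p[v] ≥ 0` a.e. implies `e_p[w] ≥ 0` a.e. -/
theorem e_of_E {v w : ℝ → ℝ} (hv : Dat v) (hw : Dat w) {C : ℝ} (hC : 0 < C) (h : Stp C v w) {p : ℝ}
    (hE : ∀ᵐ s ∂(volume.restrict (Ioi (0 : ℝ))), 0 ≤ defE p v s) :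
    ∀ᵐ s ∂(volume.restrict (Ioi (0 : ℝ))), 0 ≤ defe p w s := by
  filter_upwards [h, ae_restrict_mem measurableSet_Ioi] with κ hs hκ
  have hκ' : 0 < κ := hκ
  rw [(ID1 hv hw hC h hκ' hs p).2]
  have h1 : 0 ≤ ∫ s in (0 : ℝ)..(1 / κ), s ^ 2 * (rho v s * defE p v s) / √(1 - κ ^ 2 * s ^ 2) := by
    apply intervalIntegral.integral_nonneg_of_ae_restrict (by positivity)
    have h2 := ae_restrict_of_ae_restrict_of_subset (s := Icc 0 (1 / κ)) (t := Ici 0) Icc_subset_Ici_self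
      ((ae_restrict_congr_set Ioi_ae_eq_Ici).1 hE)
    filter_upwards [h2, ae_restrict_mem measurableSet_Icc] with s hs1 hs2
    have h3 := hv.rho_nn hs2.1
    have : 0 ≤ √(1 - κ ^ 2 * s ^ 2) := Real.sqrt_nonneg _
    show 0 ≤ s ^ 2 * (rho v s * defE p v s) / √(1 - κ ^ 2 * s ^ 2)
    positivity
  positivity

/-- `e_p ≥ 0` a.e. implies that `D_p` is nonnegative and nonincreasing. -/
theorem D_mono {v : ℝ → ℝ} (hv : Dat v) {p : ℝ}
    (he : ∀ᵐ s ∂(volume.restrict (Ioi (0 : ℝ))), 0 ≤ defe p v s) :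
    (∀ s, 0 < s → 0 ≤ defD p v s) ∧ ∀ s t, 0 < s → s ≤ t → defD p v t ≤ defD p v s := by
  have h1 : ∀ s, 0 < s → 0 ≤ᵐ[volume.restrict (Ioi s)] (fun x => defe p v x / x ^ 2) := by
    intro s hs
    filter_upwards [ae_restrict_of_ae_restrict_of_subset (Ioi_subset_Ioi hs.le) he] with x hx
    exact div_nonneg hx (by positivity)
  constructor
  · intro s hs
    rw [(DD hv p hs).2]
    exact integral_nonneg_of_ae (h1 s hs)
  · intro s t hs hst
    rw [(DD hv p hs).2, (DD hv p (lt_of_lt_of_le hs hst)).2]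
    exact setIntegral_mono_set (DD hv p hs).1 (h1 s hs) (Ioi_subset_Ioi hst).eventuallyLE

theorem INC {C₀ C₁ : ℝ} {v₀ v₁ : ℝ → ℝ} (h : Pair3 C₀ C₁ v₀ v₁) {B : ℝ} (hB : 0 < B)
    (hUB : ∀ᵐ κ ∂(volume.restrict (Ioi (0 : ℝ))), (1 + κ ^ 3) * v₀ κ ≤ B) {p : ℝ}
    (hE : ∀ᵐ s ∂(volume.restrict (Ioi (0 : ℝ))), 0 ≤ defE p v₀ s) {s₁ : ℝ} (hs₁ : 0 < s₁)
    (hD : 0 < defD p v₁ s₁) :
    ∃ ε, 0 < ε ∧ ∀ᵐ s ∂(volume.restrict (Ioi (0 : ℝ))), 0 ≤ defE (p + ε) v₀ s := by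
  have he := e_of_E h.d0 h.d1 h.hC0 h.s0 hE
  obtain ⟨hD0, hDm⟩ := D_mono h.d1 he
  obtain ⟨c, hc, hcv⟩ := POS h.symm hs₁
  set d := defD p v₁ s₁ with hd
  -- the function `q`
  obtain ⟨c', hc', hL⟩ := LK (q := fun s => s ^ 2 * v₁ s * defD p v₁ s) (c := c * d) (s₁ := s₁)
    (by
      intro a ha
      -- integrable: `s zed v - p s² rho v`
      have i1 : IntervalIntegrable (fun s => (s * zed v₁ s) * v₁ s) volume 0 a :=
        (h.d1.ii le_rfl ha.le).continuousOn_mul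
          (by rw [uIcc_of_le ha.le]; exact continuousOn_id.mul (h.d1.zed_cont.mono Icc_subset_Ici_self))
      have i2 : IntervalIntegrable (fun s => (p * s ^ 2) * (rho v₁ s * v₁ s)) volume 0 a :=
        (h.d1.iirv le_rfl ha.le).continuousOn_mul (by fun_prop)
      refine (i1.sub i2).congr ?_
      rw [uIoc_of_le ha.le]
      intro s hs
      have : s ≠ 0 := hs.1.ne'
      show s * zed v₁ s * v₁ s - p * s ^ 2 * (rho v₁ s * v₁ s) = s ^ 2 * v₁ s * defD p v₁ s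
      unfold defD
      field_simp)
    (by
      filter_upwards [ae_restrict_mem measurableSet_Ioi] with s hs
      have := hD0 s hs
      have := h.d1.nn s
      positivity)
    (by positivity) hs₁
    (by
      filter_upwards [hcv, ae_restrict_mem measurableSet_Ioo] with s h1 h2
      have h3 := hDm s s₁ h2.1 h2.2.le
      calc c * d * s ^ 2 = s ^ 2 * (c * d) := by ring
        _ ≤ s ^ 2 * (v₁ s * defD p v₁ s) :=
            mul_le_mul_of_nonneg_left (mul_le_mul h1 h3 hD.le (h.d1.nn s)) (by positivity)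
        _ = s ^ 2 * v₁ s * defD p v₁ s := by ring)
  have hC1 := h.hC1
  refine ⟨2 * C₁ * c' / B, by positivity, ?_⟩
  filter_upwards [h.s1, hUB, ae_restrict_mem measurableSet_Ioi] with κ hs hu hκ
  have hκ' : 0 < κ := hκ
  have hid := (ID2 h.d1 h.d0 h.hC1 h.s1 hκ' hs p).2.2
  have h2 : 0 ≤ ∫ s in (0 : ℝ)..(1 / κ), κ ^ 2 * s * (rho v₁ s * defe p v₁ s) / √(1 - κ ^ 2 * s ^ 2) := by
    apply intervalIntegral.integral_nonneg_of_ae_restrict (by positivity)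
    have h2 := ae_restrict_of_ae_restrict_of_subset (s := Icc 0 (1 / κ)) (t := Ici 0) Icc_subset_Ici_self
      ((ae_restrict_congr_set Ioi_ae_eq_Ici).1 he)
    filter_upwards [h2, ae_restrict_mem measurableSet_Icc] with s hs1 hs2
    have h3 := h.d1.rho_nn hs2.1
    have h5 : 0 ≤ √(1 - κ ^ 2 * s ^ 2) := Real.sqrt_nonneg _
    have h6 := hs2.1
    show 0 ≤ κ ^ 2 * s * (rho v₁ s * defe p v₁ s) / √(1 - κ ^ 2 * s ^ 2)
    positivity
  have h3 := hL κ hκ'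
  set I := ∫ s in (0 : ℝ)..(1 / κ), s ^ 2 * v₁ s * defD p v₁ s * √(1 - κ ^ 2 * s ^ 2) with hI
  have h4 : 2 * C₁ * I ≤ defE p v₀ κ := by
    rw [hid]
    have : 0 ≤ 2 * C₁ := by positivity
    nlinarith
  have h5 : 0 < 1 + κ ^ 3 := by positivity
  have h6 : v₀ κ ≤ B / (1 + κ ^ 3) := by rw [le_div_iff₀ h5]; linarith
  have h7 : c' / (1 + κ ^ 3) ≤ I := by rw [div_le_iff₀ h5]; linarith
  have h8 : 2 * C₁ * c' / B * v₀ κ ≤ defE p v₀ κ := by
    calc 2 * C₁ * c' / B * v₀ κ ≤ 2 * C₁ * c' / B * (B / (1 + κ ^ 3)) :=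
          mul_le_mul_of_nonneg_left h6 (by positivity)
      _ = 2 * C₁ * (c' / (1 + κ ^ 3)) := by field_simp
      _ ≤ 2 * C₁ * I := mul_le_mul_of_nonneg_left h7 (by positivity)
      _ ≤ _ := h4
  unfold defE at h8 ⊢
  linarith

end Pool.Agent.R3D
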