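import Pool.Agent.R3D.B1
import Pool.Agent.R3D.B2

/-! Module R3D-SOL: the explicit solutions.

`sol_key`: if `c rho = (q + c x²) v` almost everywhere on `(0, a]`, the product rule `prod_prim` for `rho` and `√(q + c s²)` gives
`rho(a) √(q + c a²) = rho(0) √q`. For `D_p = 0` the hypothesis (`q = 1`, `c = p`) follows from `∫_0^s v = p ∫_0^s (rho - x² v)` by
differentiation (`sol_ae`); for `E_p = 0` almost everywhere it is given (`q = p`, `c = 1`). -/

namespace Pool.Agent.R3D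
open MeasureTheory Set Filter Topology Pool.Agent.RB75

private theorem sol_key {v : ℝ → ℝ} (h : Dat v) {q c : ℝ} (hq : 0 < q) (hc : 0 ≤ c) {a : ℝ} (ha : 0 ≤ a)
    (hae : ∀ᵐ x ∂(volume : Measure ℝ), x ∈ Ioc 0 a → c * rho v x = (q + c * x ^ 2) * v x) :
    rho v a * √(q + c * a ^ 2) = rho v 0 * √q := by
  have hpos : ∀ x : ℝ, 0 < q + c * x ^ 2 := fun x => by positivity
  have hsq : ∀ x : ℝ, 0 < √(q + c * x ^ 2) := fun x => Real.sqrt_pos.2 (hpos x)
  have hgc : Continuous fun s : ℝ => c * s / √(q + c * s ^ 2) := by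
    refine Continuous.div (by fun_prop) (by fun_prop) fun x => (hsq x).ne'
  have hder : ∀ s : ℝ, HasDerivAt (fun s : ℝ => √(q + c * s ^ 2)) (c * s / √(q + c * s ^ 2)) s := by
    intro s
    have h1 : HasDerivAt (fun s : ℝ => q + c * s ^ 2) (c * (2 * s)) s := by
      have h0 := ((hasDerivAt_pow 2 s).const_mul c).const_add q
      simpa using h0
    have h2 := h1.sqrt (hpos s).ne'
    have h3 : c * (2 * s) / (2 * √(q + c * s ^ 2)) = c * s / √(q + c * s ^ 2) := by
      have := hsq s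
      field_simp
    rw [h3] at h2
    exact h2
  obtain ⟨-, hP⟩ := prod_prim (F := rho v) (f := fun x => -(x * v x)) (G := fun s : ℝ => √(q + c * s ^ 2))
    (g := fun s : ℝ => c * s / √(q + c * s ^ 2)) ha (h.ii1 le_rfl ha).neg (hgc.intervalIntegrable _ _)
    (fun s hs => by
      have h1 := h.rho_sub le_rfl hs.1
      rw [intervalIntegral.integral_neg]
      linarith)
    (fun s hs => by
      have h1 := intervalIntegral.integral_eq_sub_of_hasDerivAt (fun x _ => hder x)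
        (hgc.intervalIntegrable 0 s)
      rw [h1]
      ring)
  have h2 := hP a ⟨ha, le_rfl⟩
  have h3 : ∫ x in (0 : ℝ)..a, (-(x * v x) * √(q + c * x ^ 2) + rho v x * (c * x / √(q + c * x ^ 2))) = 0 := by
    refine intervalIntegral.integral_zero_ae ?_
    filter_upwards [hae] with x hx hx1
    rw [uIoc_of_le ha] at hx1
    have hs := hsq x
    have hss : √(q + c * x ^ 2) * √(q + c * x ^ 2) = q + c * x ^ 2 := Real.mul_self_sqrt (hpos x).le
    have e2 : -(x * v x) * √(q + c * x ^ 2) + rho v x * (c * x / √(q + c * x ^ 2)) =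
        x / √(q + c * x ^ 2) * (c * rho v x - (√(q + c * x ^ 2) * √(q + c * x ^ 2)) * v x) := by
      field_simp
      ring
    rw [e2, hss, hx hx1, sub_self, mul_zero]
  have h4 : √(q + c * (0 : ℝ) ^ 2) = √q := by
    congr 1
    ring
  have h5 : rho v a * √(q + c * a ^ 2) = rho v 0 * √(q + c * (0 : ℝ) ^ 2) +
    ∫ x in (0 : ℝ)..a, (-(x * v x) * √(q + c * x ^ 2) + rho v x * (c * x / √(q + c * x ^ 2))) := h2
  rw [h5, h3, h4, add_zero]

private theorem sol_zero {v : ℝ → ℝ} (h : Dat v) : 0 < rho v 0 := by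
  obtain ⟨s₀, hs₀, hpos⟩ := h.rho_pos
  exact hpos 0 le_rfl hs₀.le

private theorem sol_ae {v : ℝ → ℝ} (h : Dat v) {p : ℝ} (hz : ∀ s, 0 ≤ s → zed v s = p * (s * rho v s)) {a : ℝ}
    (ha : 0 ≤ a) : ∀ᵐ x ∂(volume : Measure ℝ), x ∈ Ioc 0 a → p * rho v x = (1 + p * x ^ 2) * v x := by
  have ha1 : (0 : ℝ) ≤ a + 1 := by linarith
  obtain ⟨hi, hP⟩ := prod_prim (F := fun s : ℝ => s) (f := fun _ => (1 : ℝ)) (G := rho v)
    (g := fun x => -(x * v x)) ha1 intervalIntegrable_const (h.ii1 le_rfl ha1).neg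
    (fun s _ => by simp)
    (fun s hs => by
      have h1 := h.rho_sub le_rfl hs.1
      rw [intervalIntegral.integral_neg]
      linarith)
  have hφ : IntervalIntegrable (fun x => v x - p * (1 * rho v x + x * -(x * v x))) volume 0 (a + 1) :=
    (h.ii le_rfl ha1).sub (hi.const_mul p)
  have hzero : ∀ s ∈ Icc (0 : ℝ) (a + 1), ∫ x in (0 : ℝ)..s, (v x - p * (1 * rho v x + x * -(x * v x))) = 0 := by
    intro s hs
    have hsub : uIcc 0 s ⊆ uIcc 0 (a + 1) := by
      rw [uIcc_of_le hs.1, uIcc_of_le ha1]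
      exact Icc_subset_Icc_right hs.2
    have h1 := hP s hs
    have h2 := hz s hs.1
    have h3 : zed v s = ∫ x in (0 : ℝ)..s, v x := rfl
    have h1' : s * rho v s = (0 : ℝ) * rho v 0 + ∫ x in (0 : ℝ)..s, (1 * rho v x + x * -(x * v x)) := h1
    rw [intervalIntegral.integral_sub (h.ii le_rfl hs.1) ((hi.mono_set hsub).const_mul p),
      intervalIntegral.integral_const_mul, ← h3, h2, h1']
    ring
  filter_upwards [hφ.ae_hasDerivAt_integral] with x hx hx1
  have hxm : x ∈ uIcc 0 (a + 1) := by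
    rw [uIcc_of_le ha1]
    exact ⟨hx1.1.le, by linarith [hx1.2]⟩
  have hd := hx hxm 0 left_mem_uIcc
  have hev : (fun s => ∫ y in (0 : ℝ)..s, (v y - p * (1 * rho v y + y * -(y * v y)))) =ᶠ[𝓝 x] fun _ => (0 : ℝ) := by
    filter_upwards [Ioo_mem_nhds hx1.1 (show x < a + 1 by linarith [hx1.2])] with s hs
    exact hzero s ⟨hs.1.le, hs.2.le⟩
  have hd0 : HasDerivAt (fun s => ∫ y in (0 : ℝ)..s, (v y - p * (1 * rho v y + y * -(y * v y)))) 0 x :=
    (hasDerivAt_const x (0 : ℝ)).congr_of_eventuallyEq hev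
  have he := hd.unique hd0
  nlinarith [he]

theorem SOL1 {v : ℝ → ℝ} (h : Dat v) {p : ℝ} (hp : 0 < p) (hD : ∀ s, 0 < s → defD p v s = 0) :
    ∃ K, 0 < K ∧ ∀ s, 0 < s → rho v s = K / √(1 + p * s ^ 2) := by
  have hz : ∀ s, 0 ≤ s → zed v s = p * (s * rho v s) := by
    intro s hs
    rcases hs.eq_or_lt with h0 | h0
    · rw [← h0, zed_zero]
      ring
    · have h1 := hD s h0
      unfold defD at h1
      have h2 : zed v s / s = p * rho v s := by linarith
      rw [div_eq_iff h0.ne'] at h2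
      rw [h2]
      ring
  refine ⟨rho v 0, sol_zero h, fun s hs => ?_⟩
  have h1 := sol_key h one_pos hp.le hs.le (sol_ae h hz hs.le)
  rw [Real.sqrt_one, mul_one] at h1
  have h2 : 0 < √(1 + p * s ^ 2) := Real.sqrt_pos.2 (by positivity)
  rw [eq_div_iff h2.ne']
  exact h1

theorem SOL0 {v : ℝ → ℝ} (h : Dat v) {p : ℝ} (hp : 0 < p)
    (hE : ∀ᵐ s ∂(volume.restrict (Ioi (0 : ℝ))), defE p v s = 0) :
    ∃ K, 0 < K ∧ ∀ s, 0 < s → rho v s = K / √(p + s ^ 2) := by
  have hE' := (ae_restrict_iff' measurableSet_Ioi).1 hE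
  refine ⟨rho v 0 * √p, mul_pos (sol_zero h) (Real.sqrt_pos.2 hp), fun s hs => ?_⟩
  have h1 := sol_key (c := 1) h hp zero_le_one hs.le (by
    filter_upwards [hE'] with x hx hx1
    have h2 := hx hx1.1
    unfold defE at h2
    linarith)
  rw [one_mul] at h1
  have h2 : 0 < √(p + s ^ 2) := Real.sqrt_pos.2 (by positivity)
  rw [eq_div_iff h2.ne']
  exact h1

end Pool.Agent.R3D
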