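import Pool.Agent.R3D.UB
import Pool.Agent.R3D.INC
import Pool.Agent.R3D.SOL

/-! Assembly: pairs of regular bodies are ellipsoids. -/

namespace Pool.Agent.R3D
open MeasureTheory Set Filter Topology Pool.Agent.RB75

theorem Pair3.main {C₀ C₁ : ℝ} {v₀ v₁ : ℝ → ℝ} (h : Pair3 C₀ C₁ v₀ v₁) :
    ∃ p K₀ K₁, 0 < p ∧ 0 < K₀ ∧ 0 < K₁ ∧ (∀ s, 0 < s → rho v₀ s = K₀ / √(p + s ^ 2)) ∧
      ∀ s, 0 < s → rho v₁ s = K₁ / √(1 + p * s ^ 2) := by
  obtain ⟨B, hB, hUB⟩ := UB h
  set S : Set ℝ := {p | 0 ≤ p ∧ ∀ᵐ s ∂(volume.restrict (Ioi (0 : ℝ))), 0 ≤ defE p v₀ s} with hS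
  have h0 : (0 : ℝ) ∈ S := ⟨le_rfl, (IT h).1⟩
  obtain ⟨c, hc, hcv⟩ := POS h (M := 1) one_pos
  have hbdd : BddAbove S := by
    refine ⟨rho v₀ 0 / c, ?_⟩
    rintro p ⟨hp, hE⟩
    have h1 : ∀ᵐ s ∂(volume.restrict (Ioo (0 : ℝ) 1)), p ≤ rho v₀ 0 / c := by
      filter_upwards [hcv, ae_restrict_of_ae_restrict_of_subset (fun x hx => hx.1) hE,
        ae_restrict_mem measurableSet_Ioo] with s h2 h3 h4
      unfold defE at h3
      have h5 := h.d0.rho_le h4.1.le
      rw [le_div_iff₀ hc]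
      have h6 : p * c ≤ p * v₀ s := mul_le_mul_of_nonneg_left h2 hp
      have h7 : 0 ≤ s ^ 2 * v₀ s := mul_nonneg (by positivity) (h.d0.nn s)
      nlinarith
    have h2 : (volume.restrict (Ioo (0 : ℝ) 1)) univ ≠ 0 := by
      rw [Measure.restrict_apply_univ, Real.volume_Ioo]; simp
    by_contra hcon
    have h3 : ∀ᵐ s ∂(volume.restrict (Ioo (0 : ℝ) 1)), False := by
      filter_upwards [h1] with s hs
      exact hcon hs
    apply h2
    rw [ae_iff] at h3
    simpa using h3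
  set P := sSup S with hP
  have hP0 : 0 ≤ P := le_csSup hbdd h0
  -- `P ∈ S`
  have hPE : ∀ᵐ s ∂(volume.restrict (Ioi (0 : ℝ))), 0 ≤ defE P v₀ s := by
    have h1 : ∀ n : ℕ, ∀ᵐ s ∂(volume.restrict (Ioi (0 : ℝ))), 0 ≤ defE (P - 1 / ((n : ℝ) + 1)) v₀ s := by
      intro n
      obtain ⟨p, hp, hlt⟩ := exists_lt_of_lt_csSup ⟨0, h0⟩
        (show P - 1 / ((n : ℝ) + 1) < sSup S by
          have : (0 : ℝ) < 1 / ((n : ℝ) + 1) := by positivity
          linarith)
      filter_upwards [hp.2] with s hs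
      unfold defE at hs ⊢
      have := h.d0.nn s
      nlinarith
    filter_upwards [ae_all_iff.2 h1] with s hs
    have hlim : Tendsto (fun n : ℕ => defE (P - 1 / ((n : ℝ) + 1)) v₀ s) atTop (𝓝 (defE (P - 0) v₀ s)) := by
      unfold defE
      exact tendsto_const_nhds.sub (((tendsto_const_nhds.sub tendsto_one_div_add_atTop_nhds_zero_nat).add
        tendsto_const_nhds).mul_const _)
    rw [sub_zero] at hlim
    exact ge_of_tendsto' hlim hs
  have he := e_of_E h.d0 h.d1 h.hC0 h.s0 hPE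
  obtain ⟨hD0, hDm⟩ := D_mono h.d1 he
  have hD : ∀ s, 0 < s → defD P v₁ s = 0 := by
    intro s hs
    by_contra hne
    have hpos : 0 < defD P v₁ s := lt_of_le_of_ne (hD0 s hs) (Ne.symm hne)
    obtain ⟨ε, hε, h1⟩ := INC h hB hUB hPE hs hpos
    have h2 : P + ε ∈ S := ⟨by linarith, h1⟩
    have := le_csSup hbdd h2
    linarith
  -- `P > 0`
  have hPpos : 0 < P := by
    rcases eq_or_lt_of_le hP0 with e | h1
    · exfalso
      obtain ⟨c1, hc1, hcv1⟩ := POS h.symm (M := 1) one_pos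
      have h2 := hD 1 one_pos
      rw [← e] at h2
      unfold defD at h2
      have h3 : zed v₁ 1 = 0 := by linarith [h2]
      have h4 : c1 ≤ zed v₁ 1 := by
        unfold zed
        have : ∫ x in (0 : ℝ)..1, c1 ≤ ∫ x in (0 : ℝ)..1, v₁ x := by
          apply intervalIntegral.integral_mono_ae_restrict zero_le_one intervalIntegrable_const
            (h.d1.ii le_rfl zero_le_one)
          exact (ae_restrict_congr_set Ioo_ae_eq_Icc).1 hcv1
        simpa using this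
      linarith
    · exact h1
  obtain ⟨K₁, hK₁, hr1⟩ := SOL1 h.d1 hPpos hD
  -- `e = 0` a.e.
  have he0 : ∀ᵐ s ∂(volume.restrict (Ioi (0 : ℝ))), defe P v₁ s = 0 := by
    have h1 : ∀ n : ℕ, ∀ᵐ s ∂(volume.restrict (Ioi (1 / ((n : ℝ) + 1)))), defe P v₁ s = 0 := by
      intro n
      have hn : (0 : ℝ) < 1 / ((n : ℝ) + 1) := by positivity
      obtain ⟨i1, i2⟩ := DD h.d1 P hn
      rw [hD _ hn] at i2
      have i3 : 0 ≤ᵐ[volume.restrict (Ioi (1 / ((n : ℝ) + 1)))] (fun x => defe P v₁ x / x ^ 2) := by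
        filter_upwards [ae_restrict_of_ae_restrict_of_subset (Ioi_subset_Ioi hn.le) he] with x hx
        exact div_nonneg hx (by positivity)
      have i4 := (setIntegral_eq_zero_iff_of_nonneg_ae i3 i1).1 i2.symm
      filter_upwards [i4, ae_restrict_mem measurableSet_Ioi] with x hx hx2
      have hx0 : 0 < x := lt_trans hn hx2
      have : defe P v₁ x / x ^ 2 = 0 := hx
      rcases div_eq_zero_iff.1 this with h | h
      · exact h
      · exact absurd h (by positivity)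
    rw [ae_restrict_iff' measurableSet_Ioi]
    have h2 : ∀ n : ℕ, ∀ᵐ s : ℝ, s ∈ Ioi (1 / ((n : ℝ) + 1)) → defe P v₁ s = 0 :=
      fun n => (ae_restrict_iff' measurableSet_Ioi).1 (h1 n)
    filter_upwards [ae_all_iff.2 h2] with s hs hs0
    obtain ⟨n, hn⟩ := exists_nat_one_div_lt (show (0 : ℝ) < s from hs0)
    exact hs n hn
  -- `E = 0` for body 0
  have hE0 : ∀ᵐ s ∂(volume.restrict (Ioi (0 : ℝ))), defE P v₀ s = 0 := by
    filter_upwards [h.s1, ae_restrict_mem measurableSet_Ioi] with κ hs hκ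
    have hκ' : 0 < κ := hκ
    rw [(ID2 h.d1 h.d0 h.hC1 h.s1 hκ' hs P).2.2]
    have i1 : ∫ s in (0 : ℝ)..(1 / κ), s ^ 2 * v₁ s * defD P v₁ s * √(1 - κ ^ 2 * s ^ 2) = 0 := by
      rw [intervalIntegral.integral_of_le (by positivity)]
      refine setIntegral_eq_zero_of_forall_eq_zero (fun s hs => ?_)
      rw [hD s hs.1]; ring
    have i2 : ∫ s in (0 : ℝ)..(1 / κ), κ ^ 2 * s * (rho v₁ s * defe P v₁ s) / √(1 - κ ^ 2 * s ^ 2) = 0 := by
      rw [intervalIntegral.integral_of_le (by positivity)]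
      apply integral_eq_zero_of_ae
      filter_upwards [ae_restrict_of_ae_restrict_of_subset (fun x hx => hx.1) he0] with s hs
      rw [hs]; simp
    rw [i1, i2]; ring
  obtain ⟨K₀, hK₀, hr0⟩ := SOL0 h.d0 hPpos hE0
  exact ⟨P, K₀, K₁, hPpos, hK₀, hK₁, hr0, hr1⟩

end Pool.Agent.R3D
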