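import Pool.Agent.R3D.P1
import Pool.Agent.RB75.A8

/-! Module R3D-P2: the profile of the projection body, `ρ₁ s = f₁ + ∫_{1/s}^∞ x W(x) dx` with `f₁ = 2 C R₀ b₀`, and
`H₁ 0 = C (π/2) R₀²`. Compare `Pool.Agent.RB75.A8` (same proof): by `P1a` and `Star2.eq` both sides have the same
integrals over intervals, and the integral function is monotone and continuous. -/

namespace Pool.Agent.R3D
open MeasureTheory Set Filter Topology Pool.Agent.RB75

theorem P2 {C : ℝ} (hC : 0 < C) {ρ₀ H₁ ρ₁ : ℝ → ℝ} {R₀ b₀ R₁ b₁ : ℝ} {μ : Measure ℝ}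
    (hS : Star2 C ρ₀ R₀ b₀ H₁) (hP : Prof H₁ ρ₁ R₁ b₁) (hΦ : ∀ x, 0 < x → 0 ≤ Phi 2 0 ρ₀ R₀ x)
    (hR : Rep2 (Phi 2 0 ρ₀ R₀) μ) :
    H₁ 0 = C * (Real.pi / 2) * R₀ ^ 2 ∧ ∀ κ, 0 < κ → 2 * C * R₀ * b₀ ≤ ρ₁ (1 / κ) ∧
      ∫⁻ x in Ioi κ, ENNReal.ofReal x * WW C μ x = ENNReal.ofReal (ρ₁ (1 / κ) - 2 * C * R₀ * b₀) := by
  have hsf : SFinite μ := hR.sf
  have hWm : Measurable (WW C μ) := WW_measurable C μ
  set F : ℝ → ENNReal := fun x => ENNReal.ofReal x * WW C μ x with hF
  have hFm : Measurable F := (ENNReal.measurable_ofReal).mul hWm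
  have hwnn : ∀ t, 0 < t → ∀ z ∈ Ioo (0 : ℝ) 1, 0 ≤ Phi 2 0 ρ₀ R₀ (t * z) * √(1 - z ^ 2) / z ^ 2 := by
    intro t ht z hz
    have := hΦ (t * z) (mul_pos ht hz.1)
    positivity
  have hA : ∀ t, 0 < t → ENNReal.ofReal (C * ∫ z in Ioo (0 : ℝ) 1, Phi 2 0 ρ₀ R₀ (t * z) * √(1 - z ^ 2) / z ^ 2) =
      ∫⁻ s in Ioo 0 t, ∫⁻ x in Ioi (1 / s), F x := by
    intro t ht
    rw [hF, ← P1a hC hR hΦ ht, ENNReal.ofReal_mul hC.le, ofReal_integral_eq_lintegral_ofReal]
    · exact hS.int t ht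
    · exact (ae_restrict_iff' measurableSet_Ioo).2 (Eventually.of_forall (hwnn t ht))
  have hfin : ∀ s, 0 < s → ∫⁻ x in Ioi (1 / s), F x < ⊤ := by
    intro s hs
    have h1 : ∫⁻ s' in Ioo s (2 * s), (∫⁻ x in Ioi (1 / s), F x) ≤
        ∫⁻ s' in Ioo 0 (2 * s), ∫⁻ x in Ioi (1 / s'), F x := by
      calc ∫⁻ s' in Ioo s (2 * s), (∫⁻ x in Ioi (1 / s), F x)
          ≤ ∫⁻ s' in Ioo s (2 * s), ∫⁻ x in Ioi (1 / s'), F x := by
            refine setLIntegral_mono' measurableSet_Ioo fun x hx => ?_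
            exact lintegral_mono_set (Ioi_subset_Ioi (one_div_le_one_div_of_le hs hx.1.le))
        _ ≤ _ := lintegral_mono_set (Ioo_subset_Ioo_left hs.le)
    rw [← hA (2 * s) (by linarith), lintegral_const, Measure.restrict_apply MeasurableSet.univ,
      univ_inter, Real.volume_Ioo] at h1
    by_contra hcon
    rw [not_lt, top_le_iff] at hcon
    rw [hcon, ENNReal.top_mul] at h1
    · exact absurd (top_le_iff.1 h1) ENNReal.ofReal_ne_top
    · rw [Ne, ENNReal.ofReal_eq_zero, not_le]; linarith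
  have hfin' : ∀ κ, 0 < κ → ∫⁻ x in Ioi κ, F x < ⊤ := by
    intro κ hκ
    have := hfin (1 / κ) (by positivity)
    rwa [one_div_one_div] at this
  set h : ℝ → ℝ := fun x => (F x).toReal with hh
  have hnn : ∀ x, 0 ≤ h x := fun x => ENNReal.toReal_nonneg
  have hint : ∀ κ, 0 < κ → IntegrableOn h (Ioi κ) := fun κ hκ =>
    integrable_toReal_of_lintegral_ne_top hFm.aemeasurable.restrict (hfin' κ hκ).ne
  set P : ℝ → ℝ := fun κ => ∫ x in Ioi κ, h x with hPdef
  have hPG : ∀ κ, 0 < κ → ∫⁻ x in Ioi κ, F x = ENNReal.ofReal (P κ) := by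
    intro κ hκ
    rw [hPdef]
    simp only [hh]
    rw [integral_toReal hFm.aemeasurable.restrict
      (ae_lt_top hFm (hfin' κ hκ).ne), ENNReal.ofReal_toReal (hfin' κ hκ).ne]
  have hP0 : ∀ κ, 0 ≤ P κ := fun κ => setIntegral_nonneg measurableSet_Ioi fun x _ => hnn x
  have hPsplit : ∀ a κ, 0 < a → a ≤ κ → P κ = P a - ∫ x in a..κ, h x := by
    intro a κ ha haκ
    have h1 : P a = (∫ x in Ioc a κ, h x) + P κ := by
      rw [hPdef]
      simp only []
      rw [← Ioc_union_Ioi_eq_Ioi haκ]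
      refine setIntegral_union ?_ measurableSet_Ioi ?_ (hint κ (lt_of_lt_of_le ha haκ))
      · exact (Ioc_disjoint_Ioi le_rfl)
      · exact (hint a ha).mono_set Ioc_subset_Ioi_self
    rw [h1, intervalIntegral.integral_of_le haκ]
    ring
  have hPanti : AntitoneOn P (Ioi 0) := by
    intro a ha b hb hab
    rw [hPsplit a b ha hab]
    have := intervalIntegral.integral_nonneg (μ := volume) hab (fun u _ => hnn u)
    linarith
  have hPcont : ContinuousOn P (Ioi 0) := by
    intro κ hκ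
    have hκ' : (0 : ℝ) < κ := hκ
    have h1 : IntervalIntegrable h volume (κ / 2) (κ + 1) := by
      rw [intervalIntegrable_iff_integrableOn_Ioc_of_le (by linarith)]
      exact (hint (κ / 2) (by linarith)).mono_set Ioc_subset_Ioi_self
    have h2 : ContinuousOn (fun x => ∫ u in (κ / 2)..x, h u) (uIcc (κ / 2) (κ + 1)) :=
      intervalIntegral.continuousOn_primitive_interval' h1 left_mem_uIcc
    have h3 : ContinuousAt (fun x => P (κ / 2) - ∫ u in (κ / 2)..x, h u) κ := by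
      refine ContinuousAt.sub continuousAt_const (h2.continuousAt ?_)
      rw [uIcc_of_le (by linarith)]
      exact Icc_mem_nhds (by linarith) (by linarith)
    have h4 : ContinuousAt P κ := by
      refine h3.congr ?_
      filter_upwards [Ioi_mem_nhds (show κ / 2 < κ by linarith)] with x hx
      exact (hPsplit (κ / 2) x (by linarith) (le_of_lt hx)).symm
    exact h4.continuousWithinAt
  set g : ℝ → ℝ := fun s => P (1 / s) with hg
  have hg0 : ∀ s, 0 ≤ g s := fun s => hP0 _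
  have hgmono : MonotoneOn g (Ioi 0) := by
    intro a ha b hb hab
    have ha' : (0 : ℝ) < a := ha
    have hb' : (0 : ℝ) < b := hb
    exact hPanti (show (0 : ℝ) < 1 / b by positivity) (show (0 : ℝ) < 1 / a by positivity)
      (one_div_le_one_div_of_le ha' hab)
  have hgcont : ContinuousOn g (Ioi 0) := by
    refine hPcont.comp ?_ ?_
    · intro s hs
      have hs' : (0 : ℝ) < s := hs
      exact (continuousAt_const.div continuousAt_id hs'.ne').continuousWithinAt
    · intro s hs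
      have hs' : (0 : ℝ) < s := hs
      show (0 : ℝ) < 1 / s
      positivity
  have hgm : AEMeasurable g (volume.restrict (Ioi (0 : ℝ))) :=
    aemeasurable_restrict_of_monotoneOn measurableSet_Ioi hgmono
  have hgi : ∀ t, 0 < t → IntervalIntegrable g volume 0 t := by
    intro t ht
    rw [intervalIntegrable_iff_integrableOn_Ioc_of_le ht.le]
    refine Integrable.of_bound (C := g t) ?_ ?_
    · exact (hgm.mono_measure (Measure.restrict_mono Ioc_subset_Ioi_self le_rfl)).aestronglyMeasurable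
    · refine (ae_restrict_iff' measurableSet_Ioc).2 (Eventually.of_forall fun x hx => ?_)
      rw [Real.norm_eq_abs, abs_of_nonneg (hg0 x)]
      exact hgmono hx.1 ht hx.2
  have hB : ∀ t, 0 < t → C * ∫ z in Ioo (0 : ℝ) 1, Phi 2 0 ρ₀ R₀ (t * z) * √(1 - z ^ 2) / z ^ 2 =
      ∫ s in (0 : ℝ)..t, g s := by
    intro t ht
    have h1 := hA t ht
    have h2 : ∫⁻ s in Ioo 0 t, ∫⁻ x in Ioi (1 / s), F x = ∫⁻ s in Ioo 0 t, ENNReal.ofReal (g s) := by
      refine setLIntegral_congr_fun measurableSet_Ioo fun s hs => ?_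
      have hs' : (0 : ℝ) < s := hs.1
      exact hPG (1 / s) (by positivity)
    have h3 : ENNReal.ofReal (∫ s in (0 : ℝ)..t, g s) = ∫⁻ s in Ioo 0 t, ENNReal.ofReal (g s) := by
      rw [intervalIntegral.integral_of_le ht.le, integral_Ioc_eq_integral_Ioo,
        ofReal_integral_eq_lintegral_ofReal]
      · have := hgi t ht
        rwa [intervalIntegrable_iff_integrableOn_Ioo_of_le ht.le] at this
      · exact (ae_restrict_iff' measurableSet_Ioo).2 (Eventually.of_forall fun v _ => hg0 v)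
    rw [h2, ← h3] at h1
    have h4 : 0 ≤ C * ∫ z in Ioo (0 : ℝ) 1, Phi 2 0 ρ₀ R₀ (t * z) * √(1 - z ^ 2) / z ^ 2 :=
      mul_nonneg hC.le (setIntegral_nonneg measurableSet_Ioo (hwnn t ht))
    have h5 : 0 ≤ ∫ s in (0 : ℝ)..t, g s :=
      intervalIntegral.integral_nonneg ht.le fun u _ => hg0 u
    exact (ENNReal.ofReal_eq_ofReal_iff h4 h5).1 h1
  set f₁ := 2 * C * R₀ * b₀ with hf₁
  have hH : ∀ t, 0 < t → H₁ t = C * (Real.pi / 2) * R₀ ^ 2 + f₁ * t + ∫ s in (0 : ℝ)..t, g s := by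
    intro t ht
    rw [hS.eq t ht, mul_add, hB t ht, hf₁]
    ring
  have hρm : AEMeasurable ρ₁ (volume.restrict (Ioi (0 : ℝ))) :=
    aemeasurable_restrict_of_monotoneOn measurableSet_Ioi hP.mono
  have hρi : ∀ t, 0 < t → IntervalIntegrable ρ₁ volume 0 t := by
    intro t ht
    rw [intervalIntegrable_iff_integrableOn_Ioc_of_le ht.le]
    refine Integrable.of_bound (C := ρ₁ t) ?_ ?_
    · exact (hρm.mono_measure (Measure.restrict_mono Ioc_subset_Ioi_self le_rfl)).aestronglyMeasurable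
    · refine (ae_restrict_iff' measurableSet_Ioc).2 (Eventually.of_forall fun x hx => ?_)
      rw [Real.norm_eq_abs, abs_of_nonneg (hP.nn x hx.1)]
      exact hP.mono hx.1 ht hx.2
  have hbd : ∀ (q : ℝ → ℝ), MonotoneOn q (Ioi 0) → (∀ t, 0 < t → IntervalIntegrable q volume 0 t) →
      (∀ t, 0 < t → 0 ≤ q t) → ∀ t, 0 < t → t ≤ 1 →
      0 ≤ ∫ x in (0 : ℝ)..t, q x ∧ ∫ x in (0 : ℝ)..t, q x ≤ t * q 1 := by
    intro q hq hqi hq0 t ht ht1
    constructor
    · rw [intervalIntegral.integral_of_le ht.le]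
      exact setIntegral_nonneg measurableSet_Ioc fun v hv => hq0 v hv.1
    · have h1 : ∫ x in (0 : ℝ)..t, q x ≤ ∫ x in (0 : ℝ)..t, q 1 := by
        rw [intervalIntegral.integral_of_le ht.le, intervalIntegral.integral_of_le ht.le]
        refine setIntegral_mono_on ?_ ?_ measurableSet_Ioc fun x hx => ?_
        · exact (intervalIntegrable_iff_integrableOn_Ioc_of_le ht.le).1 (hqi t ht)
        · exact (intervalIntegrable_iff_integrableOn_Ioc_of_le ht.le).1 intervalIntegrable_const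
        · exact hq hx.1 (by norm_num : (1 : ℝ) ∈ Ioi 0) (hx.2.trans ht1)
      rwa [intervalIntegral.integral_const, smul_eq_mul, sub_zero] at h1
  have hρb := hbd ρ₁ hP.mono hρi hP.nn
  have hgb := hbd g hgmono hgi (fun t _ => hg0 t)
  have hH0 : H₁ 0 = C * (Real.pi / 2) * R₀ ^ 2 := by
    have hbound : ∀ t, 0 < t → t ≤ 1 →
        |H₁ 0 - C * (Real.pi / 2) * R₀ ^ 2| ≤ t * (|f₁| + g 1 + ρ₁ 1) := by
      intro t ht ht1
      have e1 := hH t ht
      have e2 := hP.H_int t ht.le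
      obtain ⟨a1, a2⟩ := hρb t ht ht1
      obtain ⟨c1, c2⟩ := hgb t ht ht1
      have e3 : H₁ 0 - C * (Real.pi / 2) * R₀ ^ 2 =
          f₁ * t + (∫ s in (0 : ℝ)..t, g s) - ∫ s in (0 : ℝ)..t, ρ₁ s := by
        linarith
      have e4 : |f₁ * t| = |f₁| * t := by rw [abs_mul, abs_of_pos ht]
      have e5 := abs_le.1 e4.le
      rw [e3, abs_le]
      have g1 : 0 ≤ t * g 1 := mul_nonneg ht.le (hg0 1)
      have r1 : 0 ≤ t * ρ₁ 1 := mul_nonneg ht.le (hP.nn 1 (by norm_num))
      constructor <;> nlinarith [e5.1, e5.2]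
    by_contra hne
    have hpos : 0 < |H₁ 0 - C * (Real.pi / 2) * R₀ ^ 2| := abs_pos.2 (sub_ne_zero.2 hne)
    set A := |H₁ 0 - C * (Real.pi / 2) * R₀ ^ 2| with hAdef
    set B := |f₁| + g 1 + ρ₁ 1 with hBdef
    have hBnn : 0 ≤ B := by
      have := hg0 1
      have := hP.nn 1 (by norm_num)
      positivity
    have h1 := hbound (min 1 (A / (2 * (B + 1)))) (by positivity) (min_le_left _ _)
    have h2 : min 1 (A / (2 * (B + 1))) * B ≤ A / (2 * (B + 1)) * B :=
      mul_le_mul_of_nonneg_right (min_le_right _ _) hBnn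
    have h3 : A / (2 * (B + 1)) * B ≤ A / 2 := by
      rw [div_mul_eq_mul_div, div_le_div_iff₀ (by positivity) (by norm_num)]
      nlinarith
    linarith
  have key : ∀ s, 0 < s → ρ₁ s = f₁ + g s := by
    refine eq_of_integral_eq (ρ := ρ₁) (g := fun x => f₁ + g x) hP.mono
      (continuousOn_const.add hgcont) ?_
    intro a b ha hab
    have hb : 0 < b := ha.trans hab
    have e1 : ∫ x in a..b, ρ₁ x = (∫ x in (0 : ℝ)..b, ρ₁ x) - ∫ x in (0 : ℝ)..a, ρ₁ x :=
      (intervalIntegral.integral_interval_sub_left (hρi b hb) (hρi a ha)).symm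
    have e2 : ∫ x in a..b, g x = (∫ x in (0 : ℝ)..b, g x) - ∫ x in (0 : ℝ)..a, g x :=
      (intervalIntegral.integral_interval_sub_left (hgi b hb) (hgi a ha)).symm
    have hgab : IntervalIntegrable g volume a b :=
      ((hgi a ha).symm.trans (hgi b hb))
    have e3 : ∫ x in a..b, (f₁ + g x) = f₁ * (b - a) + ∫ x in a..b, g x := by
      rw [intervalIntegral.integral_add intervalIntegrable_const hgab,
        intervalIntegral.integral_const, smul_eq_mul]
      ring
    have e4 := hH a ha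
    have e5 := hH b hb
    have e6 := hP.H_int a ha.le
    have e7 := hP.H_int b hb.le
    show ∫ x in a..b, ρ₁ x = ∫ x in a..b, (f₁ + g x)
    rw [e3, e1, e2]
    linarith
  refine ⟨hH0, fun κ hκ => ?_⟩
  have hk := key (1 / κ) (by positivity)
  have hgk : g (1 / κ) = P κ := by
    rw [hg]
    simp only [one_div_one_div]
  refine ⟨?_, ?_⟩
  · have := hg0 (1 / κ)
    linarith
  · rw [hPG κ hκ, ← hgk]
    congr 1
    linarith

end Pool.Agent.R3D
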