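import Pool.Agent.R3D.Defs
import Pool.Agent.RB75.A9
import Pool.Agent.RB75.A10

/-! Module R3D-P3: limits at `κ = 0` and `κ = ∞` (compare `Pool.Agent.RB75.A9`).

`κ → 0+`: monotone convergence and `ρ₁(1/κ) → R₁`. Since `∫_0^T (R₁ - ρ₁) = R₁ T + H₁ 0 - H₁ T → H₁ 0 - b₁`,
`∫⁻ t in Ioi 0, ofReal (R₁ - ρ₁ t) = ofReal (H₁ 0 - b₁)`; the integrand is `∫⁻ x in Ioc 0 (1/t), ofReal x * W x`, and
Tonelli gives `∫⁻ x in Ioi 0, W x`. The limit at `0` follows since the total is finite. -/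

namespace Pool.Agent.R3D
open MeasureTheory Set Filter Topology Pool.Agent.RB75

private theorem p3_tonelli {G : ℝ → ENNReal} (hG : Measurable G) :
    ∫⁻ t in Ioi (0 : ℝ), ∫⁻ x in Ioc 0 (1 / t), G x =
      ∫⁻ x in Ioi (0 : ℝ), G x * ENNReal.ofReal (1 / x) := by
  set S : Set (ℝ × ℝ) := {p | p.2 ≤ 1 / p.1} with hS
  have hSm : MeasurableSet S := measurableSet_le measurable_snd (measurable_const.div measurable_fst)
  have hF : AEMeasurable (Function.uncurry fun t x => S.indicator (fun p => G p.2) (t, x))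
      ((volume.restrict (Ioi (0 : ℝ))).prod (volume.restrict (Ioi (0 : ℝ)))) := by
    have : (Function.uncurry fun t x => S.indicator (fun p => G p.2) (t, x)) =
        S.indicator (fun p => G p.2) := by
      ext ⟨a, b⟩
      rfl
    rw [this]
    exact ((hG.comp measurable_snd).indicator hSm).aemeasurable
  have h1 : ∀ t ∈ Ioi (0 : ℝ), ∫⁻ x in Ioc 0 (1 / t), G x =
      ∫⁻ x in Ioi (0 : ℝ), S.indicator (fun p => G p.2) (t, x) := by
    intro t ht
    have h2 : (fun x => S.indicator (fun p => G p.2) (t, x)) = (Iic (1 / t)).indicator G := by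
      ext x
      by_cases h : x ≤ 1 / t
      · rw [indicator_of_mem (show (t, x) ∈ S from h), indicator_of_mem (mem_Iic.mpr h)]
      · rw [indicator_of_notMem (show (t, x) ∉ S from h), indicator_of_notMem (by simpa using h)]
    rw [h2, lintegral_indicator measurableSet_Iic, Measure.restrict_restrict measurableSet_Iic]
    congr 2
    ext x
    simp only [mem_inter_iff, mem_Iic, mem_Ioi, mem_Ioc]
    tauto
  rw [setLIntegral_congr_fun measurableSet_Ioi h1, lintegral_lintegral_swap hF]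
  refine setLIntegral_congr_fun measurableSet_Ioi ?_
  intro x hx
  rw [mem_Ioi] at hx
  have h3 : ∫⁻ t in Ioi (0 : ℝ), S.indicator (fun p => G p.2) (t, x) =
      ∫⁻ t in Ioi (0 : ℝ), (Iic (1 / x)).indicator (fun _ => G x) t := by
    refine setLIntegral_congr_fun measurableSet_Ioi ?_
    intro t ht
    rw [mem_Ioi] at ht
    have hiff : x ≤ 1 / t ↔ t ≤ 1 / x := by
      rw [le_div_iff₀ ht, le_div_iff₀ hx, mul_comm]
    by_cases h : t ≤ 1 / x
    · simp only
      rw [indicator_of_mem (show (t, x) ∈ S from hiff.2 h), indicator_of_mem (mem_Iic.mpr h)]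
    · simp only
      rw [indicator_of_notMem (show (t, x) ∉ S from fun hh => h (hiff.1 hh)),
        indicator_of_notMem (by simpa using h)]
  simp only
  rw [h3, lintegral_indicator measurableSet_Iic, Measure.restrict_restrict measurableSet_Iic,
    setLIntegral_const]
  congr 1
  have : Iic (1 / x) ∩ Ioi 0 = Ioc 0 (1 / x) := by
    ext y
    simp only [mem_inter_iff, mem_Iic, mem_Ioi, mem_Ioc]
    tauto
  rw [this, Real.volume_Ioc, sub_zero]

theorem P3 {W : ℝ → ENNReal} (hW : Measurable W) {H₁ ρ₁ : ℝ → ℝ} {R₁ b₁ f : ℝ} (hP : Prof H₁ ρ₁ R₁ b₁)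
    (h : ∀ κ, 0 < κ → f ≤ ρ₁ (1 / κ) ∧
      ∫⁻ x in Ioi κ, ENNReal.ofReal x * W x = ENNReal.ofReal (ρ₁ (1 / κ) - f)) :
    ∫⁻ x in Ioi (0 : ℝ), ENNReal.ofReal x * W x = ENNReal.ofReal (R₁ - f) ∧ f ≤ R₁ ∧
    ∫⁻ x in Ioi (0 : ℝ), W x = ENNReal.ofReal (H₁ 0 - b₁) ∧ b₁ ≤ H₁ 0 ∧
    Tendsto ρ₁ (𝓝[>] 0) (𝓝 f) := by
  have hGm : Measurable (fun x => ENNReal.ofReal x * W x) := ENNReal.measurable_ofReal.mul hW
  set G : ℝ → ENNReal := fun x => ENNReal.ofReal x * W x with hG
  -- the hypothesis in terms of `t`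
  have ht' : ∀ t, 0 < t → f ≤ ρ₁ t ∧ ∫⁻ x in Ioi (1 / t), G x = ENNReal.ofReal (ρ₁ t - f) := by
    intro t ht
    have := h (1 / t) (one_div_pos.2 ht)
    rwa [one_div_one_div] at this
  have hρR : ∀ s, 0 < s → ρ₁ s ≤ R₁ := hP.rho_le
  have hfR : f ≤ R₁ := (ht' 1 one_pos).1.trans (hρR 1 one_pos)
  -- the total mass
  have hA : ∫⁻ x in Ioi (0 : ℝ), G x = ENNReal.ofReal (R₁ - f) := by
    have h0 : Tendsto (fun t : ℝ => 1 / t) atTop (𝓝 0) := by
      simpa [one_div] using tendsto_inv_atTop_zero (𝕜 := ℝ)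
    have h1 : Tendsto (fun t : ℝ => ∫⁻ x in Ioi (1 / t), G x ∂(volume.restrict (Ioi (0 : ℝ)))) atTop
        (𝓝 (∫⁻ x, G x ∂(volume.restrict (Ioi (0 : ℝ))))) :=
      (aecover_Ioi_of_Ioi (μ := volume) h0).lintegral_tendsto_of_countably_generated hGm.aemeasurable
    have h2 : (fun t : ℝ => ∫⁻ x in Ioi (1 / t), G x ∂(volume.restrict (Ioi (0 : ℝ)))) =ᶠ[atTop]
        fun t => ENNReal.ofReal (ρ₁ t - f) := by
      filter_upwards [eventually_gt_atTop (0 : ℝ)] with t ht
      rw [Measure.restrict_restrict measurableSet_Ioi, ← (ht' t ht).2]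
      congr 2
      exact inter_eq_left.2 (Ioi_subset_Ioi (one_div_pos.2 ht).le)
    have h3 : Tendsto (fun t => ENNReal.ofReal (ρ₁ t - f)) atTop (𝓝 (ENNReal.ofReal (R₁ - f))) :=
      ENNReal.tendsto_ofReal (hP.lim.sub_const f)
    exact tendsto_nhds_unique h1 (h3.congr' h2.symm)
  -- the tails
  have hC : ∀ t, 0 < t → ∫⁻ x in Ioc 0 (1 / t), G x = ENNReal.ofReal (R₁ - ρ₁ t) := by
    intro t ht
    have h1 : ∫⁻ x in Ioi (0 : ℝ), G x =
        (∫⁻ x in Ioc 0 (1 / t), G x) + ∫⁻ x in Ioi (1 / t), G x := by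
      rw [← lintegral_union measurableSet_Ioi (Ioc_disjoint_Ioi le_rfl),
        Ioc_union_Ioi_eq_Ioi (one_div_pos.2 ht).le]
    rw [hA, (ht' t ht).2] at h1
    have h2 : ENNReal.ofReal (R₁ - f) = ENNReal.ofReal (R₁ - ρ₁ t) + ENNReal.ofReal (ρ₁ t - f) := by
      rw [← ENNReal.ofReal_add (sub_nonneg.mpr (hρR t ht)) (sub_nonneg.mpr (ht' t ht).1)]
      congr 1
      ring
    rw [h2] at h1
    exact ((ENNReal.add_left_inj ENNReal.ofReal_ne_top).mp h1).symm
  -- the integral of `R₁ - ρ₁`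
  have hρa : AEMeasurable ρ₁ (volume.restrict (Ioi (0 : ℝ))) :=
    aemeasurable_restrict_of_monotoneOn measurableSet_Ioi hP.mono
  have hρi : ∀ t, 0 < t → IntegrableOn ρ₁ (Ioc 0 t) := by
    intro t ht
    refine Integrable.of_bound (hρa.mono_set Ioc_subset_Ioi_self).aestronglyMeasurable R₁ ?_
    · filter_upwards [ae_restrict_mem measurableSet_Ioc] with s hs
      rw [Real.norm_eq_abs, abs_of_nonneg (hP.nn s hs.1)]
      exact hρR s hs.1
  have hJ : ∀ t, 0 < t → ∫⁻ s in Ioc 0 t, ENNReal.ofReal (R₁ - ρ₁ s) =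
      ENNReal.ofReal (H₁ 0 - (H₁ t - R₁ * t)) := by
    intro t ht
    have h0 : Integrable (fun _ : ℝ => R₁) (volume.restrict (Ioc 0 t)) :=
      integrableOn_const (by simp)
    have h1 : IntegrableOn (fun s => R₁ - ρ₁ s) (Ioc 0 t) := h0.sub (hρi t ht)
    rw [← ofReal_integral_eq_lintegral_ofReal h1]
    · congr 1
      rw [integral_sub h0 (hρi t ht), setIntegral_const,
        hP.H_int t ht.le, intervalIntegral.integral_of_le ht.le]
      simp [ht.le]
      ring
    · filter_upwards [ae_restrict_mem measurableSet_Ioc] with s hs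
      simp only [Pi.zero_apply, sub_nonneg]
      exact hρR s hs.1
  have hlim2 : Tendsto (fun t => H₁ 0 - (H₁ t - R₁ * t)) atTop (𝓝 (H₁ 0 - b₁)) :=
    hP.blim.const_sub (H₁ 0)
  have hB0 : 0 ≤ H₁ 0 - b₁ := by
    refine ge_of_tendsto hlim2 ?_
    filter_upwards [eventually_gt_atTop (0 : ℝ)] with t ht
    rw [hP.H_int t ht.le]
    have h1 : ∫ s in (0 : ℝ)..t, ρ₁ s ≤ R₁ * t := by
      rw [intervalIntegral.integral_of_le ht.le]
      calc ∫ s in Ioc 0 t, ρ₁ s ≤ ∫ s in Ioc 0 t, R₁ :=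
            setIntegral_mono_on (hρi t ht) (integrableOn_const (by simp)) measurableSet_Ioc
              (fun s hs => hρR s hs.1)
        _ = R₁ * t := by
            rw [setIntegral_const]
            simp [ht.le]
            ring
    linarith
  have hB : ∫⁻ s in Ioi (0 : ℝ), ENNReal.ofReal (R₁ - ρ₁ s) = ENNReal.ofReal (H₁ 0 - b₁) := by
    have hm : AEMeasurable (fun s => ENNReal.ofReal (R₁ - ρ₁ s)) (volume.restrict (Ioi (0 : ℝ))) :=
      (aemeasurable_const.sub hρa).ennreal_ofReal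
    have h1 : Tendsto (fun s => ∫⁻ v in Iic s, ENNReal.ofReal (R₁ - ρ₁ v) ∂(volume.restrict (Ioi (0 : ℝ))))
        atTop (𝓝 (∫⁻ v, ENNReal.ofReal (R₁ - ρ₁ v) ∂(volume.restrict (Ioi (0 : ℝ))))) :=
      (aecover_Iic tendsto_id).lintegral_tendsto_of_countably_generated hm
    have h2 : (fun s => ∫⁻ v in Iic s, ENNReal.ofReal (R₁ - ρ₁ v) ∂(volume.restrict (Ioi (0 : ℝ)))) =ᶠ[atTop]
        fun s => ENNReal.ofReal (H₁ 0 - (H₁ s - R₁ * s)) := by
      filter_upwards [eventually_gt_atTop (0 : ℝ)] with s hs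
      rw [Measure.restrict_restrict measurableSet_Iic, ← hJ s hs]
      congr 2
      ext x
      simp only [mem_inter_iff, mem_Iic, mem_Ioi, mem_Ioc]
      tauto
    exact tendsto_nhds_unique h1 ((ENNReal.tendsto_ofReal hlim2).congr' h2.symm)
  refine ⟨hA, hfR, ?_, by linarith, ?_⟩
  · have hD := p3_tonelli hGm
    rw [setLIntegral_congr_fun measurableSet_Ioi (fun t ht => hC t ht), hB] at hD
    rw [hD]
    refine setLIntegral_congr_fun measurableSet_Ioi ?_
    intro x hx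
    rw [mem_Ioi] at hx
    have h1 : ENNReal.ofReal x * ENNReal.ofReal (1 / x) = 1 := by
      rw [← ENNReal.ofReal_mul hx.le, mul_one_div_cancel hx.ne', ENNReal.ofReal_one]
    simp only [hG]
    rw [mul_right_comm, h1, one_mul]
  · -- the limit at zero
    have h1 : Tendsto (fun s : ℝ => ∫⁻ x in Iic s, G x ∂(volume.restrict (Ioi (0 : ℝ)))) atTop
        (𝓝 (∫⁻ x, G x ∂(volume.restrict (Ioi (0 : ℝ))))) :=
      (aecover_Iic tendsto_id).lintegral_tendsto_of_countably_generated hGm.aemeasurable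
    have h2 : (fun s : ℝ => ∫⁻ x in Iic s, G x ∂(volume.restrict (Ioi (0 : ℝ)))) =ᶠ[atTop]
        fun s => ENNReal.ofReal (R₁ - ρ₁ (1 / s)) := by
      filter_upwards [eventually_gt_atTop (0 : ℝ)] with s hs
      rw [Measure.restrict_restrict measurableSet_Iic, ← hC (1 / s) (one_div_pos.2 hs), one_div_one_div]
      congr 2
      ext x
      simp only [mem_inter_iff, mem_Iic, mem_Ioi, mem_Ioc]
      tauto
    have h3 : Tendsto (fun s : ℝ => ENNReal.ofReal (R₁ - ρ₁ (1 / s))) atTop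
        (𝓝 (ENNReal.ofReal (R₁ - f))) := by
      have := h1.congr' h2
      rwa [hA] at this
    have h4 : Tendsto (fun s : ℝ => (ENNReal.ofReal (R₁ - ρ₁ (1 / s))).toReal) atTop
        (𝓝 (ENNReal.ofReal (R₁ - f)).toReal) :=
      (ENNReal.tendsto_toReal ENNReal.ofReal_ne_top).comp h3
    have h5 : Tendsto (fun s : ℝ => R₁ - ρ₁ (1 / s)) atTop (𝓝 (R₁ - f)) := by
      rw [ENNReal.toReal_ofReal (sub_nonneg.2 hfR)] at h4
      refine h4.congr' ?_
      filter_upwards [eventually_gt_atTop (0 : ℝ)] with s hs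
      rw [ENNReal.toReal_ofReal (sub_nonneg.2 (hρR _ (one_div_pos.2 hs)))]
    have h6 : Tendsto (fun s : ℝ => ρ₁ (1 / s)) atTop (𝓝 f) := by
      have := h5.const_sub R₁
      simpa using this
    have h7 : Tendsto (fun t : ℝ => 1 / t) (𝓝[>] 0) atTop := by
      simpa [one_div] using (tendsto_inv_nhdsGT_zero (𝕜 := ℝ))
    have h8 := h6.comp h7
    refine h8.congr fun t => ?_
    simp [Function.comp]

end Pool.Agent.R3D
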