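import Pool.Agent.R3D.MU

/-! Module R3D-P4: densities.

`dat_of_WW`: the real valued version of the density `W` satisfies `Dat`; `WW_unique`: the density is determined almost
everywhere by `rho v`; `rep2_of_dat`: `muv v` is the Stieltjes measure of `Phi 2 0 ρ R` if `ρ (1 / κ) = rho v κ`. -/

namespace Pool.Agent.R3D
open MeasureTheory Set Filter Topology Pool.Agent.RB75

theorem dat_of_WW {W : ℝ → ENNReal} (hW : Measurable W) {R Z : ℝ} (hZ : 0 < Z)
    (h1 : ∫⁻ x in Ioi (0 : ℝ), ENNReal.ofReal x * W x = ENNReal.ofReal R)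
    (h0 : ∫⁻ x in Ioi (0 : ℝ), W x = ENNReal.ofReal Z) :
    Dat (fun x => (W x).toReal) ∧ ∀ κ, 0 ≤ κ →
      ENNReal.ofReal (rho (fun x => (W x).toReal) κ) = ∫⁻ x in Ioi κ, ENNReal.ofReal x * W x := by
  have hfin : ∀ᵐ x ∂(volume.restrict (Ioi (0 : ℝ))), W x < ⊤ :=
    ae_lt_top hW (by rw [h0]; exact ENNReal.ofReal_ne_top)
  have hm1 : Measurable fun x : ℝ => ENNReal.ofReal x * W x :=
    (ENNReal.measurable_ofReal).mul hW
  have hi1 : IntegrableOn (fun x => (ENNReal.ofReal x * W x).toReal) (Ioi 0) :=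
    integrable_toReal_of_lintegral_ne_top hm1.aemeasurable (by rw [h1]; exact ENNReal.ofReal_ne_top)
  have hi2 : IntegrableOn (fun x => x * (W x).toReal) (Ioi 0) := by
    refine hi1.congr ?_
    filter_upwards [ae_restrict_mem measurableSet_Ioi] with x hx
    have hx' : (0 : ℝ) < x := hx
    rw [ENNReal.toReal_mul, ENNReal.toReal_ofReal hx'.le]
  refine ⟨⟨hW.ennreal_toReal, fun x => ENNReal.toReal_nonneg,
    integrable_toReal_of_lintegral_ne_top hW.aemeasurable (by rw [h0]; exact ENNReal.ofReal_ne_top),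
    hi2, ?_⟩, ?_⟩
  · rw [integral_toReal hW.aemeasurable hfin, h0, ENNReal.toReal_ofReal hZ.le]
    exact hZ
  · intro κ hκ
    unfold rho
    have hsub : Ioi κ ⊆ Ioi (0 : ℝ) := Ioi_subset_Ioi hκ
    rw [ofReal_integral_eq_lintegral_ofReal (hi2.mono_set hsub)]
    · apply lintegral_congr_ae
      filter_upwards [ae_restrict_of_ae_restrict_of_subset hsub hfin,
        ae_restrict_mem measurableSet_Ioi] with x hx hx0
      have hx' : (0 : ℝ) < x := lt_of_le_of_lt hκ hx0
      rw [ENNReal.ofReal_mul hx'.le, ENNReal.ofReal_toReal hx.ne]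
    · filter_upwards [ae_restrict_mem measurableSet_Ioi] with x hx
      have hx' : (0 : ℝ) < x := lt_of_le_of_lt hκ hx
      exact mul_nonneg hx'.le ENNReal.toReal_nonneg

private theorem p4_unique_aux {v : ℝ → ℝ} (hv : Dat v) {W : ℝ → ENNReal} (hW : Measurable W)
    (h : ∀ κ, 0 < κ → ∫⁻ x in Ioi κ, ENNReal.ofReal x * W x = ENNReal.ofReal (rho v κ))
    {κ₀ : ℝ} (hκ₀ : 0 < κ₀) :
    ∀ᵐ x ∂(volume.restrict (Ioi κ₀)), ENNReal.ofReal (v x) = W x := by
  have hm1 : Measurable fun x : ℝ => ENNReal.ofReal x * W x :=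
    (ENNReal.measurable_ofReal).mul hW
  have hm2 : Measurable fun x : ℝ => ENNReal.ofReal (x * v x) :=
    ENNReal.measurable_ofReal.comp (measurable_id.mul hv.meas)
  have hr : ∀ κ, 0 < κ → ∫⁻ x in Ioi κ, ENNReal.ofReal (x * v x) = ENNReal.ofReal (rho v κ) := by
    intro κ hκ
    unfold rho
    rw [ofReal_integral_eq_lintegral_ofReal (hv.int1.mono_set (Ioi_subset_Ioi hκ.le))]
    filter_upwards [ae_restrict_mem measurableSet_Ioi] with x hx
    have hx' : (0 : ℝ) < x := lt_trans hκ hx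
    exact mul_nonneg hx'.le (hv.nn x)
  have hfin1 : ∫⁻ x, ENNReal.ofReal x * W x ∂(volume.restrict (Ioi κ₀)) ≠ ⊤ := by
    rw [h κ₀ hκ₀]
    exact ENNReal.ofReal_ne_top
  have hfm : IsFiniteMeasure ((volume.restrict (Ioi κ₀)).withDensity
      fun x : ℝ => ENNReal.ofReal x * W x) := isFiniteMeasure_withDensity hfin1
  have heq : (volume.restrict (Ioi κ₀)).withDensity (fun x : ℝ => ENNReal.ofReal x * W x) =
      (volume.restrict (Ioi κ₀)).withDensity (fun x : ℝ => ENNReal.ofReal (x * v x)) := by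
    refine Measure.ext_of_Ici _ _ fun a => ?_
    rw [withDensity_apply _ measurableSet_Ici, withDensity_apply _ measurableSet_Ici,
      setLIntegral_congr (Ioi_ae_eq_Ici (a := a)).symm, setLIntegral_congr (Ioi_ae_eq_Ici (a := a)).symm,
      Measure.restrict_restrict measurableSet_Ioi, Ioi_inter_Ioi]
    have hpos : 0 < a ⊔ κ₀ := lt_of_lt_of_le hκ₀ le_sup_right
    rw [h _ hpos, hr _ hpos]
  rw [withDensity_eq_iff hm1.aemeasurable hm2.aemeasurable hfin1] at heq
  filter_upwards [heq, ae_restrict_mem measurableSet_Ioi] with x hx hx0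
  have hx' : (0 : ℝ) < x := lt_trans hκ₀ hx0
  rw [ENNReal.ofReal_mul hx'.le] at hx
  have hne : ENNReal.ofReal x ≠ 0 := by
    simpa using hx'
  exact ((ENNReal.mul_right_inj hne ENNReal.ofReal_ne_top).1 hx).symm

theorem WW_unique {v : ℝ → ℝ} (hv : Dat v) {W : ℝ → ENNReal} (hW : Measurable W)
    (h : ∀ κ, 0 < κ → ∫⁻ x in Ioi κ, ENNReal.ofReal x * W x = ENNReal.ofReal (rho v κ)) :
    ∀ᵐ x ∂(volume.restrict (Ioi (0 : ℝ))), ENNReal.ofReal (v x) = W x := by
  have hU : Ioi (0 : ℝ) = ⋃ n : ℕ, Ioi (1 / ((n : ℝ) + 1)) := by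
    ext x
    simp only [mem_Ioi, mem_iUnion]
    constructor
    · intro hx
      exact exists_nat_one_div_lt hx
    · rintro ⟨n, hn⟩
      exact lt_trans (by positivity) hn
  rw [hU, ae_restrict_iUnion_iff]
  intro n
  exact p4_unique_aux hv hW h (by positivity)

theorem rep2_of_dat {v : ℝ → ℝ} (hv : Dat v) {H ρ : ℝ → ℝ} {R b : ℝ} (hP : Prof H ρ R b)
    (h : ∀ κ, 0 < κ → ρ (1 / κ) = rho v κ) : Rep2 (Phi 2 0 ρ R) (muv v) := by
  have hR : R = rho v 0 := by
    have h1 : Tendsto (rho v) (𝓝[>] 0) (𝓝 (rho v 0)) :=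
      (hv.rho_cont 0 (mem_Ici.2 le_rfl)).mono_left (nhdsWithin_mono _ Ioi_subset_Ici_self)
    have h2 : Tendsto (fun κ : ℝ => ρ (1 / κ)) (𝓝[>] 0) (𝓝 R) := by
      have h3 : Tendsto (fun κ : ℝ => 1 / κ) (𝓝[>] 0) atTop := by
        simpa [one_div] using (tendsto_inv_nhdsGT_zero (𝕜 := ℝ))
      exact hP.lim.comp h3
    have h4 : Tendsto (fun κ : ℝ => ρ (1 / κ)) (𝓝[>] 0) (𝓝 (rho v 0)) := by
      refine h1.congr' ?_
      filter_upwards [self_mem_nhdsWithin] with κ hκ
      exact (h κ hκ).symm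
    exact tendsto_nhds_unique h2 h4
  refine ⟨muv_sFinite v, muv_zero v, ?_⟩
  filter_upwards [ae_restrict_mem measurableSet_Ioi] with x hx
  have hx' : (0 : ℝ) < x := hx
  have hPhi : Phi 2 0 ρ R x = rho v 0 ^ 2 - rho v x ^ 2 := by
    unfold Phi FF
    rw [h x hx', hR]
    simp
  have hm := lintegral_muv hv (fun _ => 1) measurable_const (Ioc 0 x) measurableSet_Ioc
  have hS : Ioc (0 : ℝ) x ∩ Ioi 0 = Ioc 0 x := by
    ext y
    simp only [mem_inter_iff, mem_Ioc, mem_Ioi]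
    tauto
  rw [hS] at hm
  simp only [lintegral_const, one_mul, Measure.restrict_apply MeasurableSet.univ, univ_inter, mul_one] at hm
  rw [hm, hPhi, rho_sq hv le_rfl hx'.le, intervalIntegral.integral_of_le hx'.le]
  have hii : IntegrableOn (fun y => 2 * y * (rho v y * v y)) (Ioc 0 x) := by
    have h5 : IntervalIntegrable (fun y => 2 * (y * v y)) volume 0 x :=
      (hv.ii1 le_rfl hx'.le).const_mul 2
    have h6 : ContinuousOn (rho v) (uIcc 0 x) := by
      rw [uIcc_of_le hx'.le]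
      exact hv.rho_cont.mono Icc_subset_Ici_self
    have h7 := h5.mul_continuousOn h6
    rw [intervalIntegrable_iff_integrableOn_Ioc_of_le hx'.le] at h7
    refine h7.congr (Eventually.of_forall fun y => ?_)
    show 2 * (y * v y) * rho v y = 2 * y * (rho v y * v y)
    ring
  rw [ofReal_integral_eq_lintegral_ofReal hii]
  filter_upwards [ae_restrict_mem measurableSet_Ioc] with y hy
  have hy' : (0 : ℝ) < y := hy.1
  exact mul_nonneg (by linarith) (mul_nonneg (hv.rho_nn hy'.le) (hv.nn y))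

end Pool.Agent.R3D
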