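import Pool.Agent.R3D.Defs
import Pool.Agent.RB75.H2c

/-! Module R3D-P5: from the profile to the support function.

`Prof_ell` (RB75.H2c) gives `Prof (fun t => R √(lam²+t²)) (fun t => R (t/√(lam²+t²))) R 0`. `ρ t → K` and `ρ t → R` at infinity, so `K = R`.
`Prof.H_int` for both: `H t - H 0 = R √(lam²+t²) - R lam`, and `H t - R t → 0`, `R √(lam²+t²) - R t → 0` give `H 0 = R lam`. -/

namespace Pool.Agent.R3D
open MeasureTheory Set Filter Topology Pool.Agent.RB75

theorem H_of_rho {H ρ : ℝ → ℝ} {R lam : ℝ} (hP : Prof H ρ R 0) (hl : 0 < lam) {K : ℝ}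
    (h : ∀ t, 0 < t → ρ t = K * (t / √(lam ^ 2 + t ^ 2))) : ∀ t, 0 ≤ t → H t = R * √(lam ^ 2 + t ^ 2) := by
  have hR := hP.Rpos
  have hE := Prof_ell hR hl
  have hK : K = R := by
    have h1 : Tendsto (fun t => K / R * (R * (t / √(lam ^ 2 + t ^ 2)))) atTop (𝓝 (K / R * R)) :=
      hE.lim.const_mul _
    have h2 : Tendsto ρ atTop (𝓝 (K / R * R)) := by
      refine h1.congr' ?_
      filter_upwards [eventually_gt_atTop 0] with t ht
      rw [h t ht]
      field_simp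
    have h3 := tendsto_nhds_unique h2 hP.lim
    rw [div_mul_cancel₀ K hR.ne'] at h3
    exact h3
  have hint : ∀ t, 0 ≤ t → ∫ s in (0 : ℝ)..t, ρ s = ∫ s in (0 : ℝ)..t, R * (s / √(lam ^ 2 + s ^ 2)) := by
    intro t ht
    refine intervalIntegral.integral_congr_ae (Filter.Eventually.of_forall fun s hs => ?_)
    rw [uIoc_of_le ht] at hs
    rw [h s hs.1, hK]
  have hdiff : ∀ t, 0 ≤ t → H t - R * √(lam ^ 2 + t ^ 2) = H 0 - R * √(lam ^ 2 + 0 ^ 2) := by
    intro t ht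
    have h1 := hP.H_int t ht
    have h2 : R * √(lam ^ 2 + t ^ 2) = R * √(lam ^ 2 + 0 ^ 2) +
      ∫ s in (0 : ℝ)..t, R * (s / √(lam ^ 2 + s ^ 2)) := hE.H_int t ht
    rw [h1, hint t ht, h2]
    ring
  have hzero : H 0 - R * √(lam ^ 2 + 0 ^ 2) = 0 := by
    have h1 : Tendsto (fun t => (H t - R * t) - (R * √(lam ^ 2 + t ^ 2) - R * t)) atTop (𝓝 (0 - 0)) :=
      hP.blim.sub hE.blim
    have h2 : Tendsto (fun _ : ℝ => H 0 - R * √(lam ^ 2 + 0 ^ 2)) atTop (𝓝 (0 - 0)) := by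
      refine h1.congr' ?_
      filter_upwards [eventually_ge_atTop 0] with t ht
      rw [← hdiff t ht]
      ring
    rw [sub_zero] at h2
    exact tendsto_nhds_unique tendsto_const_nhds h2
  intro t ht
  have h1 := hdiff t ht
  rw [hzero] at h1
  linarith

end Pool.Agent.R3D
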