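import Pool.Agent.R3D.P1
import Pool.Agent.R3D.P2
import Pool.Agent.R3D.P3
import Pool.Agent.R3D.P4
import Pool.Agent.R3D.P5
import Pool.Agent.R3D.MAIN3
import Pool.Agent.RB75.A11
import Pool.Agent.RB75.Classify

/-! Assembly: classification of pairs of profiles, `n = 2`. -/

namespace Pool.Agent.R3D
open MeasureTheory Set Filter Topology Pool.Agent.RB75

/-- a pair of bodies, each the projection body of the other up to constants -/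
structure SPair2 (C₀ C₁ : ℝ) (H₀ ρ₀ : ℝ → ℝ) (R₀ b₀ : ℝ) (H₁ ρ₁ : ℝ → ℝ) (R₁ b₁ : ℝ) : Prop where
  hC0 : 0 < C₀
  hC1 : 0 < C₁
  prof0 : Prof H₀ ρ₀ R₀ b₀
  prof1 : Prof H₁ ρ₁ R₁ b₁
  star0 : Star2 C₀ ρ₀ R₀ b₀ H₁
  star1 : Star2 C₁ ρ₁ R₁ b₁ H₀

theorem SPair2.symm {C₀ C₁ : ℝ} {H₀ ρ₀ : ℝ → ℝ} {R₀ b₀ : ℝ} {H₁ ρ₁ : ℝ → ℝ} {R₁ b₁ : ℝ}
    (h : SPair2 C₀ C₁ H₀ ρ₀ R₀ b₀ H₁ ρ₁ R₁ b₁) : SPair2 C₁ C₀ H₁ ρ₁ R₁ b₁ H₀ ρ₀ R₀ b₀ :=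
  ⟨h.hC1, h.hC0, h.prof1, h.prof0, h.star1, h.star0⟩

/-- everything we know about body 1 from body 0. -/
theorem SPair2.half {C₀ C₁ : ℝ} {H₀ ρ₀ : ℝ → ℝ} {R₀ b₀ : ℝ} {H₁ ρ₁ : ℝ → ℝ} {R₁ b₁ : ℝ}
    (h : SPair2 C₀ C₁ H₀ ρ₀ R₀ b₀ H₁ ρ₁ R₁ b₁) :
    ∃ (W : ℝ → ENNReal) (f₁ : ℝ), Measurable W ∧ H₁ 0 = C₀ * (Real.pi / 2) * R₀ ^ 2 ∧ f₁ = 2 * C₀ * R₀ * b₀ ∧
      (∀ κ, 0 < κ → f₁ ≤ ρ₁ (1 / κ) ∧
        ∫⁻ x in Ioi κ, ENNReal.ofReal x * W x = ENNReal.ofReal (ρ₁ (1 / κ) - f₁)) ∧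
      Tendsto ρ₁ (𝓝[>] 0) (𝓝 f₁) ∧ f₁ ≤ R₁ ∧ b₁ ≤ H₁ 0 ∧
      ∫⁻ x in Ioi (0 : ℝ), ENNReal.ofReal x * W x = ENNReal.ofReal (R₁ - f₁) ∧
      ∫⁻ x in Ioi (0 : ℝ), W x = ENNReal.ofReal (H₁ 0 - b₁) ∧
      (∀ f₀, Tendsto ρ₀ (𝓝[>] 0) (𝓝 f₀) → f₀ ≤ R₀ → 0 ≤ f₀ → b₁ = C₀ * (Real.pi / 2) * f₀ ^ 2) ∧
      C₀ * (R₀ * (H₀ 0 - b₀)) ≤ R₁ - f₁ := by
  have hΦ := Phi_nonneg h.prof0 2 0
  obtain ⟨μ, hR⟩ := exists_Rep2 (Phi_mono h.prof0 2 0) (Phi_zero h.prof0 2 0)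
  have := hR.sf
  obtain ⟨hH, hρ⟩ := P2 h.hC0 h.star0 h.prof1 hΦ hR
  obtain ⟨e1, e2, e3, e4, e5⟩ := P3 (WW_measurable C₀ μ) h.prof1 hρ
  have hC := h.hC0
  have hpi := Real.pi_pos
  have hRp := h.prof0.Rpos
  refine ⟨WW C₀ μ, _, WW_measurable C₀ μ, hH, rfl, hρ, e5, e2, e4, e1, e3, ?_, ?_⟩
  · intro f₀ hf₀ hfR hf0
    have hmass := P1b hR (Phi_top_zero h.prof0 2 hf₀)
    have h6 := WW_mass hC.le μ
    rw [hmass, e3, ← ENNReal.ofReal_mul (by positivity)] at h6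
    have hfj : 0 ≤ R₀ ^ 2 - f₀ ^ 2 := sub_nonneg.2 (pow_le_pow_left₀ hf0 hfR 2)
    have := (ENNReal.ofReal_eq_ofReal_iff (by linarith) (mul_nonneg (by positivity) hfj)).1 h6
    rw [hH] at this
    nlinarith [this]
  · have h7 := WW_rho0 C₀ μ
    rw [e1, P1c hR] at h7
    have h10 := A10 h.prof0 (j := 2) (by norm_num)
    have h11 : ENNReal.ofReal C₀ * ENNReal.ofReal (R₀ ^ (2 - 1) * (H₀ 0 - b₀)) ≤
        ENNReal.ofReal (R₁ - 2 * C₀ * R₀ * b₀) := by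
      rw [h7]; gcongr
    rw [← ENNReal.ofReal_mul hC.le] at h11
    have h12 := (ENNReal.ofReal_le_ofReal_iff (by linarith)).1 h11
    simpa using h12

/-- `b₀ = b₁ = 0`: the pair is regular. -/
theorem SPair2.regular {C₀ C₁ : ℝ} {H₀ ρ₀ : ℝ → ℝ} {R₀ : ℝ} {H₁ ρ₁ : ℝ → ℝ} {R₁ : ℝ}
    (h : SPair2 C₀ C₁ H₀ ρ₀ R₀ 0 H₁ ρ₁ R₁ 0) :
    ∃ v₀ v₁, Pair3 C₀ C₁ v₀ v₁ ∧ (∀ κ, 0 < κ → ρ₀ (1 / κ) = rho v₀ κ) ∧
      ∀ κ, 0 < κ → ρ₁ (1 / κ) = rho v₁ κ := by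
  obtain ⟨W₁, f₁, a1, a2, a3, a4, a5, a6, a7, a8, a9, -⟩ := h.half
  obtain ⟨W₀, f₀, c1, c2, c3, c4, c5, c6, c7, c8, c9, -⟩ := h.symm.half
  rw [mul_zero] at a3 c3
  subst a3
  subst c3
  rw [sub_zero] at a8 a9 c8 c9
  have hR0 := h.prof0.Rpos
  have hR1 := h.prof1.Rpos
  have hC0 := h.hC0
  have hC1 := h.hC1
  have hpi := Real.pi_pos
  obtain ⟨d1, r1⟩ := dat_of_WW a1 (by rw [a2]; positivity) a8 a9
  obtain ⟨d0, r0⟩ := dat_of_WW c1 (by rw [c2]; positivity) c8 c9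
  have q1 : ∀ κ, 0 < κ → ρ₁ (1 / κ) = rho (fun x => (W₁ x).toReal) κ := by
    intro κ hκ
    have e1 := r1 κ hκ.le
    rw [(a4 κ hκ).2, sub_zero] at e1
    exact ((ENNReal.ofReal_eq_ofReal_iff (d1.rho_nn hκ.le) (h.prof1.nn _ (by positivity))).1 e1).symm
  have q0 : ∀ κ, 0 < κ → ρ₀ (1 / κ) = rho (fun x => (W₀ x).toReal) κ := by
    intro κ hκ
    have e1 := r0 κ hκ.le
    rw [(c4 κ hκ).2, sub_zero] at e1
    exact ((ENNReal.ofReal_eq_ofReal_iff (d0.rho_nn hκ.le) (h.prof0.nn _ (by positivity))).1 e1).symm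
  have step : ∀ {C : ℝ} {H ρ v : ℝ → ℝ} {R : ℝ} {H' ρ' w : ℝ → ℝ} {R' : ℝ}, 0 < C → Prof H ρ R 0 →
      Prof H' ρ' R' 0 → Star2 C ρ R 0 H' → Dat v → Dat w → (∀ κ, 0 < κ → ρ (1 / κ) = rho v κ) →
      (∀ κ, 0 < κ → ρ' (1 / κ) = rho w κ) → Stp C v w := by
    intro C H ρ v R H' ρ' w R' hC hP hP' hS hv hw hρ hρ'
    have hR := rep2_of_dat hv hP hρ
    obtain ⟨-, h2⟩ := P2 hC hS hP' (Phi_nonneg hP 2 0) hR
    have h3 : ∀ κ, 0 < κ → ∫⁻ x in Ioi κ, ENNReal.ofReal x * WW C (muv v) x = ENNReal.ofReal (rho w κ) := by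
      intro κ hκ
      rw [(h2 κ hκ).2, mul_zero, sub_zero, hρ' κ hκ]
    filter_upwards [WW_unique hw (WW_measurable C (muv v)) h3, ae_restrict_mem measurableSet_Ioi] with κ e hκ
    exact (stp_iff hv hC hκ (hw.nn κ)).2 e
  exact ⟨_, _, ⟨hC0, hC1, d0, d1, step hC0 h.prof0 h.prof1 h.star0 d0 d1 q0 q1,
    step hC1 h.prof1 h.prof0 h.star1 d1 d0 q1 q0⟩, q0, q1⟩

/-- `f₀ > 0` implies that `ρ₀` is constant. -/
theorem SPair2.face {C₀ C₁ : ℝ} {H₀ ρ₀ : ℝ → ℝ} {R₀ b₀ : ℝ} {H₁ ρ₁ : ℝ → ℝ} {R₁ b₁ : ℝ}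
    (h : SPair2 C₀ C₁ H₀ ρ₀ R₀ b₀ H₁ ρ₁ R₁ b₁) {f₀ : ℝ} (hf : Tendsto ρ₀ (𝓝[>] 0) (𝓝 f₀))
    (hpos : 0 < f₀) : R₀ = f₀ := by
  obtain ⟨W₁, f₁, a1, a2, a3, a4, a5, a6, a7, a8, a9, a10, a11⟩ := h.half
  obtain ⟨W₀, f₀', c1, c2, c3, c4, c5, c6, c7, c8, c9, c10, c11⟩ := h.symm.half
  have e := tendsto_nhds_unique hf c5
  subst e
  have hb1 := a10 f₀ hf c6 hpos.le
  have hpi := Real.pi_pos
  have hC0 := h.hC0
  have hC1 := h.hC1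
  have hR1 := h.prof1.Rpos
  have hκ : 0 < C₁ * R₁ ^ (2 - 1) * (C₀ * (Real.pi / 2)) := by positivity
  apply A11 (j := 2) le_rfl hκ hpos c6
  · rw [hb1] at c3
    refine c3.trans ?_
    push_cast
    ring
  · rw [a2, hb1] at c11
    calc C₁ * R₁ ^ (2 - 1) * (C₀ * (Real.pi / 2)) * (R₀ ^ 2 - f₀ ^ 2)
        = C₁ * (R₁ * (C₀ * (Real.pi / 2) * R₀ ^ 2 - C₀ * (Real.pi / 2) * f₀ ^ 2)) := by norm_num; ring
      _ ≤ R₀ - f₀ := c11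

/-- **Classification of pairs.** -/
theorem SPair2.classify {C₀ C₁ : ℝ} {H₀ ρ₀ : ℝ → ℝ} {R₀ b₀ : ℝ} {H₁ ρ₁ : ℝ → ℝ} {R₁ b₁ : ℝ}
    (h : SPair2 C₀ C₁ H₀ ρ₀ R₀ b₀ H₁ ρ₁ R₁ b₁) :
    (∃ lam, 0 < lam ∧ (∀ t, 0 ≤ t → H₀ t = R₀ * √(lam ^ 2 + t ^ 2)) ∧
        (∀ t, 0 ≤ t → H₁ t = R₁ * √((1 / lam) ^ 2 + t ^ 2))) ∨
      (0 < b₀ ∧ 0 < b₁ ∧ (∀ t, 0 ≤ t → H₀ t = b₀ + R₀ * t) ∧ (∀ t, 0 ≤ t → H₁ t = b₁ + R₁ * t)) := by
  obtain ⟨W₁, f₁, a1, a2, a3, a4, a5, a6, a7, a8, a9, a10, a11⟩ := h.half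
  obtain ⟨W₀, f₀, c1, c2, c3, c4, c5, c6, c7, c8, c9, c10, c11⟩ := h.symm.half
  have hpi := Real.pi_pos
  have hC0 := h.hC0
  have hC1 := h.hC1
  have hR0 := h.prof0.Rpos
  have hR1 := h.prof1.Rpos
  have hf0nn : 0 ≤ f₀ := by
    rw [c3]
    have := h.prof1.bnn
    positivity
  have hf1nn : 0 ≤ f₁ := by
    rw [a3]
    have := h.prof0.bnn
    positivity
  have hb1 := a10 f₀ c5 c6 hf0nn
  have hb0 := c10 f₁ a5 a6 hf1nn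
  have full0 : 0 < f₀ → 0 < b₀ := by
    intro hpos
    have e := h.face c5 hpos
    have hH := h.prof0.const_of_face c5 e 0 le_rfl
    rw [mul_zero, add_zero] at hH
    rw [← hH, c2]
    positivity
  have full1 : 0 < f₁ → 0 < b₁ := by
    intro hpos
    have e := h.symm.face a5 hpos
    have hH := h.prof1.const_of_face a5 e 0 le_rfl
    rw [mul_zero, add_zero] at hH
    rw [← hH, a2]
    positivity
  have g1 : 0 < b₀ → 0 < f₁ := by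
    intro hb
    rw [a3]
    positivity
  rcases eq_or_lt_of_le hf0nn with e | hpos
  · -- regular case
    left
    have hb1' : b₁ = 0 := by rw [hb1, ← e]; ring
    have hf1 : f₁ = 0 := by
      rcases eq_or_lt_of_le hf1nn with e' | h'
      · exact e'.symm
      · exfalso
        have := full1 h'
        linarith
    have hb0' : b₀ = 0 := by rw [hb0, hf1]; ring
    subst hb1'
    subst hb0'
    obtain ⟨v₀, v₁, hp, q0, q1⟩ := h.regular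
    obtain ⟨p, K₀, K₁, hp0, hK0, hK1, r0, r1⟩ := hp.main
    have hsp : 0 < √p := Real.sqrt_pos.2 hp0
    have hspsq : √p ^ 2 = p := Real.sq_sqrt hp0.le
    refine ⟨1 / √p, by positivity, ?_, ?_⟩
    · apply H_of_rho h.prof0 (by positivity) (K := K₀ / √p)
      intro t ht
      have e1 := q0 (1 / t) (by positivity)
      rw [one_div_one_div, r0 _ (by positivity)] at e1
      rw [e1]
      have e2 : √(p + (1 / t) ^ 2) = √p * (√((1 / √p) ^ 2 + t ^ 2) / t) := by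
        rw [eq_comm]
        have h1 : √p * (√((1 / √p) ^ 2 + t ^ 2) / t) = √p * √((1 / √p) ^ 2 + t ^ 2) / t := by ring
        have h2 : √p * √((1 / √p) ^ 2 + t ^ 2) = √(1 + p * t ^ 2) := by
          rw [← Real.sqrt_mul hp0.le]
          congr 1
          rw [div_pow, hspsq]
          field_simp
        rw [h1, h2]
        rw [show p + (1 / t) ^ 2 = (1 + p * t ^ 2) / t ^ 2 by field_simp; ring, Real.sqrt_div (by positivity),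
          Real.sqrt_sq ht.le]
      rw [e2]
      have h3 : 0 < √((1 / √p) ^ 2 + t ^ 2) := Real.sqrt_pos.2 (by positivity)
      field_simp
    · apply H_of_rho h.prof1 (by positivity) (K := K₁)
      intro t ht
      have e1 := q1 (1 / t) (by positivity)
      rw [one_div_one_div, r1 _ (by positivity)] at e1
      rw [e1, one_div_one_div, hspsq]
      have e2 : √(1 + p * (1 / t) ^ 2) = √(p + t ^ 2) / t := by
        rw [show 1 + p * (1 / t) ^ 2 = (p + t ^ 2) / t ^ 2 by field_simp; ring, Real.sqrt_div (by positivity),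
          Real.sqrt_sq ht.le]
      rw [e2]
      have h3 : 0 < √(p + t ^ 2) := Real.sqrt_pos.2 (by positivity)
      field_simp
  · right
    have hb0p := full0 hpos
    have hf1p := g1 hb0p
    have hb1p := full1 hf1p
    exact ⟨hb0p, hb1p, h.prof0.const_of_face c5 (h.face c5 hpos),
      h.prof1.const_of_face a5 (h.symm.face a5 hf1p)⟩

end Pool.Agent.R3D
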