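import Pool.Agent.RB75.ADefs

/-!
# Bodies of revolution in `ℝ³` and classical projection bodies: definitions (project R3D)

Continuation of `Pool.Agent.RB75` (dimension `≥ 4`) to dimension three (`n = 2`, `j = 2`, `l = 0`).

Notation. `H t = h_K(t f + e)`, `ρ_t = H'` (the `Prof` of RB75). In this project the profile is read in the
variable `κ = 1/t`: `v(κ) = t³ H''(t)`, `rho v κ = ∫_κ^∞ x v(x) dx = H'(1/κ)` (nonincreasing in `κ`),
`zed v κ = ∫_0^κ v = H(t) - t H'(t)` at `t = 1/κ`. If `w` is the function of `Π K` and `v` the one of `K`, then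
`w(κ) = 2 C ∫_0^{1/κ} s² rho(s) v(s) / √(1-κ²s²) ds` (`StpAt`), and (modules T2, T3)
`zed w κ = C κ ∫_0^{1/κ} rho(s)² / √(1-κ²s²) ds`, `rho w κ = 2 C ∫_0^{1/κ} rho(s) v(s) √(1-κ²s²) ds`.
-/

namespace Pool.Agent.R3D

open MeasureTheory Set Filter Topology Pool.Agent.RB75

/-- The formula for the support function `H'` of the projection body (`n = 2`, constant `C`). -/
structure Star2 (C : ℝ) (ρ : ℝ → ℝ) (R b : ℝ) (H' : ℝ → ℝ) : Prop where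
  int : ∀ t, 0 < t → IntegrableOn (fun z => Phi 2 0 ρ R (t * z) * √(1 - z ^ 2) / z ^ 2) (Ioo 0 1)
  eq : ∀ t, 0 < t → H' t = C * (Real.pi / 2 * R ^ 2 + 2 * R * b * t +
    ∫ z in Ioo (0 : ℝ) 1, Phi 2 0 ρ R (t * z) * √(1 - z ^ 2) / z ^ 2)

/-- The density of one body: `v ≥ 0`, `∫ v < ∞`, `∫ x v(x) dx < ∞`, `v` not zero. -/
structure Dat (v : ℝ → ℝ) : Prop where
  meas : Measurable v
  nn : ∀ x, 0 ≤ v x
  int0 : IntegrableOn v (Ioi 0)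
  int1 : IntegrableOn (fun x => x * v x) (Ioi 0)
  pos : 0 < ∫ x in Ioi (0 : ℝ), v x

/-- `rho v κ = ∫_κ^∞ x v(x) dx`. -/
noncomputable def rho (v : ℝ → ℝ) (κ : ℝ) : ℝ := ∫ x in Ioi κ, x * v x

/-- `zed v κ = ∫_0^κ v`. -/
noncomputable def zed (v : ℝ → ℝ) (κ : ℝ) : ℝ := ∫ x in (0 : ℝ)..κ, v x

/-- the integrand of the step `v ↦ w`. -/
noncomputable def stpf (v : ℝ → ℝ) (κ s : ℝ) : ℝ := s ^ 2 * (rho v s * v s) / √(1 - κ ^ 2 * s ^ 2)

/-- `w` is given at `κ` by the step from `v`. -/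
def StpAt (C : ℝ) (v w : ℝ → ℝ) (κ : ℝ) : Prop :=
  IntervalIntegrable (stpf v κ) volume 0 (1 / κ) ∧ w κ = 2 * C * ∫ s in (0 : ℝ)..(1 / κ), stpf v κ s

/-- `w` is given by the step from `v` almost everywhere. -/
def Stp (C : ℝ) (v w : ℝ → ℝ) : Prop := ∀ᵐ κ ∂(volume.restrict (Ioi (0 : ℝ))), StpAt C v w κ

/-- A pair of bodies, each the projection body of the other (up to constants). -/
structure Pair3 (C₀ C₁ : ℝ) (v₀ v₁ : ℝ → ℝ) : Prop where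
  hC0 : 0 < C₀
  hC1 : 0 < C₁
  d0 : Dat v₀
  d1 : Dat v₁
  s0 : Stp C₀ v₀ v₁
  s1 : Stp C₁ v₁ v₀

theorem Pair3.symm {C₀ C₁ : ℝ} {v₀ v₁ : ℝ → ℝ} (h : Pair3 C₀ C₁ v₀ v₁) : Pair3 C₁ C₀ v₁ v₀ :=
  ⟨h.hC1, h.hC0, h.d1, h.d0, h.s1, h.s0⟩

/-- the deficiency of the first comparison, `E_p = rho - (p + s²) v`; `p = λ⁻²`. It vanishes identically iff
`rho √(p + s²)` is constant. -/
noncomputable def defE (p : ℝ) (v : ℝ → ℝ) (s : ℝ) : ℝ := rho v s - (p + s ^ 2) * v s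

/-- the deficiency of the second comparison, `e_p = zed - s (1 + p s²) v`. -/
noncomputable def defe (p : ℝ) (v : ℝ → ℝ) (s : ℝ) : ℝ := zed v s - s * (1 + p * s ^ 2) * v s

/-- `D_p(s) = zed v s / s - p rho v s = ∫_s^∞ e_p(x)/x² dx`. -/
noncomputable def defD (p : ℝ) (v : ℝ → ℝ) (s : ℝ) : ℝ := zed v s / s - p * rho v s

/-- `W(κ) = C ∫_{0<y<1/κ} y/√(1-κ²y²) dμ(y)`, the density of the projection body when `μ` is the measure of `Phi`. -/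
noncomputable def WW (C : ℝ) (μ : Measure ℝ) (κ : ℝ) : ENNReal :=
  ENNReal.ofReal C * ∫⁻ y in Ioo 0 (1 / κ), ENNReal.ofReal (y / √(1 - κ ^ 2 * y ^ 2)) ∂μ

/-- `μ` is the (Stieltjes) measure of the nondecreasing function `Φ` on `(0,∞)`, `Φ(0+) = 0`. -/
structure Rep2 (Φ : ℝ → ℝ) (μ : Measure ℝ) : Prop where
  sf : SFinite μ
  zero : μ (Iic 0) = 0
  ae : ∀ᵐ x ∂(volume.restrict (Ioi (0 : ℝ))), μ (Ioc 0 x) = ENNReal.ofReal (Φ x)

end Pool.Agent.R3D
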