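import Pool.Agent.R3D.G6
import Pool.Agent.R3D.H4
import Pool.Agent.RB75.Final

/-! Assembly: classical projection bodies of ellipsoids of revolution and cylinders in `ℝ³`. -/

namespace Pool.Agent.R3D
open MeasureTheory Set Filter Topology Pool.Agent.RB75
open scoped RealInnerProductSpace

/-- criterion for `L = Π_n K`. -/
theorem projBody_of2 {K L : Set (E (2 + 1))} (hK : CCN K) (hL : CCN L) {e : E (2 + 1)}
    (he : ‖e‖ = 1) {H ρ HL : ℝ → ℝ} {R b RL : ℝ} (h : AxSym e K H R) (hP : Prof H ρ R b) (hl : AxSym e L HL RL)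
    (ha : HL 0 = cc 2 * (Real.pi / 2) * R ^ 2)
    (hb : RL = cc 2 * (2 * R * b + ∫ T in Ioi (0 : ℝ), (R ^ 2 - ρ T ^ 2)))
    (hc : ∀ t, 0 < t → HL t = cc 2 * ((Real.pi / 2) * R ^ 2 + 2 * R * b * t +
        ∫ z in Ioo (0 : ℝ) 1, Phi 2 0 ρ R (t * z) * √(1 - z ^ 2) / z ^ 2)) :
    IsProjBody 2 K L := by
  refine ⟨hL.compact, hL.convex, hL.nonempty, fun u hu ι hι => ?_⟩
  have hk0 : kap (2 - 2) = 1 := by rw [Nat.sub_self, kap_zero]
  have hR := hP.Rpos
  by_cases h0 : ⟪u, e⟫ = 0
  · -- equator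
    have heu : ⟪e, u⟫ = 0 := by rw [real_inner_comm]; exact h0
    obtain ⟨w', hw'⟩ := iota_surj hu ι hι heu
    obtain ⟨hw1, hax⟩ := shadow_AxSym_equator hK he hu h0 h ι hι hw'
    rw [intrVol_iff (by omega) le_rfl (shadow_CCN hK hu ι hι) hw1 hax hP, hk0, one_mul, sc_top, hl.eq u h0, hu,
      mul_one, hb]
    norm_num
  · by_cases h1 : perp e u = 0
    · -- pole
      have hue : u = e ∨ u = -e := by
        have h2 : u = ⟪u, e⟫ • e := by
          unfold perp at h1; exact sub_eq_zero.1 h1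
        have h3 : |⟪u, e⟫| = 1 := by
          have := congrArg norm h2
          rw [norm_smul, he, hu, mul_one, Real.norm_eq_abs] at this
          exact this.symm
        rcases (abs_eq (by norm_num : (0 : ℝ) ≤ 1)).1 h3 with h4 | h4
        · left; rw [h4, one_smul] at h2; exact h2
        · right; rw [h4, neg_one_smul] at h2; exact h2
      obtain ⟨w, hw, -⟩ := exists_unit_perp (k := 2) (by omega) (0 : E 2)
      have hax := shadow_AxSym_pole hK he hue h ι hι hw
      rw [intrVol_iff (by omega) le_rfl (shadow_CCN hK hu ι hι) hw hax (Prof_ell hR one_pos), hk0, one_mul, sc_top,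
        H4a one_pos]
      have h5 : supp L u = HL 0 := by
        rw [hl.ne u h0, h1, norm_zero, zero_div]
        have h3 : |⟪u, e⟫| = 1 := by
          rcases hue with h4 | h4
          · rw [h4, real_inner_self_eq_norm_sq, he]; norm_num
          · rw [h4, inner_neg_left, real_inner_self_eq_norm_sq, he]; norm_num
        rw [h3, one_mul]
      rw [h5, ha]; ring
    · -- generic direction
      set α := ⟪u, e⟫ with hα
      have hα0 : 0 < |α| := abs_pos.2 h0
      have hp0 : 0 < ‖perp e u‖ := norm_pos_iff.2 h1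
      set t := ‖perp e u‖ / |α| with ht
      have ht0 : 0 < t := by positivity
      -- unit vectors
      set f : E (2 + 1) := (‖perp e u‖)⁻¹ • perp e u with hf
      have hf1 : ‖f‖ = 1 := by
        rw [hf, norm_smul, norm_inv, norm_norm, inv_mul_cancel₀ hp0.ne']
      set e' : E (2 + 1) := (α / |α|) • e with he'
      have hαα : abs (α / |α|) = 1 := by rw [abs_div, abs_abs, div_self hα0.ne']
      have he'1 : ‖e'‖ = 1 := by rw [he', norm_smul, he, mul_one, Real.norm_eq_abs, hαα]
      have hfe : ⟪f, e⟫ = 0 := by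
        rw [hf, real_inner_smul_left, inner_perp he, mul_zero]
      have hfe' : ⟪f, e'⟫ = 0 := by rw [he', real_inner_smul_right, hfe, mul_zero]
      have hs : √(1 + t ^ 2) = 1 / |α| := by
        have h6 : ‖perp e u‖ ^ 2 = 1 - α ^ 2 := by
          rw [norm_perp_sq he, hu, ← hα]; norm_num
        have h7 : 1 + t ^ 2 = (1 / |α|) ^ 2 := by
          rw [ht, div_pow, h6, one_div, inv_pow, sq_abs]
          have : α ^ 2 ≠ 0 := pow_ne_zero 2 h0
          field_simp
          ring
        rw [h7, Real.sqrt_sq (by positivity)]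
      have hdec : u = (√(1 + t ^ 2))⁻¹ • (t • f + e') := by
        have h8 : u = perp e u + α • e := by unfold perp; rw [← hα]; abel
        rw [hs, hf, he', ht]
        rw [one_div, inv_inv, smul_add, smul_smul, smul_smul, smul_smul]
        have e1 : |α| * (‖perp e u‖ / |α|) * ‖perp e u‖⁻¹ = 1 := by field_simp
        have e2 : |α| * (α / |α|) = α := by field_simp
        rw [e1, e2, one_smul]
        exact h8
      have hax' : AxSym e' K H R := by
        rcases (abs_eq (by norm_num : (0 : ℝ) ≤ 1)).1 hαα with h9 | h9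
        · rw [he', h9, one_smul]; exact h
        · rw [he', h9, neg_one_smul]; exact h.neg
      have hι' : ∀ y, ⟪ι y, (√(1 + t ^ 2))⁻¹ • (t • f + e')⟫ = 0 := by rw [← hdec]; exact hι
      have key := shadow_intrVol2 hK he'1 hf1 hfe' hax' hP ht0 ι hι' (supp L u)
      rw [← hdec] at key
      rw [key, ← hc t ht0, hl.ne u h0, ← hα, ← ht, hs]
      field_simp

theorem cyl_projBody2 {e : E (2 + 1)} (he : ‖e‖ = 1) {R b : ℝ} (hR : 0 < R) (hb : 0 < b) :
    IsProjBody 2 (Cyl e R b)
      (Cyl e (cc 2 * (2 * R * b)) (cc 2 * (Real.pi / 2) * R ^ 2)) := by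
  have hcc := cc_pos (k := 2) (by omega)
  have hJ : 0 < (Real.pi / 2) := by positivity
  have h1 : 0 < cc 2 * (2 * R * b) := by positivity
  have h2 : 0 < cc 2 * (Real.pi / 2) * R ^ 2 := by positivity
  apply projBody_of2 (Cyl_CCN he hR hb) (Cyl_CCN he h1 h2) he (Cyl_AxSym (by omega) he hR hb) (Prof_cyl hR hb)
    (Cyl_AxSym (by omega) he h1 h2)
  · ring
  · simp
  · intro t ht
    have : ∀ z : ℝ, Phi 2 0 (fun _ => R) R (t * z) * √(1 - z ^ 2) / z ^ 2 = 0 := by
      intro z; unfold Phi FF; simp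
    simp only [this, integral_zero]
    ring

theorem ell_projBody2 {e : E (2 + 1)} (he : ‖e‖ = 1) {R lam : ℝ} (hR : 0 < R) (hl : 0 < lam) :
    IsProjBody 2 (Ell e R lam) (Ell e (cc 2 * (Real.pi / 2) * R ^ 2 * lam) (1 / lam)) := by
  have hcc := cc_pos (k := 2) (by omega)
  have hJ : 0 < (Real.pi / 2) := by positivity
  have h1 : 0 < cc 2 * (Real.pi / 2) * R ^ 2 * lam := by positivity
  have h2 : 0 < 1 / lam := by positivity
  apply projBody_of2 (Ell_CCN he hR hl) (Ell_CCN he h1 h2) he (Ell_AxSym (by omega) he hR hl) (Prof_ell hR hl)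
    (Ell_AxSym (by omega) he h1 h2)
  · rw [zero_pow two_ne_zero, add_zero, Real.sqrt_sq h2.le]
    field_simp
  · rw [H4a hl]; ring
  · intro t ht
    have hb := ball_identity2 (t := lam * t) (by positivity)
    have e1 : ∀ z ∈ Ioo (0 : ℝ) 1, Phi 2 0 (fun t => R * (t / √(lam ^ 2 + t ^ 2))) R (t * z) *
        √(1 - z ^ 2) / z ^ 2 =
        R ^ 2 * ((1 - sg (1 / (lam * t * z)) ^ 2) * √(1 - z ^ 2) / z ^ 2) := by
      intro z hz
      have hz0 : 0 < z := hz.1
      have h3 : (1 / (t * z)) / √(lam ^ 2 + (1 / (t * z)) ^ 2) = sg (1 / (lam * t * z)) := by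
        unfold sg
        have h4 : √(1 + (1 / (lam * t * z)) ^ 2) = √(lam ^ 2 + (1 / (t * z)) ^ 2) / lam := by
          rw [← Real.sqrt_sq hl.le, ← Real.sqrt_div (by positivity), Real.sqrt_sq hl.le]
          congr 1
          field_simp
        rw [h4]
        have h5 : 0 < √(lam ^ 2 + (1 / (t * z)) ^ 2) := by positivity
        field_simp
      unfold Phi FF
      simp only [pow_zero, mul_one]
      rw [h3, mul_pow]
      ring
    rw [setIntegral_congr_fun measurableSet_Ioo e1, integral_const_mul]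
    have h6 : √((1 / lam) ^ 2 + t ^ 2) = √(1 + (lam * t) ^ 2) / lam := by
      rw [← Real.sqrt_sq hl.le, ← Real.sqrt_div (by positivity), Real.sqrt_sq hl.le]
      congr 1
      field_simp
    rw [h6]
    have h7 : ∫ z in Ioo (0 : ℝ) 1, (1 - sg (1 / (lam * t * z)) ^ 2) * √(1 - z ^ 2) / z ^ 2 =
        (Real.pi / 2) * √(1 + (lam * t) ^ 2) - (Real.pi / 2) := by linarith
    rw [h7]
    field_simp
    ring

end Pool.Agent.R3D
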