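import Pool.Agent.R3D.FW
import Pool.Agent.R3D.H5
import Pool.Agent.RB75.Final

/-! Final assembly in `ℝ³`. -/

namespace Pool.Agent.R3D
open MeasureTheory Set Filter Topology Pool.Agent.RB75
open scoped RealInnerProductSpace

theorem converse_ell2 {K : Set (E (2 + 1))} (hK : IsEllRev K) :
    ∃ L M, IsProjBody 2 K L ∧ IsProjBody 2 L M ∧ Homothetic K M := by
  obtain ⟨p, e, he, r, s, hr, hs, rfl⟩ := hK
  have hcc := cc_pos (k := 2) (by omega)
  have hJ : 0 < Real.pi / 2 := by positivity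
  have hsr : 0 < s / r := by positivity
  have hR1 : 0 < cc 2 * (Real.pi / 2) * r ^ 2 * (s / r) := by positivity
  have h1 := ell_projBody2 he hr hsr
  have h2 := ell_projBody2 he hR1 (lam := 1 / (s / r)) (by positivity)
  refine ⟨_, _, projBody_translate' h1 (ell_shift he hr hs), h2, ?_⟩
  rw [ell_shift he hr hs, one_div_one_div]
  exact ell_hom he hr (by positivity) hsr

theorem converse_cyl2 {K : Set (E (2 + 1))} {r s : ℝ} (hK : IsCyl K r s) :
    ∃ L M, IsProjBody 2 K L ∧ IsProjBody 2 L M ∧ Homothetic K M := by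
  obtain ⟨p, e, he, hr, hs, rfl⟩ := hK
  have hcc := cc_pos (k := 2) (by omega)
  have hJ : 0 < Real.pi / 2 := by positivity
  have h1 := cyl_projBody2 he hr hs
  have hR1 : 0 < cc 2 * (2 * r * s) := by positivity
  have hb1 : 0 < cc 2 * (Real.pi / 2) * r ^ 2 := by positivity
  have h2 := cyl_projBody2 he hR1 hb1
  refine ⟨_, _, projBody_translate' h1 cyl_shift, h2, ?_⟩
  rw [cyl_shift]
  apply cyl_hom hr (by positivity) hs
  ring

theorem converse_cyl1' {K : Set (E (2 + 1))} {r s : ℝ} (hK : IsCyl K r s)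
    (h : Real.pi * r ^ 2 = 4 * s ^ 2) :
    ∃ L, IsProjBody 2 K L ∧ Homothetic K L := by
  obtain ⟨p, e, he, hr, hs, rfl⟩ := hK
  have hcc := cc_pos (k := 2) (by omega)
  have hJ : 0 < Real.pi / 2 := by positivity
  have h1 := cyl_projBody2 he hr hs
  refine ⟨_, projBody_translate' h1 cyl_shift, ?_⟩
  rw [cyl_shift]
  apply cyl_hom hr (by positivity) hs
  calc cc 2 * (Real.pi / 2) * r ^ 2 * r = cc 2 / 2 * r * (Real.pi * r ^ 2) := by ring
    _ = cc 2 / 2 * r * (4 * s ^ 2) := by rw [h]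
    _ = s * (cc 2 * (2 * r * s)) := by ring

theorem ball_isEllRev {K : Set (E (2 + 1))} (h : IsBall K) : IsEllRev K := by
  obtain ⟨p, r, hr, rfl⟩ := h
  obtain ⟨e, he, -⟩ := exists_unit_perp (k := 2 + 1) (by norm_num) (0 : E (2 + 1))
  refine ⟨p, e, he, r, r, hr, hr, ?_⟩
  ext x
  have h1 : ‖x - p‖ ^ 2 = ‖perp e (x - p)‖ ^ 2 + ⟪x - p, e⟫ ^ 2 := by rw [norm_perp_sq he]; ring
  simp only [mem_closedBall_iff_norm, Set.mem_ofPred_eq]
  rw [← add_div, ← h1, div_le_one (by positivity)]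
  constructor
  · intro h; exact pow_le_pow_left₀ (norm_nonneg _) h 2
  · intro h; exact le_of_sq_le_sq h hr.le

/-- **Main theorem.** `K` a convex body of revolution in `ℝ³`. -/
theorem main_result3 (K : Set (E 3)) (hK : IsRevBody K) :
    ((∃ L M : Set (E 3), IsProjBody 2 K L ∧ IsProjBody 2 L M ∧ Homothetic K M) ↔
      (IsEllRev K ∨ ∃ r s, IsCyl K r s)) ∧
    ((∃ L : Set (E 3), IsProjBody 2 K L ∧ Homothetic K L) ↔
      (IsBall K ∨ ∃ r s, Real.pi * r ^ 2 = 4 * s ^ 2 ∧ IsCyl K r s)) := by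
  refine ⟨⟨?_, ?_⟩, ⟨?_, ?_⟩⟩
  · rintro ⟨L, M, h1, h2, h3⟩
    exact forward2 hK h1 h2 h3
  · rintro (h | ⟨r, s, h⟩)
    · exact converse_ell2 h
    · exact converse_cyl2 h
  · rintro ⟨L, h1, h2⟩
    exact forward1 hK h1 h2
  · rintro (h | ⟨r, s, h, h'⟩)
    · exact converse_ball1 (k := 2) (j := 2) le_rfl h
    · exact converse_cyl1' h' h

end Pool.Agent.R3D
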