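import Pool.Agent.R3D.Defs
import Pool.Agent.RB75.G10

/-! Module R3D-G10: `Star2` implies that `H'` is unbounded (the proof of `Pool.Agent.RB75.Star.unbounded` with
`√(1-z²)^(m+2)` replaced by `√(1-z²)`, `JJ m` by `π/2`, `j = 2`, `l = 0`). -/

namespace Pool.Agent.R3D
open MeasureTheory Set Filter Topology Pool.Agent.RB75

private theorem g10_int_nonneg {H ρ : ℝ → ℝ} {R b : ℝ} (hP : Prof H ρ R b) (t : ℝ) (ht : 0 < t) :
    ∀ z ∈ Ioo (0 : ℝ) 1, 0 ≤ Phi 2 0 ρ R (t * z) * √(1 - z ^ 2) / z ^ 2 := by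
  intro z hz
  have h1 := Phi_nonneg hP 2 0 (t * z) (mul_pos ht hz.1)
  have h2 : 0 ≤ √(1 - z ^ 2) := Real.sqrt_nonneg _
  positivity

private theorem g10_pos_aux {H ρ : ℝ → ℝ} {R b : ℝ} (hP : Prof H ρ R b) (t : ℝ) (ht : 0 < t) :
    0 ≤ ∫ z in Ioo (0 : ℝ) 1, Phi 2 0 ρ R (t * z) * √(1 - z ^ 2) / z ^ 2 :=
  setIntegral_nonneg measurableSet_Ioo (g10_int_nonneg hP t ht)

private theorem g10_lower {C : ℝ} {H ρ H' : ℝ → ℝ} {R b : ℝ}
    (hP : Prof H ρ R b) (hS : Star2 C ρ R b H') {x t : ℝ} (hx : 0 < x) (ht : 4 * x ≤ t) :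
    Phi 2 0 ρ R x * (1 / 2) * t / (4 * x) ≤
      ∫ z in Ioo (0 : ℝ) 1, Phi 2 0 ρ R (t * z) * √(1 - z ^ 2) / z ^ 2 := by
  have ht0 : 0 < t := by linarith
  have hΦ := Phi_nonneg hP 2 0 x hx
  have hsub : Ioo (x / t) (2 * x / t) ⊆ Ioo (0 : ℝ) 1 := by
    intro z hz
    refine ⟨lt_trans (by positivity) hz.1, hz.2.trans_le ?_⟩
    rw [div_le_one ht0]
    linarith
  have hint := hS.int t ht0
  have h1 : ∫ z in Ioo (x / t) (2 * x / t), Phi 2 0 ρ R (t * z) * √(1 - z ^ 2) / z ^ 2 ≤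
      ∫ z in Ioo (0 : ℝ) 1, Phi 2 0 ρ R (t * z) * √(1 - z ^ 2) / z ^ 2 := by
    refine setIntegral_mono_set hint ?_ (LE.le.eventuallyLE hsub)
    filter_upwards [ae_restrict_mem measurableSet_Ioo] with z hz
    exact g10_int_nonneg hP t ht0 z hz
  have h2 : ∫ _z in Ioo (x / t) (2 * x / t), Phi 2 0 ρ R x * (1 / 2) * (t ^ 2 / (4 * x ^ 2)) ≤
      ∫ z in Ioo (x / t) (2 * x / t), Phi 2 0 ρ R (t * z) * √(1 - z ^ 2) / z ^ 2 := by
    refine setIntegral_mono_on (integrableOn_const (by simp)) (hint.mono_set hsub)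
      measurableSet_Ioo ?_
    intro z hz
    have hz0 : 0 < z := (hsub hz).1
    have hz1 : z ≤ 1 / 2 := by
      refine hz.2.le.trans ?_
      rw [div_le_iff₀ ht0]
      linarith
    have e1 : Phi 2 0 ρ R x ≤ Phi 2 0 ρ R (t * z) := by
      apply Phi_mono hP 2 0 (mem_Ioi.2 hx) (mem_Ioi.2 (mul_pos ht0 hz0))
      have := hz.1.le
      rw [div_le_iff₀ ht0] at this
      linarith
    have e2 : (1 / 2 : ℝ) ≤ √(1 - z ^ 2) := by
      apply Real.le_sqrt_of_sq_le
      nlinarith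
    have e4 : t ^ 2 / (4 * x ^ 2) ≤ 1 / z ^ 2 := by
      rw [div_le_div_iff₀ (by positivity) (by positivity), one_mul]
      have := hz.2.le
      rw [le_div_iff₀ ht0] at this
      have h5 : (z * t) ^ 2 ≤ (2 * x) ^ 2 := pow_le_pow_left₀ (by positivity) this 2
      nlinarith
    rw [div_eq_mul_one_div (Phi 2 0 ρ R (t * z) * √(1 - z ^ 2))]
    have e5 : Phi 2 0 ρ R x * (1 / 2) ≤ Phi 2 0 ρ R (t * z) * √(1 - z ^ 2) :=
      mul_le_mul e1 e2 (by positivity) (hΦ.trans e1)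
    exact mul_le_mul e5 e4 (by positivity) ((by positivity : (0 : ℝ) ≤ _).trans e5)
  refine le_trans (le_of_eq ?_) (h2.trans h1)
  rw [setIntegral_const, smul_eq_mul]
  have h3 : x / t ≤ 2 * x / t := by
    rw [div_le_div_iff_of_pos_right ht0]
    linarith
  rw [Real.volume_real_Ioo_of_le h3]
  field_simp
  ring

theorem Star2.unbounded {C : ℝ} (hC : 0 < C) {H ρ H' : ℝ → ℝ} {R b : ℝ}
    (hP : Prof H ρ R b) (hH : 0 < H 0) (hS : Star2 C ρ R b H') (B : ℝ) :
    ∃ t, 0 < t ∧ B < H' t := by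
  by_contra hcon
  push Not at hcon
  have hR := hP.Rpos
  have hb := hP.bnn
  have hJR : 0 < Real.pi / 2 * R ^ 2 := by positivity
  have hb0 : b = 0 := by
    by_contra hne
    have hbpos : 0 < b := lt_of_le_of_ne hb (Ne.symm hne)
    set c := C * (2 * R * b) with hc
    have hcpos : 0 < c := by positivity
    have ht : 0 < (|B| + 1) / c := by positivity
    have h1 := hcon _ ht
    rw [hS.eq _ ht] at h1
    have h2 := g10_pos_aux hP _ ht
    have h3 : C * (2 * R * b * ((|B| + 1) / c)) = |B| + 1 := by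
      rw [← mul_assoc C, ← hc]
      field_simp
    have h4 : C * (2 * R * b * ((|B| + 1) / c)) ≤
        C * (Real.pi / 2 * R ^ 2 + 2 * R * b * ((|B| + 1) / c) +
          ∫ z in Ioo (0 : ℝ) 1, Phi 2 0 ρ R ((|B| + 1) / c * z) * √(1 - z ^ 2) / z ^ 2) :=
      mul_le_mul_of_nonneg_left (by linarith) hC.le
    have h5 := le_abs_self B
    linarith
  have hΦ0 : ∀ x, 0 < x → Phi 2 0 ρ R x = 0 := by
    intro x hx
    by_contra hne
    have hΦ : 0 < Phi 2 0 ρ R x := lt_of_le_of_ne (Phi_nonneg hP 2 0 x hx) (Ne.symm hne)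
    set c := C * (Phi 2 0 ρ R x * (1 / 2) / (4 * x)) with hc
    have hcpos : 0 < c := by positivity
    set t := max (4 * x) ((|B| + 1) / c) with htd
    have ht4 : 4 * x ≤ t := le_max_left _ _
    have ht : 0 < t := by linarith
    have htc : |B| + 1 ≤ c * t := by
      have := le_max_right (4 * x) ((|B| + 1) / c)
      rw [← htd, div_le_iff₀ hcpos] at this
      linarith
    have h1 := hcon _ ht
    rw [hS.eq _ ht] at h1
    have h2 := g10_lower hP hS hx ht4
    have h3 : 0 ≤ 2 * R * b * t := by positivity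
    have h4 : c * t ≤ C * (Real.pi / 2 * R ^ 2 + 2 * R * b * t +
        ∫ z in Ioo (0 : ℝ) 1, Phi 2 0 ρ R (t * z) * √(1 - z ^ 2) / z ^ 2) := by
      calc c * t = C * (Phi 2 0 ρ R x * (1 / 2) * t / (4 * x)) := by
            rw [hc]; ring
        _ ≤ _ := mul_le_mul_of_nonneg_left (by linarith) hC.le
    have h5 := le_abs_self B
    linarith
  have hρ : ∀ τ, 0 < τ → ρ τ = R := by
    intro τ hτ
    have h1 := hΦ0 (1 / τ) (one_div_pos.2 hτ)
    unfold Phi FF at h1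
    rw [one_div_one_div, pow_zero, mul_one] at h1
    have h2 := hP.nn τ hτ
    have h3 := hP.rho_le τ hτ
    have h6 : R ^ 2 ≤ ρ τ ^ 2 := by linarith
    have h7 : R ≤ ρ τ := le_of_pow_le_pow_left₀ (by omega) h2 h6
    exact le_antisymm h3 h7
  have hHt : ∀ t, 0 < t → H t - R * t = H 0 := by
    intro t ht
    rw [hP.H_int t ht.le, intervalIntegral.integral_of_le ht.le]
    have : ∫ s in Ioc 0 t, ρ s = ∫ _s in Ioc 0 t, R :=
      setIntegral_congr_fun measurableSet_Ioc fun s hs => hρ s hs.1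
    rw [this, setIntegral_const, Real.volume_real_Ioc_of_le ht.le, smul_eq_mul]
    ring
  have hlim : Tendsto (fun t => H t - R * t) atTop (𝓝 (H 0)) := by
    refine tendsto_const_nhds.congr' ?_
    filter_upwards [eventually_gt_atTop 0] with t ht
    exact (hHt t ht).symm
  have := tendsto_nhds_unique hlim hP.blim
  linarith

end Pool.Agent.R3D
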