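import Pool.Agent.R3D.G5
import Pool.Agent.R3D.G10
import Pool.Agent.RB75.G6
import Pool.Agent.RB75.H5

/-! Assembly: the support function of the classical projection body of an axially symmetric body in `ℝ³`. -/

namespace Pool.Agent.R3D
open MeasureTheory Set Filter Topology Pool.Agent.RB75
open scoped RealInnerProductSpace

/-- the intrinsic volume of the shadow in direction `t f + e`. -/
theorem shadow_intrVol2 {K : Set (E (2 + 1))} (hK : CCN K)
    {e f : E (2 + 1)} (he : ‖e‖ = 1) (hf : ‖f‖ = 1) (hfe : ⟪f, e⟫ = 0) {H ρ : ℝ → ℝ} {R b : ℝ}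
    (h : AxSym e K H R) (hP : Prof H ρ R b) {t : ℝ} (ht : 0 < t) (ι : E 2 →ₗᵢ[ℝ] E (2 + 1))
    (hι : ∀ y, ⟪ι y, (√(1 + t ^ 2))⁻¹ • (t • f + e)⟫ = 0) (v : ℝ) :
    IsIntrVol 2 2 (shadow ι ((√(1 + t ^ 2))⁻¹ • (t • f + e)) K) v ↔
      √(1 + t ^ 2) * v = cc 2 * (Real.pi / 2 * R ^ 2 + 2 * R * b * t +
        ∫ z in Ioo (0 : ℝ) 1, Phi 2 0 ρ R (t * z) * √(1 - z ^ 2) / z ^ 2) := by
  have hs : (0 : ℝ) < √(1 + t ^ 2) := by positivity
  have hs2 : √(1 + t ^ 2) ^ 2 = 1 + t ^ 2 := Real.sq_sqrt (by positivity)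
  have hu := norm_dir he hf hfe t
  have hwu : ⟪(√(1 + t ^ 2))⁻¹ • (f - t • e), (√(1 + t ^ 2))⁻¹ • (t • f + e)⟫ = 0 := by
    rw [real_inner_smul_left, real_inner_smul_right, inner_sub_left, inner_add_right, inner_add_right,
      real_inner_smul_left, real_inner_smul_left, real_inner_smul_right, real_inner_smul_right,
      real_inner_self_eq_norm_sq, real_inner_self_eq_norm_sq, hfe, real_inner_comm f e, hfe, hf, he]
    ring
  obtain ⟨w', hw'⟩ := iota_surj hu ι hι hwu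
  obtain ⟨hw1, hax⟩ := shadow_AxSym hK he hf hfe h ht ι hι hw'
  rw [intrVol_iff (by norm_num) le_rfl (shadow_CCN hK hu ι hι) hw1 hax (G4c hP ht) v]
  have h5 := (G5_2 hP ht).2
  unfold sc
  rw [← h5]
  have hk0 : kap (2 - 2) = 1 := by rw [Nat.sub_self, kap_zero]
  rw [hk0, one_mul, Nat.choose_self, Nat.sub_self]
  have e1 : (2 : ℕ) - 1 = 1 := rfl
  rw [e1]
  push_cast
  rw [pow_one, one_mul]
  constructor
  · intro h6
    rw [← h6]; ring
  · intro h6
    have h7 : √(1 + t ^ 2) * v = √(1 + t ^ 2) * (cc 2 * (2 * R * (t / √(1 + t ^ 2) * b) +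
        ∫ T in Ioi (0 : ℝ), (R ^ 2 - (ρ (√(1 + T ^ 2 * (1 + t ^ 2)) / t) *
          (T * √(1 + t ^ 2) / √(1 + T ^ 2 * (1 + t ^ 2)))) ^ 2 * sg T ^ 0))) := by
      rw [h6]; ring
    exact (mul_left_cancel₀ hs.ne' h7).symm

/-- the support function of `L = Π K` in the direction `e + t f`. -/
theorem projBody_H2 {K L : Set (E (2 + 1))} (hK : CCN K)
    (hKL : IsProjBody 2 K L) {e f : E (2 + 1)} (he : ‖e‖ = 1) (hf : ‖f‖ = 1) (hfe : ⟪f, e⟫ = 0)
    {H ρ : ℝ → ℝ} {R b : ℝ} (h : AxSym e K H R) (hP : Prof H ρ R b) {t : ℝ} (ht : 0 < t) :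
    supp L (e + t • f) = cc 2 * (Real.pi / 2 * R ^ 2 + 2 * R * b * t +
        ∫ z in Ioo (0 : ℝ) 1, Phi 2 0 ρ R (t * z) * √(1 - z ^ 2) / z ^ 2) := by
  have hs : (0 : ℝ) < √(1 + t ^ 2) := by positivity
  have hL : CCN L := ⟨hKL.1, hKL.2.1, hKL.2.2.1⟩
  have hu := norm_dir he hf hfe t
  obtain ⟨ι, hι⟩ := exists_iota _ hu
  have h1 := (shadow_intrVol2 hK he hf hfe h hP ht ι hι _).1 (hKL.2.2.2 _ hu ι hι)
  rw [← h1, hL.supp_smul (by positivity)]
  rw [← mul_assoc, mul_inv_cancel₀ hs.ne', one_mul, add_comm e (t • f)]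

/-- everything about `L = Π K`. -/
theorem projBody_all2 {K L : Set (E (2 + 1))} (hK : CCN K)
    (hKL : IsProjBody 2 K L) {e f₀ : E (2 + 1)} (he : ‖e‖ = 1) (hf₀ : ‖f₀‖ = 1) (hfe : ⟪f₀, e⟫ = 0)
    {H ρ : ℝ → ℝ} {R b : ℝ} (h : AxSym e K H R) (hP : Prof H ρ R b) (hH : 0 < H 0) :
    Star2 (cc 2) ρ R b (fun t => supp L (e + t • f₀)) ∧
    AxSym e L (fun t => supp L (e + t • f₀)) (supp L f₀) ∧ 0 < supp L f₀ ∧
    0 < supp L (e + (0 : ℝ) • f₀) := by
  have hL : CCN L := ⟨hKL.1, hKL.2.1, hKL.2.2.1⟩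
  have hS : Star2 (cc 2) ρ R b (fun t => supp L (e + t • f₀)) :=
    ⟨fun t ht => (G5_2 hP ht).1, fun t ht => projBody_H2 hK hKL he hf₀ hfe h hP ht⟩
  have hC : 0 < cc 2 := cc_pos (k := 2) (by norm_num)
  have hax : AxSym e L (fun t => supp L (e + t • f₀)) (supp L f₀) := by
    apply G7 (by norm_num) hL he hf₀ hfe (h := fun t => supp L (e + t • f₀))
    · intro f hf hfe' t ht
      rw [projBody_H2 hK hKL he hf hfe' h hP ht, projBody_H2 hK hKL he hf₀ hfe h hP ht]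
    · intro f hf hfe' t ht
      have hne : ‖-e‖ = 1 := by rw [norm_neg, he]
      have hfne : ⟪f, -e⟫ = 0 := by rw [inner_neg_right, hfe', neg_zero]
      rw [projBody_H2 hK hKL hne hf hfne h.neg hP ht, projBody_H2 hK hKL he hf₀ hfe h hP ht]
  -- evenness in the direction f₀ gives `0 ≤ supp L f₀`
  have hnn : 0 ≤ supp L f₀ := by
    have h1 : supp L (-f₀) = supp L f₀ := hKL.even f₀
    have h2 := hL.supp_add_le f₀ (-f₀)
    have h3 : supp L (f₀ + -f₀) = 0 := by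
      have := hL.supp_smul (c := 0) le_rfl f₀
      rw [zero_smul, zero_mul] at this
      rw [add_neg_cancel, this]
    rw [h3, h1] at h2
    linarith
  have hpos : 0 < supp L f₀ := by
    rcases eq_or_lt_of_le hnn with e0 | h0
    · exfalso
      obtain ⟨t, ht, hb⟩ := hS.unbounded hC hP hH (supp L e)
      have h1 := hL.supp_add_le e (t • f₀)
      rw [hL.supp_smul ht.le, ← e0, mul_zero, add_zero] at h1
      linarith
    · exact h0
  refine ⟨hS, hax, hpos, ?_⟩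
  -- the limit at zero
  have hcont : Continuous (fun t : ℝ => supp L (e + t • f₀)) :=
    hL.supp_continuous.comp (by fun_prop)
  have hJ : 0 < Real.pi / 2 := by positivity
  have hR := hP.Rpos
  have hlow : ∀ t : ℝ, 0 < t → cc 2 * (Real.pi / 2 * R ^ 2) ≤ supp L (e + t • f₀) := by
    intro t ht
    rw [projBody_H2 hK hKL he hf₀ hfe h hP ht]
    have hb := hP.bnn
    have hint : 0 ≤ ∫ z in Ioo (0 : ℝ) 1, Phi 2 0 ρ R (t * z) * √(1 - z ^ 2) / z ^ 2 := by
      apply setIntegral_nonneg measurableSet_Ioo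
      intro z hz
      have := Phi_nonneg hP 2 0 (t * z) (mul_pos ht hz.1)
      positivity
    have h2 : 0 ≤ 2 * R * b * t := by positivity
    exact mul_le_mul_of_nonneg_left (by linarith) hC.le
  have hlim : Tendsto (fun t : ℝ => supp L (e + t • f₀)) (𝓝[>] 0) (𝓝 (supp L (e + (0 : ℝ) • f₀))) :=
    (hcont.tendsto 0).mono_left nhdsWithin_le_nhds
  have : cc 2 * (Real.pi / 2 * R ^ 2) ≤ supp L (e + (0 : ℝ) • f₀) := by
    apply ge_of_tendsto hlim
    filter_upwards [self_mem_nhdsWithin] with t ht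
    exact hlow t ht
  have h3 : 0 < cc 2 * (Real.pi / 2 * R ^ 2) := by positivity
  linarith

end Pool.Agent.R3D
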