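import Pool.Agent.R3D.CL
import Pool.Agent.R3D.G6
import Pool.Agent.R3D.H4
import Pool.Agent.RB75.Forward

/-! Assembly: the forward direction in `ℝ³`. -/

namespace Pool.Agent.R3D
open MeasureTheory Set Filter Topology Pool.Agent.RB75
open scoped RealInnerProductSpace

theorem Star2.scale {C : ℝ} {ρ : ℝ → ℝ} {R b : ℝ} {H' H : ℝ → ℝ} {c : ℝ} (hc : 0 < c)
    (h : Star2 C ρ R b H') (hH : ∀ t, 0 < t → H' t = c * H t) : Star2 (C / c) ρ R b H := by
  refine ⟨h.int, fun t ht => ?_⟩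
  have h1 := h.eq t ht
  rw [hH t ht] at h1
  field_simp
  linarith

theorem cc_two : cc 2 = 2 := by
  unfold cc
  rw [show (2 : ℕ) - 1 = 1 from rfl, kap_one]
  norm_num

/-- Q2, forward direction. -/
theorem forward2 {K L M : Set (E (2 + 1))} (hK : IsRevBody K)
    (hKL : IsProjBody 2 K L) (hLM : IsProjBody 2 L M) (hom : Homothetic K M) :
    IsEllRev K ∨ ∃ r s, IsCyl K r s := by
  obtain ⟨c, hc, x, hM⟩ := hom
  have hKc : CCN K := ⟨hK.compact, hK.convex, hK.interior.mono interior_subset⟩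
  obtain ⟨hs, hsupp⟩ := centre hKc hLM hc hM
  obtain ⟨hC, e, f₀, he, hf₀, hfe, hax, hR, hH0⟩ := axis_data (by omega) hK hs
  set K' := (fun y => y + c⁻¹ • x) '' K with hK'
  obtain ⟨ρ, b, hP⟩ := G1 (by omega) hC he hR hax
  have hK'L : IsProjBody 2 K' L := hKL.translate (c⁻¹ • x)
  obtain ⟨hS, haxL, hRL, hHL0⟩ := projBody_all2 hC hK'L he hf₀ hfe hax hP hH0
  obtain ⟨ρL, bL, hPL⟩ := G1 (by omega) hKL.CCN he hRL haxL
  obtain ⟨hS', -, -, -⟩ := projBody_all2 hKL.CCN hLM he hf₀ hfe haxL hPL hHL0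
  have hS'' := hS'.scale hc (H := fun t => supp K' (e + t • f₀)) (fun t _ => hsupp _)
  have hC0 : 0 < cc 2 := cc_pos (k := 2) (by norm_num)
  have pair : SPair2 (cc 2) (cc 2 / c) (fun t => supp K' (e + t • f₀)) ρ (supp K' f₀) b
      (fun t => supp L (e + t • f₀)) ρL (supp L f₀) bL :=
    ⟨hC0, by positivity, hP, hPL, hS, hS''⟩
  rcases pair.classify with ⟨lam, hlam, h1, -⟩ | ⟨hb, -, h1, -⟩
  · exact Or.inl (shape_ell he hR hlam (G9a hC he hR hlam hax h1))
  · exact Or.inr ⟨_, _, shape_cyl he hR hb (G9c (by omega) hC he hR hb hax h1)⟩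

/-- Q1, forward direction. -/
theorem forward1 {K L : Set (E (2 + 1))} (hK : IsRevBody K)
    (hKL : IsProjBody 2 K L) (hom : Homothetic K L) :
    IsBall K ∨ ∃ r s, Real.pi * r ^ 2 = 4 * s ^ 2 ∧ IsCyl K r s := by
  obtain ⟨c, hc, x, hM⟩ := hom
  have hKc : CCN K := ⟨hK.compact, hK.convex, hK.interior.mono interior_subset⟩
  obtain ⟨hs, hsupp⟩ := centre hKc hKL hc hM
  obtain ⟨hC, e, f₀, he, hf₀, hfe, hax, hR, hH0⟩ := axis_data (by omega) hK hs
  set K' := (fun y => y + c⁻¹ • x) '' K with hK'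
  obtain ⟨ρ, b, hP⟩ := G1 (by omega) hC he hR hax
  have hK'L : IsProjBody 2 K' L := hKL.translate (c⁻¹ • x)
  obtain ⟨hS, -, -, -⟩ := projBody_all2 hC hK'L he hf₀ hfe hax hP hH0
  have hS'' := hS.scale hc (H := fun t => supp K' (e + t • f₀)) (fun t _ => hsupp _)
  have hC0 : 0 < cc 2 := cc_pos (k := 2) (by norm_num)
  have hC0c : 0 < cc 2 / c := by positivity
  have pair : SPair2 (cc 2 / c) (cc 2 / c) (fun t => supp K' (e + t • f₀)) ρ (supp K' f₀) b
      (fun t => supp K' (e + t • f₀)) ρ (supp K' f₀) b :=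
    ⟨hC0c, hC0c, hP, hP, hS'', hS''⟩
  rcases pair.classify with ⟨lam, hlam, h1, h2⟩ | ⟨hb, -, h1, -⟩
  · left
    -- `lam = 1`
    have h3 := h1 0 le_rfl
    have h4 := h2 0 le_rfl
    rw [h3] at h4
    have h5 := mul_left_cancel₀ hR.ne' h4
    rw [zero_pow two_ne_zero, add_zero, add_zero, Real.sqrt_sq hlam.le, Real.sqrt_sq (by positivity)] at h5
    have h6 : lam = 1 := by
      have : lam * lam = 1 := by
        nth_rewrite 2 [h5]; field_simp
      nlinarith
    subst h6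
    exact shape_ball hR (G9b hC he hR hax h1)
  · right
    refine ⟨_, _, ?_, shape_cyl he hR hb (G9c (by omega) hC he hR hb hax h1)⟩
    obtain ⟨W, f₁, -, a3, a4, -, a6, -⟩ := pair.half
    have hρ := hP.rho_const h1
    have hf₁ : f₁ = supp K' f₀ := by
      apply tendsto_nhds_unique a6
      apply (tendsto_const_nhds).congr'
      filter_upwards [self_mem_nhdsWithin] with t ht
      exact (hρ t ht).symm
    have h2 := h1 0 le_rfl
    rw [mul_zero, add_zero] at h2
    rw [h2] at a3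
    rw [hf₁] at a4
    set R := supp K' f₀ with hRdef
    set A := cc 2 / c with hA
    -- `b = A (π/2) R²`, `R = 2 A R b`
    have k1 : b = A * (Real.pi / 2) * R ^ 2 := a3
    have k2 : R = 2 * A * R * b := a4
    have k3 : 2 * A * b = 1 := by
      have : R * (2 * A * b) = R * 1 := by linarith
      exact mul_left_cancel₀ hR.ne' this
    have k4 : A * (Real.pi * R ^ 2) = A * (4 * b ^ 2) := by
      calc A * (Real.pi * R ^ 2) = 2 * (A * (Real.pi / 2) * R ^ 2) := by ring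
        _ = 2 * b := by rw [← k1]
        _ = 2 * b * (2 * A * b) := by rw [k3, mul_one]
        _ = _ := by ring
    exact mul_left_cancel₀ hC0c.ne' k4

end Pool.Agent.R3D
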