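import Pool.Agent.R3D.Defs
import Pool.Agent.RB75.G3c
import Pool.Agent.RB75.G4c
import Pool.Agent.RB75.G5a

/-! Module R3D-G5: the coefficient of the Steiner polynomial of a shadow, `n = 2`. Compare `Pool.Agent.RB75.G5c`
(same proof with `m + 3` replaced by `2`, `m + 2` by `1`, `j = 2`, `l = 0`); in place of `G5b`:
`(1 - √(1-z²)²) · 1/(z² √(1-z²)) = 1/√(1-z²)` on `(0,1)`, `∫_0^1 dz/√(1-z²) = π/2` (`arcsin`). -/

namespace Pool.Agent.R3D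
open MeasureTheory Set Filter Topology Pool.Agent.RB75

/-- The first summand. -/
private theorem G5_b :
    IntegrableOn (fun z : ℝ => (1 - √(1 - z ^ 2) ^ 2) * (1 / (z ^ 2 * √(1 - z ^ 2)))) (Ioo 0 1) ∧
    ∫ z in Ioo (0 : ℝ) 1, (1 - √(1 - z ^ 2) ^ 2) * (1 / (z ^ 2 * √(1 - z ^ 2))) = Real.pi / 2 := by
  have hder : ∀ z ∈ Ioo (0 : ℝ) 1,
      HasDerivAt Real.arcsin ((1 - √(1 - z ^ 2) ^ 2) * (1 / (z ^ 2 * √(1 - z ^ 2)))) z := by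
    intro z hz
    have h1 : HasDerivAt Real.arcsin (1 / √(1 - z ^ 2)) z :=
      Real.hasDerivAt_arcsin (by linarith [hz.1]) hz.2.ne
    have h2 : √(1 - z ^ 2) ^ 2 = 1 - z ^ 2 := Real.sq_sqrt (by nlinarith [hz.1, hz.2])
    have h3 : 0 < √(1 - z ^ 2) := Real.sqrt_pos.2 (by nlinarith [hz.1, hz.2])
    have h4 : (1 - √(1 - z ^ 2) ^ 2) * (1 / (z ^ 2 * √(1 - z ^ 2))) = 1 / √(1 - z ^ 2) := by
      have h5 : z ≠ 0 := hz.1.ne'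
      rw [h2]
      field_simp
      ring
    rw [h4]
    exact h1
  have hnn : ∀ z ∈ Ioo (0 : ℝ) 1, 0 ≤ (1 - √(1 - z ^ 2) ^ 2) * (1 / (z ^ 2 * √(1 - z ^ 2))) := by
    intro z hz
    have h2 : √(1 - z ^ 2) ^ 2 = 1 - z ^ 2 := Real.sq_sqrt (by nlinarith [hz.1, hz.2])
    rw [h2]
    have : 0 ≤ 1 - (1 - z ^ 2) := by nlinarith [sq_nonneg z]
    positivity
  have hcont : ContinuousOn Real.arcsin (Icc (0 : ℝ) 1) := Real.continuous_arcsin.continuousOn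
  have hint : IntegrableOn (fun z : ℝ => (1 - √(1 - z ^ 2) ^ 2) * (1 / (z ^ 2 * √(1 - z ^ 2)))) (Ioc 0 1) :=
    intervalIntegral.integrableOn_deriv_of_nonneg hcont hder hnn
  have hval : ∫ z in (0 : ℝ)..1, (1 - √(1 - z ^ 2) ^ 2) * (1 / (z ^ 2 * √(1 - z ^ 2))) =
      Real.arcsin 1 - Real.arcsin 0 :=
    intervalIntegral.integral_eq_sub_of_hasDerivAt_of_le zero_le_one hcont hder
      ((intervalIntegrable_iff_integrableOn_Ioc_of_le zero_le_one).2 hint)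
  refine ⟨hint.mono_set Ioo_subset_Ioc_self, ?_⟩
  rw [← integral_Ioc_eq_integral_Ioo, ← intervalIntegral.integral_of_le zero_le_one, hval]
  simp

/-- The integrand after the substitution. -/
private theorem G5_point (ρ : ℝ → ℝ) (R : ℝ) {t : ℝ} (ht : 0 < t) {z : ℝ}
    (hz0 : 0 < z) (hz1 : z < 1) :
    (R ^ 2 - (ρ (√(1 + (√(1 - z ^ 2) / (z * √(1 + t ^ 2))) ^ 2 * (1 + t ^ 2)) / t) *
      ((√(1 - z ^ 2) / (z * √(1 + t ^ 2))) * √(1 + t ^ 2) /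
        √(1 + (√(1 - z ^ 2) / (z * √(1 + t ^ 2))) ^ 2 * (1 + t ^ 2)))) ^ 2 *
      sg (√(1 - z ^ 2) / (z * √(1 + t ^ 2))) ^ 0) * (1 / (z ^ 2 * √(1 - z ^ 2))) =
    R ^ 2 * ((1 - √(1 - z ^ 2) ^ 2) * (1 / (z ^ 2 * √(1 - z ^ 2)))) +
      Phi 2 0 ρ R (t * z) * √(1 - z ^ 2) / z ^ 2 := by
  have hs2 : √(1 - z ^ 2) ^ 2 = 1 - z ^ 2 := Real.sq_sqrt (by nlinarith)
  have hs : 0 < √(1 - z ^ 2) := Real.sqrt_pos.2 (by nlinarith)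
  have hk2 : √(1 + t ^ 2) ^ 2 = 1 + t ^ 2 := Real.sq_sqrt (by positivity)
  have hk : 0 < √(1 + t ^ 2) := Real.sqrt_pos.2 (by positivity)
  set s := √(1 - z ^ 2) with hsdef
  set κ := √(1 + t ^ 2) with hkdef
  have h1 : √(1 + (s / (z * κ)) ^ 2 * (1 + t ^ 2)) = 1 / z := by
    have : 1 + (s / (z * κ)) ^ 2 * (1 + t ^ 2) = (1 / z) ^ 2 := by
      rw [← hk2, div_pow, mul_pow, hs2]
      field_simp
      ring
    rw [this, Real.sqrt_sq (by positivity)]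
  have h2 : s / (z * κ) * κ / (1 / z) = s := by
    field_simp
  have h3 : (1 / z) / t = 1 / (t * z) := by
    field_simp
  rw [h1, h2, h3]
  unfold Phi FF
  rw [pow_zero, pow_zero]
  field_simp
  ring

theorem G5_2 {H ρ : ℝ → ℝ} {R b : ℝ} (hP : Prof H ρ R b) {t : ℝ} (ht : 0 < t) :
    IntegrableOn (fun z => Phi 2 0 ρ R (t * z) * √(1 - z ^ 2) / z ^ 2) (Ioo 0 1) ∧
    √(1 + t ^ 2) * (2 * R * (t / √(1 + t ^ 2) * b) + ∫ T in Ioi (0 : ℝ), (R ^ 2 -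
      (ρ (√(1 + T ^ 2 * (1 + t ^ 2)) / t) * (T * √(1 + t ^ 2) / √(1 + T ^ 2 * (1 + t ^ 2)))) ^ 2 * sg T ^ 0)) =
    Real.pi / 2 * R ^ 2 + 2 * R * b * t +
      ∫ z in Ioo (0 : ℝ) 1, Phi 2 0 ρ R (t * z) * √(1 - z ^ 2) / z ^ 2 := by
  have hint := term_integrable (G4c hP ht) 2 0
  obtain ⟨h1, h2⟩ := G5a ht.le (fun T => R ^ 2 -
      (ρ (√(1 + T ^ 2 * (1 + t ^ 2)) / t) * (T * √(1 + t ^ 2) / √(1 + T ^ 2 * (1 + t ^ 2)))) ^ 2 * sg T ^ 0)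
  obtain ⟨h3, h4⟩ := G5_b
  have h5 := h1.1 hint
  have hcongr : ∀ z ∈ Ioo (0 : ℝ) 1, (fun z : ℝ => (fun T : ℝ => R ^ 2 -
      (ρ (√(1 + T ^ 2 * (1 + t ^ 2)) / t) * (T * √(1 + t ^ 2) / √(1 + T ^ 2 * (1 + t ^ 2)))) ^ 2 * sg T ^ 0)
        (√(1 - z ^ 2) / (z * √(1 + t ^ 2))) * (1 / (z ^ 2 * √(1 - z ^ 2)))) z =
      (fun z : ℝ => R ^ 2 * ((1 - √(1 - z ^ 2) ^ 2) * (1 / (z ^ 2 * √(1 - z ^ 2)))) +
      Phi 2 0 ρ R (t * z) * √(1 - z ^ 2) / z ^ 2) z := by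
    intro z hz
    exact G5_point ρ R ht hz.1 hz.2
  have h6 : IntegrableOn (fun z : ℝ => R ^ 2 * ((1 - √(1 - z ^ 2) ^ 2) * (1 / (z ^ 2 * √(1 - z ^ 2)))) +
      Phi 2 0 ρ R (t * z) * √(1 - z ^ 2) / z ^ 2) (Ioo 0 1) :=
    (integrableOn_congr_fun hcongr measurableSet_Ioo).1 h5
  have h7 : IntegrableOn (fun z : ℝ => R ^ 2 * ((1 - √(1 - z ^ 2) ^ 2) * (1 / (z ^ 2 * √(1 - z ^ 2)))))
      (Ioo 0 1) := h3.const_mul (R ^ 2)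
  have h8 : IntegrableOn (fun z => Phi 2 0 ρ R (t * z) * √(1 - z ^ 2) / z ^ 2) (Ioo 0 1) := by
    have h9 := h6.sub h7
    refine (integrableOn_congr_fun ?_ measurableSet_Ioo).1 h9
    intro z _
    simp only [Pi.sub_apply]
    ring
  refine ⟨h8, ?_⟩
  have hk : 0 < √(1 + t ^ 2) := Real.sqrt_pos.2 (by positivity)
  rw [mul_add, h2, setIntegral_congr_fun measurableSet_Ioo hcongr]
  have h10 : ∫ z in Ioo (0 : ℝ) 1, (fun z : ℝ => R ^ 2 * ((1 - √(1 - z ^ 2) ^ 2) *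
      (1 / (z ^ 2 * √(1 - z ^ 2)))) + Phi 2 0 ρ R (t * z) * √(1 - z ^ 2) / z ^ 2) z =
      R ^ 2 * (Real.pi / 2) + ∫ z in Ioo (0 : ℝ) 1, Phi 2 0 ρ R (t * z) * √(1 - z ^ 2) / z ^ 2 := by
    simp only []
    rw [integral_add h7 h8, integral_const_mul, h4]
  rw [h10]
  have h11 : √(1 + t ^ 2) * (2 * R * (t / √(1 + t ^ 2) * b)) = 2 * R * b * t := by
    field_simp
  rw [h11]
  ring

end Pool.Agent.R3D
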