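import Pool.Agent.R3D.W1
import Pool.Agent.R3D.MU
import Pool.Agent.R3D.B2
import Pool.Agent.R3D.B3

/-! Module R3D-T2: `zed w κ = C κ ∫_0^{1/κ} rho(s)²/√(1-κ²s²) ds`: Tonelli (`WW_zed`), the measure `muv v`, and
integration by parts against `arcsin (κ ·)`. -/

namespace Pool.Agent.R3D
open MeasureTheory Set Filter Topology Pool.Agent.RB75

theorem T2_int {v : ℝ → ℝ} (hv : Dat v) {κ : ℝ} (hκ : 0 < κ) :
    IntervalIntegrable (fun s => rho v s ^ 2 / √(1 - κ ^ 2 * s ^ 2)) volume 0 (1 / κ) := by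
  have h0 : (0 : ℝ) ≤ 1 / κ := by positivity
  have h1 : ContinuousOn (fun s => rho v s ^ 2) (uIcc 0 (1 / κ)) := by
    rw [uIcc_of_le h0]
    exact (hv.rho_cont.mono fun x hx => hx.1).pow 2
  refine ((ker_int hκ).continuousOn_mul h1).congr ?_
  intro s _
  simp only [mul_one_div]

private theorem T2_f_int {v : ℝ → ℝ} (hv : Dat v) {a b : ℝ} (ha : 0 ≤ a) (hb : 0 ≤ b) :
    IntervalIntegrable (fun y => 2 * y * (rho v y * v y)) volume a b :=
  (hv.iirv ha hb).continuousOn_mul (by fun_prop)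

private theorem T2_f_nn {v : ℝ → ℝ} (hv : Dat v) {y : ℝ} (hy : 0 ≤ y) :
    0 ≤ 2 * y * (rho v y * v y) :=
  mul_nonneg (by positivity) (mul_nonneg (hv.rho_nn hy) (hv.nn y))

private theorem T2_tail {v : ℝ → ℝ} (hv : Dat v) {a : ℝ} (ha : 0 ≤ a) :
    IntegrableOn (fun y => 2 * y * (rho v y * v y)) (Ioi a) ∧
      ∫ y in Ioi a, 2 * y * (rho v y * v y) = rho v a ^ 2 := by
  have h1 : IntegrableOn (fun y => 2 * y * (rho v y * v y)) (Ioi a) := by
    refine integrableOn_Ioi_of_intervalIntegral_norm_bounded (rho v a ^ 2) a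
      (b := fun t : ℝ => t) (l := atTop) ?_ tendsto_id ?_
    · intro t
      rcases le_total a t with h | h
      · have := T2_f_int hv ha (ha.trans h)
        rw [intervalIntegrable_iff_integrableOn_Ioc_of_le h] at this
        exact this
      · rw [Ioc_eq_empty (not_lt.2 h)]
        exact integrableOn_empty
    · filter_upwards [eventually_ge_atTop a] with t ht
      have h2 : ∫ x in a..t, ‖2 * x * (rho v x * v x)‖ = ∫ x in a..t, 2 * x * (rho v x * v x) := by
        refine intervalIntegral.integral_congr fun x hx => ?_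
        rw [uIcc_of_le ht] at hx
        exact Real.norm_of_nonneg (T2_f_nn hv (ha.trans hx.1))
      rw [h2, ← rho_sq hv ha ht]
      nlinarith [sq_nonneg (rho v t)]
  refine ⟨h1, ?_⟩
  have h2 := intervalIntegral_tendsto_integral_Ioi a h1 tendsto_id
  have h3 : Tendsto (fun t : ℝ => ∫ x in a..t, 2 * x * (rho v x * v x)) atTop
      (𝓝 (rho v a ^ 2 - 0 ^ 2)) := by
    have h4 : Tendsto (fun t : ℝ => rho v a ^ 2 - rho v t ^ 2) atTop (𝓝 (rho v a ^ 2 - 0 ^ 2)) :=
      tendsto_const_nhds.sub (hv.rho_lim.pow 2)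
    refine h4.congr' ?_
    filter_upwards [eventually_ge_atTop a] with t ht
    exact rho_sq hv ha ht
  have h5 := tendsto_nhds_unique h2 h3
  rw [h5]
  ring

private theorem T2_parts {v : ℝ → ℝ} (hv : Dat v) {κ : ℝ} (hκ : 0 < κ) :
    IntervalIntegrable (fun y => 2 * y * (rho v y * v y) * Real.arcsin (κ * y)) volume 0 (1 / κ) ∧
    (∫ y in (0 : ℝ)..(1 / κ), 2 * y * (rho v y * v y) * Real.arcsin (κ * y)) +
      Real.pi / 2 * rho v (1 / κ) ^ 2 =
      κ * ∫ s in (0 : ℝ)..(1 / κ), rho v s ^ 2 / √(1 - κ ^ 2 * s ^ 2) := by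
  have h0 : (0 : ℝ) ≤ 1 / κ := by positivity
  have hf := T2_f_int hv le_rfl h0
  have hcont : ContinuousOn (fun y => Real.arcsin (κ * y)) (uIcc 0 (1 / κ)) :=
    (Real.continuous_arcsin.comp (continuous_const.mul continuous_id)).continuousOn
  have hfG : IntervalIntegrable (fun y => 2 * y * (rho v y * v y) * Real.arcsin (κ * y)) volume 0
      (1 / κ) := hf.mul_continuousOn hcont
  refine ⟨hfG, ?_⟩
  have hg : IntervalIntegrable (fun s => κ * (1 / √(1 - κ ^ 2 * s ^ 2))) volume 0 (1 / κ) :=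
    (ker_int hκ).const_mul κ
  have hF : ∀ s ∈ Icc 0 (1 / κ), rho v s ^ 2 = rho v 0 ^ 2 +
      ∫ x in (0 : ℝ)..s, -(2 * x * (rho v x * v x)) := by
    intro s hs
    rw [intervalIntegral.integral_neg, ← rho_sq hv le_rfl hs.1]
    ring
  have hG : ∀ s ∈ Icc 0 (1 / κ), Real.arcsin (κ * s) = Real.arcsin (κ * 0) +
      ∫ x in (0 : ℝ)..s, κ * (1 / √(1 - κ ^ 2 * x ^ 2)) := by
    intro s hs
    rw [intervalIntegral.integral_const_mul, ker_arcsin hκ hs, mul_zero, Real.arcsin_zero]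
    field_simp
    ring
  have h1 := prod_prim (F := fun s => rho v s ^ 2) (f := fun x => -(2 * x * (rho v x * v x)))
    (G := fun s => Real.arcsin (κ * s)) (g := fun s => κ * (1 / √(1 - κ ^ 2 * s ^ 2)))
    h0 hf.neg hg hF hG
  have h2 := h1.2 (1 / κ) ⟨h0, le_rfl⟩
  have hFg : IntervalIntegrable (fun s => rho v s ^ 2 * (κ * (1 / √(1 - κ ^ 2 * s ^ 2)))) volume 0
      (1 / κ) := by
    refine hg.continuousOn_mul ?_
    rw [uIcc_of_le h0]
    exact (hv.rho_cont.mono fun x hx => hx.1).pow 2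
  have hnG : IntervalIntegrable (fun x => -(2 * x * (rho v x * v x)) * Real.arcsin (κ * x)) volume 0
      (1 / κ) := hf.neg.mul_continuousOn hcont
  rw [intervalIntegral.integral_add hnG hFg] at h2
  have h3 : ∫ x in (0 : ℝ)..(1 / κ), -(2 * x * (rho v x * v x)) * Real.arcsin (κ * x) =
      -∫ y in (0 : ℝ)..(1 / κ), 2 * y * (rho v y * v y) * Real.arcsin (κ * y) := by
    rw [← intervalIntegral.integral_neg]
    refine intervalIntegral.integral_congr fun x _ => ?_
    ring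
  have h4 : ∫ s in (0 : ℝ)..(1 / κ), rho v s ^ 2 * (κ * (1 / √(1 - κ ^ 2 * s ^ 2))) =
      κ * ∫ s in (0 : ℝ)..(1 / κ), rho v s ^ 2 / √(1 - κ ^ 2 * s ^ 2) := by
    rw [← intervalIntegral.integral_const_mul]
    refine intervalIntegral.integral_congr fun x _ => ?_
    ring
  rw [h3, h4] at h2
  simp only [mul_zero, Real.arcsin_zero, mul_one_div_cancel hκ.ne', Real.arcsin_one] at h2
  linarith

theorem T2 {v w : ℝ → ℝ} (hv : Dat v) (hw : Dat w) {C : ℝ} (hC : 0 < C) (h : Stp C v w) {κ : ℝ} (hκ : 0 < κ) :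
    zed w κ = C * κ * ∫ s in (0 : ℝ)..(1 / κ), rho v s ^ 2 / √(1 - κ ^ 2 * s ^ 2) := by
  have h0 : (0 : ℝ) ≤ 1 / κ := by positivity
  obtain ⟨hpi, hpe⟩ := T2_parts hv hκ
  have hI0 : 0 ≤ ∫ s in (0 : ℝ)..(1 / κ), rho v s ^ 2 / √(1 - κ ^ 2 * s ^ 2) :=
    intervalIntegral.integral_nonneg h0 fun s _ => by positivity
  have e1 : ENNReal.ofReal (zed w κ) = ∫⁻ x in Ioo 0 κ, ENNReal.ofReal (w x) := by
    unfold zed
    rw [intervalIntegral.integral_of_le hκ.le, integral_Ioc_eq_integral_Ioo]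
    refine ofReal_integral_eq_lintegral_ofReal ?_ (Eventually.of_forall fun x => hw.nn x)
    exact hw.int0.mono_set fun x hx => hx.1
  have e2 : ∫⁻ x in Ioo 0 κ, ENNReal.ofReal (w x) = ∫⁻ x in Ioo 0 κ, WW C (muv v) x := by
    refine lintegral_congr_ae ?_
    have h1 : ∀ᵐ x ∂(volume.restrict (Ioo 0 κ)), StpAt C v w x :=
      ae_restrict_of_ae_restrict_of_subset (fun x hx => hx.1) h
    filter_upwards [h1, ae_restrict_mem measurableSet_Ioo] with x hx hx0
    exact (stp_iff hv hC hx0.1 (hw.nn x)).1 hx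
  have e3 : ∫⁻ y in Ioi (0 : ℝ), ENNReal.ofReal (Real.arcsin (min (κ * y) 1)) ∂(muv v) =
      ENNReal.ofReal (κ * ∫ s in (0 : ℝ)..(1 / κ), rho v s ^ 2 / √(1 - κ ^ 2 * s ^ 2)) := by
    have hm : Measurable fun y : ℝ => ENNReal.ofReal (Real.arcsin (min (κ * y) 1)) :=
      (Real.measurable_arcsin.comp
        ((measurable_const.mul measurable_id).min measurable_const)).ennreal_ofReal
    rw [lintegral_muv hv _ hm (Ioi 0) measurableSet_Ioi, inter_self,
      ← Ioc_union_Ioi_eq_Ioi h0,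
      lintegral_union measurableSet_Ioi (Ioc_disjoint_Ioi le_rfl)]
    have e4 : ∫⁻ y in Ioc 0 (1 / κ), ENNReal.ofReal (2 * y * (rho v y * v y)) *
        ENNReal.ofReal (Real.arcsin (min (κ * y) 1)) =
        ENNReal.ofReal (∫ y in (0 : ℝ)..(1 / κ), 2 * y * (rho v y * v y) * Real.arcsin (κ * y)) := by
      rw [intervalIntegral.integral_of_le h0]
      have hint : IntegrableOn (fun y => 2 * y * (rho v y * v y) * Real.arcsin (κ * y))
          (Ioc 0 (1 / κ)) := by
        rw [intervalIntegrable_iff_integrableOn_Ioc_of_le h0] at hpi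
        exact hpi
      have hnn : 0 ≤ᵐ[volume.restrict (Ioc 0 (1 / κ))]
          fun y => 2 * y * (rho v y * v y) * Real.arcsin (κ * y) := by
        filter_upwards [ae_restrict_mem measurableSet_Ioc] with y hy
        exact mul_nonneg (T2_f_nn hv hy.1.le)
          (Real.arcsin_nonneg.2 (mul_nonneg hκ.le hy.1.le))
      rw [ofReal_integral_eq_lintegral_ofReal hint hnn]
      refine setLIntegral_congr_fun measurableSet_Ioc fun y hy => ?_
      have h5 : κ * y ≤ 1 := by
        have := mul_le_mul_of_nonneg_left hy.2 hκ.le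
        rwa [mul_one_div_cancel hκ.ne'] at this
      rw [min_eq_left h5, ← ENNReal.ofReal_mul (T2_f_nn hv hy.1.le)]
    have e5 : ∫⁻ y in Ioi (1 / κ), ENNReal.ofReal (2 * y * (rho v y * v y)) *
        ENNReal.ofReal (Real.arcsin (min (κ * y) 1)) =
        ENNReal.ofReal (Real.pi / 2 * rho v (1 / κ) ^ 2) := by
      obtain ⟨ht1, ht2⟩ := T2_tail hv h0
      rw [← ht2, ← integral_const_mul]
      have hnn : 0 ≤ᵐ[volume.restrict (Ioi (1 / κ))]
          fun y => Real.pi / 2 * (2 * y * (rho v y * v y)) := by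
        filter_upwards [ae_restrict_mem measurableSet_Ioi] with y hy
        exact mul_nonneg (by positivity) (T2_f_nn hv (h0.trans (le_of_lt hy)))
      rw [ofReal_integral_eq_lintegral_ofReal (ht1.const_mul _) hnn]
      refine setLIntegral_congr_fun measurableSet_Ioi fun y hy => ?_
      have hy' : 1 / κ < y := hy
      have h5 : 1 ≤ κ * y := by
        have := mul_le_mul_of_nonneg_left hy'.le hκ.le
        rwa [mul_one_div_cancel hκ.ne'] at this
      rw [min_eq_right h5, Real.arcsin_one,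
        ← ENNReal.ofReal_mul (T2_f_nn hv (h0.trans hy'.le)), mul_comm]
    rw [e4, e5, ← ENNReal.ofReal_add, hpe]
    · refine intervalIntegral.integral_nonneg h0 fun y hy => ?_
      exact mul_nonneg (T2_f_nn hv hy.1) (Real.arcsin_nonneg.2 (mul_nonneg hκ.le hy.1))
    · positivity
  have e6 : ENNReal.ofReal (zed w κ) = ENNReal.ofReal (C * κ *
      ∫ s in (0 : ℝ)..(1 / κ), rho v s ^ 2 / √(1 - κ ^ 2 * s ^ 2)) := by
    rw [e1, e2, WW_zed C (muv v) hκ, e3, ← ENNReal.ofReal_mul hC.le, mul_assoc]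
  rwa [ENNReal.ofReal_eq_ofReal_iff (hw.zed_nn hκ.le) (by positivity)] at e6

end Pool.Agent.R3D
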