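import Pool.Agent.R3D.TD
import Pool.Agent.R3D.T2

/-! Module R3D-ID1: the identity `e_p[w](κ) = 2 C κ³ ∫_0^{1/κ} s² rho E_p / √(1-κ²s²) ds`.

By `T2` and `StpAt` both sides are combinations of the four integrals of `rho²/√`, `s² rho²/√`, `stpf`, `s² stpf`; they
agree by `TD1` with `a = 1`, `b = 0`. -/

namespace Pool.Agent.R3D
open MeasureTheory Set Filter Topology Pool.Agent.RB75

theorem ID1 {v w : ℝ → ℝ} (hv : Dat v) (hw : Dat w) {C : ℝ} (hC : 0 < C) (h : Stp C v w) {κ : ℝ} (hκ : 0 < κ)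
    (hs : StpAt C v w κ) (p : ℝ) :
    IntervalIntegrable (fun s => s ^ 2 * (rho v s * defE p v s) / √(1 - κ ^ 2 * s ^ 2)) volume 0 (1 / κ) ∧
    defe p w κ = 2 * C * κ ^ 3 *
      ∫ s in (0 : ℝ)..(1 / κ), s ^ 2 * (rho v s * defE p v s) / √(1 - κ ^ 2 * s ^ 2) := by
  obtain ⟨hsi, hsw⟩ := hs
  have hR := T2_int hv hκ
  have hZ := T2 hv hw hC h hκ
  have hT := TD1 hv hκ 1 0
  have hA : IntervalIntegrable (fun s => s ^ 2 * (rho v s ^ 2 / √(1 - κ ^ 2 * s ^ 2))) volume 0 (1 / κ) :=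
    hR.continuousOn_mul (by fun_prop)
  have hJ : IntervalIntegrable (fun s => s ^ 2 * stpf v κ s) volume 0 (1 / κ) :=
    hsi.continuousOn_mul (by fun_prop)
  have hpt : (fun s => s ^ 2 * (rho v s * defE p v s) / √(1 - κ ^ 2 * s ^ 2)) =
      fun s => s ^ 2 * (rho v s ^ 2 / √(1 - κ ^ 2 * s ^ 2)) - (p * stpf v κ s + s ^ 2 * stpf v κ s) := by
    funext s
    unfold defE stpf
    ring
  have hB : IntervalIntegrable (fun s => p * stpf v κ s + s ^ 2 * stpf v κ s) volume 0 (1 / κ) :=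
    (hsi.const_mul p).add hJ
  have e1 : ∫ s in (0 : ℝ)..(1 / κ), rho v s ^ 2 * ((1 + 3 * 0 * (κ ^ 2 * s ^ 2)) * (1 - κ ^ 2 * s ^ 2) -
      (1 + 0 * (κ ^ 2 * s ^ 2)) * (κ ^ 2 * s ^ 2)) / √(1 - κ ^ 2 * s ^ 2) =
      (∫ s in (0 : ℝ)..(1 / κ), rho v s ^ 2 / √(1 - κ ^ 2 * s ^ 2)) -
        2 * κ ^ 2 * ∫ s in (0 : ℝ)..(1 / κ), s ^ 2 * (rho v s ^ 2 / √(1 - κ ^ 2 * s ^ 2)) := by
    rw [← intervalIntegral.integral_const_mul, ← intervalIntegral.integral_sub hR (hA.const_mul _)]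
    congr 1
    funext s
    ring
  have e2 : ∫ s in (0 : ℝ)..(1 / κ), (1 + 0 * (κ ^ 2 * s ^ 2)) * ((1 - κ ^ 2 * s ^ 2) * stpf v κ s) =
      (∫ s in (0 : ℝ)..(1 / κ), stpf v κ s) - κ ^ 2 * ∫ s in (0 : ℝ)..(1 / κ), s ^ 2 * stpf v κ s := by
    rw [← intervalIntegral.integral_const_mul, ← intervalIntegral.integral_sub hsi (hJ.const_mul _)]
    congr 1
    funext s
    ring
  rw [e1, e2] at hT
  rw [hpt]
  refine ⟨hA.sub hB, ?_⟩
  rw [intervalIntegral.integral_sub hA hB, intervalIntegral.integral_add (hsi.const_mul p) hJ,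
    intervalIntegral.integral_const_mul]
  unfold defe
  rw [hZ, hsw]
  linear_combination C * κ * hT

end Pool.Agent.R3D
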