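import Pool.Agent.R3D.TD
import Pool.Agent.R3D.T2

/-! Module R3D-IM3: `s² v ≤ (1+α) rho` a.e. implies `κ w ≤ (1+3α/4) zed w`.

The difference of the two sides is the integral of a nonnegative function, by T2, `StpAt` and TD1. -/

namespace Pool.Agent.R3D
open MeasureTheory Set Filter Topology Pool.Agent.RB75

private theorem im3_pt {α X R V q : ℝ} (hα : 0 ≤ α) (hX0 : 0 ≤ X) (hX1 : X ≤ 1) (hq : 0 < q)
    (hV : 0 ≤ V) (hRV : V ≤ (1 + α) * R ^ 2) :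
    0 ≤ (1 + 3 / 4 * α) * (R ^ 2 / q) -
      R ^ 2 * (((1 + 3 / 4 * α) + 3 * (α / 2) * X) * (1 - X) - ((1 + 3 / 4 * α) + α / 2 * X) * X) / q +
      2 * (((1 + 3 / 4 * α) + α / 2 * X) * ((1 - X) * (V / q))) - 2 * (V / q) := by
  have e : (1 + 3 / 4 * α) * (R ^ 2 / q) -
      R ^ 2 * (((1 + 3 / 4 * α) + 3 * (α / 2) * X) * (1 - X) - ((1 + 3 / 4 * α) + α / 2 * X) * X) / q +
      2 * (((1 + 3 / 4 * α) + α / 2 * X) * ((1 - X) * (V / q))) - 2 * (V / q) =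
      (R ^ 2 * (2 * X + 2 * α * X ^ 2) - 2 * (-(3 * α / 4) + (1 + α / 4) * X + α / 2 * X ^ 2) * V) / q := by
    ring
  rw [e]
  apply div_nonneg _ hq.le
  have hR2 : 0 ≤ R ^ 2 := sq_nonneg R
  rcases le_total (-(3 * α / 4) + (1 + α / 4) * X + α / 2 * X ^ 2) 0 with hm | hm
  · have h1 : 0 ≤ R ^ 2 * (2 * X + 2 * α * X ^ 2) := by positivity
    have h2 : (-(3 * α / 4) + (1 + α / 4) * X + α / 2 * X ^ 2) * V ≤ 0 := mul_nonpos_of_nonpos_of_nonneg hm hV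
    linarith
  · have h1 : (-(3 * α / 4) + (1 + α / 4) * X + α / 2 * X ^ 2) * V ≤
        (-(3 * α / 4) + (1 + α / 4) * X + α / 2 * X ^ 2) * ((1 + α) * R ^ 2) := mul_le_mul_of_nonneg_left hRV hm
    have h2 : R ^ 2 * (2 * X + 2 * α * X ^ 2) -
        2 * ((-(3 * α / 4) + (1 + α / 4) * X + α / 2 * X ^ 2) * ((1 + α) * R ^ 2)) =
        R ^ 2 * (α * (1 - X) * ((3 / 2 - X) + α * (3 / 2 + X))) := by ring
    have h3 : 0 ≤ R ^ 2 * (α * (1 - X) * ((3 / 2 - X) + α * (3 / 2 + X))) := by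
      have h4 : 0 ≤ 1 - X := by linarith
      have h5 : 0 ≤ (3 / 2 - X) + α * (3 / 2 + X) := by
        have : 0 ≤ α * (3 / 2 + X) := by positivity
        linarith
      positivity
    linarith

theorem IM3 {v w : ℝ → ℝ} (hv : Dat v) (hw : Dat w) {C : ℝ} (hC : 0 < C) (h : Stp C v w) {κ : ℝ} (hκ : 0 < κ)
    (hs : StpAt C v w κ) {α : ℝ} (hα : 0 ≤ α)
    (hA : ∀ᵐ s ∂(volume.restrict (Ioi (0 : ℝ))), s ^ 2 * v s ≤ (1 + α) * rho v s) :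
    κ * w κ ≤ (1 + 3 / 4 * α) * zed w κ := by
  obtain ⟨hint, hwκ⟩ := hs
  have h2 := T2 hv hw hC h hκ
  have hk : (0 : ℝ) < 1 / κ := by positivity
  have td := TD1 hv hκ (1 + 3 / 4 * α) (α / 2)
  have i1 := (T2_int hv hκ).const_mul (1 + 3 / 4 * α)
  have hrc : ContinuousOn (rho v) (Icc 0 (1 / κ)) := hv.rho_cont.mono Icc_subset_Ici_self
  have i2 := ii_ker hκ (c := fun s => rho v s ^ 2 * (((1 + 3 / 4 * α) + 3 * (α / 2) * (κ ^ 2 * s ^ 2)) *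
      (1 - κ ^ 2 * s ^ 2) - ((1 + 3 / 4 * α) + α / 2 * (κ ^ 2 * s ^ 2)) * (κ ^ 2 * s ^ 2)))
    ((hrc.pow 2).mul (by fun_prop))
  have i3 := (ii_stp0 hv hκ (c := fun s => (1 + 3 / 4 * α) + α / 2 * (κ ^ 2 * s ^ 2)) (by fun_prop)).const_mul 2
  have i4 := hint.const_mul 2
  have key : (1 + 3 / 4 * α) * (∫ s in (0 : ℝ)..(1 / κ), rho v s ^ 2 / √(1 - κ ^ 2 * s ^ 2)) -
      2 * (∫ s in (0 : ℝ)..(1 / κ), stpf v κ s) =
      ∫ s in (0 : ℝ)..(1 / κ), ((1 + 3 / 4 * α) * (rho v s ^ 2 / √(1 - κ ^ 2 * s ^ 2)) -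
        rho v s ^ 2 * (((1 + 3 / 4 * α) + 3 * (α / 2) * (κ ^ 2 * s ^ 2)) * (1 - κ ^ 2 * s ^ 2) -
          ((1 + 3 / 4 * α) + α / 2 * (κ ^ 2 * s ^ 2)) * (κ ^ 2 * s ^ 2)) / √(1 - κ ^ 2 * s ^ 2) +
        2 * (((1 + 3 / 4 * α) + α / 2 * (κ ^ 2 * s ^ 2)) * ((1 - κ ^ 2 * s ^ 2) * stpf v κ s)) -
        2 * stpf v κ s) := by
    rw [intervalIntegral.integral_sub ((i1.sub i2).add i3) i4, intervalIntegral.integral_add (i1.sub i2) i3,
      intervalIntegral.integral_sub i1 i2, intervalIntegral.integral_const_mul,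
      intervalIntegral.integral_const_mul, intervalIntegral.integral_const_mul, td]
    ring
  have pos : 0 ≤ ∫ s in (0 : ℝ)..(1 / κ), ((1 + 3 / 4 * α) * (rho v s ^ 2 / √(1 - κ ^ 2 * s ^ 2)) -
        rho v s ^ 2 * (((1 + 3 / 4 * α) + 3 * (α / 2) * (κ ^ 2 * s ^ 2)) * (1 - κ ^ 2 * s ^ 2) -
          ((1 + 3 / 4 * α) + α / 2 * (κ ^ 2 * s ^ 2)) * (κ ^ 2 * s ^ 2)) / √(1 - κ ^ 2 * s ^ 2) +
        2 * (((1 + 3 / 4 * α) + α / 2 * (κ ^ 2 * s ^ 2)) * ((1 - κ ^ 2 * s ^ 2) * stpf v κ s)) -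
        2 * stpf v κ s) := by
    rw [intervalIntegral.integral_of_le hk.le, integral_Ioc_eq_integral_Ioo]
    apply setIntegral_nonneg_of_ae_restrict
    have hA' : ∀ᵐ s ∂(volume.restrict (Ioo (0 : ℝ) (1 / κ))), s ^ 2 * v s ≤ (1 + α) * rho v s :=
      ae_restrict_of_ae_restrict_of_subset Ioo_subset_Ioi_self hA
    filter_upwards [hA', ae_restrict_mem measurableSet_Ioo] with s hs1 hs2
    have hs0 : 0 < s := hs2.1
    have hX1 : κ ^ 2 * s ^ 2 < 1 := by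
      have h3 : κ * s < 1 := by
        have := hs2.2
        rw [lt_div_iff₀ hκ] at this
        linarith
      have h4 : 0 ≤ κ * s := by positivity
      nlinarith
    have hX0 : 0 ≤ κ ^ 2 * s ^ 2 := by positivity
    have hq : 0 < √(1 - κ ^ 2 * s ^ 2) := Real.sqrt_pos.2 (by linarith)
    have hR := hv.rho_nn hs0.le
    have hV : 0 ≤ s ^ 2 * (rho v s * v s) := by
      have := hv.nn s
      positivity
    have hRV : s ^ 2 * (rho v s * v s) ≤ (1 + α) * rho v s ^ 2 := by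
      have h5 : rho v s * (s ^ 2 * v s) ≤ rho v s * ((1 + α) * rho v s) := mul_le_mul_of_nonneg_left hs1 hR
      nlinarith
    exact im3_pt hα hX0 hX1.le hq hV hRV
  rw [hwκ, h2]
  rw [← key] at pos
  have hCκ : 0 ≤ C * κ := by positivity
  have h6 := mul_nonneg hCκ pos
  nlinarith

end Pool.Agent.R3D
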