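import Pool.Agent.R3D.TD
import Pool.Agent.R3D.T3

/-! Module R3D-IMg: `s v ≤ (1+γ) zed` a.e. implies `κ² w ≤ (1+γ) rho w`. -/

namespace Pool.Agent.R3D
open MeasureTheory Set Filter Topology Pool.Agent.RB75

/-- `rho(s) zed(s) ≤ ∫_0^s rho v`. -/
theorem rho_zed_le {v : ℝ → ℝ} (hv : Dat v) {s : ℝ} (hs : 0 ≤ s) :
    rho v s * zed v s ≤ ∫ x in (0 : ℝ)..s, rho v x * v x := by
  unfold zed
  rw [← intervalIntegral.integral_const_mul]
  refine intervalIntegral.integral_mono_on hs ((hv.ii le_rfl hs).const_mul _)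
    (hv.iirv le_rfl hs) fun x hx => ?_
  exact mul_le_mul_of_nonneg_right (hv.rho_anti hx.1 hs hx.2) (hv.nn x)

theorem IMg {v w : ℝ → ℝ} (hv : Dat v) (hw : Dat w) {C : ℝ} (hC : 0 < C) (h : Stp C v w) {κ : ℝ} (hκ : 0 < κ)
    (hs : StpAt C v w κ) {γ : ℝ} (hγ : 0 ≤ γ)
    (hA : ∀ᵐ s ∂(volume.restrict (Ioi (0 : ℝ))), s * v s ≤ (1 + γ) * zed v s) :
    κ ^ 2 * w κ ≤ (1 + γ) * rho w κ := by
  obtain ⟨hi, hw'⟩ := hs
  have h1 : (0 : ℝ) ≤ 1 / κ := by positivity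
  have hQ : ContinuousOn (fun s => ∫ x in (0 : ℝ)..s, rho v x * v x) (Icc 0 (1 / κ)) := by
    have := intervalIntegral.continuousOn_primitive_interval' (hv.iirv le_rfl h1)
      (left_mem_uIcc : (0 : ℝ) ∈ uIcc 0 (1 / κ))
    rwa [uIcc_of_le h1] at this
  have hg : IntervalIntegrable (fun s => κ ^ 2 * s * (∫ x in (0 : ℝ)..s, rho v x * v x) /
      √(1 - κ ^ 2 * s ^ 2)) volume 0 (1 / κ) := by
    refine ii_ker hκ ?_
    exact (Continuous.continuousOn (by fun_prop)).mul hQ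
  rw [hw', T3 hv hw hC h hκ, TD3 hv hκ]
  have key : κ ^ 2 * ∫ s in (0 : ℝ)..(1 / κ), stpf v κ s ≤
      (1 + γ) * ∫ s in (0 : ℝ)..(1 / κ), κ ^ 2 * s * (∫ x in (0 : ℝ)..s, rho v x * v x) /
        √(1 - κ ^ 2 * s ^ 2) := by
    rw [← intervalIntegral.integral_const_mul, ← intervalIntegral.integral_const_mul]
    refine intervalIntegral.integral_mono_ae_restrict h1 (hi.const_mul _) (hg.const_mul _) ?_
    rw [← Measure.restrict_congr_set (Ioc_ae_eq_Icc (a := (0 : ℝ)) (b := 1 / κ) (μ := volume))]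
    have hA' : ∀ᵐ s ∂(volume.restrict (Ioc (0 : ℝ) (1 / κ))), s * v s ≤ (1 + γ) * zed v s :=
      ae_mono (Measure.restrict_mono Ioc_subset_Ioi_self le_rfl) hA
    filter_upwards [hA', ae_restrict_mem measurableSet_Ioc] with s h2 h3
    have hs0 : 0 ≤ s := h3.1.le
    have h4 := hv.rho_nn hs0
    have h5 := rho_zed_le hv hs0
    have h6 : s ^ 2 * (rho v s * v s) ≤ (1 + γ) * (s * ∫ x in (0 : ℝ)..s, rho v x * v x) := by
      calc s ^ 2 * (rho v s * v s) = (s * rho v s) * (s * v s) := by ring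
        _ ≤ (s * rho v s) * ((1 + γ) * zed v s) := mul_le_mul_of_nonneg_left h2 (by positivity)
        _ = ((1 + γ) * s) * (rho v s * zed v s) := by ring
        _ ≤ ((1 + γ) * s) * ∫ x in (0 : ℝ)..s, rho v x * v x :=
            mul_le_mul_of_nonneg_left h5 (by positivity)
        _ = (1 + γ) * (s * ∫ x in (0 : ℝ)..s, rho v x * v x) := by ring
    show κ ^ 2 * (s ^ 2 * (rho v s * v s) / √(1 - κ ^ 2 * s ^ 2)) ≤
      (1 + γ) * (κ ^ 2 * s * (∫ x in (0 : ℝ)..s, rho v x * v x) / √(1 - κ ^ 2 * s ^ 2))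
    have h7 : κ ^ 2 * (s ^ 2 * (rho v s * v s)) / √(1 - κ ^ 2 * s ^ 2) ≤
        κ ^ 2 * ((1 + γ) * (s * ∫ x in (0 : ℝ)..s, rho v x * v x)) / √(1 - κ ^ 2 * s ^ 2) :=
      div_le_div_of_nonneg_right (mul_le_mul_of_nonneg_left h6 (by positivity)) (Real.sqrt_nonneg _)
    calc κ ^ 2 * (s ^ 2 * (rho v s * v s) / √(1 - κ ^ 2 * s ^ 2))
        = κ ^ 2 * (s ^ 2 * (rho v s * v s)) / √(1 - κ ^ 2 * s ^ 2) := by ring
      _ ≤ κ ^ 2 * ((1 + γ) * (s * ∫ x in (0 : ℝ)..s, rho v x * v x)) / √(1 - κ ^ 2 * s ^ 2) := h7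
      _ = (1 + γ) * (κ ^ 2 * s * (∫ x in (0 : ℝ)..s, rho v x * v x) / √(1 - κ ^ 2 * s ^ 2)) := by
          ring
  have h8 := mul_le_mul_of_nonneg_left key (show 0 ≤ 2 * C by positivity)
  linarith

end Pool.Agent.R3D
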