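import Pool.Agent.R3D.B1

/-! Module R3D-SC: the substitution `x ↦ k x` in `Dat`, `rho`, `zed`, `StpAt`, `Stp` and `Pair3`. -/

namespace Pool.Agent.R3D
open MeasureTheory Set Filter Topology Pool.Agent.RB75

theorem Dat.scale {v : ℝ → ℝ} (h : Dat v) {k : ℝ} (hk : 0 < k) : Dat (fun s => v (k * s)) := by
  refine ⟨h.meas.comp (measurable_const_mul k), fun x => h.nn _, ?_, ?_, ?_⟩
  · rw [integrableOn_Ioi_comp_mul_left_iff v 0 hk, mul_zero]
    exact h.int0
  · have h1 : IntegrableOn (fun x => (fun y => k⁻¹ * (y * v y)) (k * x)) (Ioi 0) := by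
      rw [integrableOn_Ioi_comp_mul_left_iff (fun y => k⁻¹ * (y * v y)) 0 hk, mul_zero]
      exact h.int1.const_mul _
    refine h1.congr_fun (fun x _ => ?_) measurableSet_Ioi
    show k⁻¹ * (k * x * v (k * x)) = x * v (k * x)
    field_simp
  · rw [integral_comp_mul_left_Ioi v 0 hk, mul_zero, smul_eq_mul]
    exact mul_pos (inv_pos.2 hk) h.pos

theorem rho_scale (v : ℝ → ℝ) {k : ℝ} (hk : 0 < k) (κ : ℝ) : rho (fun s => v (k * s)) κ = rho v (k * κ) / k ^ 2 := by
  unfold rho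
  have h1 : ∫ x in Ioi κ, x * v (k * x) = ∫ x in Ioi κ, (fun y => k⁻¹ * (y * v y)) (k * x) := by
    refine setIntegral_congr_fun measurableSet_Ioi fun x _ => ?_
    show x * v (k * x) = k⁻¹ * (k * x * v (k * x))
    field_simp
  rw [h1, integral_comp_mul_left_Ioi (fun y => k⁻¹ * (y * v y)) κ hk, integral_const_mul, smul_eq_mul]
  field_simp

theorem zed_scale (v : ℝ → ℝ) {k : ℝ} (hk : 0 < k) (κ : ℝ) : zed (fun s => v (k * s)) κ = zed v (k * κ) / k := by
  unfold zed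
  rw [intervalIntegral.integral_comp_mul_left v hk.ne', mul_zero, smul_eq_mul]
  field_simp

private theorem sc_stpf (v : ℝ → ℝ) {k : ℝ} (hk : 0 < k) (κ s : ℝ) :
    stpf (fun s => v (k * s)) (k * κ) s = (k ^ 4)⁻¹ * stpf v κ (k * s) := by
  unfold stpf
  rw [rho_scale v hk]
  have h1 : 1 - (k * κ) ^ 2 * s ^ 2 = 1 - κ ^ 2 * (k * s) ^ 2 := by ring
  rw [h1]
  field_simp

theorem StpAt.scale {C : ℝ} {v w : ℝ → ℝ} {κ k l : ℝ} (hk : 0 < k) (hl : k * l = 1) (hκ : 0 < κ)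
    (h : StpAt C v w κ) : StpAt (C * k ^ 5) (fun s => v (k * s)) (fun s => w (l * s)) (k * κ) := by
  obtain ⟨h1, h2⟩ := h
  have hfun : stpf (fun s => v (k * s)) (k * κ) = fun s => (k ^ 4)⁻¹ * stpf v κ (k * s) := by
    funext s
    exact sc_stpf v hk κ s
  constructor
  · rw [hfun]
    have h3 := (h1.comp_mul_left (c := k) (by simp) (by simp)).const_mul (k ^ 4)⁻¹
    rw [zero_div, div_div, mul_comm κ k] at h3
    exact h3
  · show w (l * (k * κ)) = _
    rw [← mul_assoc, mul_comm l k, hl, one_mul, h2, hfun, intervalIntegral.integral_const_mul,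
      intervalIntegral.integral_comp_mul_left (stpf v κ) hk.ne', mul_zero, smul_eq_mul]
    have h3 : k * (1 / (k * κ)) = 1 / κ := by field_simp
    rw [h3]
    field_simp

theorem Stp.scale {C : ℝ} {v w : ℝ → ℝ} {k l : ℝ} (hk : 0 < k) (hl : k * l = 1)
    (h : Stp C v w) : Stp (C * k ^ 5) (fun s => v (k * s)) (fun s => w (l * s)) := by
  have hl0 : 0 < l := by
    by_contra hc
    have h1 : k * l ≤ 0 := mul_nonpos_of_nonneg_of_nonpos hk.le (not_lt.1 hc)
    rw [hl] at h1; linarith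
  unfold Stp at h ⊢
  rw [ae_restrict_iff' measurableSet_Ioi] at h ⊢
  have hq : Measure.QuasiMeasurePreserving (fun x : ℝ => l * x) volume volume := by
    refine ⟨measurable_const_mul l, ?_⟩
    rw [Real.map_volume_mul_left hl0.ne']
    exact Measure.smul_absolutelyContinuous
  filter_upwards [hq.ae h] with κ h1 hκ
  have hκ' : (0 : ℝ) < κ := hκ
  have h2 : (0 : ℝ) < l * κ := mul_pos hl0 hκ'
  have h3 := (h1 h2).scale hk hl h2
  rwa [← mul_assoc, hl, one_mul] at h3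

theorem Pair3.scale {C₀ C₁ : ℝ} {v₀ v₁ : ℝ → ℝ} (h : Pair3 C₀ C₁ v₀ v₁) {k l : ℝ} (hk : 0 < k) (hl : k * l = 1) :
    Pair3 (C₀ * k ^ 5) (C₁ * l ^ 5) (fun s => v₀ (k * s)) (fun s => v₁ (l * s)) := by
  have hl0 : 0 < l := by
    by_contra hc
    have h1 : k * l ≤ 0 := mul_nonpos_of_nonneg_of_nonpos hk.le (not_lt.1 hc)
    rw [hl] at h1; linarith
  have hlk : l * k = 1 := by rw [mul_comm]; exact hl
  exact ⟨mul_pos h.hC0 (by positivity), mul_pos h.hC1 (by positivity), h.d0.scale hk, h.d1.scale hl0,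
    h.s0.scale hk hl, h.s1.scale hl0 hlk⟩

end Pool.Agent.R3D
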