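import Pool.Agent.R3D.U2
import Pool.Agent.R3D.SC

/-! Module R3D-U3: `κ v₁ ≤ N zed v₁` a.e., with a universal `N`.

At `κ = 1` (`U3a`): `v₁ 1 = 2 C₀ ∫_0^1 s² rho v₀/√(1-s²)`. The part `(0,1/2)` is bounded by `y2_le` and `zed_ge`, the part `(1/2,1)` by `U1b`,
`U2` and `zed_ge`. General `κ`: scaling (`Pair3.scale`, `StpAt.scale`). -/

namespace Pool.Agent.R3D
open MeasureTheory Set Filter Topology Pool.Agent.RB75

private theorem U3_sqi {v : ℝ → ℝ} (hv : Dat v) {a b : ℝ} (ha : 0 ≤ a) (hb : 0 ≤ b) :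
    IntervalIntegrable (fun y => rho v y ^ 2) volume a b := by
  apply ContinuousOn.intervalIntegrable
  refine (hv.rho_cont.mono fun x hx => ?_).pow 2
  rw [mem_uIcc] at hx
  rcases hx with hx | hx
  · exact ha.trans hx.1
  · exact hb.trans hx.1

/-- the part `(0,1/2)` -/
private theorem U3_A {v : ℝ → ℝ} (h : Dat v) (hi : IntervalIntegrable (stpf v 1) volume 0 1) :
    ∫ s in (0 : ℝ)..(1 / 2), stpf v 1 s ≤ ∫ s in (0 : ℝ)..1, rho v s ^ 2 := by
  have h1 : ∫ s in (0 : ℝ)..(1 / 2), stpf v 1 s ≤ ∫ s in (0 : ℝ)..(1 / 2), 2 * (s ^ 2 * (rho v s * v s)) := by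
    refine intervalIntegral.integral_mono_on (by norm_num)
      (hi.mono_set ?_) (((h.iirv le_rfl (by norm_num)).continuousOn_mul (by fun_prop)).const_mul 2) ?_
    · rw [uIcc_of_le (by norm_num), uIcc_of_le (by norm_num)]
      exact Icc_subset_Icc_right (by norm_num)
    · intro s hs
      have hrv : 0 ≤ rho v s * v s := mul_nonneg (h.rho_nn hs.1) (h.nn s)
      have h2 : (1 / 2 : ℝ) ≤ √(1 - s ^ 2) := by
        apply Real.le_sqrt_of_sq_le
        nlinarith [hs.1, hs.2]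
      unfold stpf
      rw [one_pow, one_mul, div_le_iff₀ (by linarith)]
      have h3 : 0 ≤ s ^ 2 * (rho v s * v s) := mul_nonneg (sq_nonneg s) hrv
      nlinarith [mul_le_mul_of_nonneg_left h2 h3]
  rw [intervalIntegral.integral_const_mul] at h1
  have h2 := y2_le h (by norm_num : (0 : ℝ) ≤ 1 / 2)
  have h3 : ∫ s in (0 : ℝ)..(1 / 2), rho v s ^ 2 ≤ ∫ s in (0 : ℝ)..1, rho v s ^ 2 :=
    intervalIntegral.integral_mono_interval (le_refl _) (by norm_num) (by norm_num)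
      (Eventually.of_forall fun s => sq_nonneg _) (U3_sqi h le_rfl zero_le_one)
  linarith

/-- the part `(1/2,1)` -/
private theorem U3_B {v : ℝ → ℝ} (h : Dat v) {K : ℝ} (hK : 0 < K)
    (hi : IntervalIntegrable (stpf v 1) volume 0 1)
    (hU : ∫⁻ s in Ioo (1 / 2 : ℝ) 1, ENNReal.ofReal (v s / √(1 - s ^ 2)) ≤ ENNReal.ofReal (K * rho v 1)) :
    ∫ s in (1 / 2 : ℝ)..1, stpf v 1 s ≤ rho v (1 / 2) * (K * rho v 1) := by
  have hr1 : 0 ≤ rho v 1 := h.rho_nn zero_le_one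
  have hr2 : 0 ≤ rho v (1 / 2) := h.rho_nn (by norm_num)
  have hnn : ∀ s ∈ Ioo (1 / 2 : ℝ) 1, 0 ≤ stpf v 1 s := fun s hs => by
    unfold stpf
    exact div_nonneg (mul_nonneg (sq_nonneg s) (mul_nonneg (h.rho_nn (by linarith [hs.1])) (h.nn s)))
      (Real.sqrt_nonneg _)
  have hm : AEStronglyMeasurable (stpf v 1) (volume.restrict (Ioo (1 / 2 : ℝ) 1)) := by
    have h1 := hi.1.aestronglyMeasurable
    have h2 : Ioo (1 / 2 : ℝ) 1 ⊆ Ioc 0 1 := fun x hx => ⟨by linarith [hx.1], hx.2.le⟩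
    exact h1.mono_measure (Measure.restrict_mono h2 le_rfl)
  rw [intervalIntegral.integral_of_le (by norm_num), integral_Ioc_eq_integral_Ioo,
    integral_eq_lintegral_of_nonneg_ae ((ae_restrict_mem measurableSet_Ioo).mono hnn) hm]
  refine ENNReal.toReal_le_of_le_ofReal (by positivity) ?_
  have h2 : ∫⁻ s in Ioo (1 / 2 : ℝ) 1, ENNReal.ofReal (stpf v 1 s) ≤
      ENNReal.ofReal (rho v (1 / 2)) * ∫⁻ s in Ioo (1 / 2 : ℝ) 1, ENNReal.ofReal (v s / √(1 - s ^ 2)) := by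
    rw [← lintegral_const_mul' _ _ ENNReal.ofReal_ne_top]
    refine setLIntegral_mono' measurableSet_Ioo fun s hs => ?_
    rw [← ENNReal.ofReal_mul hr2]
    apply ENNReal.ofReal_le_ofReal
    have hs0 : 0 < s := by linarith [hs.1]
    have h3 : rho v s ≤ rho v (1 / 2) := h.rho_anti (by norm_num [Ici]) hs0.le hs.1.le
    have h4 : 0 ≤ rho v s := h.rho_nn hs0.le
    have h5 : s ^ 2 ≤ 1 := by nlinarith [hs.2]
    unfold stpf
    rw [one_pow, one_mul, ← mul_div_assoc]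
    apply div_le_div_of_nonneg_right _ (Real.sqrt_nonneg _)
    have h6 : 0 ≤ rho v s * v s := mul_nonneg h4 (h.nn s)
    calc s ^ 2 * (rho v s * v s) ≤ 1 * (rho v s * v s) := mul_le_mul_of_nonneg_right h5 h6
      _ ≤ rho v (1 / 2) * v s := by rw [one_mul]; exact mul_le_mul_of_nonneg_right h3 (h.nn s)
  refine h2.trans ?_
  rw [ENNReal.ofReal_mul hr2]
  exact mul_le_mul_right hU _

theorem U3a : ∃ N : ℝ, 0 < N ∧ ∀ (C₀ C₁ : ℝ) (v₀ v₁ : ℝ → ℝ), Pair3 C₀ C₁ v₀ v₁ → StpAt C₀ v₀ v₁ 1 →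
    v₁ 1 ≤ N * zed v₁ 1 := by
  obtain ⟨K, hK, hU2⟩ := U2
  refine ⟨2 + 68 * K, by positivity, fun C₀ C₁ v₀ v₁ h hs => ?_⟩
  obtain ⟨hi, he⟩ := hs
  rw [div_one] at hi he
  have hC0 := h.hC0
  have hr1 : 0 ≤ rho v₀ 1 := h.d0.rho_nn zero_le_one
  have hr2 : 0 ≤ rho v₀ (1 / 2) := h.d0.rho_nn (by norm_num)
  have hA := U3_A h.d0 hi
  have hB := U3_B h.d0 hK hi (hU2 C₀ C₁ v₀ v₁ h)
  have hb := U1b h
  have hz := zed_ge h.d0 h.d1 hC0 h.s0 (κ := 1) one_pos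
  rw [div_one, mul_one] at hz
  set S : ℝ := ∫ s in (0 : ℝ)..1, rho v₀ s ^ 2 with hS
  have hS1 : rho v₀ 1 ^ 2 ≤ S := by
    have h1 : ∫ s in (0 : ℝ)..1, rho v₀ 1 ^ 2 ≤ S := by
      refine intervalIntegral.integral_mono_on zero_le_one intervalIntegrable_const
        (U3_sqi h.d0 le_rfl zero_le_one) fun s hs => ?_
      have h2 : rho v₀ 1 ≤ rho v₀ s := h.d0.rho_anti hs.1 (by norm_num [Ici]) hs.2
      exact pow_le_pow_left₀ hr1 h2 2
    rw [intervalIntegral.integral_const, sub_zero, one_smul] at h1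
    exact h1
  have hsplit : ∫ s in (0 : ℝ)..1, stpf v₀ 1 s =
      (∫ s in (0 : ℝ)..(1 / 2), stpf v₀ 1 s) + ∫ s in (1 / 2 : ℝ)..1, stpf v₀ 1 s := by
    refine (intervalIntegral.integral_add_adjacent_intervals (hi.mono_set ?_) (hi.mono_set ?_)).symm
    · rw [uIcc_of_le (by norm_num), uIcc_of_le (by norm_num)]
      exact Icc_subset_Icc_right (by norm_num)
    · rw [uIcc_of_le (by norm_num), uIcc_of_le (by norm_num)]
      exact Icc_subset_Icc_left (by norm_num)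
  have h3 : rho v₀ (1 / 2) * (K * rho v₀ 1) ≤ 34 * K * S := by
    have h4 : rho v₀ (1 / 2) * (K * rho v₀ 1) ≤ 34 * rho v₀ 1 * (K * rho v₀ 1) :=
      mul_le_mul_of_nonneg_right hb (by positivity)
    nlinarith [mul_le_mul_of_nonneg_left hS1 hK.le]
  have h5 : v₁ 1 ≤ 2 * C₀ * (S + 34 * K * S) := by
    rw [he, hsplit]
    exact mul_le_mul_of_nonneg_left (by linarith) (by positivity)
  have h6 : 2 * C₀ * (S + 34 * K * S) = (2 + 68 * K) * (C₀ * S) := by ring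
  rw [h6] at h5
  exact h5.trans (mul_le_mul_of_nonneg_left hz (by positivity))

theorem U3 {C₀ C₁ : ℝ} {v₀ v₁ : ℝ → ℝ} (h : Pair3 C₀ C₁ v₀ v₁) :
    ∃ N : ℝ, 0 < N ∧ ∀ᵐ κ ∂(volume.restrict (Ioi (0 : ℝ))), κ * v₁ κ ≤ N * zed v₁ κ := by
  obtain ⟨N, hN, hU⟩ := U3a
  refine ⟨N, hN, ?_⟩
  filter_upwards [h.s0, ae_restrict_mem measurableSet_Ioi] with κ hst hκ
  have hκ0 : (0 : ℝ) < κ := hκ
  have hk : 0 < 1 / κ := by positivity
  have hl : 1 / κ * κ = 1 := by field_simp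
  have h1 := hst.scale hk hl hκ0
  rw [hl] at h1
  have h2 := hU _ _ _ _ (h.scale hk hl) h1
  rw [zed_scale v₁ hκ0] at h2
  simp only [mul_one] at h2
  have h3 := mul_le_mul_of_nonneg_left h2 hκ0.le
  have h4 : κ * (N * (zed v₁ κ / κ)) = N * zed v₁ κ := by field_simp
  linarith

end Pool.Agent.R3D
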