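import Pool.Agent.R3D.IM3
import Pool.Agent.R3D.IMg
import Pool.Agent.R3D.U3

/-! Assembly: the comparisons with `p = 0`. -/

namespace Pool.Agent.R3D
open MeasureTheory Set Filter Topology Pool.Agent.RB75

theorem IT_step {C₀ C₁ : ℝ} {v₀ v₁ : ℝ → ℝ} (h : Pair3 C₀ C₁ v₀ v₁) {γ : ℝ} (hγ : 0 ≤ γ)
    (h1 : ∀ᵐ κ ∂(volume.restrict (Ioi (0 : ℝ))), κ * v₁ κ ≤ (1 + γ) * zed v₁ κ) :
    (∀ᵐ κ ∂(volume.restrict (Ioi (0 : ℝ))), κ ^ 2 * v₀ κ ≤ (1 + γ) * rho v₀ κ) ∧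
    ∀ᵐ κ ∂(volume.restrict (Ioi (0 : ℝ))), κ * v₁ κ ≤ (1 + 3 / 4 * γ) * zed v₁ κ := by
  have hA : ∀ᵐ κ ∂(volume.restrict (Ioi (0 : ℝ))), κ ^ 2 * v₀ κ ≤ (1 + γ) * rho v₀ κ := by
    filter_upwards [h.s1, ae_restrict_mem measurableSet_Ioi] with κ hs hκ
    exact IMg h.d1 h.d0 h.hC1 h.s1 hκ hs hγ h1
  refine ⟨hA, ?_⟩
  filter_upwards [h.s0, ae_restrict_mem measurableSet_Ioi] with κ hs hκ
  exact IM3 h.d0 h.d1 h.hC0 h.s0 hκ hs hγ hA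

theorem IT_pow {C₀ C₁ : ℝ} {v₀ v₁ : ℝ → ℝ} (h : Pair3 C₀ C₁ v₀ v₁) :
    ∃ N : ℝ, 0 < N ∧ ∀ k : ℕ, ∀ᵐ κ ∂(volume.restrict (Ioi (0 : ℝ))),
      κ * v₁ κ ≤ (1 + (3 / 4) ^ k * N) * zed v₁ κ := by
  obtain ⟨N, hN, h1⟩ := U3 h
  refine ⟨N, hN, fun k => ?_⟩
  induction k with
  | zero =>
    filter_upwards [h1, ae_restrict_mem measurableSet_Ioi] with κ hs hκ
    have hz := h.d1.zed_nn (a := κ) (le_of_lt hκ)
    rw [pow_zero]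
    nlinarith
  | succ k ih =>
    have := (IT_step h (γ := (3 / 4) ^ k * N) (by positivity) ih).2
    filter_upwards [this] with κ hs
    rw [pow_succ]
    calc κ * v₁ κ ≤ (1 + 3 / 4 * ((3 / 4) ^ k * N)) * zed v₁ κ := hs
      _ = _ := by ring

theorem IT {C₀ C₁ : ℝ} {v₀ v₁ : ℝ → ℝ} (h : Pair3 C₀ C₁ v₀ v₁) :
    (∀ᵐ s ∂(volume.restrict (Ioi (0 : ℝ))), 0 ≤ defE 0 v₀ s) ∧
    ∀ᵐ s ∂(volume.restrict (Ioi (0 : ℝ))), 0 ≤ defe 0 v₁ s := by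
  obtain ⟨N, hN, h1⟩ := IT_pow h
  have h2 : ∀ᵐ κ ∂(volume.restrict (Ioi (0 : ℝ))), ∀ k : ℕ, κ * v₁ κ ≤ (1 + (3 / 4) ^ k * N) * zed v₁ κ :=
    ae_all_iff.2 h1
  have h3 : ∀ᵐ κ ∂(volume.restrict (Ioi (0 : ℝ))), κ * v₁ κ ≤ (1 + 0) * zed v₁ κ := by
    filter_upwards [h2] with κ hκ
    have hlim : Tendsto (fun k : ℕ => (1 + (3 / 4 : ℝ) ^ k * N) * zed v₁ κ) atTop
        (𝓝 ((1 + 0 * N) * zed v₁ κ)) :=
      (((tendsto_pow_atTop_nhds_zero_of_lt_one (by norm_num) (by norm_num)).mul_const N).const_add 1).mul_const _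
    rw [zero_mul] at hlim
    exact ge_of_tendsto' hlim hκ
  obtain ⟨h4, -⟩ := IT_step h le_rfl h3
  constructor
  · filter_upwards [h4] with s hs
    unfold defE
    linarith
  · filter_upwards [h3] with s hs
    unfold defe
    linarith

end Pool.Agent.R3D
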