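import Mathlib

/-! Module R3D-K1: kernel integrals as `lintegral`s.

(A) and (B) from the fundamental theorem of calculus for a nonnegative derivative, (C) by the substitution `z = y/s`. -/

namespace Pool.Agent.R3D
open MeasureTheory Set Filter Topology

private theorem K1_ftc {g g' : ℝ → ℝ} {a b : ℝ} (hab : a ≤ b) (hc : ContinuousOn g (Icc a b))
    (hd : ∀ x ∈ Ioo a b, HasDerivAt g (g' x) x) (hpos : ∀ x ∈ Ioo a b, 0 ≤ g' x) :
    ∫⁻ x in Ioo a b, ENNReal.ofReal (g' x) = ENNReal.ofReal (g b - g a) := by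
  have hint : IntegrableOn g' (Ioc a b) := intervalIntegral.integrableOn_deriv_of_nonneg hc hd hpos
  have h := intervalIntegral.integral_eq_sub_of_hasDerivAt_of_le hab hc hd
    ((intervalIntegrable_iff_integrableOn_Ioc_of_le hab).2 hint)
  rw [← h, intervalIntegral.integral_of_le hab, integral_Ioc_eq_integral_Ioo,
    ofReal_integral_eq_lintegral_ofReal]
  · exact hint.mono_set Ioo_subset_Ioc_self
  · filter_upwards [ae_restrict_mem measurableSet_Ioo] with x hx
    exact hpos x hx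

private theorem K1_pos {x y : ℝ} (hx : 0 ≤ x) (hy : 0 < y) (h : x < 1 / y) : 0 < 1 - x ^ 2 * y ^ 2 := by
  rw [lt_div_iff₀ hy] at h
  have h1 : 0 ≤ x * y := mul_nonneg hx hy.le
  nlinarith

theorem kerA {κ y : ℝ} (hκ : 0 ≤ κ) (hy : 0 < y) (h : κ * y < 1) :
    ∫⁻ x in Ioo κ (1 / y), ENNReal.ofReal (x * (y / √(1 - x ^ 2 * y ^ 2))) =
      ENNReal.ofReal (√(1 - κ ^ 2 * y ^ 2) / y) := by
  have hab : κ ≤ 1 / y := by
    rw [le_div_iff₀ hy]
    exact h.le
  have hc : ContinuousOn (fun x : ℝ => -(√(1 - x ^ 2 * y ^ 2) / y)) (Icc κ (1 / y)) := by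
    apply Continuous.continuousOn
    fun_prop
  have hd : ∀ x ∈ Ioo κ (1 / y), HasDerivAt (fun x : ℝ => -(√(1 - x ^ 2 * y ^ 2) / y))
      (x * (y / √(1 - x ^ 2 * y ^ 2))) x := by
    intro x hx
    have hpos := K1_pos (hκ.trans hx.1.le) hy hx.2
    have h1 : HasDerivAt (fun x : ℝ => 1 - x ^ 2 * y ^ 2) (-(2 * x * y ^ 2)) x := by
      have h2 : HasDerivAt (fun x : ℝ => x ^ 2) (2 * x) x := by
        simpa using hasDerivAt_pow 2 x
      exact (h2.mul_const (y ^ 2)).const_sub 1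
    have h3 := ((h1.sqrt hpos.ne').div_const y).neg
    have hs : √(1 - x ^ 2 * y ^ 2) ≠ 0 := (Real.sqrt_pos.2 hpos).ne'
    have e : x * (y / √(1 - x ^ 2 * y ^ 2)) = -(-(2 * x * y ^ 2) / (2 * √(1 - x ^ 2 * y ^ 2)) / y) := by
      field_simp
    rw [e]
    exact h3
  rw [K1_ftc hab hc hd]
  · congr 1
    have h1 : (1 : ℝ) - (1 / y) ^ 2 * y ^ 2 = 0 := by
      field_simp
      ring
    rw [h1, Real.sqrt_zero]
    ring
  · intro x hx
    have hx0 : 0 ≤ x := hκ.trans hx.1.le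
    positivity

theorem kerB {κ y : ℝ} (hκ : 0 < κ) (hy : 0 < y) :
    ∫⁻ x in Ioo 0 (min κ (1 / y)), ENNReal.ofReal (y / √(1 - x ^ 2 * y ^ 2)) =
      ENNReal.ofReal (Real.arcsin (min (κ * y) 1)) := by
  have hab : 0 ≤ min κ (1 / y) := le_min hκ.le (by positivity)
  have hc : ContinuousOn (fun x : ℝ => Real.arcsin (x * y)) (Icc 0 (min κ (1 / y))) :=
    (Real.continuous_arcsin.comp (continuous_id.mul continuous_const)).continuousOn
  have hd : ∀ x ∈ Ioo 0 (min κ (1 / y)), HasDerivAt (fun x : ℝ => Real.arcsin (x * y))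
      (y / √(1 - x ^ 2 * y ^ 2)) x := by
    intro x hx
    have hx1 : x * y < 1 := by
      rw [← lt_div_iff₀ hy]
      exact hx.2.trans_le (min_le_right _ _)
    have hx0 : 0 < x * y := mul_pos hx.1 hy
    have h1 : HasDerivAt (fun x : ℝ => x * y) y x := by
      simpa using (hasDerivAt_id x).mul_const y
    have h2 := (Real.hasDerivAt_arcsin (x := x * y) (by linarith) hx1.ne).comp x h1
    have e : y / √(1 - x ^ 2 * y ^ 2) = 1 / √(1 - (x * y) ^ 2) * y := by
      rw [mul_pow]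
      ring
    rw [e]
    exact h2
  rw [K1_ftc hab hc hd]
  · congr 1
    rw [zero_mul, Real.arcsin_zero, sub_zero]
    congr 1
    rw [min_mul_of_nonneg _ _ hy.le, div_mul_cancel₀ _ hy.ne']
  · intro x hx
    positivity

private theorem K1_div_deriv {y s : ℝ} (hs : 0 < s) :
    HasDerivAt (fun s : ℝ => y / s) (-y / s ^ 2) s := by
  have h := (hasDerivAt_inv hs.ne').const_mul y
  have e : -y / s ^ 2 = y * (-(s ^ 2)⁻¹) := by ring
  rw [e]
  simpa only [div_eq_mul_inv] using h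

private theorem K1_inj {y : ℝ} (hy : 0 < y) : InjOn (fun s : ℝ => y / s) (Ioi 0) := by
  intro a ha b hb hab
  have ha0 : (0 : ℝ) < a := ha
  have hb0 : (0 : ℝ) < b := hb
  have hab : y / a = y / b := hab
  rw [div_eq_div_iff ha0.ne' hb0.ne'] at hab
  exact (mul_left_cancel₀ hy.ne' hab).symm

theorem kerC {y t : ℝ} (hy : 0 < y) (ht : y < t) :
    ∫⁻ s in Ioo y t, ENNReal.ofReal (√(1 - (1 / s) ^ 2 * y ^ 2) / y) =
      ∫⁻ z in Ioo (y / t) 1, ENNReal.ofReal (√(1 - z ^ 2) / z ^ 2) := by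
  have ht0 : 0 < t := hy.trans ht
  have himg : (fun s : ℝ => y / s) '' Ioo y t = Ioo (y / t) 1 := by
    ext z
    constructor
    · rintro ⟨s, hs, rfl⟩
      have h0 : 0 < s := hy.trans hs.1
      exact ⟨div_lt_div_of_pos_left hy h0 hs.2, (div_lt_one h0).2 hs.1⟩
    · rintro ⟨h0, h1⟩
      have hz : 0 < z := lt_trans (by positivity) h0
      refine ⟨y / z, ⟨?_, ?_⟩, ?_⟩
      · rw [lt_div_iff₀ hz]
        nlinarith
      · rw [div_lt_iff₀ hz]
        rw [div_lt_iff₀ ht0] at h0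
        linarith
      · show y / (y / z) = z
        field_simp
  have hsub : Ioo y t ⊆ Ioi (0 : ℝ) := fun v hv => hy.trans hv.1
  rw [← himg, lintegral_image_eq_lintegral_abs_deriv_mul measurableSet_Ioo
    (fun s hs => (K1_div_deriv (y := y) (hsub hs)).hasDerivWithinAt) ((K1_inj hy).mono hsub)]
  apply setLIntegral_congr_fun measurableSet_Ioo
  intro s hs
  have h0 : 0 < s := hsub hs
  show ENNReal.ofReal (√(1 - (1 / s) ^ 2 * y ^ 2) / y) = ENNReal.ofReal |(-y / s ^ 2)| *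
    ENNReal.ofReal (√(1 - (y / s) ^ 2) / (y / s) ^ 2)
  have e : (1 / s) ^ 2 * y ^ 2 = (y / s) ^ 2 := by
    field_simp
  rw [← ENNReal.ofReal_mul (abs_nonneg _), neg_div, abs_neg, abs_of_pos (by positivity), e]
  congr 1
  rw [div_pow]
  field_simp

end Pool.Agent.R3D
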