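import Mathlib

/-! Module R3D-KG: a uniform bound for a kernel.

For `a, b > 0`, `a ≠ b`: `a^{-1/2} b^{-1/2} ≤ |a-b|^{-1/4} (a^{-3/4} + b^{-3/4})`, and
`a^{-1/2} b^{-1/4} ≤ a^{-3/4} + b^{-3/4}`. With these the inner integral is at most `24 |x-1|^{-1/4}`
and the double integral at most `2304`, uniformly in `y ∈ (0,2)`. -/

namespace Pool.Agent.R3D
open MeasureTheory Set Filter Topology

private lemma kg_powle {a b : ℝ} (ha : 0 < a) (hab : a ≤ b) {r : ℝ} (hr : r ≤ 0) :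
    b ^ r ≤ a ^ r := Real.rpow_le_rpow_of_nonpos ha hab hr

private lemma kg_A1 {a b : ℝ} (ha : 0 < a) (hab : a < b) :
    a ^ (-(1 / 2) : ℝ) * b ^ (-(1 / 2) : ℝ) ≤ (b - a) ^ (-(1 / 4) : ℝ) * a ^ (-(3 / 4) : ℝ) := by
  have hb : 0 < b := ha.trans hab
  have hc : 0 < b - a := sub_pos.mpr hab
  have e1 : b ^ (-(1 / 2) : ℝ) = b ^ (-(1 / 4) : ℝ) * b ^ (-(1 / 4) : ℝ) := by
    rw [← Real.rpow_add hb]; norm_num
  have e2 : a ^ (-(3 / 4) : ℝ) = a ^ (-(1 / 2) : ℝ) * a ^ (-(1 / 4) : ℝ) := by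
    rw [← Real.rpow_add ha]; norm_num
  have h1 : b ^ (-(1 / 4) : ℝ) ≤ (b - a) ^ (-(1 / 4) : ℝ) :=
    kg_powle hc (by linarith) (by norm_num)
  have h2 : b ^ (-(1 / 4) : ℝ) ≤ a ^ (-(1 / 4) : ℝ) := kg_powle ha hab.le (by norm_num)
  have p1 : 0 ≤ a ^ (-(1 / 2) : ℝ) := Real.rpow_nonneg ha.le _
  have p2 : 0 ≤ b ^ (-(1 / 4) : ℝ) := Real.rpow_nonneg hb.le _
  have p3 : 0 ≤ (b - a) ^ (-(1 / 4) : ℝ) := Real.rpow_nonneg hc.le _
  rw [e1, e2]
  calc a ^ (-(1 / 2) : ℝ) * (b ^ (-(1 / 4) : ℝ) * b ^ (-(1 / 4) : ℝ))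
      ≤ a ^ (-(1 / 2) : ℝ) * ((b - a) ^ (-(1 / 4) : ℝ) * a ^ (-(1 / 4) : ℝ)) :=
        mul_le_mul_of_nonneg_left (mul_le_mul h1 h2 p2 p3) p1
    _ = _ := by ring

private lemma kg_A {a b c : ℝ} (ha : 0 < a) (hb : 0 < b) (hc : 0 < c) (hcab : c ≤ |a - b|) :
    a ^ (-(1 / 2) : ℝ) * b ^ (-(1 / 2) : ℝ) ≤
      c ^ (-(1 / 4) : ℝ) * (a ^ (-(3 / 4) : ℝ) + b ^ (-(3 / 4) : ℝ)) := by
  have hne : a ≠ b := by
    rintro rfl
    simp at hcab; linarith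
  have pa : 0 ≤ a ^ (-(3 / 4) : ℝ) := Real.rpow_nonneg ha.le _
  have pb : 0 ≤ b ^ (-(3 / 4) : ℝ) := Real.rpow_nonneg hb.le _
  have pc : 0 ≤ c ^ (-(1 / 4) : ℝ) := Real.rpow_nonneg hc.le _
  rcases lt_or_gt_of_ne hne with h | h
  · have h0 := kg_A1 ha h
    have hcc : c ≤ b - a := by rwa [abs_sub_comm, abs_of_pos (sub_pos.mpr h)] at hcab
    have h1 : (b - a) ^ (-(1 / 4) : ℝ) ≤ c ^ (-(1 / 4) : ℝ) := kg_powle hc hcc (by norm_num)
    calc _ ≤ _ := h0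
      _ ≤ c ^ (-(1 / 4) : ℝ) * a ^ (-(3 / 4) : ℝ) := mul_le_mul_of_nonneg_right h1 pa
      _ ≤ _ := mul_le_mul_of_nonneg_left (by linarith) pc
  · have h0 := kg_A1 hb h
    have hcc : c ≤ a - b := by rwa [abs_of_pos (sub_pos.mpr h)] at hcab
    have h1 : (a - b) ^ (-(1 / 4) : ℝ) ≤ c ^ (-(1 / 4) : ℝ) := kg_powle hc hcc (by norm_num)
    calc _ = b ^ (-(1 / 2) : ℝ) * a ^ (-(1 / 2) : ℝ) := mul_comm _ _
      _ ≤ _ := h0
      _ ≤ c ^ (-(1 / 4) : ℝ) * b ^ (-(3 / 4) : ℝ) := mul_le_mul_of_nonneg_right h1 pb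
      _ ≤ _ := mul_le_mul_of_nonneg_left (by linarith) pc

private lemma kg_B {a c : ℝ} (ha : 0 < a) (hc : 0 < c) :
    a ^ (-(1 / 2) : ℝ) * c ^ (-(1 / 4) : ℝ) ≤ a ^ (-(3 / 4) : ℝ) + c ^ (-(3 / 4) : ℝ) := by
  have pa : 0 ≤ a ^ (-(3 / 4) : ℝ) := Real.rpow_nonneg ha.le _
  have pc : 0 ≤ c ^ (-(3 / 4) : ℝ) := Real.rpow_nonneg hc.le _
  have e2 : a ^ (-(3 / 4) : ℝ) = a ^ (-(1 / 2) : ℝ) * a ^ (-(1 / 4) : ℝ) := by
    rw [← Real.rpow_add ha]; norm_num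
  have e3 : c ^ (-(3 / 4) : ℝ) = c ^ (-(1 / 2) : ℝ) * c ^ (-(1 / 4) : ℝ) := by
    rw [← Real.rpow_add hc]; norm_num
  rcases le_total a c with h | h
  · have h1 : c ^ (-(1 / 4) : ℝ) ≤ a ^ (-(1 / 4) : ℝ) := kg_powle ha h (by norm_num)
    have := mul_le_mul_of_nonneg_left h1 (Real.rpow_nonneg ha.le (-(1 / 2) : ℝ))
    linarith
  · have h1 : a ^ (-(1 / 2) : ℝ) ≤ c ^ (-(1 / 2) : ℝ) := kg_powle hc h (by norm_num)
    have := mul_le_mul_of_nonneg_right h1 (Real.rpow_nonneg hc.le (-(1 / 4) : ℝ))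
    linarith

/-- `1/√u = u^{-1/2}`. -/
private lemma kg_sqrt {u : ℝ} (hu : 0 < u) : 1 / √u = u ^ (-(1 / 2) : ℝ) := by
  rw [Real.sqrt_eq_rpow, Real.rpow_neg hu.le, one_div]

/-- `∫_a^b (1 - c x)^{-3/4} dx ≤ 4/c`. -/
private lemma kg_int {a b c : ℝ} (hc : 0 < c) (hab : a ≤ b) (hcb : c * b ≤ 1) (ha : 0 ≤ a) :
    ∫⁻ x in Ioc a b, ENNReal.ofReal ((1 - c * x) ^ (-(3 / 4) : ℝ)) ≤ ENNReal.ofReal (4 / c) := by
  have h0 : ∀ x ∈ Ioc a b, 0 ≤ 1 - c * x := by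
    intro x hx
    have := mul_le_mul_of_nonneg_left hx.2 hc.le
    linarith
  have hii : IntervalIntegrable (fun x : ℝ => x ^ (-(3 / 4) : ℝ)) volume (1 - c * b) (1 - c * a) :=
    intervalIntegral.intervalIntegrable_rpow' (by norm_num)
  have hI : IntervalIntegrable (fun x : ℝ => (1 - c * x) ^ (-(3 / 4) : ℝ)) volume a b := by
    have := (hii.comp_sub_left 1).comp_mul_left (c := c)
    have h2 : IntervalIntegrable (fun x : ℝ => (1 - c * x) ^ (-(3 / 4) : ℝ)) volume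
      ((1 - (1 - c * b)) / c) ((1 - (1 - c * a)) / c) := this
    have e1 : (1 - (1 - c * b)) / c = b := by field_simp; ring
    have e2 : (1 - (1 - c * a)) / c = a := by field_simp; ring
    rw [e1, e2] at h2
    exact h2.symm
  have hIo : IntegrableOn (fun x : ℝ => (1 - c * x) ^ (-(3 / 4) : ℝ)) (Ioc a b) :=
    (intervalIntegrable_iff_integrableOn_Ioc_of_le hab).1 hI
  rw [← ofReal_integral_eq_lintegral_ofReal hIo
    ((ae_restrict_iff' measurableSet_Ioc).2 (Eventually.of_forall fun x hx =>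
      Real.rpow_nonneg (h0 x hx) _))]
  apply ENNReal.ofReal_le_ofReal
  rw [← intervalIntegral.integral_of_le hab,
    intervalIntegral.integral_comp_sub_mul (fun x : ℝ => x ^ (-(3 / 4) : ℝ)) hc.ne' 1,
    integral_rpow (Or.inl (by norm_num))]
  have e : (-(3 / 4) + 1 : ℝ) = 1 / 4 := by norm_num
  rw [e, smul_eq_mul]
  have q1 : (1 - c * a) ^ (1 / 4 : ℝ) ≤ 1 := by
    have hca : 0 ≤ c * a := mul_nonneg hc.le ha
    have hca' : c * a ≤ c * b := mul_le_mul_of_nonneg_left hab hc.le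
    exact Real.rpow_le_one (by linarith) (by linarith) (by norm_num)
  have q2 : 0 ≤ (1 - c * b) ^ (1 / 4 : ℝ) := Real.rpow_nonneg (by linarith) _
  have : ((1 - c * a) ^ (1 / 4 : ℝ) - (1 - c * b) ^ (1 / 4 : ℝ)) / (1 / 4) ≤ 4 := by
    rw [div_le_iff₀ (by norm_num)]; linarith
  calc c⁻¹ * (((1 - c * a) ^ (1 / 4 : ℝ) - (1 - c * b) ^ (1 / 4 : ℝ)) / (1 / 4)) ≤ c⁻¹ * 4 :=
        mul_le_mul_of_nonneg_left this (inv_nonneg.2 hc.le)
    _ = 4 / c := by rw [div_eq_mul_inv, mul_comm]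

/-- `∫_1^2 (x-1)^{-3/4} dx ≤ 4`. -/
private lemma kg_int2 :
    ∫⁻ x in Ioc (1 : ℝ) 2, ENNReal.ofReal ((x - 1) ^ (-(3 / 4) : ℝ)) ≤ ENNReal.ofReal 4 := by
  have hii : IntervalIntegrable (fun x : ℝ => x ^ (-(3 / 4) : ℝ)) volume 0 1 :=
    intervalIntegral.intervalIntegrable_rpow' (by norm_num)
  have hI : IntervalIntegrable (fun x : ℝ => (x - 1) ^ (-(3 / 4) : ℝ)) volume 1 2 := by
    have := hii.comp_sub_right 1
    norm_num at this ⊢
    exact this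
  have hIo : IntegrableOn (fun x : ℝ => (x - 1) ^ (-(3 / 4) : ℝ)) (Ioc 1 2) :=
    (intervalIntegrable_iff_integrableOn_Ioc_of_le (by norm_num)).1 hI
  rw [← ofReal_integral_eq_lintegral_ofReal hIo
    ((ae_restrict_iff' measurableSet_Ioc).2 (Eventually.of_forall fun x hx =>
      Real.rpow_nonneg (by linarith [hx.1]) _))]
  apply ENNReal.ofReal_le_ofReal
  rw [← intervalIntegral.integral_of_le (by norm_num),
    intervalIntegral.integral_comp_sub_right (fun x : ℝ => x ^ (-(3 / 4) : ℝ)) 1,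
    integral_rpow (Or.inl (by norm_num))]
  norm_num

/-- `∫_{1/2}^2 |x-1|^{-3/4} dx ≤ 8`. -/
private lemma kg_int3 :
    ∫⁻ x in Ioo (1 / 2 : ℝ) 2, ENNReal.ofReal (|x - 1| ^ (-(3 / 4) : ℝ)) ≤ ENNReal.ofReal 8 := by
  have hsub : Ioo (1 / 2 : ℝ) 2 ⊆ Ioc (1 / 2 : ℝ) 1 ∪ Ioc (1 : ℝ) 2 := by
    intro x hx
    rcases le_or_gt x 1 with h | h
    · exact Or.inl ⟨hx.1, h⟩
    · exact Or.inr ⟨h, hx.2.le⟩
  have h1 : ∫⁻ x in Ioc (1 / 2 : ℝ) 1, ENNReal.ofReal (|x - 1| ^ (-(3 / 4) : ℝ)) ≤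
      ENNReal.ofReal 4 := by
    have := kg_int (a := 1 / 2) (b := 1) (c := 1) one_pos (by norm_num) (by norm_num) (by norm_num)
    rw [div_one] at this
    refine le_trans (le_of_eq (setLIntegral_congr_fun measurableSet_Ioc ?_)) this
    intro x hx
    have : |x - 1| = 1 - 1 * x := by
      rw [abs_of_nonpos (by linarith [hx.2])]; ring
    simp only [this]
  have h2 : ∫⁻ x in Ioc (1 : ℝ) 2, ENNReal.ofReal (|x - 1| ^ (-(3 / 4) : ℝ)) ≤
      ENNReal.ofReal 4 := by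
    refine le_trans (le_of_eq (setLIntegral_congr_fun measurableSet_Ioc ?_)) kg_int2
    intro x hx
    have : |x - 1| = x - 1 := abs_of_nonneg (by linarith [hx.1])
    simp only [this]
  calc _ ≤ ∫⁻ x in Ioc (1 / 2 : ℝ) 1 ∪ Ioc (1 : ℝ) 2, ENNReal.ofReal (|x - 1| ^ (-(3 / 4) : ℝ)) :=
        lintegral_mono_set hsub
    _ ≤ _ := lintegral_union_le _ _ _
    _ ≤ ENNReal.ofReal 4 + ENNReal.ofReal 4 := add_le_add h1 h2
    _ = ENNReal.ofReal 8 := by rw [← ENNReal.ofReal_add (by norm_num) (by norm_num)]; norm_num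

/-- the inner integral. -/
private lemma kg_inner {x : ℝ} (hx : 1 / 2 < x) (hx2 : x < 2) (hx1 : x ≠ 1) :
    ∫⁻ s in Ioo (1 / 2) (min 1 (1 / x)), ENNReal.ofReal (1 / (√(1 - s ^ 2) * √(1 - s ^ 2 * x ^ 2))) ≤
      ENNReal.ofReal (24 * |x - 1| ^ (-(1 / 4) : ℝ)) := by
  have hx0 : 0 < x := by linarith
  have hd : 0 < |x - 1| := abs_pos.2 (sub_ne_zero.2 hx1)
  have hm : (1 / 2 : ℝ) ≤ min 1 (1 / x) := by
    refine le_min (by norm_num) ?_
    rw [div_le_div_iff₀ (by norm_num) hx0]; linarith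
  set D : ℝ := 2 * |x - 1| ^ (-(1 / 4) : ℝ) with hD
  have hD0 : 0 ≤ D := mul_nonneg (by norm_num) (Real.rpow_nonneg hd.le _)
  have hpt : ∀ s ∈ Ioo (1 / 2) (min 1 (1 / x)),
      ENNReal.ofReal (1 / (√(1 - s ^ 2) * √(1 - s ^ 2 * x ^ 2))) ≤
      ENNReal.ofReal D * (ENNReal.ofReal ((1 - 1 * s) ^ (-(3 / 4) : ℝ)) +
        ENNReal.ofReal ((1 - x * s) ^ (-(3 / 4) : ℝ))) := by
    intro s hs
    have hs1 : s < 1 := lt_of_lt_of_le hs.2 (min_le_left _ _)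
    have hs0 : 0 < s := by linarith [hs.1]
    have hsx : s * x < 1 := by
      have : s < 1 / x := lt_of_lt_of_le hs.2 (min_le_right _ _)
      rwa [lt_div_iff₀ hx0] at this
    have ha : 0 < 1 - s := by linarith
    have hb : 0 < 1 - s * x := by linarith
    have hsx0 : 0 < s * x := mul_pos hs0 hx0
    have r1 : √(1 - s) ≤ √(1 - s ^ 2) := Real.sqrt_le_sqrt (by nlinarith)
    have r2 : √(1 - s * x) ≤ √(1 - s ^ 2 * x ^ 2) := Real.sqrt_le_sqrt (by nlinarith)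
    have q1 : 0 < √(1 - s) := Real.sqrt_pos.2 ha
    have q2 : 0 < √(1 - s * x) := Real.sqrt_pos.2 hb
    have s1 : 1 / (√(1 - s ^ 2) * √(1 - s ^ 2 * x ^ 2)) ≤ 1 / (√(1 - s) * √(1 - s * x)) :=
      one_div_le_one_div_of_le (mul_pos q1 q2) (mul_le_mul r1 r2 q2.le (q1.le.trans r1))
    have s2 : 1 / (√(1 - s) * √(1 - s * x)) = (1 - s) ^ (-(1 / 2) : ℝ) * (1 - s * x) ^ (-(1 / 2) : ℝ) := by
      rw [← kg_sqrt ha, ← kg_sqrt hb]
      field_simp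
    have hc : |x - 1| / 2 ≤ |(1 - s) - (1 - s * x)| := by
      have : (1 - s) - (1 - s * x) = s * (x - 1) := by ring
      rw [this, abs_mul, abs_of_pos hs0]
      have := mul_le_mul_of_nonneg_right hs.1.le hd.le
      linarith
    have s3 := kg_A ha hb (half_pos hd) hc
    have s4 : (|x - 1| / 2) ^ (-(1 / 4) : ℝ) ≤ D := by
      rw [hD, Real.div_rpow hd.le (by norm_num)]
      have : (1 / 2 : ℝ) ≤ 2 ^ (-(1 / 4) : ℝ) := by
        have h := Real.rpow_le_rpow_of_exponent_le (x := 2) (by norm_num)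
          (show (-1 : ℝ) ≤ -(1 / 4) by norm_num)
        rw [Real.rpow_neg_one] at h
        linarith
      rw [div_le_iff₀ (by positivity)]
      have h3 : 0 ≤ |x - 1| ^ (-(1 / 4) : ℝ) := Real.rpow_nonneg hd.le _
      nlinarith
    have pa : 0 ≤ (1 - s) ^ (-(3 / 4) : ℝ) := Real.rpow_nonneg ha.le _
    have pb : 0 ≤ (1 - s * x) ^ (-(3 / 4) : ℝ) := Real.rpow_nonneg hb.le _
    have e1 : (1 : ℝ) - 1 * s = 1 - s := by ring
    have e2 : (1 : ℝ) - x * s = 1 - s * x := by ring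
    rw [e1, e2, ← ENNReal.ofReal_add pa pb, ← ENNReal.ofReal_mul hD0]
    apply ENNReal.ofReal_le_ofReal
    calc _ ≤ _ := s1
      _ = _ := s2
      _ ≤ _ := s3
      _ ≤ _ := mul_le_mul_of_nonneg_right s4 (add_nonneg pa pb)
  have hmx : x * min 1 (1 / x) ≤ 1 := by
    have := mul_le_mul_of_nonneg_left (min_le_right 1 (1 / x)) hx0.le
    rwa [mul_one_div_cancel hx0.ne'] at this
  have i1 : ∫⁻ s in Ioo (1 / 2) (min 1 (1 / x)), ENNReal.ofReal ((1 - 1 * s) ^ (-(3 / 4) : ℝ)) ≤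
      ENNReal.ofReal 4 := by
    have := kg_int (a := 1 / 2) (b := min 1 (1 / x)) (c := 1) one_pos hm
      (by rw [one_mul]; exact min_le_left _ _) (by norm_num)
    rw [div_one] at this
    exact (lintegral_mono_set Ioo_subset_Ioc_self).trans this
  have i2 : ∫⁻ s in Ioo (1 / 2) (min 1 (1 / x)), ENNReal.ofReal ((1 - x * s) ^ (-(3 / 4) : ℝ)) ≤
      ENNReal.ofReal 8 := by
    have := kg_int (a := 1 / 2) (b := min 1 (1 / x)) (c := x) hx0 hm hmx (by norm_num)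
    refine ((lintegral_mono_set Ioo_subset_Ioc_self).trans this).trans ?_
    apply ENNReal.ofReal_le_ofReal
    rw [div_le_iff₀ hx0]; linarith
  calc _ ≤ ∫⁻ s in Ioo (1 / 2) (min 1 (1 / x)), ENNReal.ofReal D *
        (ENNReal.ofReal ((1 - 1 * s) ^ (-(3 / 4) : ℝ)) +
          ENNReal.ofReal ((1 - x * s) ^ (-(3 / 4) : ℝ))) := setLIntegral_mono' measurableSet_Ioo hpt
    _ = ENNReal.ofReal D * ∫⁻ s in Ioo (1 / 2) (min 1 (1 / x)),
        (ENNReal.ofReal ((1 - 1 * s) ^ (-(3 / 4) : ℝ)) +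
          ENNReal.ofReal ((1 - x * s) ^ (-(3 / 4) : ℝ))) := lintegral_const_mul' _ _ ENNReal.ofReal_ne_top
    _ = ENNReal.ofReal D * ((∫⁻ s in Ioo (1 / 2) (min 1 (1 / x)),
          ENNReal.ofReal ((1 - 1 * s) ^ (-(3 / 4) : ℝ))) +
        ∫⁻ s in Ioo (1 / 2) (min 1 (1 / x)), ENNReal.ofReal ((1 - x * s) ^ (-(3 / 4) : ℝ))) := by
        rw [lintegral_add_left]
        fun_prop
    _ ≤ ENNReal.ofReal D * (ENNReal.ofReal 4 + ENNReal.ofReal 8) := by gcongr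
    _ = _ := by
        rw [← ENNReal.ofReal_add (by norm_num) (by norm_num), ← ENNReal.ofReal_mul hD0, hD]
        congr 1; ring

/-- `∫ (1-xy)^{-3/4} dx ≤ 16`. -/
private lemma kg_int4 {y : ℝ} (hy : 0 < y) (hy2 : y < 2) :
    ∫⁻ x in Ioo (1 / 2) (min 2 (1 / y)), ENNReal.ofReal ((1 - y * x) ^ (-(3 / 4) : ℝ)) ≤
      ENNReal.ofReal 16 := by
  have hm : (1 / 2 : ℝ) ≤ min 2 (1 / y) := by
    refine le_min (by norm_num) ?_
    rw [div_le_div_iff₀ (by norm_num) hy]; linarith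
  rcases le_or_gt (1 / 4) y with h | h
  · have hmy : y * min 2 (1 / y) ≤ 1 := by
      have := mul_le_mul_of_nonneg_left (min_le_right 2 (1 / y)) hy.le
      rwa [mul_one_div_cancel hy.ne'] at this
    have := kg_int (a := 1 / 2) (b := min 2 (1 / y)) (c := y) hy hm hmy (by norm_num)
    refine ((lintegral_mono_set Ioo_subset_Ioc_self).trans this).trans ?_
    apply ENNReal.ofReal_le_ofReal
    rw [div_le_iff₀ hy]; linarith
  · have hpt : ∀ x ∈ Ioo (1 / 2) (min 2 (1 / y)), ENNReal.ofReal ((1 - y * x) ^ (-(3 / 4) : ℝ)) ≤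
        ENNReal.ofReal 2 := by
      intro x hx
      have hx2 : x < 2 := lt_of_lt_of_le hx.2 (min_le_left _ _)
      have hx0 : 0 < x := by linarith [hx.1]
      apply ENNReal.ofReal_le_ofReal
      have h1 : (1 / 2 : ℝ) ≤ 1 - y * x := by nlinarith
      calc (1 - y * x) ^ (-(3 / 4) : ℝ) ≤ (1 / 2 : ℝ) ^ (-(3 / 4) : ℝ) :=
            kg_powle (by norm_num) h1 (by norm_num)
        _ ≤ (1 / 2 : ℝ) ^ (-1 : ℝ) :=
            Real.rpow_le_rpow_of_exponent_ge (by norm_num) (by norm_num) (by norm_num)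
        _ = 2 := by rw [Real.rpow_neg_one]; norm_num
    calc _ ≤ ∫⁻ x in Ioo (1 / 2) (min 2 (1 / y)), ENNReal.ofReal 2 :=
          setLIntegral_mono' measurableSet_Ioo hpt
      _ ≤ ∫⁻ x in Ioo (1 / 2 : ℝ) 2, ENNReal.ofReal 2 :=
          lintegral_mono_set (Ioo_subset_Ioo_right (min_le_left _ _))
      _ = ENNReal.ofReal 3 := by
          rw [setLIntegral_const, Real.volume_Ioo, ← ENNReal.ofReal_mul (by norm_num)]
          norm_num
      _ ≤ _ := ENNReal.ofReal_le_ofReal (by norm_num)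

theorem KG : ∃ K : ℝ, 0 < K ∧ ∀ y : ℝ, 0 < y → y < 2 →
    ∫⁻ x in Ioo (1 / 2) (min 2 (1 / y)), ENNReal.ofReal (x ^ 2 / √(1 - x ^ 2 * y ^ 2)) *
      (∫⁻ s in Ioo (1 / 2) (min 1 (1 / x)), ENNReal.ofReal (1 / (√(1 - s ^ 2) * √(1 - s ^ 2 * x ^ 2)))) ≤
    ENNReal.ofReal K := by
  refine ⟨2304, by norm_num, fun y hy hy2 => ?_⟩
  have hae : ∀ᵐ x : ℝ ∂volume.restrict (Ioo (1 / 2) (min 2 (1 / y))), x ≠ 1 :=
    ae_restrict_of_ae (by
      have : (volume : Measure ℝ) {1} = 0 := by simp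
      exact measure_eq_zero_iff_ae_notMem.1 this)
  have hpt : ∀ᵐ x : ℝ ∂volume.restrict (Ioo (1 / 2) (min 2 (1 / y))),
      ENNReal.ofReal (x ^ 2 / √(1 - x ^ 2 * y ^ 2)) *
        (∫⁻ s in Ioo (1 / 2) (min 1 (1 / x)),
          ENNReal.ofReal (1 / (√(1 - s ^ 2) * √(1 - s ^ 2 * x ^ 2)))) ≤
      ENNReal.ofReal 96 * (ENNReal.ofReal ((1 - y * x) ^ (-(3 / 4) : ℝ)) +
        ENNReal.ofReal (|x - 1| ^ (-(3 / 4) : ℝ))) := by
    filter_upwards [hae, ae_restrict_mem measurableSet_Ioo] with x hx1 hx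
    have hx2 : x < 2 := lt_of_lt_of_le hx.2 (min_le_left _ _)
    have hx0 : 0 < x := by linarith [hx.1]
    have hxy : y * x < 1 := by
      have : x < 1 / y := lt_of_lt_of_le hx.2 (min_le_right _ _)
      rw [lt_div_iff₀ hy] at this
      linarith
    have hd : 0 < |x - 1| := abs_pos.2 (sub_ne_zero.2 hx1)
    have ha : 0 < 1 - y * x := by linarith
    have hxy0 : 0 < y * x := mul_pos hy hx0
    have hin := kg_inner hx.1 hx2 hx1
    have r1 : √(1 - y * x) ≤ √(1 - x ^ 2 * y ^ 2) := Real.sqrt_le_sqrt (by nlinarith)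
    have q1 : 0 < √(1 - y * x) := Real.sqrt_pos.2 ha
    have s1 : x ^ 2 / √(1 - x ^ 2 * y ^ 2) ≤ 4 * (1 - y * x) ^ (-(1 / 2) : ℝ) := by
      rw [← kg_sqrt ha]
      have : x ^ 2 / √(1 - x ^ 2 * y ^ 2) ≤ 4 / √(1 - y * x) :=
        div_le_div₀ (by norm_num) (by nlinarith) q1 r1
      calc _ ≤ _ := this
        _ = _ := by ring
    have pa : 0 ≤ (1 - y * x) ^ (-(3 / 4) : ℝ) := Real.rpow_nonneg ha.le _
    have pb : 0 ≤ |x - 1| ^ (-(3 / 4) : ℝ) := Real.rpow_nonneg hd.le _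
    have pc : 0 ≤ |x - 1| ^ (-(1 / 4) : ℝ) := Real.rpow_nonneg hd.le _
    have pd : 0 ≤ (1 - y * x) ^ (-(1 / 2) : ℝ) := Real.rpow_nonneg ha.le _
    have hB := kg_B ha hd
    calc _ ≤ ENNReal.ofReal (4 * (1 - y * x) ^ (-(1 / 2) : ℝ)) *
          ENNReal.ofReal (24 * |x - 1| ^ (-(1 / 4) : ℝ)) :=
          mul_le_mul' (ENNReal.ofReal_le_ofReal s1) hin
      _ = ENNReal.ofReal (96 * ((1 - y * x) ^ (-(1 / 2) : ℝ) * |x - 1| ^ (-(1 / 4) : ℝ))) := by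
          rw [← ENNReal.ofReal_mul (by positivity)]
          congr 1; ring
      _ ≤ ENNReal.ofReal (96 * ((1 - y * x) ^ (-(3 / 4) : ℝ) + |x - 1| ^ (-(3 / 4) : ℝ))) :=
          ENNReal.ofReal_le_ofReal (mul_le_mul_of_nonneg_left hB (by norm_num))
      _ = _ := by rw [← ENNReal.ofReal_add pa pb, ← ENNReal.ofReal_mul (by norm_num)]
  have i3 : ∫⁻ x in Ioo (1 / 2) (min 2 (1 / y)), ENNReal.ofReal (|x - 1| ^ (-(3 / 4) : ℝ)) ≤
      ENNReal.ofReal 8 :=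
    (lintegral_mono_set (Ioo_subset_Ioo_right (min_le_left _ _))).trans kg_int3
  have i4 := kg_int4 hy hy2
  calc _ ≤ ∫⁻ x in Ioo (1 / 2) (min 2 (1 / y)), ENNReal.ofReal 96 *
        (ENNReal.ofReal ((1 - y * x) ^ (-(3 / 4) : ℝ)) +
          ENNReal.ofReal (|x - 1| ^ (-(3 / 4) : ℝ))) := lintegral_mono_ae hpt
    _ = ENNReal.ofReal 96 * ∫⁻ x in Ioo (1 / 2) (min 2 (1 / y)),
        (ENNReal.ofReal ((1 - y * x) ^ (-(3 / 4) : ℝ)) +
          ENNReal.ofReal (|x - 1| ^ (-(3 / 4) : ℝ))) := lintegral_const_mul' _ _ ENNReal.ofReal_ne_top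
    _ = ENNReal.ofReal 96 * ((∫⁻ x in Ioo (1 / 2) (min 2 (1 / y)),
          ENNReal.ofReal ((1 - y * x) ^ (-(3 / 4) : ℝ))) +
        ∫⁻ x in Ioo (1 / 2) (min 2 (1 / y)), ENNReal.ofReal (|x - 1| ^ (-(3 / 4) : ℝ))) := by
        rw [lintegral_add_left]
        fun_prop
    _ ≤ ENNReal.ofReal 96 * (ENNReal.ofReal 16 + ENNReal.ofReal 8) := by gcongr
    _ = _ := by
        rw [← ENNReal.ofReal_add (by norm_num) (by norm_num), ← ENNReal.ofReal_mul (by norm_num)]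
        norm_num

end Pool.Agent.R3D
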