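import Pool.Agent.R3D.Defs
import Pool.Agent.R3D.K1
import Pool.Agent.RB75.A5

/-! Module R3D-W1: Tonelli for `WW`.

The order of integration is swapped (`Pool.Agent.RB75.A5_swap`) in the private lemma `W1_swap`; the inner integrals are
`kerA` and `kerB`. -/

namespace Pool.Agent.R3D
open MeasureTheory Set Filter Topology Pool.Agent.RB75

private theorem W1_meas : Measurable fun q : ℝ × ℝ => q.2 / √(1 - q.1 ^ 2 * q.2 ^ 2) := by
  fun_prop

private theorem W1_meas2 (x : ℝ) : Measurable fun y : ℝ => ENNReal.ofReal (y / √(1 - x ^ 2 * y ^ 2)) := by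
  have : Measurable fun y : ℝ => y / √(1 - x ^ 2 * y ^ 2) := by fun_prop
  exact this.ennreal_ofReal

private theorem W1_mem (x y : ℝ) : y ∈ Ioo 0 (1 / x) ↔ 0 < x ∧ 0 < y ∧ x * y < 1 := by
  constructor
  · rintro ⟨h1, h2⟩
    have hx : 0 < x := by
      by_contra hcon
      push Not at hcon
      have h3 : 1 / x ≤ 0 := div_nonpos_of_nonneg_of_nonpos zero_le_one hcon
      linarith
    refine ⟨hx, h1, ?_⟩
    rw [lt_div_iff₀ hx] at h2
    linarith
  · rintro ⟨h1, h2, h3⟩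
    refine ⟨h2, ?_⟩
    rw [lt_div_iff₀ h1]
    linarith

private theorem W1_set {I : Set ℝ} (hI : MeasurableSet I) :
    MeasurableSet {q : ℝ × ℝ | q.1 ∈ I ∧ 0 < q.2 ∧ q.1 * q.2 < 1} := by
  refine MeasurableSet.inter (measurable_fst hI) (MeasurableSet.inter ?_ ?_)
  · exact measurableSet_lt measurable_const measurable_snd
  · exact measurableSet_lt (measurable_fst.mul measurable_snd) measurable_const

theorem WW_measurable (C : ℝ) (μ : Measure ℝ) [SFinite μ] : Measurable (WW C μ) := by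
  have h1 : ∀ x : ℝ, (∫⁻ y in Ioo 0 (1 / x), ENNReal.ofReal (y / √(1 - x ^ 2 * y ^ 2)) ∂μ) =
      ∫⁻ y, {q : ℝ × ℝ | q.1 ∈ Ioi (0 : ℝ) ∧ 0 < q.2 ∧ q.1 * q.2 < 1}.indicator
        (fun q : ℝ × ℝ => ENNReal.ofReal (q.2 / √(1 - q.1 ^ 2 * q.2 ^ 2))) (x, y) ∂μ := by
    intro x
    rw [← lintegral_indicator measurableSet_Ioo]
    refine lintegral_congr fun y => ?_
    by_cases hy : y ∈ Ioo 0 (1 / x)
    · rw [indicator_of_mem hy, indicator_of_mem]
      exact (W1_mem x y).1 hy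
    · rw [indicator_of_notMem hy, indicator_of_notMem]
      exact fun h => hy ((W1_mem x y).2 h)
  have h2 : WW C μ = fun x => ENNReal.ofReal C *
      ∫⁻ y, {q : ℝ × ℝ | q.1 ∈ Ioi (0 : ℝ) ∧ 0 < q.2 ∧ q.1 * q.2 < 1}.indicator
        (fun q : ℝ × ℝ => ENNReal.ofReal (q.2 / √(1 - q.1 ^ 2 * q.2 ^ 2))) (x, y) ∂μ := by
    funext x
    show ENNReal.ofReal C * ∫⁻ y in Ioo 0 (1 / x), ENNReal.ofReal (y / √(1 - x ^ 2 * y ^ 2)) ∂μ = _
    rw [h1]
  rw [h2]
  exact (Measurable.lintegral_prod_right' (W1_meas.ennreal_ofReal.indicator (W1_set measurableSet_Ioi))).const_mul _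

private theorem W1_swap (C : ℝ) (μ : Measure ℝ) [SFinite μ] {w : ℝ → ENNReal} (hw : Measurable w) {I J : Set ℝ}
    (hI : MeasurableSet I) (hJ : MeasurableSet J) (hI0 : ∀ x ∈ I, 0 < x) {T : ℝ → Set ℝ} (hT : ∀ y, MeasurableSet (T y))
    (h : ∀ x y, (x ∈ I ∧ 0 < y ∧ x * y < 1) ↔ y ∈ J ∧ x ∈ T y) :
    ∫⁻ x in I, w x * WW C μ x =
      ENNReal.ofReal C * ∫⁻ y in J, (∫⁻ x in T y, w x * ENNReal.ofReal (y / √(1 - x ^ 2 * y ^ 2))) ∂μ := by
  have h1 : ∀ x, w x * WW C μ x =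
      ENNReal.ofReal C * ∫⁻ y in Ioo 0 (1 / x), w x * ENNReal.ofReal (y / √(1 - x ^ 2 * y ^ 2)) ∂μ := by
    intro x
    rw [lintegral_const_mul _ (W1_meas2 x)]
    show w x * (ENNReal.ofReal C * ∫⁻ y in Ioo 0 (1 / x), ENNReal.ofReal (y / √(1 - x ^ 2 * y ^ 2)) ∂μ) = _
    rw [mul_left_comm]
  simp only [h1]
  rw [lintegral_const_mul' _ _ ENNReal.ofReal_ne_top]
  congr 1
  refine A5_swap (μ := μ) (g := fun x y => w x * ENNReal.ofReal (y / √(1 - x ^ 2 * y ^ 2))) ?_ (W1_set hI) hI hJ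
    (S := fun x => Ioo 0 (1 / x)) (fun x => measurableSet_Ioo) hT ?_ (fun x y => h x y)
  · exact (hw.comp measurable_fst).mul W1_meas.ennreal_ofReal
  · intro x y
    show (x ∈ I ∧ 0 < y ∧ x * y < 1) ↔ x ∈ I ∧ y ∈ Ioo 0 (1 / x)
    rw [W1_mem]
    constructor
    · rintro ⟨h2, h3, h4⟩
      exact ⟨h2, hI0 x h2, h3, h4⟩
    · rintro ⟨h2, -, h3, h4⟩
      exact ⟨h2, h3, h4⟩

theorem WW_rho (C : ℝ) (μ : Measure ℝ) [SFinite μ] {κ : ℝ} (hκ : 0 < κ) :
    ∫⁻ x in Ioi κ, ENNReal.ofReal x * WW C μ x =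
      ENNReal.ofReal C * ∫⁻ y in Ioo 0 (1 / κ), ENNReal.ofReal (√(1 - κ ^ 2 * y ^ 2) / y) ∂μ := by
  rw [W1_swap C μ ENNReal.measurable_ofReal measurableSet_Ioi measurableSet_Ioo (J := Ioo 0 (1 / κ))
    (fun x hx => hκ.trans hx) (T := fun y => Ioo κ (1 / y)) (fun y => measurableSet_Ioo)]
  · congr 1
    refine setLIntegral_congr_fun measurableSet_Ioo fun y hy => ?_
    have hy0 : 0 < y := hy.1
    have hy1 : κ * y < 1 := by
      have h := hy.2
      rw [lt_div_iff₀ hκ] at h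
      linarith
    rw [← kerA hκ.le hy0 hy1]
    refine setLIntegral_congr_fun measurableSet_Ioo fun x hx => ?_
    exact (ENNReal.ofReal_mul (hκ.trans hx.1).le).symm
  · intro x y
    simp only [mem_Ioi, mem_Ioo]
    constructor
    · rintro ⟨h1, h2, h3⟩
      refine ⟨⟨h2, ?_⟩, h1, ?_⟩
      · rw [lt_div_iff₀ hκ]
        nlinarith
      · rw [lt_div_iff₀ h2]
        exact h3
    · rintro ⟨⟨h2, h3⟩, h4, h5⟩
      refine ⟨h4, h2, ?_⟩
      rw [lt_div_iff₀ h2] at h5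
      exact h5

theorem WW_rho0 (C : ℝ) (μ : Measure ℝ) [SFinite μ] :
    ∫⁻ x in Ioi (0 : ℝ), ENNReal.ofReal x * WW C μ x =
      ENNReal.ofReal C * ∫⁻ y in Ioi 0, ENNReal.ofReal (1 / y) ∂μ := by
  rw [W1_swap C μ ENNReal.measurable_ofReal measurableSet_Ioi measurableSet_Ioi (J := Ioi 0)
    (fun x hx => hx) (T := fun y => Ioo 0 (1 / y)) (fun y => measurableSet_Ioo)]
  · congr 1
    refine setLIntegral_congr_fun measurableSet_Ioi fun y hy => ?_
    have hy0 : 0 < y := hy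
    have h1 := kerA le_rfl hy0 (by rw [zero_mul]; exact one_pos)
    have h2 : √(1 - (0 : ℝ) ^ 2 * y ^ 2) / y = 1 / y := by
      rw [zero_pow two_ne_zero, zero_mul, sub_zero, Real.sqrt_one]
    rw [h2] at h1
    rw [← h1]
    refine setLIntegral_congr_fun measurableSet_Ioo fun x hx => ?_
    exact (ENNReal.ofReal_mul hx.1.le).symm
  · intro x y
    simp only [mem_Ioi, mem_Ioo]
    constructor
    · rintro ⟨h1, h2, h3⟩
      refine ⟨h2, h1, ?_⟩
      rw [lt_div_iff₀ h2]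
      exact h3
    · rintro ⟨h2, h4, h5⟩
      refine ⟨h4, h2, ?_⟩
      rw [lt_div_iff₀ h2] at h5
      exact h5

theorem WW_zed (C : ℝ) (μ : Measure ℝ) [SFinite μ] {κ : ℝ} (hκ : 0 < κ) :
    ∫⁻ x in Ioo 0 κ, WW C μ x =
      ENNReal.ofReal C * ∫⁻ y in Ioi 0, ENNReal.ofReal (Real.arcsin (min (κ * y) 1)) ∂μ := by
  have h0 := W1_swap C μ (w := fun _ => 1) measurable_const (I := Ioo 0 κ) measurableSet_Ioo measurableSet_Ioi
    (J := Ioi 0) (fun x hx => hx.1) (T := fun y => Ioo 0 (min κ (1 / y))) (fun y => measurableSet_Ioo) ?_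
  · simp only [one_mul] at h0
    rw [h0]
    congr 1
    refine setLIntegral_congr_fun measurableSet_Ioi fun y hy => ?_
    exact kerB hκ hy
  · intro x y
    simp only [mem_Ioi, mem_Ioo, lt_min_iff]
    constructor
    · rintro ⟨⟨h1, h1'⟩, h2, h3⟩
      refine ⟨h2, h1, h1', ?_⟩
      rw [lt_div_iff₀ h2]
      exact h3
    · rintro ⟨h2, h4, h4', h5⟩
      refine ⟨⟨h4, h4'⟩, h2, ?_⟩
      rw [lt_div_iff₀ h2] at h5
      exact h5

theorem WW_mass {C : ℝ} (hC : 0 ≤ C) (μ : Measure ℝ) [SFinite μ] :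
    ∫⁻ x in Ioi (0 : ℝ), WW C μ x = ENNReal.ofReal (C * (Real.pi / 2)) * μ (Ioi 0) := by
  have h0 := W1_swap C μ (w := fun _ => 1) measurable_const (I := Ioi 0) measurableSet_Ioi measurableSet_Ioi
    (J := Ioi 0) (fun x hx => hx) (T := fun y => Ioo 0 (1 / y)) (fun y => measurableSet_Ioo) ?_
  · simp only [one_mul] at h0
    rw [h0, ENNReal.ofReal_mul hC, mul_assoc]
    congr 1
    have h1 : ∀ y ∈ Ioi (0 : ℝ), (∫⁻ x in Ioo 0 (1 / y), ENNReal.ofReal (y / √(1 - x ^ 2 * y ^ 2))) =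
        ENNReal.ofReal (Real.pi / 2) := by
      intro y hy
      have hy0 : 0 < y := hy
      have h2 := kerB (κ := 1 / y) (by positivity) hy0
      rw [min_self, div_mul_cancel₀ _ hy0.ne', min_self, Real.arcsin_one] at h2
      exact h2
    rw [setLIntegral_congr_fun measurableSet_Ioi h1, setLIntegral_const]
  · intro x y
    simp only [mem_Ioi, mem_Ioo]
    constructor
    · rintro ⟨h1, h2, h3⟩
      refine ⟨h2, h1, ?_⟩
      rw [lt_div_iff₀ h2]
      exact h3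
    · rintro ⟨h2, h4, h5⟩
      refine ⟨h4, h2, ?_⟩
      rw [lt_div_iff₀ h2] at h5
      exact h5

end Pool.Agent.R3D
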