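import Pool.Agent.R3D.Defs
import Pool.Agent.R3D.K1
import Pool.Agent.R3D.W1
import Pool.Agent.RB75.A1
import Pool.Agent.RB75.A5

/-! Module R3D-P1: Tonelli identities for `Rep2`. Compare `Pool.Agent.RB75.A5`, `A6mass`, `A7` (same proofs). -/

namespace Pool.Agent.R3D
open MeasureTheory Set Filter Topology Pool.Agent.RB75

theorem exists_Rep2 {Φ : ℝ → ℝ} (hm : MonotoneOn Φ (Ioi 0)) (h0 : Tendsto Φ (𝓝[>] 0) (𝓝 0)) :
    ∃ μ, Rep2 Φ μ := by
  obtain ⟨μ, h1, h2, h3⟩ := A1 hm h0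
  exact ⟨μ, h1, h2, h3⟩

theorem P1a {C : ℝ} (hC : 0 < C) {Φ : ℝ → ℝ} {μ : Measure ℝ} (hR : Rep2 Φ μ) (hΦ : ∀ x, 0 < x → 0 ≤ Φ x) {t : ℝ}
    (ht : 0 < t) :
    ENNReal.ofReal C * ∫⁻ z in Ioo (0 : ℝ) 1, ENNReal.ofReal (Φ (t * z) * √(1 - z ^ 2) / z ^ 2) =
      ∫⁻ s in Ioo 0 t, ∫⁻ x in Ioi (1 / s), ENNReal.ofReal x * WW C μ x := by
  have := hR.sf
  -- left side
  have hL : ∫⁻ z in Ioo (0 : ℝ) 1, ENNReal.ofReal (Φ (t * z) * √(1 - z ^ 2) / z ^ 2) =
      ∫⁻ y in Ioo 0 t, (∫⁻ z in Ioo (y / t) 1, ENNReal.ofReal (√(1 - z ^ 2) / z ^ 2)) ∂μ := by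
    have h1 : ∫⁻ z in Ioo (0 : ℝ) 1, ENNReal.ofReal (Φ (t * z) * √(1 - z ^ 2) / z ^ 2) =
        ∫⁻ z in Ioo (0 : ℝ) 1, ∫⁻ _y in Ioc 0 (t * z),
          ENNReal.ofReal (√(1 - z ^ 2) / z ^ 2) ∂μ := by
      have hae : ∀ᵐ x ∂(volume : Measure ℝ), x ∈ Ioi (0 : ℝ) →
          μ (Ioc 0 x) = ENNReal.ofReal (Φ x) := (ae_restrict_iff' measurableSet_Ioi).1 hR.ae
      have hae2 : ∀ᵐ z ∂(volume : Measure ℝ), t * z ∈ Ioi (0 : ℝ) →
          μ (Ioc 0 (t * z)) = ENNReal.ofReal (Φ (t * z)) := by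
        rw [ae_iff] at hae ⊢
        have h2 := Real.volume_preimage_mul_left ht.ne'
          {x | ¬ (x ∈ Ioi (0 : ℝ) → μ (Ioc 0 x) = ENNReal.ofReal (Φ x))}
        rw [hae, mul_zero] at h2
        exact h2
      refine lintegral_congr_ae ?_
      refine (ae_restrict_iff' measurableSet_Ioo).2 ?_
      filter_upwards [hae2] with z hz hz01
      have hz0 : 0 < t * z := mul_pos ht hz01.1
      rw [lintegral_const, Measure.restrict_apply MeasurableSet.univ, univ_inter, hz hz0,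
        mul_div_assoc, ENNReal.ofReal_mul (hΦ _ hz0), mul_comm]
    rw [h1, A5_swap (μ := μ) (g := fun z _ => ENNReal.ofReal (√(1 - z ^ 2) / z ^ 2))
      (A := {q : ℝ × ℝ | (0 < q.1 ∧ q.1 < 1) ∧ 0 < q.2 ∧ q.2 ≤ t * q.1}) (I := Ioo 0 1)
      (J := Ioo 0 t) (S := fun z => Ioc 0 (t * z)) (T := fun y => Ico (y / t) 1)]
    · refine lintegral_congr fun y => ?_
      rw [restrict_Ioo_eq_restrict_Ico]
    · have : Measurable fun q : ℝ × ℝ => √(1 - q.1 ^ 2) / q.1 ^ 2 := by fun_prop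
      exact this.ennreal_ofReal
    · refine MeasurableSet.inter (MeasurableSet.inter ?_ ?_) (MeasurableSet.inter ?_ ?_)
      · exact measurableSet_lt measurable_const measurable_fst
      · exact measurableSet_lt measurable_fst measurable_const
      · exact measurableSet_lt measurable_const measurable_snd
      · exact measurableSet_le measurable_snd (measurable_fst.const_mul t)
    · exact measurableSet_Ioo
    · exact measurableSet_Ioo
    · exact fun v => measurableSet_Ioc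
    · exact fun v => measurableSet_Ico
    · intro v y
      simp only [mem_ofPred_eq, mem_Ioo, mem_Ioc]
    · intro v y
      simp only [mem_ofPred_eq, mem_Ioo, mem_Ico]
      constructor
      · rintro ⟨⟨h2, h3⟩, h4, h5⟩
        refine ⟨⟨h4, ?_⟩, ?_, h3⟩
        · nlinarith
        · rw [div_le_iff₀ ht]; linarith
      · rintro ⟨⟨h2, h3⟩, h4, h5⟩
        rw [div_le_iff₀ ht] at h4
        refine ⟨⟨?_, h5⟩, h2, by linarith⟩
        by_contra hcon
        push Not at hcon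
        nlinarith
  have hR2 : ∫⁻ s in Ioo 0 t, ∫⁻ x in Ioi (1 / s), ENNReal.ofReal x * WW C μ x =
      ENNReal.ofReal C * ∫⁻ s in Ioo 0 t, ∫⁻ y in Ioo 0 s,
        ENNReal.ofReal (√(1 - (1 / s) ^ 2 * y ^ 2) / y) ∂μ := by
    rw [← lintegral_const_mul' _ _ ENNReal.ofReal_ne_top]
    refine setLIntegral_congr_fun measurableSet_Ioo fun s hs => ?_
    have h1 := WW_rho C μ (κ := 1 / s) (one_div_pos.2 hs.1)
    rw [one_div_one_div] at h1
    exact h1
  rw [hR2, hL, A5_swap (μ := μ) (g := fun s y => ENNReal.ofReal (√(1 - (1 / s) ^ 2 * y ^ 2) / y))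
      (A := {q : ℝ × ℝ | (0 < q.1 ∧ q.1 < t) ∧ 0 < q.2 ∧ q.2 < q.1}) (I := Ioo 0 t)
      (J := Ioo 0 t) (S := fun v => Ioo 0 v) (T := fun y => Ioo y t)]
  · congr 1
    refine setLIntegral_congr_fun measurableSet_Ioo fun y hy => ?_
    exact (kerC hy.1 hy.2).symm
  · have : Measurable fun q : ℝ × ℝ => √(1 - (1 / q.1) ^ 2 * q.2 ^ 2) / q.2 := by fun_prop
    exact this.ennreal_ofReal
  · refine MeasurableSet.inter (MeasurableSet.inter ?_ ?_) (MeasurableSet.inter ?_ ?_)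
    · exact measurableSet_lt measurable_const measurable_fst
    · exact measurableSet_lt measurable_fst measurable_const
    · exact measurableSet_lt measurable_const measurable_snd
    · exact measurableSet_lt measurable_snd measurable_fst
  · exact measurableSet_Ioo
  · exact measurableSet_Ioo
  · exact fun v => measurableSet_Ioo
  · exact fun v => measurableSet_Ioo
  · intro v y
    simp only [mem_ofPred_eq, mem_Ioo]
  · intro v y
    simp only [mem_ofPred_eq, mem_Ioo]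
    constructor
    · rintro ⟨⟨h2, h3⟩, h4, h5⟩
      exact ⟨⟨h4, by linarith⟩, h5, h3⟩
    · rintro ⟨⟨h2, h3⟩, h4, h5⟩
      exact ⟨⟨by linarith, h5⟩, h2, h4⟩

theorem P1b {Φ : ℝ → ℝ} {μ : Measure ℝ} (hR : Rep2 Φ μ) {M : ℝ} (hM : Tendsto Φ atTop (𝓝 M)) :
    μ (Ioi 0) = ENNReal.ofReal M := by
  have hex : ∀ n : ℕ, ∃ x ∈ Ioo (n:ℝ) (n+1), μ (Ioc 0 x) = ENNReal.ofReal (Φ x) := by
    intro n
    by_contra hcon
    push Not at hcon
    have h1 := hR.ae
    rw [ae_restrict_iff' measurableSet_Ioi] at h1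
    have h2 : volume (Ioo (n:ℝ) (n+1)) = 0 := by
      refine measure_mono_null ?_ h1
      intro x hx
      have hx0 : (0:ℝ) < x := lt_of_le_of_lt (Nat.cast_nonneg n) hx.1
      simp only [mem_compl_iff, mem_ofPred_eq, Classical.not_imp]
      exact ⟨hx0, hcon x hx⟩
    rw [Real.volume_Ioo] at h2
    simp at h2
  choose x hx hxe using hex
  have hmono : Monotone (fun n : ℕ => Ioc 0 (x n)) := by
    refine monotone_nat_of_le_succ ?_
    intro n
    refine Ioc_subset_Ioc_right ?_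
    have h1 := (hx n).2
    have h2 := (hx (n+1)).1
    push_cast at h2
    linarith
  have hun : ⋃ n : ℕ, Ioc 0 (x n) = Ioi 0 := by
    ext y
    simp only [mem_iUnion, mem_Ioc, mem_Ioi]
    constructor
    · rintro ⟨n, h, _⟩
      exact h
    · intro hy
      obtain ⟨n, hn⟩ := exists_nat_ge y
      exact ⟨n, hy, hn.trans (hx n).1.le⟩
  have h1 := tendsto_measure_iUnion_atTop (μ := μ) hmono
  rw [hun] at h1
  have hxt : Tendsto x atTop atTop :=
    tendsto_atTop_mono (fun n => (hx n).1.le) tendsto_natCast_atTop_atTop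
  have h2 : Tendsto (fun n => ENNReal.ofReal (Φ (x n))) atTop (𝓝 (ENNReal.ofReal M)) :=
    (ENNReal.continuous_ofReal.tendsto M).comp (hM.comp hxt)
  have h3 : (μ ∘ fun n : ℕ => Ioc 0 (x n)) = fun n => ENNReal.ofReal (Φ (x n)) := by
    funext n
    exact hxe n
  rw [h3] at h1
  exact tendsto_nhds_unique h1 h2

private theorem P1_tail {y : ℝ} (hy : 0 < y) :
    ∫⁻ x in Ioi y, ENNReal.ofReal (1 / x ^ 2) = ENNReal.ofReal (1 / y) := by
  have h1 := A2k3 0 hy
  simp only [pow_zero, mul_one] at h1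
  have h2 : ∫ z in (0 : ℝ)..1, (1 : ℝ) = 1 := by simp
  rw [h2] at h1
  have h3 : ∀ x : ℝ, ENNReal.ofReal (1 / x ^ 2) =
      ENNReal.ofReal (1 / y) * ENNReal.ofReal (y / x ^ 2) := by
    intro x
    rw [← ENNReal.ofReal_mul (by positivity)]
    congr 1
    field_simp
  simp_rw [h3]
  rw [lintegral_const_mul _ (by fun_prop), h1, ENNReal.ofReal_one, mul_one]

theorem P1c {Φ : ℝ → ℝ} {μ : Measure ℝ} (hR : Rep2 Φ μ) :
    ∫⁻ y in Ioi (0 : ℝ), ENNReal.ofReal (1 / y) ∂μ = ∫⁻ x in Ioi (0 : ℝ), ENNReal.ofReal (Φ x / x ^ 2) := by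
  have := hR.sf
  have hRt : ∫⁻ x in Ioi (0 : ℝ), ENNReal.ofReal (Φ x / x ^ 2) =
      ∫⁻ x in Ioi (0 : ℝ), ∫⁻ _y in Ioc 0 x, ENNReal.ofReal (1 / x ^ 2) ∂μ := by
    refine lintegral_congr_ae ?_
    filter_upwards [hR.ae] with x hx
    have h1 : 0 ≤ 1 / x ^ 2 := by positivity
    rw [setLIntegral_const, hx, div_eq_mul_one_div, ENNReal.ofReal_mul' h1, mul_comm]
  rw [hRt, A5_swap (μ := μ) (g := fun x _ => ENNReal.ofReal (1 / x ^ 2))
      (A := {q : ℝ × ℝ | 0 < q.1 ∧ 0 < q.2 ∧ q.2 ≤ q.1}) (I := Ioi 0)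
      (J := Ioi 0) (S := fun v => Ioc 0 v) (T := fun y => Ici y)]
  · refine setLIntegral_congr_fun measurableSet_Ioi fun y hy => ?_
    have hy0 : (0 : ℝ) < y := hy
    rw [← P1_tail hy0]
    exact setLIntegral_congr Ioi_ae_eq_Ici
  · have : Measurable fun q : ℝ × ℝ => 1 / q.1 ^ 2 := by fun_prop
    exact this.ennreal_ofReal
  · refine MeasurableSet.inter ?_ (MeasurableSet.inter ?_ ?_)
    · exact measurableSet_lt measurable_const measurable_fst
    · exact measurableSet_lt measurable_const measurable_snd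
    · exact measurableSet_le measurable_snd measurable_fst
  · exact measurableSet_Ioi
  · exact measurableSet_Ioi
  · exact fun v => measurableSet_Ioc
  · exact fun v => measurableSet_Ici
  · intro v y
    simp only [mem_ofPred_eq, mem_Ioi, mem_Ioc]
  · intro v y
    simp only [mem_ofPred_eq, mem_Ioi, mem_Ici]
    constructor
    · rintro ⟨h2, h4, h5⟩
      exact ⟨h4, h5⟩
    · rintro ⟨h2, h4⟩
      exact ⟨by linarith, h2, h4⟩

end Pool.Agent.R3D
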