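import Pool.Agent.R3D.ZB
import Pool.Agent.R3D.T3

/-! Module R3D-SB: `zed v₁ κ ≤ Y κ` and `s rho v₀ s ≤ Y`.

`S(a) = ∫_0^a rho(v₀)²`; `rho v₀ s ≤ (K/s) S(s)` (T3 and `zed_le4`), so `a_k = S(2^k s₀)` satisfies
`a_{k+1} - a_k ≤ 2^k s₀ rho(v₀)(2^k s₀)²`, hence `a_{k+1} ≤ (5/4) a_k` for large `s₀`, and then
`a_{k+1} - a_k ≤ D (25/32)^k`: `S` is bounded. -/

namespace Pool.Agent.R3D
open MeasureTheory Set Filter Topology Pool.Agent.RB75

private theorem SB_ii {v : ℝ → ℝ} (h : Dat v) {a b : ℝ} (ha : 0 ≤ a) (hb : 0 ≤ b) :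
    IntervalIntegrable (fun s => rho v s ^ 2) volume a b := by
  refine ContinuousOn.intervalIntegrable ?_
  refine (h.rho_cont.mono fun x hx => ?_).pow 2
  rw [mem_uIcc] at hx
  rcases hx with hx | hx
  · exact le_trans ha hx.1
  · exact le_trans hb hx.1

private theorem SB_sub {v : ℝ → ℝ} (h : Dat v) {a b : ℝ} (ha : 0 ≤ a) (hab : a ≤ b) :
    (∫ s in (0 : ℝ)..b, rho v s ^ 2) - ∫ s in (0 : ℝ)..a, rho v s ^ 2 = ∫ s in a..b, rho v s ^ 2 :=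
  intervalIntegral.integral_interval_sub_left (SB_ii h le_rfl (ha.trans hab)) (SB_ii h le_rfl ha)

private theorem SB_mono {v : ℝ → ℝ} (h : Dat v) {a b : ℝ} (ha : 0 ≤ a) (hab : a ≤ b) :
    (∫ s in (0 : ℝ)..a, rho v s ^ 2) ≤ ∫ s in (0 : ℝ)..b, rho v s ^ 2 := by
  have h1 := SB_sub h ha hab
  have h2 : 0 ≤ ∫ s in a..b, rho v s ^ 2 :=
    intervalIntegral.integral_nonneg hab fun x _ => sq_nonneg _
  linarith

private theorem SB_step {v : ℝ → ℝ} (h : Dat v) {a b : ℝ} (ha : 0 ≤ a) (hab : a ≤ b) :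
    (∫ s in (0 : ℝ)..b, rho v s ^ 2) ≤ (∫ s in (0 : ℝ)..a, rho v s ^ 2) + (b - a) * rho v a ^ 2 := by
  have h1 := SB_sub h ha hab
  have h2 : ∫ s in a..b, rho v s ^ 2 ≤ ∫ _s in a..b, rho v a ^ 2 := by
    refine intervalIntegral.integral_mono_on hab (SB_ii h ha (ha.trans hab))
      _root_.intervalIntegrable_const fun x hx => ?_
    have h3 : rho v x ≤ rho v a := h.rho_anti (show (0 : ℝ) ≤ a from ha)
      (show (0 : ℝ) ≤ x from ha.trans hx.1) hx.1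
    have h4 : 0 ≤ rho v x := h.rho_nn (ha.trans hx.1)
    exact pow_le_pow_left₀ h4 h3 2
  rw [intervalIntegral.integral_const, smul_eq_mul] at h2
  linarith

/-- the abstract Gronwall argument -/
private theorem SB_gron (S r : ℝ → ℝ) (K s₀ : ℝ) (hs₀ : 0 < s₀) (hK : 0 ≤ K)
    (hS0 : ∀ s, 0 ≤ s → 0 ≤ S s) (hr0 : ∀ s, 0 < s → 0 ≤ r s)
    (hstep : ∀ s, 0 < s → S (2 * s) ≤ S s + s * r s ^ 2)
    (hr : ∀ s, 0 < s → s * r s ≤ K * S s)
    (hsmall : ∀ s, s₀ ≤ s → K * r s ≤ 1 / 4) :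
    ∃ B, ∀ k : ℕ, S (2 ^ k * s₀) ≤ B := by
  have hpos : ∀ k : ℕ, 0 < (2 : ℝ) ^ k * s₀ := fun k => by positivity
  have hge : ∀ k : ℕ, s₀ ≤ (2 : ℝ) ^ k * s₀ := by
    intro k
    have : (1 : ℝ) ≤ 2 ^ k := one_le_pow₀ (by norm_num)
    nlinarith
  have h1 : ∀ k : ℕ, S (2 ^ k * s₀) ≤ (5 / 4) ^ k * S s₀ := by
    intro k
    induction k with
    | zero => simp
    | succ k ih =>
      have e1 : (2 : ℝ) ^ (k + 1) * s₀ = 2 * (2 ^ k * s₀) := by ring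
      rw [e1]
      have h2 := hstep _ (hpos k)
      have h3 := hr _ (hpos k)
      have h4 := hsmall _ (hge k)
      have h5 := hr0 _ (hpos k)
      have h6 := hS0 _ (hpos k).le
      have h7 : 2 ^ k * s₀ * r (2 ^ k * s₀) ^ 2 ≤ 1 / 4 * S (2 ^ k * s₀) := by
        calc 2 ^ k * s₀ * r (2 ^ k * s₀) ^ 2
            = (2 ^ k * s₀ * r (2 ^ k * s₀)) * r (2 ^ k * s₀) := by ring
          _ ≤ (K * S (2 ^ k * s₀)) * r (2 ^ k * s₀) := mul_le_mul_of_nonneg_right h3 h5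
          _ = (K * r (2 ^ k * s₀)) * S (2 ^ k * s₀) := by ring
          _ ≤ 1 / 4 * S (2 ^ k * s₀) := mul_le_mul_of_nonneg_right h4 h6
      calc S (2 * (2 ^ k * s₀)) ≤ S (2 ^ k * s₀) + 1 / 4 * S (2 ^ k * s₀) := by linarith
        _ = 5 / 4 * S (2 ^ k * s₀) := by ring
        _ ≤ 5 / 4 * ((5 / 4) ^ k * S s₀) := mul_le_mul_of_nonneg_left ih (by norm_num)
        _ = (5 / 4) ^ (k + 1) * S s₀ := by ring
  obtain ⟨D, hD⟩ : ∃ D : ℝ, D = K ^ 2 * S s₀ ^ 2 / s₀ := ⟨_, rfl⟩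
  have hD0 : 0 ≤ D := by rw [hD]; positivity
  have h2 : ∀ k : ℕ, S (2 ^ k * s₀) ≤ S s₀ + 32 / 7 * D * (1 - (25 / 32) ^ k) := by
    intro k
    induction k with
    | zero => simp
    | succ k ih =>
      have e1 : (2 : ℝ) ^ (k + 1) * s₀ = 2 * (2 ^ k * s₀) := by ring
      rw [e1]
      have h3 := hstep _ (hpos k)
      have h4 : 2 ^ k * s₀ * r (2 ^ k * s₀) ^ 2 ≤ D * (25 / 32) ^ k := by
        have h5 := hr _ (hpos k)
        have h6 := hr0 _ (hpos k)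
        have h7 := h1 k
        have h8 := hS0 _ (hpos k).le
        have h9 : 2 ^ k * s₀ * r (2 ^ k * s₀) ≤ K * ((5 / 4) ^ k * S s₀) :=
          h5.trans (mul_le_mul_of_nonneg_left h7 hK)
        have h10 : (2 ^ k * s₀ * r (2 ^ k * s₀)) ^ 2 ≤ (K * ((5 / 4) ^ k * S s₀)) ^ 2 :=
          pow_le_pow_left₀ (mul_nonneg (hpos k).le h6) h9 2
        have h11 : (K * ((5 / 4) ^ k * S s₀)) ^ 2 = (2 ^ k * s₀) * (D * (25 / 32) ^ k) := by
          have e2 : (25 / 32 : ℝ) ^ k * 2 ^ k = ((5 / 4) ^ k) ^ 2 := by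
            rw [← mul_pow, ← pow_mul, mul_comm k 2, pow_mul]
            norm_num
          rw [hD]
          field_simp
          rw [← e2]
          ring
        have h12 : (2 ^ k * s₀) * (2 ^ k * s₀ * r (2 ^ k * s₀) ^ 2) ≤
            (2 ^ k * s₀) * (D * (25 / 32) ^ k) := by
          calc (2 ^ k * s₀) * (2 ^ k * s₀ * r (2 ^ k * s₀) ^ 2)
              = (2 ^ k * s₀ * r (2 ^ k * s₀)) ^ 2 := by ring
            _ ≤ _ := h10
            _ = _ := h11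
        exact le_of_mul_le_mul_left h12 (hpos k)
      have h5 : 32 / 7 * D * (1 - (25 / 32 : ℝ) ^ (k + 1)) =
          32 / 7 * D * (1 - (25 / 32) ^ k) + D * (25 / 32) ^ k := by
        rw [pow_succ]
        ring
      rw [h5]
      linarith
  refine ⟨S s₀ + 32 / 7 * D, fun k => (h2 k).trans ?_⟩
  have h3 : (0 : ℝ) ≤ (25 / 32) ^ k := by positivity
  have h4 : 0 ≤ 32 / 7 * D * (25 / 32) ^ k := by positivity
  nlinarith

theorem SB {C₀ C₁ : ℝ} {v₀ v₁ : ℝ → ℝ} (h : Pair3 C₀ C₁ v₀ v₁) :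
    ∃ Y, 0 < Y ∧ (∀ κ, 0 < κ → zed v₁ κ ≤ Y * κ) ∧ ∀ s, 0 < s → s * rho v₀ s ≤ Y := by
  have hC0 := h.hC0
  have hC1 := h.hC1
  obtain ⟨S, hS⟩ : ∃ S : ℝ → ℝ, S = fun a => ∫ s in (0 : ℝ)..a, rho v₀ s ^ 2 := ⟨_, rfl⟩
  have hSe : ∀ a, S a = ∫ s in (0 : ℝ)..a, rho v₀ s ^ 2 := fun a => by rw [hS]
  have hSmono : ∀ a b, 0 ≤ a → a ≤ b → S a ≤ S b := by
    intro a b ha hab
    rw [hSe, hSe]
    exact SB_mono h.d0 ha hab
  have hS0 : ∀ s, 0 ≤ s → 0 ≤ S s := by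
    intro s hs
    rw [hSe]
    exact intervalIntegral.integral_nonneg hs fun x _ => sq_nonneg _
  obtain ⟨R, hR⟩ : ∃ R : ℝ, R = rho v₁ 0 := ⟨_, rfl⟩
  have hR0 : 0 ≤ R := by rw [hR]; exact h.d1.rho_nn le_rfl
  obtain ⟨K, hK⟩ : ∃ K : ℝ, K = 8 * C₀ * C₁ * R := ⟨_, rfl⟩
  have hK0 : 0 ≤ K := by rw [hK]; positivity
  -- the bound of `zed`
  have hz : ∀ κ, 0 < κ → zed v₁ κ ≤ 4 * C₀ * κ * S (1 / κ) := by
    intro κ hκ
    have h1 := zed_le4 h.d0 h.d1 hC0 h.s0 hκ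
    rw [← hSe] at h1
    refine h1.trans (mul_le_mul_of_nonneg_left (hSmono _ _ (by positivity) ?_) (by positivity))
    exact one_div_le_one_div_of_le hκ (by linarith)
  -- the bound of `rho`
  have hrho : ∀ s, 0 < s → s * rho v₀ s ≤ K * S s := by
    intro s hs
    have hb : (0 : ℝ) ≤ 1 / s := by positivity
    have h1 := T3 h.d1 h.d0 hC1 h.s1 hs
    have hcont : Continuous fun x : ℝ => √(1 - s ^ 2 * x ^ 2) := by fun_prop
    have h2 : ∫ x in (0 : ℝ)..(1 / s), rho v₁ x * v₁ x * √(1 - s ^ 2 * x ^ 2) ≤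
        ∫ x in (0 : ℝ)..(1 / s), R * v₁ x := by
      refine intervalIntegral.integral_mono_on hb
        ((h.d1.iirv le_rfl hb).mul_continuousOn hcont.continuousOn)
        ((h.d1.ii le_rfl hb).const_mul R) fun x hx => ?_
      have h3 : rho v₁ x ≤ R := by rw [hR]; exact h.d1.rho_le hx.1
      have h4 : 0 ≤ rho v₁ x := h.d1.rho_nn hx.1
      have h5 : 0 ≤ v₁ x := h.d1.nn x
      have h6 : √(1 - s ^ 2 * x ^ 2) ≤ 1 := by
        rw [Real.sqrt_le_one]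
        nlinarith [sq_nonneg (s * x)]
      calc rho v₁ x * v₁ x * √(1 - s ^ 2 * x ^ 2) ≤ rho v₁ x * v₁ x * 1 :=
            mul_le_mul_of_nonneg_left h6 (mul_nonneg h4 h5)
        _ = rho v₁ x * v₁ x := mul_one _
        _ ≤ R * v₁ x := mul_le_mul_of_nonneg_right h3 h5
    rw [intervalIntegral.integral_const_mul] at h2
    have h3 : (∫ x in (0 : ℝ)..(1 / s), v₁ x) = zed v₁ (1 / s) := rfl
    rw [h3] at h2
    have h4 := hz (1 / s) (by positivity)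
    rw [one_div_one_div] at h4
    have h5 : rho v₀ s ≤ 2 * C₁ * (R * (4 * C₀ * (1 / s) * S s)) := by
      rw [h1]
      refine mul_le_mul_of_nonneg_left (h2.trans (mul_le_mul_of_nonneg_left h4 hR0)) (by positivity)
    have h6 : s * (2 * C₁ * (R * (4 * C₀ * (1 / s) * S s))) = K * S s := by
      rw [hK]
      field_simp
      ring
    rw [← h6]
    exact mul_le_mul_of_nonneg_left h5 hs.le
  -- smallness
  have hsm : ∃ s₀ : ℝ, 0 < s₀ ∧ ∀ s, s₀ ≤ s → K * rho v₀ s ≤ 1 / 4 := by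
    have h1 : Tendsto (fun s => K * rho v₀ s) atTop (𝓝 (K * 0)) := h.d0.rho_lim.const_mul K
    rw [mul_zero] at h1
    have h2 : ∀ᶠ s in atTop, K * rho v₀ s < 1 / 4 := h1.eventually (gt_mem_nhds (by norm_num))
    obtain ⟨a, ha⟩ := eventually_atTop.1 h2
    exact ⟨max a 1, by positivity, fun s hs => (ha s ((le_max_left _ _).trans hs)).le⟩
  obtain ⟨s₀, hs₀, hsmall⟩ := hsm
  obtain ⟨B, hB⟩ := SB_gron S (rho v₀) K s₀ hs₀ hK0 hS0 (fun s hs => h.d0.rho_nn hs.le)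
    (fun s hs => by
      have h1 := SB_step h.d0 hs.le (show s ≤ 2 * s by linarith)
      rw [← hSe, ← hSe] at h1
      have e1 : 2 * s - s = s := by ring
      rwa [e1] at h1) hrho hsmall
  have hSB : ∀ s, 0 ≤ s → S s ≤ B := by
    intro s hs
    obtain ⟨k, hk⟩ := pow_unbounded_of_one_lt (s / s₀) (by norm_num : (1 : ℝ) < 2)
    refine (hSmono s (2 ^ k * s₀) hs ?_).trans (hB k)
    rw [div_lt_iff₀ hs₀] at hk
    exact hk.le
  have hB0 : 0 ≤ B := (hS0 0 le_rfl).trans (hSB 0 le_rfl)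
  refine ⟨4 * C₀ * B + K * B + 1, by positivity, fun κ hκ => ?_, fun s hs => ?_⟩
  · have h1 := hz κ hκ
    have h2 : 4 * C₀ * κ * S (1 / κ) ≤ 4 * C₀ * κ * B :=
      mul_le_mul_of_nonneg_left (hSB _ (by positivity)) (by positivity)
    have h3 : 0 ≤ (K * B + 1) * κ := by positivity
    nlinarith
  · have h1 := hrho s hs
    have h2 : K * S s ≤ K * B := mul_le_mul_of_nonneg_left (hSB _ hs.le) hK0
    have h3 : 0 ≤ 4 * C₀ * B := by positivity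
    linarith

end Pool.Agent.R3D
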