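import Pool.Agent.R3D.B1
import Pool.Agent.R3D.B2
import Pool.Agent.R3D.B3

/-! Module R3D-TD: total derivatives.

The products `rho² · s (a + b κ² s²) √(1-κ²s²)`, `zed · rho · √(1-κ²s²)` and `(∫_0^s rho v) √(1-κ²s²)` vanish at `0` and at
`1/κ`; the identities are `∫_0^(1/κ)` of their derivatives (product rule `prod_prim`, `ker_sqrt`). -/

namespace Pool.Agent.R3D
open MeasureTheory Set Filter Topology Pool.Agent.RB75

private theorem td_uIcc {κ : ℝ} (hκ : 0 < κ) : uIcc 0 (1 / κ) = Icc 0 (1 / κ) :=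
  uIcc_of_le (by positivity)

private theorem td_nn {κ : ℝ} (hκ : 0 < κ) {s : ℝ} (hs : s ∈ Icc 0 (1 / κ)) : 0 ≤ 1 - κ ^ 2 * s ^ 2 := by
  have h1 : κ * s ≤ 1 := by
    have := mul_le_mul_of_nonneg_left hs.2 hκ.le
    rwa [mul_one_div_cancel hκ.ne'] at this
  have h2 : 0 ≤ κ * s := mul_nonneg hκ.le hs.1
  nlinarith

private theorem td_end {κ : ℝ} (hκ : 0 < κ) : √(1 - κ ^ 2 * (1 / κ) ^ 2) = 0 := by
  have : 1 - κ ^ 2 * (1 / κ) ^ 2 = 0 := by field_simp; ring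
  rw [this, Real.sqrt_zero]

private theorem td_div {y : ℝ} (_ : 0 ≤ y) : y / √y = √y := Real.div_sqrt

private theorem td_sqrt_cont (κ : ℝ) : Continuous fun s : ℝ => √(1 - κ ^ 2 * s ^ 2) := by fun_prop

private theorem td_prim_sqrt {κ : ℝ} (hκ : 0 < κ) : ∀ s ∈ Icc 0 (1 / κ),
    √(1 - κ ^ 2 * s ^ 2) = √(1 - κ ^ 2 * (0 : ℝ) ^ 2) + ∫ x in (0 : ℝ)..s, -(κ ^ 2 * x) / √(1 - κ ^ 2 * x ^ 2) := by
  intro s hs
  rw [ker_sqrt hκ hs]
  simp

private theorem td_prim_rho {v : ℝ → ℝ} (h : Dat v) {a : ℝ} : ∀ s ∈ Icc 0 a,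
    rho v s = rho v 0 + ∫ x in (0 : ℝ)..s, -(x * v x) := by
  intro s hs
  have h1 := h.rho_sub le_rfl hs.1
  rw [intervalIntegral.integral_neg]
  linarith

private theorem td_prim_zed {v : ℝ → ℝ} {a : ℝ} : ∀ s ∈ Icc 0 a, zed v s = zed v 0 + ∫ x in (0 : ℝ)..s, v x := by
  intro s _
  rw [zed_zero, zero_add, zed]

private theorem td_prim_poly (κ a b : ℝ) {c : ℝ} : ∀ s ∈ Icc 0 c,
    s * (a + b * (κ ^ 2 * s ^ 2)) = (0 : ℝ) * (a + b * (κ ^ 2 * (0 : ℝ) ^ 2)) + ∫ x in (0 : ℝ)..s, (a + 3 * b * (κ ^ 2 * x ^ 2)) := by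
  intro s _
  have h1 : ∀ x ∈ uIcc 0 s, HasDerivAt (fun x : ℝ => x * (a + b * (κ ^ 2 * x ^ 2))) (a + 3 * b * (κ ^ 2 * x ^ 2)) x := by
    intro x _
    have h2 := (hasDerivAt_id' x).mul ((((hasDerivAt_pow 2 x).const_mul (κ ^ 2)).const_mul b).const_add a)
    refine h2.congr_deriv ?_
    norm_num
    ring
  rw [intervalIntegral.integral_eq_sub_of_hasDerivAt h1 (by apply Continuous.intervalIntegrable; fun_prop)]
  ring

/-- a bounded continuous function over the kernel is integrable. -/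
theorem ii_ker {κ : ℝ} (hκ : 0 < κ) {c : ℝ → ℝ} (hc : ContinuousOn c (Icc 0 (1 / κ))) :
    IntervalIntegrable (fun s => c s / √(1 - κ ^ 2 * s ^ 2)) volume 0 (1 / κ) := by
  have h1 := (ker_int hκ).continuousOn_mul (g := c) (by rw [td_uIcc hκ]; exact hc)
  refine h1.congr_ae (Eventually.of_forall fun s => ?_)
  simp only
  rw [mul_one_div]

private theorem td_key (v : ℝ → ℝ) {κ : ℝ} (hκ : 0 < κ) {s : ℝ} (hs : s ∈ Icc 0 (1 / κ)) :
    (1 - κ ^ 2 * s ^ 2) * stpf v κ s = s ^ 2 * √(1 - κ ^ 2 * s ^ 2) * (rho v s * v s) := by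
  have h1 := td_div (td_nn hκ hs)
  rw [stpf, mul_div_assoc', mul_comm (1 - κ ^ 2 * s ^ 2), mul_div_assoc, h1]
  ring

/-- `s² rho v √(1-κ²s²)` is integrable. -/
theorem ii_stp0 {v : ℝ → ℝ} (h : Dat v) {κ : ℝ} (hκ : 0 < κ) {c : ℝ → ℝ} (hc : ContinuousOn c (Icc 0 (1 / κ))) :
    IntervalIntegrable (fun s => c s * ((1 - κ ^ 2 * s ^ 2) * stpf v κ s)) volume 0 (1 / κ) := by
  have h1 : IntervalIntegrable (fun s => (c s * s ^ 2 * √(1 - κ ^ 2 * s ^ 2)) * (rho v s * v s)) volume 0 (1 / κ) := by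
    refine (h.iirv le_rfl (by positivity)).continuousOn_mul ?_
    rw [td_uIcc hκ]
    exact (hc.mul (by fun_prop)).mul (td_sqrt_cont κ).continuousOn
  refine (intervalIntegrable_congr ?_).mp h1
  intro s hs
  have hs' : s ∈ Icc 0 (1 / κ) := by
    rw [← td_uIcc hκ]; exact uIoc_subset_uIcc hs
  simp only
  rw [td_key v hκ hs']
  ring

/-- product of `F` with the kernel `√(1-κ²s²)`: if `F 0 = 0` then the derivative of the product has integral `0`. -/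
private theorem td_total {κ : ℝ} (hκ : 0 < κ) {F f : ℝ → ℝ} (hf : IntervalIntegrable f volume 0 (1 / κ))
    (hF : ∀ s ∈ Icc 0 (1 / κ), F s = F 0 + ∫ x in (0 : ℝ)..s, f x) (h0 : F 0 = 0) :
    IntervalIntegrable (fun s => f s * √(1 - κ ^ 2 * s ^ 2) + F s * (-(κ ^ 2 * s) / √(1 - κ ^ 2 * s ^ 2))) volume 0 (1 / κ) ∧
    ∫ s in (0 : ℝ)..(1 / κ), (f s * √(1 - κ ^ 2 * s ^ 2) + F s * (-(κ ^ 2 * s) / √(1 - κ ^ 2 * s ^ 2))) = 0 := by
  have ha : (0 : ℝ) ≤ 1 / κ := by positivity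
  obtain ⟨h1, h2⟩ := prod_prim (G := fun s => √(1 - κ ^ 2 * s ^ 2)) ha hf (ker_sqrt_int hκ) hF (td_prim_sqrt hκ)
  refine ⟨h1, ?_⟩
  have h3 := h2 (1 / κ) ⟨ha, le_rfl⟩
  simp only [td_end hκ, mul_zero, h0, zero_mul, zero_add] at h3
  exact h3.symm

theorem TD1 {v : ℝ → ℝ} (h : Dat v) {κ : ℝ} (hκ : 0 < κ) (a b : ℝ) :
    ∫ s in (0 : ℝ)..(1 / κ), rho v s ^ 2 * ((a + 3 * b * (κ ^ 2 * s ^ 2)) * (1 - κ ^ 2 * s ^ 2) -
        (a + b * (κ ^ 2 * s ^ 2)) * (κ ^ 2 * s ^ 2)) / √(1 - κ ^ 2 * s ^ 2) =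
      2 * ∫ s in (0 : ℝ)..(1 / κ), (a + b * (κ ^ 2 * s ^ 2)) * ((1 - κ ^ 2 * s ^ 2) * stpf v κ s) := by
  have ha : (0 : ℝ) ≤ 1 / κ := by positivity
  have hr : IntervalIntegrable (fun x => -(x * v x)) volume 0 (1 / κ) := (h.ii1 le_rfl ha).neg
  obtain ⟨h1, h2⟩ := prod_prim ha hr hr (td_prim_rho h) (td_prim_rho h)
  have hp : IntervalIntegrable (fun x => a + 3 * b * (κ ^ 2 * x ^ 2)) volume 0 (1 / κ) := by
    apply Continuous.intervalIntegrable; fun_prop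
  obtain ⟨h3, h4⟩ := prod_prim (F := fun s => rho v s * rho v s) (G := fun s => s * (a + b * (κ ^ 2 * s ^ 2))) ha h1 hp h2
    (td_prim_poly κ a b)
  obtain ⟨h5, h6⟩ := td_total (F := fun s => rho v s * rho v s * (s * (a + b * (κ ^ 2 * s ^ 2)))) hκ h3 h4 (by simp)
  have hc : ContinuousOn (rho v) (Icc 0 (1 / κ)) := h.rho_cont.mono Icc_subset_Ici_self
  have hA : IntervalIntegrable (fun s => rho v s ^ 2 * ((a + 3 * b * (κ ^ 2 * s ^ 2)) * (1 - κ ^ 2 * s ^ 2) -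
        (a + b * (κ ^ 2 * s ^ 2)) * (κ ^ 2 * s ^ 2)) / √(1 - κ ^ 2 * s ^ 2)) volume 0 (1 / κ) :=
    ii_ker hκ ((hc.pow 2).mul (by fun_prop))
  have hB : IntervalIntegrable (fun s => (a + b * (κ ^ 2 * s ^ 2)) * ((1 - κ ^ 2 * s ^ 2) * stpf v κ s)) volume 0 (1 / κ) :=
    ii_stp0 h hκ (by fun_prop)
  rw [← intervalIntegral.integral_const_mul, ← sub_eq_zero, ← intervalIntegral.integral_sub hA (hB.const_mul 2)]
  refine Eq.trans ?_ h6
  apply intervalIntegral.integral_congr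
  intro s hs
  rw [td_uIcc hκ] at hs
  have h7 := td_div (td_nn hκ hs)
  simp only
  rw [td_key v hκ hs, sub_eq_iff_eq_add, mul_div_assoc]
  have h8 : ((a + 3 * b * (κ ^ 2 * s ^ 2)) * (1 - κ ^ 2 * s ^ 2) - (a + b * (κ ^ 2 * s ^ 2)) * (κ ^ 2 * s ^ 2)) /
      √(1 - κ ^ 2 * s ^ 2) = (a + 3 * b * (κ ^ 2 * s ^ 2)) * √(1 - κ ^ 2 * s ^ 2) -
      (a + b * (κ ^ 2 * s ^ 2)) * (κ ^ 2 * s ^ 2) / √(1 - κ ^ 2 * s ^ 2) := by
    rw [sub_div, mul_div_assoc, h7]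
  rw [h8]
  ring

theorem TD2 {v : ℝ → ℝ} (h : Dat v) {κ : ℝ} (hκ : 0 < κ) :
    IntervalIntegrable (fun s => (rho v s * v s - s * zed v s * v s) * √(1 - κ ^ 2 * s ^ 2)) volume 0 (1 / κ) ∧
    ∫ s in (0 : ℝ)..(1 / κ), (rho v s * v s - s * zed v s * v s) * √(1 - κ ^ 2 * s ^ 2) =
      ∫ s in (0 : ℝ)..(1 / κ), κ ^ 2 * s * (zed v s * rho v s) / √(1 - κ ^ 2 * s ^ 2) := by
  have ha : (0 : ℝ) ≤ 1 / κ := by positivity
  have hr : IntervalIntegrable (fun x => -(x * v x)) volume 0 (1 / κ) := (h.ii1 le_rfl ha).neg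
  have hcr : ContinuousOn (rho v) (Icc 0 (1 / κ)) := h.rho_cont.mono Icc_subset_Ici_self
  have hcz : ContinuousOn (zed v) (Icc 0 (1 / κ)) := h.zed_cont.mono Icc_subset_Ici_self
  have hA : IntervalIntegrable (fun s => (rho v s * v s - s * zed v s * v s) * √(1 - κ ^ 2 * s ^ 2)) volume 0 (1 / κ) := by
    refine IntervalIntegrable.mul_continuousOn ?_ (td_sqrt_cont κ).continuousOn
    refine (h.iirv le_rfl ha).sub ((h.ii le_rfl ha).continuousOn_mul ?_)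
    rw [td_uIcc hκ]
    exact continuousOn_id.mul hcz
  refine ⟨hA, ?_⟩
  obtain ⟨h1, h2⟩ := prod_prim ha (h.ii le_rfl ha) hr td_prim_zed (td_prim_rho h)
  obtain ⟨h5, h6⟩ := td_total (F := fun s => zed v s * rho v s) hκ h1 h2 (by simp [zed_zero])
  have hB : IntervalIntegrable (fun s => κ ^ 2 * s * (zed v s * rho v s) / √(1 - κ ^ 2 * s ^ 2)) volume 0 (1 / κ) :=
    ii_ker hκ ((by fun_prop : ContinuousOn (fun s : ℝ => κ ^ 2 * s) (Icc 0 (1 / κ))).mul (hcz.mul hcr))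
  rw [← sub_eq_zero, ← intervalIntegral.integral_sub hA hB]
  refine Eq.trans ?_ h6
  apply intervalIntegral.integral_congr
  intro s hs
  simp only
  ring

theorem TD3 {v : ℝ → ℝ} (h : Dat v) {κ : ℝ} (hκ : 0 < κ) :
    ∫ s in (0 : ℝ)..(1 / κ), rho v s * v s * √(1 - κ ^ 2 * s ^ 2) =
      ∫ s in (0 : ℝ)..(1 / κ), κ ^ 2 * s * (∫ x in (0 : ℝ)..s, rho v x * v x) / √(1 - κ ^ 2 * s ^ 2) := by
  have ha : (0 : ℝ) ≤ 1 / κ := by positivity
  have hrv := h.iirv le_rfl ha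
  obtain ⟨h5, h6⟩ := td_total (F := fun s => ∫ x in (0 : ℝ)..s, rho v x * v x) hκ hrv (by simp) (by simp)
  have hA : IntervalIntegrable (fun s => rho v s * v s * √(1 - κ ^ 2 * s ^ 2)) volume 0 (1 / κ) :=
    hrv.mul_continuousOn (td_sqrt_cont κ).continuousOn
  have hQ : ContinuousOn (fun s => ∫ x in (0 : ℝ)..s, rho v x * v x) (Icc 0 (1 / κ)) := by
    have := intervalIntegral.continuousOn_primitive_interval (μ := volume) (f := fun x => rho v x * v x) (a := 0) (b := 1 / κ)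
      ((intervalIntegrable_iff_integrableOn_Icc_of_le ha).mp hrv |> fun H => by rw [td_uIcc hκ]; exact H)
    rwa [td_uIcc hκ] at this
  have hB : IntervalIntegrable (fun s => κ ^ 2 * s * (∫ x in (0 : ℝ)..s, rho v x * v x) / √(1 - κ ^ 2 * s ^ 2)) volume 0 (1 / κ) :=
    ii_ker hκ ((by fun_prop : ContinuousOn (fun s : ℝ => κ ^ 2 * s) (Icc 0 (1 / κ))).mul hQ)
  rw [← sub_eq_zero, ← intervalIntegral.integral_sub hA hB]
  refine Eq.trans ?_ h6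
  apply intervalIntegral.integral_congr
  intro s hs
  simp only
  ring

end Pool.Agent.R3D
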