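import Pool.Agent.R3D.ZB
import Pool.Agent.R3D.T3
import Pool.Agent.R3D.IMg

/-! Module R3D-U1: comparison of `rho v₀ (1/2)` and `rho v₀ 1`.

Let `Q(y) = ∫_0^y rho v₁ · v₁`. T3: `rho v₀ 1 = 2 C₁ ∫_0^1 rho v₁ √(1-s²) ≥ C₁ Q(1/2)`.
`rho v₀ (1/2) = 2 C₁ ∫_0^2 rho v₁ √(1-s²/4) ≤ 2 C₁ Q(2)`, `Q(2) ≤ Q(1/2) + rho v₁ (1/2) zed v₁ 2`,
`zed v₁ 2 ≤ 16 zed v₁ (1/2)` (`zed_le4`, `zed_ge`) and `rho v₁ (1/2) zed v₁ (1/2) ≤ Q(1/2)` (`rho_zed_le`). -/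

namespace Pool.Agent.R3D
open MeasureTheory Set Filter Topology Pool.Agent.RB75

private theorem U1_nn {v : ℝ → ℝ} (h : Dat v) {s : ℝ} (hs : 0 ≤ s) : 0 ≤ rho v s * v s :=
  mul_nonneg (h.rho_nn hs) (h.nn s)

private theorem U1_ii {v : ℝ → ℝ} (h : Dat v) (κ : ℝ) {a b : ℝ} (ha : 0 ≤ a) (hb : 0 ≤ b) :
    IntervalIntegrable (fun s => rho v s * v s * √(1 - κ ^ 2 * s ^ 2)) volume a b :=
  (h.iirv ha hb).mul_continuousOn (by fun_prop)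

theorem U1a {C₀ C₁ : ℝ} {v₀ v₁ : ℝ → ℝ} (h : Pair3 C₀ C₁ v₀ v₁) :
    C₁ * ∫ s in (0 : ℝ)..(1 / 2), rho v₁ s * v₁ s ≤ rho v₀ 1 := by
  have hT := T3 h.d1 h.d0 h.hC1 h.s1 (κ := 1) one_pos
  rw [hT]
  have h1 : (1 / 2 : ℝ) * ∫ s in (0 : ℝ)..(1 / 2), rho v₁ s * v₁ s ≤
      ∫ s in (0 : ℝ)..(1 / 2), rho v₁ s * v₁ s * √(1 - 1 ^ 2 * s ^ 2) := by
    rw [← intervalIntegral.integral_const_mul]
    refine intervalIntegral.integral_mono_on (by norm_num)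
      ((h.d1.iirv (le_refl _) (by norm_num)).const_mul _) (U1_ii h.d1 1 (le_refl _) (by norm_num)) ?_
    intro s hs
    have h2 : (1 / 2 : ℝ) ≤ √(1 - 1 ^ 2 * s ^ 2) := by
      apply Real.le_sqrt_of_sq_le
      nlinarith [hs.1, hs.2]
    rw [mul_comm]
    exact mul_le_mul_of_nonneg_left h2 (U1_nn h.d1 hs.1)
  have h2 : ∫ s in (0 : ℝ)..(1 / 2), rho v₁ s * v₁ s * √(1 - 1 ^ 2 * s ^ 2) ≤
      ∫ s in (0 : ℝ)..(1 / 1), rho v₁ s * v₁ s * √(1 - 1 ^ 2 * s ^ 2) := by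
    refine intervalIntegral.integral_mono_interval (le_refl _) (by norm_num) (by norm_num) ?_
      (U1_ii h.d1 1 (le_refl _) (by norm_num))
    refine (ae_restrict_mem measurableSet_Ioc).mono fun s hs => ?_
    exact mul_nonneg (U1_nn h.d1 hs.1.le) (Real.sqrt_nonneg _)
  have h3 := h.hC1
  nlinarith [mul_le_mul_of_nonneg_left (h1.trans h2) h3.le]

theorem U1b {C₀ C₁ : ℝ} {v₀ v₁ : ℝ → ℝ} (h : Pair3 C₀ C₁ v₀ v₁) : rho v₀ (1 / 2) ≤ 34 * rho v₀ 1 := by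
  have hT := T3 h.d1 h.d0 h.hC1 h.s1 (κ := 1 / 2) (by norm_num)
  have hC0 := h.hC0
  have hC1 := h.hC1
  have e2 : (1 : ℝ) / (1 / 2) = 2 := by norm_num
  rw [e2] at hT
  have h1 : ∫ s in (0 : ℝ)..2, rho v₁ s * v₁ s * √(1 - (1 / 2) ^ 2 * s ^ 2) ≤
      ∫ s in (0 : ℝ)..2, rho v₁ s * v₁ s := by
    refine intervalIntegral.integral_mono_on (by norm_num)
      (U1_ii h.d1 (1 / 2) (le_refl _) (by norm_num)) (h.d1.iirv (le_refl _) (by norm_num)) ?_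
    intro s hs
    have h2 : √(1 - (1 / 2) ^ 2 * s ^ 2) ≤ 1 := by
      rw [Real.sqrt_le_left zero_le_one]
      nlinarith [sq_nonneg s]
    exact mul_le_of_le_one_right (U1_nn h.d1 hs.1) h2
  have h2 : ∫ s in (0 : ℝ)..2, rho v₁ s * v₁ s =
      (∫ s in (0 : ℝ)..(1 / 2), rho v₁ s * v₁ s) + ∫ s in (1 / 2 : ℝ)..2, rho v₁ s * v₁ s :=
    (intervalIntegral.integral_add_adjacent_intervals (h.d1.iirv (le_refl _) (by norm_num))
      (h.d1.iirv (by norm_num) (by norm_num))).symm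
  have h3 : ∫ s in (1 / 2 : ℝ)..2, rho v₁ s * v₁ s ≤ rho v₁ (1 / 2) * ∫ s in (1 / 2 : ℝ)..2, v₁ s := by
    rw [← intervalIntegral.integral_const_mul]
    refine intervalIntegral.integral_mono_on (by norm_num)
      (h.d1.iirv (by norm_num) (by norm_num)) ((h.d1.ii (by norm_num) (by norm_num)).const_mul _) ?_
    intro s hs
    exact mul_le_mul_of_nonneg_right
      (h.d1.rho_anti (by norm_num : (1 / 2 : ℝ) ∈ Ici (0 : ℝ)) (le_trans (by norm_num) hs.1 : (0 : ℝ) ≤ s) hs.1)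
      (h.d1.nn s)
  have h4 := h.d1.zed_sub (a := 1 / 2) (b := 2) (by norm_num) (by norm_num)
  have h5 : 0 ≤ zed v₁ (1 / 2) := h.d1.zed_nn (by norm_num)
  have h6 := zed_le4 h.d0 h.d1 h.hC0 h.s0 (κ := 2) (by norm_num)
  have h7 := zed_ge h.d0 h.d1 h.hC0 h.s0 (κ := 1 / 2) (by norm_num)
  have h8 := rho_zed_le h.d1 (s := 1 / 2) (by norm_num)
  have h9 : 0 ≤ rho v₁ (1 / 2) := h.d1.rho_nn (by norm_num)
  rw [e2] at h7
  have h10 : ∫ s in (0 : ℝ)..(1 / (2 * 2)), rho v₀ s ^ 2 ≤ ∫ s in (0 : ℝ)..2, rho v₀ s ^ 2 := by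
    refine intervalIntegral.integral_mono_interval (le_refl _) (by norm_num) (by norm_num) ?_ ?_
    · exact Filter.Eventually.of_forall fun s => sq_nonneg _
    · refine ContinuousOn.intervalIntegrable ?_
      rw [uIcc_of_le (by norm_num)]
      exact (h.d0.rho_cont.mono Icc_subset_Ici_self).pow 2
  have h11 : zed v₁ 2 ≤ 16 * zed v₁ (1 / 2) := by
    have := mul_le_mul_of_nonneg_left h10 (by positivity : (0 : ℝ) ≤ 8 * C₀)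
    nlinarith
  have h12 : rho v₁ (1 / 2) * ∫ s in (1 / 2 : ℝ)..2, v₁ s ≤ rho v₁ (1 / 2) * (16 * zed v₁ (1 / 2)) := by
    refine mul_le_mul_of_nonneg_left ?_ h9
    rw [← h4]
    linarith
  have h13 : ∫ s in (0 : ℝ)..2, rho v₁ s * v₁ s * √(1 - (1 / 2) ^ 2 * s ^ 2) ≤
      17 * ∫ s in (0 : ℝ)..(1 / 2), rho v₁ s * v₁ s := by
    nlinarith
  have h14 := U1a h
  have h15 := mul_le_mul_of_nonneg_left h13 hC1.le
  rw [hT]
  nlinarith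

end Pool.Agent.R3D
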