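import Pool.Agent.R3D.U1
import Pool.Agent.R3D.KG
import Pool.Agent.R3D.MU
import Pool.Agent.RB75.A5
import Pool.Agent.R3D.B2
import Pool.Agent.R3D.B3

/-! Module R3D-U2: `∫_{1/2}^1 v₀(s)/√(1-s²) ds ≤ K rho v₀ 1` with a universal `K`.

`v₀` is the integral of `2 C₁ x² rho(v₁) v₁ / √(1-s²x²)` over `(0, 1/s)`; the part `x ≤ 1/2` is bounded directly (`U2_one`, `U1a`). In the
part `x > 1/2` the order of integration is changed (`U2_sw1`), `v₁` is written as the integral given by the step from `v₀`, the order is changed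
again (`U2_sw2`), and the kernel is bounded by `KG`; then `y2_le`, `zed_ge` and `rho_zed_le`. -/

namespace Pool.Agent.R3D
open MeasureTheory Set Filter Topology Pool.Agent.RB75

private theorem U2_sqi {v : ℝ → ℝ} (hv : Dat v) {a : ℝ} (ha : 0 ≤ a) :
    IntervalIntegrable (fun y => rho v y ^ 2) volume 0 a := by
  apply ContinuousOn.intervalIntegrable
  rw [uIcc_of_le ha]
  exact (hv.rho_cont.mono fun x hx => hx.1).pow 2

private theorem U2_y2i {v : ℝ → ℝ} (hv : Dat v) {a : ℝ} (ha : 0 ≤ a) :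
    IntervalIntegrable (fun y => y ^ 2 * (rho v y * v y)) volume 0 a :=
  (hv.iirv le_rfl ha).continuousOn_mul (by fun_prop)

/-- `2 ∫_0^a y² rho v ≤ ∫_0^a rho²`. -/
theorem y2_le {v : ℝ → ℝ} (hv : Dat v) {a : ℝ} (ha : 0 ≤ a) :
    2 * ∫ y in (0 : ℝ)..a, y ^ 2 * (rho v y * v y) ≤ ∫ y in (0 : ℝ)..a, rho v y ^ 2 := by
  have hg : IntervalIntegrable (fun y => -(2 * y * (rho v y * v y))) volume 0 a :=
    ((hv.iirv le_rfl ha).continuousOn_mul (g := fun y => 2 * y) (by fun_prop)).neg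
  have h1 := prod_prim (F := fun x => x) (f := fun _ => 1) (G := fun x => rho v x ^ 2)
    (g := fun y => -(2 * y * (rho v y * v y))) ha intervalIntegrable_const hg
    (fun s _ => by simp) (fun s hs => by
      have h2 := rho_sq hv le_rfl hs.1
      rw [intervalIntegral.integral_neg, ← h2]
      ring)
  have h3 := h1.2 a ⟨ha, le_rfl⟩
  have h4 : ∫ x in (0 : ℝ)..a, (1 * rho v x ^ 2 + x * -(2 * x * (rho v x * v x))) =
      (∫ x in (0 : ℝ)..a, rho v x ^ 2) - 2 * ∫ x in (0 : ℝ)..a, x ^ 2 * (rho v x * v x) := by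
    rw [← intervalIntegral.integral_const_mul, ← intervalIntegral.integral_sub (U2_sqi hv ha)
      ((U2_y2i hv ha).const_mul 2)]
    refine intervalIntegral.integral_congr fun x _ => ?_
    ring
  have h5 : 0 ≤ a * rho v a ^ 2 := mul_nonneg ha (sq_nonneg _)
  simp only [zero_mul, zero_add] at h3
  rw [h4] at h3
  linarith

private theorem U2_sub (s x : ℝ) (hs : 0 < s) (hx : 0 < x) (h : x < 1 / s) : s ^ 2 * x ^ 2 < 1 := by
  rw [lt_div_iff₀ hs] at h
  have h1 : 0 < x * s := mul_pos hx hs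
  nlinarith

private theorem U2_one {v : ℝ → ℝ} (h : Dat v) {C : ℝ} (hC : 0 < C) {s : ℝ} (hs : s ∈ Ioo (1 / 2 : ℝ) 1) :
    ∫⁻ x in Ioo 0 (1 / s), ENNReal.ofReal (2 * C * stpf v s x) ≤
      ENNReal.ofReal (C * ∫ x in (0 : ℝ)..(1 / 2), rho v x * v x) +
      ENNReal.ofReal (2 * C * rho v (1 / 2)) * ∫⁻ x in Ioo (1 / 2) (1 / s),
        ENNReal.ofReal (x ^ 2 * v x) * ENNReal.ofReal (1 / √(1 - s ^ 2 * x ^ 2)) := by
  have hs0 : 0 < s := by linarith [hs.1]
  have hsub : Ioo 0 (1 / s) ⊆ Ioc 0 (1 / 2) ∪ Ioo (1 / 2) (1 / s) := by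
    intro x hx
    rcases le_or_gt x (1 / 2) with h1 | h1
    · exact Or.inl ⟨hx.1, h1⟩
    · exact Or.inr ⟨h1, hx.2⟩
  refine (lintegral_mono_set hsub).trans ((lintegral_union_le _ _ _).trans (add_le_add ?_ ?_))
  · have h2 : ∫⁻ x in Ioc (0 : ℝ) (1 / 2), ENNReal.ofReal (2 * C * stpf v s x) ≤
        ∫⁻ x in Ioc (0 : ℝ) (1 / 2), ENNReal.ofReal (C * (rho v x * v x)) := by
      refine setLIntegral_mono' measurableSet_Ioc fun x hx => ENNReal.ofReal_le_ofReal ?_
      have hrv : 0 ≤ rho v x * v x := mul_nonneg (h.rho_nn hx.1.le) (h.nn x)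
      have hs1 : s ^ 2 ≤ 1 := by nlinarith [hs.2]
      have hx2 : x ^ 2 ≤ 1 / 4 := by nlinarith [hx.1, hx.2]
      have h3 : (1 / 2 : ℝ) ≤ √(1 - s ^ 2 * x ^ 2) := by
        apply Real.le_sqrt_of_sq_le
        nlinarith [sq_nonneg x, sq_nonneg s]
      have h4 : stpf v s x ≤ (1 / 2) * (rho v x * v x) := by
        unfold stpf
        rw [div_le_iff₀ (by linarith)]
        have h5 : x ^ 2 * (rho v x * v x) ≤ (1 / 4) * (rho v x * v x) :=
          mul_le_mul_of_nonneg_right hx2 hrv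
        nlinarith [mul_le_mul_of_nonneg_left h3 hrv]
      nlinarith
    refine h2.trans (le_of_eq ?_)
    rw [← ofReal_integral_eq_lintegral_ofReal, intervalIntegral.integral_of_le (by norm_num),
      integral_const_mul]
    · have h3 := ((h.iirv le_rfl (by norm_num : (0 : ℝ) ≤ 1 / 2)).const_mul C)
      rw [intervalIntegrable_iff_integrableOn_Ioc_of_le (by norm_num)] at h3
      exact h3
    · refine (ae_restrict_mem measurableSet_Ioc).mono fun x hx => ?_
      exact mul_nonneg hC.le (mul_nonneg (h.rho_nn hx.1.le) (h.nn x))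
  · rw [← lintegral_const_mul' _ _ ENNReal.ofReal_ne_top]
    refine setLIntegral_mono' measurableSet_Ioo fun x hx => ?_
    have hx0 : 0 < x := by linarith [hx.1]
    have h1 : rho v x ≤ rho v (1 / 2) := h.rho_anti (by norm_num [Ici]) hx0.le hx.1.le
    have h2 : 0 ≤ rho v (1 / 2) := h.rho_nn (by norm_num)
    rw [← ENNReal.ofReal_mul (mul_nonneg (sq_nonneg x) (h.nn x)), ← ENNReal.ofReal_mul (by positivity)]
    apply ENNReal.ofReal_le_ofReal
    unfold stpf
    have h3 : 0 ≤ 1 / √(1 - s ^ 2 * x ^ 2) := by positivity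
    have h4 : 2 * C * (x ^ 2 * (rho v x * v x) / √(1 - s ^ 2 * x ^ 2)) =
        2 * C * rho v x * (x ^ 2 * v x * (1 / √(1 - s ^ 2 * x ^ 2))) := by ring
    rw [h4]
    apply mul_le_mul_of_nonneg_right
    · exact mul_le_mul_of_nonneg_left h1 (by positivity)
    · exact mul_nonneg (mul_nonneg (sq_nonneg x) (h.nn x)) h3

/-- the inner kernel integral -/
private noncomputable def U2_G (x : ℝ) : ENNReal :=
  ∫⁻ s in Ioo (1 / 2) (min 1 (1 / x)), ENNReal.ofReal (1 / (√(1 - s ^ 2) * √(1 - s ^ 2 * x ^ 2)))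

private theorem U2_kmeas : Measurable (fun p : ℝ × ℝ =>
    ENNReal.ofReal (1 / (√(1 - p.1 ^ 2) * √(1 - p.1 ^ 2 * p.2 ^ 2)))) := by
  fun_prop

private theorem U2_Gmeas : Measurable U2_G := by
  have hA : MeasurableSet {p : ℝ × ℝ | 1 / 2 < p.2 ∧ p.2 < min 1 (1 / p.1)} := by
    refine (measurableSet_lt measurable_const measurable_snd).inter
      (measurableSet_lt measurable_snd ?_)
    exact measurable_const.min (measurable_const.div measurable_fst)
  have h1 : Measurable (fun p : ℝ × ℝ => {p : ℝ × ℝ | 1 / 2 < p.2 ∧ p.2 < min 1 (1 / p.1)}.indicator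
      (fun p => ENNReal.ofReal (1 / (√(1 - p.2 ^ 2) * √(1 - p.2 ^ 2 * p.1 ^ 2)))) p) := by
    refine Measurable.indicator ?_ hA
    fun_prop
  have h2 := Measurable.lintegral_prod_right' (ν := volume) h1
  have h3 : U2_G = fun x => ∫⁻ s, {p : ℝ × ℝ | 1 / 2 < p.2 ∧ p.2 < min 1 (1 / p.1)}.indicator
      (fun p => ENNReal.ofReal (1 / (√(1 - p.2 ^ 2) * √(1 - p.2 ^ 2 * p.1 ^ 2)))) (x, s) := by
    funext x
    unfold U2_G
    rw [← lintegral_indicator measurableSet_Ioo]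
    refine lintegral_congr fun s => ?_
    by_cases hs : s ∈ Ioo (1 / 2) (min 1 (1 / x))
    · rw [indicator_of_mem hs, indicator_of_mem
        (show (x, s) ∈ {p : ℝ × ℝ | 1 / 2 < p.2 ∧ p.2 < min 1 (1 / p.1)} from ⟨hs.1, hs.2⟩)]
    · rw [indicator_of_notMem hs, indicator_of_notMem (fun h => hs ⟨h.1, h.2⟩)]
  rw [h3]
  exact h2

private theorem U2_sw1 {v : ℝ → ℝ} (hv : Dat v) :
    ∫⁻ s in Ioo (1 / 2 : ℝ) 1, (∫⁻ x in Ioo (1 / 2) (1 / s),
        ENNReal.ofReal (x ^ 2 * v x) * ENNReal.ofReal (1 / √(1 - s ^ 2 * x ^ 2))) *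
        ENNReal.ofReal (1 / √(1 - s ^ 2)) =
      ∫⁻ x in Ioo (1 / 2 : ℝ) 2, ENNReal.ofReal (x ^ 2 * v x) * U2_G x := by
  have hvm := hv.meas
  have hgm : Measurable (Function.uncurry fun s x : ℝ => ENNReal.ofReal (x ^ 2 * v x) *
      ENNReal.ofReal (1 / (√(1 - s ^ 2) * √(1 - s ^ 2 * x ^ 2)))) := by
    have h1 : Measurable (fun p : ℝ × ℝ => ENNReal.ofReal (p.2 ^ 2 * v p.2)) :=
      ((measurable_snd.pow_const 2).mul (hvm.comp measurable_snd)).ennreal_ofReal
    exact h1.mul U2_kmeas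
  have hA : MeasurableSet {p : ℝ × ℝ | (1 / 2 < p.1 ∧ p.1 < 1) ∧ (1 / 2 < p.2 ∧ p.2 < 1 / p.1)} := by
    refine ((measurableSet_lt measurable_const measurable_fst).inter
      (measurableSet_lt measurable_fst measurable_const)).inter
      ((measurableSet_lt measurable_const measurable_snd).inter
      (measurableSet_lt measurable_snd (measurable_const.div measurable_fst)))
  have h0 := A5_swap (μ := volume) hgm hA (I := Ioo (1 / 2 : ℝ) 1) (J := Ioo (1 / 2 : ℝ) 2)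
    measurableSet_Ioo measurableSet_Ioo (S := fun s => Ioo (1 / 2) (1 / s))
    (T := fun x => Ioo (1 / 2) (min 1 (1 / x))) (fun _ => measurableSet_Ioo)
    (fun _ => measurableSet_Ioo) (fun s x => Iff.rfl) (fun s x => by
      constructor
      · rintro ⟨⟨h1, h2⟩, h3, h4⟩
        have hs : 0 < s := by
          have : (1 / 2 : ℝ) < s := h1
          linarith
        have hx : 0 < x := by
          have : (1 / 2 : ℝ) < x := h3
          linarith
        have h1' : (1 / 2 : ℝ) < s := h1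
        have h4' : x < 1 / s := h4
        have h5 : x * s < 1 := (lt_div_iff₀ hs).1 h4'
        refine ⟨⟨h3, ?_⟩, h1, lt_min h2 ?_⟩
        · nlinarith
        · rw [lt_div_iff₀ hx]
          linarith [mul_comm x s]
      · rintro ⟨⟨h1, h2⟩, h3, h4⟩
        have hs : 0 < s := by linarith
        have hx : 0 < x := by linarith
        have h5 : s < 1 / x := h4.trans_le (min_le_right _ _)
        have h6 : s * x < 1 := (lt_div_iff₀ hx).1 h5
        refine ⟨⟨h3, h4.trans_le (min_le_left _ _)⟩, h1, ?_⟩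
        show x < 1 / s
        rw [lt_div_iff₀ hs]
        linarith [mul_comm x s])
  calc ∫⁻ s in Ioo (1 / 2 : ℝ) 1, (∫⁻ x in Ioo (1 / 2) (1 / s),
        ENNReal.ofReal (x ^ 2 * v x) * ENNReal.ofReal (1 / √(1 - s ^ 2 * x ^ 2))) *
        ENNReal.ofReal (1 / √(1 - s ^ 2))
      = ∫⁻ s in Ioo (1 / 2 : ℝ) 1, ∫⁻ x in Ioo (1 / 2) (1 / s), ENNReal.ofReal (x ^ 2 * v x) *
          ENNReal.ofReal (1 / (√(1 - s ^ 2) * √(1 - s ^ 2 * x ^ 2))) := by
        refine lintegral_congr fun s => ?_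
        rw [← lintegral_mul_const' _ _ ENNReal.ofReal_ne_top]
        refine lintegral_congr fun x => ?_
        rw [mul_assoc, ← ENNReal.ofReal_mul (by positivity)]
        congr 2
        rw [one_div_mul_one_div, mul_comm (√(1 - s ^ 2 * x ^ 2))]
    _ = _ := h0
    _ = ∫⁻ x in Ioo (1 / 2 : ℝ) 2, ENNReal.ofReal (x ^ 2 * v x) * U2_G x := by
        refine lintegral_congr fun x => ?_
        rw [lintegral_const_mul' _ _ ENNReal.ofReal_ne_top]
        rfl

private theorem U2_sw2 {v : ℝ → ℝ} (hv : Dat v) {C K : ℝ} (hC : 0 < C)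
    (hK : ∀ y : ℝ, 0 < y → y < 2 →
      ∫⁻ x in Ioo (1 / 2) (min 2 (1 / y)), ENNReal.ofReal (x ^ 2 / √(1 - x ^ 2 * y ^ 2)) * U2_G x ≤
      ENNReal.ofReal K) :
    ∫⁻ x in Ioo (1 / 2 : ℝ) 2, (∫⁻ y in Ioo 0 (1 / x), ENNReal.ofReal (2 * C * stpf v x y)) *
        (ENNReal.ofReal (x ^ 2) * U2_G x) ≤
      ENNReal.ofReal (2 * C * ∫ y in (0 : ℝ)..2, y ^ 2 * (rho v y * v y)) * ENNReal.ofReal K := by
  have hvm := hv.meas
  have hr : Continuous fun y => rho v (max y 0) :=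
    hv.rho_cont.comp_continuous (by fun_prop) fun y => (le_max_right y 0 : (0 : ℝ) ≤ max y 0)
  set b : ℝ → ENNReal := fun y => ENNReal.ofReal (2 * C * (y ^ 2 * (rho v (max y 0) * v y))) with hb
  have hbm : Measurable b := by
    have h1 : Measurable fun y => rho v (max y 0) * v y := hr.measurable.mul hvm
    exact ((measurable_const.mul ((measurable_id.pow_const 2).mul h1))).ennreal_ofReal
  have hgm : Measurable (Function.uncurry fun x y : ℝ =>
      b y * (ENNReal.ofReal (x ^ 2 / √(1 - x ^ 2 * y ^ 2)) * U2_G x)) := by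
    have h1 : Measurable (fun p : ℝ × ℝ => ENNReal.ofReal (p.1 ^ 2 / √(1 - p.1 ^ 2 * p.2 ^ 2))) := by
      fun_prop
    exact (hbm.comp measurable_snd).mul (h1.mul (U2_Gmeas.comp measurable_fst))
  have hA : MeasurableSet {p : ℝ × ℝ | (1 / 2 < p.1 ∧ p.1 < 2) ∧ (0 < p.2 ∧ p.2 < 1 / p.1)} := by
    refine ((measurableSet_lt measurable_const measurable_fst).inter
      (measurableSet_lt measurable_fst measurable_const)).inter
      ((measurableSet_lt measurable_const measurable_snd).inter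
      (measurableSet_lt measurable_snd (measurable_const.div measurable_fst)))
  have h0 := A5_swap (μ := volume) hgm hA (I := Ioo (1 / 2 : ℝ) 2) (J := Ioo (0 : ℝ) 2)
    measurableSet_Ioo measurableSet_Ioo (S := fun x => Ioo 0 (1 / x))
    (T := fun y => Ioo (1 / 2) (min 2 (1 / y))) (fun _ => measurableSet_Ioo)
    (fun _ => measurableSet_Ioo) (fun s x => Iff.rfl) (fun s x => by
      constructor
      · rintro ⟨⟨h1, h2⟩, h3, h4⟩
        have h1' : (1 / 2 : ℝ) < s := h1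
        have hs : 0 < s := by linarith
        have hx : 0 < x := h3
        have h4' : x < 1 / s := h4
        have h5 : x * s < 1 := (lt_div_iff₀ hs).1 h4'
        refine ⟨⟨h3, ?_⟩, h1, lt_min h2 ?_⟩
        · nlinarith
        · rw [lt_div_iff₀ hx]
          linarith [mul_comm x s]
      · rintro ⟨⟨h1, h2⟩, h3, h4⟩
        have hs : 0 < s := by linarith
        have hx : 0 < x := h1
        have h5 : s < 1 / x := h4.trans_le (min_le_right _ _)
        have h6 : s * x < 1 := (lt_div_iff₀ hx).1 h5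
        refine ⟨⟨h3, h4.trans_le (min_le_left _ _)⟩, h1, ?_⟩
        show x < 1 / s
        rw [lt_div_iff₀ hs]
        linarith [mul_comm x s])
  calc ∫⁻ x in Ioo (1 / 2 : ℝ) 2, (∫⁻ y in Ioo 0 (1 / x), ENNReal.ofReal (2 * C * stpf v x y)) *
        (ENNReal.ofReal (x ^ 2) * U2_G x)
      = ∫⁻ x in Ioo (1 / 2 : ℝ) 2, ∫⁻ y in Ioo 0 (1 / x),
          b y * (ENNReal.ofReal (x ^ 2 / √(1 - x ^ 2 * y ^ 2)) * U2_G x) := by
        refine lintegral_congr fun x => ?_
        have h1 : Measurable fun y => b y * ENNReal.ofReal (1 / √(1 - x ^ 2 * y ^ 2)) :=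
          hbm.mul (by fun_prop)
        have h2 : ∀ y ∈ Ioo 0 (1 / x), b y * ENNReal.ofReal (1 / √(1 - x ^ 2 * y ^ 2)) =
            ENNReal.ofReal (2 * C * stpf v x y) := by
          intro y hy
          have hy0 : 0 < y := hy.1
          simp only [hb, max_eq_left hy0.le]
          rw [← ENNReal.ofReal_mul' (by positivity)]
          congr 1
          unfold stpf
          ring
        have hae : AEMeasurable (fun y => ENNReal.ofReal (2 * C * stpf v x y))
            (volume.restrict (Ioo 0 (1 / x))) :=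
          h1.aemeasurable.congr ((ae_restrict_mem measurableSet_Ioo).mono h2)
        rw [← lintegral_mul_const'' _ hae]
        refine setLIntegral_congr_fun measurableSet_Ioo fun y hy => ?_
        have hy0 : 0 < y := hy.1
        simp only [hb, max_eq_left hy0.le]
        rw [← mul_assoc, ← mul_assoc, ← ENNReal.ofReal_mul' (sq_nonneg x),
          ← ENNReal.ofReal_mul' (by positivity)]
        congr 2
        unfold stpf
        ring
    _ = _ := h0
    _ ≤ ∫⁻ y in Ioo (0 : ℝ) 2, b y * ENNReal.ofReal K := by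
        refine setLIntegral_mono' measurableSet_Ioo fun y hy => ?_
        rw [lintegral_const_mul' _ _ ENNReal.ofReal_ne_top]
        exact mul_le_mul_right (hK y hy.1 hy.2) _
    _ = ENNReal.ofReal (2 * C * ∫ y in (0 : ℝ)..2, y ^ 2 * (rho v y * v y)) * ENNReal.ofReal K := by
        rw [lintegral_mul_const' _ _ ENNReal.ofReal_ne_top]
        congr 1
        have h1 : ∫⁻ y in Ioo (0 : ℝ) 2, b y =
            ∫⁻ y in Ioc (0 : ℝ) 2, ENNReal.ofReal (2 * C * (y ^ 2 * (rho v y * v y))) := by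
          rw [← restrict_Ioo_eq_restrict_Ioc]
          refine setLIntegral_congr_fun measurableSet_Ioo fun y hy => ?_
          simp only [hb, max_eq_left hy.1.le]
        rw [h1, ← ofReal_integral_eq_lintegral_ofReal,
          intervalIntegral.integral_of_le (by norm_num : (0 : ℝ) ≤ 2), integral_const_mul]
        · have h3 := (U2_y2i hv (by norm_num : (0 : ℝ) ≤ 2)).const_mul (2 * C)
          rw [intervalIntegrable_iff_integrableOn_Ioc_of_le (by norm_num)] at h3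
          exact h3
        · refine (ae_restrict_mem measurableSet_Ioc).mono fun y hy => ?_
          exact mul_nonneg (by positivity) (mul_nonneg (sq_nonneg y)
            (mul_nonneg (hv.rho_nn hy.1.le) (hv.nn y)))

private theorem U2_ker : ∫⁻ s in Ioo (1 / 2 : ℝ) 1, ENNReal.ofReal (1 / √(1 - s ^ 2)) ≤
    ENNReal.ofReal 2 := by
  have h1 := ker_int (κ := 1) one_pos
  have h2 := ker_arcsin (κ := 1) one_pos (s := 1) (by norm_num)
  simp only [one_pow, one_mul, div_one] at h1 h2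
  have h3 : ∫⁻ s in Ioo (1 / 2 : ℝ) 1, ENNReal.ofReal (1 / √(1 - s ^ 2)) ≤
      ∫⁻ s in Ioc (0 : ℝ) 1, ENNReal.ofReal (1 / √(1 - s ^ 2)) :=
    lintegral_mono_set fun x hx => ⟨by linarith [hx.1], hx.2.le⟩
  refine h3.trans ?_
  rw [← ofReal_integral_eq_lintegral_ofReal, ← intervalIntegral.integral_of_le zero_le_one, h2,
    Real.arcsin_one]
  · exact ENNReal.ofReal_le_ofReal (by linarith [Real.pi_le_four])
  · rwa [intervalIntegrable_iff_integrableOn_Ioc_of_le zero_le_one] at h1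
  · exact Eventually.of_forall fun s => by positivity

theorem U2 : ∃ K : ℝ, 0 < K ∧ ∀ (C₀ C₁ : ℝ) (v₀ v₁ : ℝ → ℝ), Pair3 C₀ C₁ v₀ v₁ →
    ∫⁻ s in Ioo (1 / 2 : ℝ) 1, ENNReal.ofReal (v₀ s / √(1 - s ^ 2)) ≤ ENNReal.ofReal (K * rho v₀ 1) := by
  obtain ⟨K, hK, hKG⟩ := KG
  refine ⟨2 + 4 * K, by positivity, fun C₀ C₁ v₀ v₁ h => ?_⟩
  have hC0 := h.hC0
  have hC1 := h.hC1
  set Q := ∫ x in (0 : ℝ)..(1 / 2), rho v₁ x * v₁ x with hQ
  have hR : 0 ≤ rho v₀ 1 := h.d0.rho_nn zero_le_one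
  have hQR : C₁ * Q ≤ rho v₀ 1 := U1a h
  have hQz : rho v₁ (1 / 2) * zed v₁ (1 / 2) ≤ Q := rho_zed_le h.d1 (by norm_num)
  have hr1 : 0 ≤ rho v₁ (1 / 2) := h.d1.rho_nn (by norm_num)
  have hz1 : 0 ≤ zed v₁ (1 / 2) := h.d1.zed_nn (by norm_num)
  -- the first step
  have hA : ∀ᵐ s ∂(volume.restrict (Ioo (1 / 2 : ℝ) 1)), ENNReal.ofReal (v₀ s / √(1 - s ^ 2)) ≤
      ENNReal.ofReal (C₁ * Q) * ENNReal.ofReal (1 / √(1 - s ^ 2)) +
      ENNReal.ofReal (2 * C₁ * rho v₁ (1 / 2)) * ((∫⁻ x in Ioo (1 / 2) (1 / s),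
        ENNReal.ofReal (x ^ 2 * v₁ x) * ENNReal.ofReal (1 / √(1 - s ^ 2 * x ^ 2))) *
        ENNReal.ofReal (1 / √(1 - s ^ 2))) := by
    have h1 : ∀ᵐ s ∂(volume.restrict (Ioo (1 / 2 : ℝ) 1)), StpAt C₁ v₁ v₀ s :=
      ae_restrict_of_ae_restrict_of_subset (fun x hx => by
        show (0 : ℝ) < x
        linarith [hx.1]) h.s1
    filter_upwards [h1, ae_restrict_mem measurableSet_Ioo] with s hs hsm
    have hs0 : 0 < s := by linarith [hsm.1]
    have h2 := (stp_iff h.d1 hC1 hs0 (h.d0.nn s)).1 hs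
    rw [WW_muv h.d1 hC1 hs0] at h2
    rw [div_eq_mul_one_div, ENNReal.ofReal_mul (h.d0.nn s), h2, ← mul_assoc, ← add_mul]
    exact mul_le_mul_left (U2_one h.d1 hC1 hsm) _
  -- the second step
  have hB : ∫⁻ x in Ioo (1 / 2 : ℝ) 2, ENNReal.ofReal (x ^ 2 * v₁ x) * U2_G x =
      ∫⁻ x in Ioo (1 / 2 : ℝ) 2, (∫⁻ y in Ioo 0 (1 / x), ENNReal.ofReal (2 * C₀ * stpf v₀ x y)) *
        (ENNReal.ofReal (x ^ 2) * U2_G x) := by
    have h1 : ∀ᵐ x ∂(volume.restrict (Ioo (1 / 2 : ℝ) 2)), StpAt C₀ v₀ v₁ x :=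
      ae_restrict_of_ae_restrict_of_subset (fun x hx => by
        show (0 : ℝ) < x
        linarith [hx.1]) h.s0
    refine lintegral_congr_ae ?_
    filter_upwards [h1, ae_restrict_mem measurableSet_Ioo] with x hx hxm
    have hx0 : 0 < x := by linarith [hxm.1]
    have h2 := (stp_iff h.d0 hC0 hx0 (h.d1.nn x)).1 hx
    rw [WW_muv h.d0 hC0 hx0] at h2
    rw [← h2, ENNReal.ofReal_mul (sq_nonneg x)]
    ring
  have hC : ENNReal.ofReal (2 * C₀ * ∫ y in (0 : ℝ)..2, y ^ 2 * (rho v₀ y * v₀ y)) ≤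
      ENNReal.ofReal (2 * zed v₁ (1 / 2)) := by
    apply ENNReal.ofReal_le_ofReal
    have h1 := y2_le h.d0 (by norm_num : (0 : ℝ) ≤ 2)
    have h2 := zed_ge h.d0 h.d1 hC0 h.s0 (by norm_num : (0 : ℝ) < 1 / 2)
    rw [show (1 : ℝ) / (1 / 2) = 2 by norm_num] at h2
    nlinarith
  calc ∫⁻ s in Ioo (1 / 2 : ℝ) 1, ENNReal.ofReal (v₀ s / √(1 - s ^ 2))
      ≤ ∫⁻ s in Ioo (1 / 2 : ℝ) 1, (ENNReal.ofReal (C₁ * Q) * ENNReal.ofReal (1 / √(1 - s ^ 2)) +
      ENNReal.ofReal (2 * C₁ * rho v₁ (1 / 2)) * ((∫⁻ x in Ioo (1 / 2) (1 / s),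
        ENNReal.ofReal (x ^ 2 * v₁ x) * ENNReal.ofReal (1 / √(1 - s ^ 2 * x ^ 2))) *
        ENNReal.ofReal (1 / √(1 - s ^ 2)))) := lintegral_mono_ae hA
    _ = ENNReal.ofReal (C₁ * Q) * (∫⁻ s in Ioo (1 / 2 : ℝ) 1, ENNReal.ofReal (1 / √(1 - s ^ 2))) +
      ENNReal.ofReal (2 * C₁ * rho v₁ (1 / 2)) *
        ∫⁻ x in Ioo (1 / 2 : ℝ) 2, ENNReal.ofReal (x ^ 2 * v₁ x) * U2_G x := by
        rw [lintegral_add_left (by fun_prop), lintegral_const_mul' _ _ ENNReal.ofReal_ne_top,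
          lintegral_const_mul' _ _ ENNReal.ofReal_ne_top, U2_sw1 h.d1]
    _ ≤ ENNReal.ofReal (C₁ * Q) * ENNReal.ofReal 2 + ENNReal.ofReal (2 * C₁ * rho v₁ (1 / 2)) *
        (ENNReal.ofReal (2 * zed v₁ (1 / 2)) * ENNReal.ofReal K) := by
        refine add_le_add (mul_le_mul_right U2_ker _) (mul_le_mul_right ?_ _)
        rw [hB]
        exact (U2_sw2 h.d0 hC0 hKG).trans (mul_le_mul_left hC _)
    _ ≤ ENNReal.ofReal (2 * rho v₀ 1) + ENNReal.ofReal (4 * K * rho v₀ 1) := by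
        rw [← ENNReal.ofReal_mul' (by norm_num), ← ENNReal.ofReal_mul (by positivity),
          ← ENNReal.ofReal_mul (by positivity)]
        refine add_le_add (ENNReal.ofReal_le_ofReal (by linarith)) (ENNReal.ofReal_le_ofReal ?_)
        have h1 : C₁ * (rho v₁ (1 / 2) * zed v₁ (1 / 2)) ≤ rho v₀ 1 :=
          (mul_le_mul_of_nonneg_left hQz hC1.le).trans hQR
        have h2 := mul_le_mul_of_nonneg_left h1 (by positivity : 0 ≤ 4 * K)
        linarith
    _ = ENNReal.ofReal ((2 + 4 * K) * rho v₀ 1) := by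
        rw [← ENNReal.ofReal_add (by positivity) (by positivity)]
        congr 1
        ring

end Pool.Agent.R3D
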