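import Pool.Agent.R3D.IT
import Pool.Agent.R3D.SB

/-! Assembly: `(1+κ³) v ≤ B` a.e. -/

namespace Pool.Agent.R3D
open MeasureTheory Set Filter Topology Pool.Agent.RB75

theorem UB {C₀ C₁ : ℝ} {v₀ v₁ : ℝ → ℝ} (h : Pair3 C₀ C₁ v₀ v₁) :
    ∃ B, 0 < B ∧ ∀ᵐ κ ∂(volume.restrict (Ioi (0 : ℝ))), (1 + κ ^ 3) * v₀ κ ≤ B := by
  obtain ⟨Y, hY, -, hY2⟩ := SB h
  obtain ⟨Z, hZ, hZ1, -⟩ := SB h.symm
  refine ⟨Z + Y, by positivity, ?_⟩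
  filter_upwards [(IT h).1, (IT h.symm).2, ae_restrict_mem measurableSet_Ioi] with κ h1 h2 hκ
  have hκ' : 0 < κ := hκ
  unfold defE at h1
  unfold defe at h2
  have h3 := hY2 κ hκ'
  have h4 := hZ1 κ hκ'
  have h5 : κ * v₀ κ ≤ κ * Z := by nlinarith
  have h6 : v₀ κ ≤ Z := le_of_mul_le_mul_left h5 hκ'
  have h7 : κ ^ 3 * v₀ κ ≤ Y := by
    calc κ ^ 3 * v₀ κ = κ * ((0 + κ ^ 2) * v₀ κ) := by ring
      _ ≤ κ * rho v₀ κ := mul_le_mul_of_nonneg_left (by linarith) hκ'.le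
      _ ≤ Y := h3
  linarith

end Pool.Agent.R3D
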