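import Pool.Agent.R3D.T2

/-! Module R3D-ZB: bounds of `zed w` by `∫ rho²`, from T2. -/

namespace Pool.Agent.R3D
open MeasureTheory Set Filter Topology Pool.Agent.RB75

private theorem ZB_rho2 {v : ℝ → ℝ} (hv : Dat v) {a b : ℝ} (ha : 0 ≤ a) (hb : 0 ≤ b) :
    IntervalIntegrable (fun s => rho v s ^ 2) volume a b := by
  refine ContinuousOn.intervalIntegrable ?_
  refine (hv.rho_cont.mono fun x hx => ?_).pow 2
  rw [mem_uIcc] at hx
  rcases hx with h | h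
  · exact ha.trans h.1
  · exact hb.trans h.1

theorem zed_ge {v w : ℝ → ℝ} (hv : Dat v) (hw : Dat w) {C : ℝ} (hC : 0 < C) (h : Stp C v w) {κ : ℝ} (hκ : 0 < κ) :
    C * κ * ∫ s in (0 : ℝ)..(1 / κ), rho v s ^ 2 ≤ zed w κ := by
  have h0 : (0 : ℝ) ≤ 1 / κ := by positivity
  rw [T2 hv hw hC h hκ]
  refine mul_le_mul_of_nonneg_left ?_ (by positivity)
  refine intervalIntegral.integral_mono_on_of_le_Ioo h0 (ZB_rho2 hv le_rfl h0) (T2_int hv hκ) ?_
  intro s hs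
  have h1 : κ * s < 1 := by
    have := mul_lt_mul_of_pos_left hs.2 hκ
    rwa [mul_one_div_cancel hκ.ne'] at this
  have h2 : 0 < κ * s := mul_pos hκ hs.1
  have h3 : 0 < 1 - κ ^ 2 * s ^ 2 := by nlinarith
  have h4 : √(1 - κ ^ 2 * s ^ 2) ≤ 1 := by
    refine Real.sqrt_le_one.2 ?_
    nlinarith [mul_self_nonneg (κ * s)]
  rw [le_div_iff₀ (Real.sqrt_pos.2 h3)]
  exact mul_le_of_le_one_right (sq_nonneg _) h4

theorem zed_le4 {v w : ℝ → ℝ} (hv : Dat v) (hw : Dat w) {C : ℝ} (hC : 0 < C) (h : Stp C v w) {κ : ℝ} (hκ : 0 < κ) :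
    zed w κ ≤ 4 * C * κ * ∫ s in (0 : ℝ)..(1 / (2 * κ)), rho v s ^ 2 := by
  have h0 : (0 : ℝ) ≤ 1 / κ := by positivity
  have hm : (0 : ℝ) ≤ 1 / (2 * κ) := by positivity
  have hm' : 1 / (2 * κ) ≤ 1 / κ := by
    rw [div_le_div_iff₀ (by positivity) hκ]
    linarith
  have hκm : κ * (1 / (2 * κ)) = 1 / 2 := by
    field_simp
  have hI := T2_int hv hκ
  have hI1 : IntervalIntegrable (fun s => rho v s ^ 2 / √(1 - κ ^ 2 * s ^ 2)) volume 0 (1 / (2 * κ)) := by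
    refine hI.mono_set ?_
    rw [uIcc_of_le h0, uIcc_of_le hm]
    exact Icc_subset_Icc_right hm'
  have hI2 : IntervalIntegrable (fun s => rho v s ^ 2 / √(1 - κ ^ 2 * s ^ 2)) volume (1 / (2 * κ)) (1 / κ) := by
    refine hI.mono_set ?_
    rw [uIcc_of_le h0, uIcc_of_le hm']
    exact Icc_subset_Icc_left hm
  have hk := ker_int hκ
  have hk1 : IntervalIntegrable (fun s => 1 / √(1 - κ ^ 2 * s ^ 2)) volume 0 (1 / (2 * κ)) := by
    refine hk.mono_set ?_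
    rw [uIcc_of_le h0, uIcc_of_le hm]
    exact Icc_subset_Icc_right hm'
  have hk2 : IntervalIntegrable (fun s => 1 / √(1 - κ ^ 2 * s ^ 2)) volume (1 / (2 * κ)) (1 / κ) := by
    refine hk.mono_set ?_
    rw [uIcc_of_le h0, uIcc_of_le hm']
    exact Icc_subset_Icc_left hm
  obtain ⟨J, hJ⟩ : ∃ J : ℝ, J = ∫ s in (0 : ℝ)..(1 / (2 * κ)), rho v s ^ 2 := ⟨_, rfl⟩
  have hJ0 : 0 ≤ J := by
    rw [hJ]
    exact intervalIntegral.integral_nonneg hm fun s _ => sq_nonneg _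
  have hpart1 : ∫ s in (0 : ℝ)..(1 / (2 * κ)), rho v s ^ 2 / √(1 - κ ^ 2 * s ^ 2) ≤ 6 / 5 * J := by
    rw [hJ, ← intervalIntegral.integral_const_mul]
    refine intervalIntegral.integral_mono_on hm hI1 ((ZB_rho2 hv le_rfl hm).const_mul _) ?_
    intro s hs
    have h1 : κ * s ≤ 1 / 2 := by
      have := mul_le_mul_of_nonneg_left hs.2 hκ.le
      rwa [hκm] at this
    have h2 : 0 ≤ κ * s := mul_nonneg hκ.le hs.1
    have h3 : 3 / 4 ≤ 1 - κ ^ 2 * s ^ 2 := by nlinarith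
    have h4 : 5 / 6 ≤ √(1 - κ ^ 2 * s ^ 2) := by
      refine Real.le_sqrt_of_sq_le ?_
      norm_num
      linarith
    rw [div_le_iff₀ (by linarith)]
    nlinarith [mul_nonneg (sq_nonneg (rho v s)) (sub_nonneg.2 h4)]
  have hker : ∫ s in (1 / (2 * κ))..(1 / κ), 1 / √(1 - κ ^ 2 * s ^ 2) = Real.pi / (3 * κ) := by
    rw [← intervalIntegral.integral_interval_sub_left hk hk1, ker_arcsin hκ ⟨h0, le_rfl⟩,
      ker_arcsin hκ ⟨hm, hm'⟩, hκm, mul_one_div_cancel hκ.ne', Real.arcsin_one]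
    have h1 : Real.arcsin (1 / 2) = Real.pi / 6 := by
      rw [← Real.sin_pi_div_six]
      exact Real.arcsin_sin (by linarith [Real.pi_pos]) (by linarith [Real.pi_pos])
    rw [h1]
    field_simp
    ring
  have hpart2 : ∫ s in (1 / (2 * κ))..(1 / κ), rho v s ^ 2 / √(1 - κ ^ 2 * s ^ 2) ≤
      rho v (1 / (2 * κ)) ^ 2 * (Real.pi / (3 * κ)) := by
    rw [← hker, ← intervalIntegral.integral_const_mul]
    refine intervalIntegral.integral_mono_on hm' hI2 (hk2.const_mul _) ?_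
    intro s hs
    have h1 : rho v s ≤ rho v (1 / (2 * κ)) := hv.rho_anti hm (hm.trans hs.1) hs.1
    have h2 : 0 ≤ rho v s := hv.rho_nn (hm.trans hs.1)
    rw [mul_one_div]
    exact div_le_div_of_nonneg_right (pow_le_pow_left₀ h2 h1 2) (Real.sqrt_nonneg _)
  have hm2 : rho v (1 / (2 * κ)) ^ 2 * (1 / (2 * κ)) ≤ J := by
    have h1 : ∫ _s in (0 : ℝ)..(1 / (2 * κ)), rho v (1 / (2 * κ)) ^ 2 ≤ J := by
      rw [hJ]
      refine intervalIntegral.integral_mono_on hm (by simp) (ZB_rho2 hv le_rfl hm) ?_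
      intro s hs
      exact pow_le_pow_left₀ (hv.rho_nn hm) (hv.rho_anti hs.1 hm hs.2) 2
    rw [intervalIntegral.integral_const, smul_eq_mul, sub_zero] at h1
    linarith
  have hfin : rho v (1 / (2 * κ)) ^ 2 * (Real.pi / (3 * κ)) ≤ 21 / 10 * J := by
    have h1 : rho v (1 / (2 * κ)) ^ 2 * (Real.pi / (3 * κ)) =
        (rho v (1 / (2 * κ)) ^ 2 * (1 / (2 * κ))) * (2 / 3 * Real.pi) := by
      field_simp
    rw [h1]
    have h2 : 2 / 3 * Real.pi ≤ 21 / 10 := by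
      have := Real.pi_lt_d2
      linarith
    have h3 := mul_le_mul hm2 h2 (by positivity) hJ0
    linarith
  rw [T2 hv hw hC h hκ, ← hJ, ← intervalIntegral.integral_add_adjacent_intervals hI1 hI2]
  have h5 : (∫ s in (0 : ℝ)..(1 / (2 * κ)), rho v s ^ 2 / √(1 - κ ^ 2 * s ^ 2)) +
      ∫ s in (1 / (2 * κ))..(1 / κ), rho v s ^ 2 / √(1 - κ ^ 2 * s ^ 2) ≤ 4 * J := by
    linarith
  have h6 := mul_le_mul_of_nonneg_left h5 (mul_pos hC hκ).le
  refine h6.trans (le_of_eq ?_)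
  ring

end Pool.Agent.R3D
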